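import Pool.Agent.Lib.MP_95cf8e_co.Defs

/-! # Calculus of `Gets` -/

set_option autoImplicit false

namespace Pool.Agent.Lib.MP_95cf8e_co

open Finset

variable {V : Type*} [DecidableEq V] {G : SimpleGraph V}

theorem Gets.of_le {c d : V → ℕ} (h : d ≤ c) : Gets G c d := ⟨c, .refl, h⟩

theorem Gets.refl (c : V → ℕ) : Gets G c c := Gets.of_le le_rfl

/-- a step persists when pebbles are added -/
theorem Step.add {a b : V → ℕ} (h : Step G a b) (e : V → ℕ) : Step G (a + e) (b + e) := by
  obtain ⟨u, v, huv, hu, rfl⟩ := h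
  refine ⟨u, v, huv, by simp only [Pi.add_apply]; omega, ?_⟩
  have hne : v ≠ u := huv.ne'
  funext x
  by_cases hxv : x = v
  · subst hxv; simp; omega
  · by_cases hxu : x = u
    · subst hxu; simp [Function.update_of_ne hxv]; omega
    · simp [Function.update_of_ne hxv, Function.update_of_ne hxu]

theorem reach_add {a b : V → ℕ} (h : Relation.ReflTransGen (Step G) a b) (e : V → ℕ) :
    Relation.ReflTransGen (Step G) (a + e) (b + e) := by
  induction h with
  | refl => exact .refl
  | tail _ h ih => exact ih.tail (h.add e)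

theorem Gets.add_right {a b : V → ℕ} (h : Gets G a b) (e : V → ℕ) : Gets G (a + e) (b + e) := by
  obtain ⟨d, h1, h2⟩ := h
  exact ⟨d + e, reach_add h1 e, add_le_add h2 le_rfl⟩

theorem Gets.trans {a b c : V → ℕ} (h : Gets G a b) (h' : Gets G b c) : Gets G a c := by
  obtain ⟨d, h1, h2⟩ := h
  obtain ⟨e, h3, h4⟩ := h'
  obtain ⟨f, rfl⟩ : ∃ f, d = b + f := ⟨d - b, (add_tsub_cancel_of_le h2).symm⟩
  exact ⟨e + f, h1.trans (reach_add h3 f), h4.trans (by intro x; simp)⟩

theorem Gets.mono {a a' b b' : V → ℕ} (h : Gets G a b) (ha : a ≤ a') (hb : b' ≤ b) :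
    Gets G a' b' := (Gets.of_le ha).trans (h.trans (Gets.of_le hb))

theorem Gets.add {a b c d : V → ℕ} (h : Gets G a b) (h' : Gets G c d) :
    Gets G (a + c) (b + d) := by
  refine (h.add_right c).trans ?_
  rw [add_comm b c, add_comm b d]
  exact h'.add_right b

theorem Gets.sum {ι : Type*} (s : Finset ι) (a b : ι → V → ℕ) (h : ∀ i ∈ s, Gets G (a i) (b i)) :
    Gets G (∑ i ∈ s, a i) (∑ i ∈ s, b i) := by
  classical
  induction s using Finset.induction_on with
  | empty => exact Gets.refl _
  | insert i s hi ih =>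
    rw [Finset.sum_insert hi, Finset.sum_insert hi]
    exact (h i (mem_insert_self _ _)).add (ih fun j hj => h j (mem_insert_of_mem hj))

/-- move `2k` pebbles along an edge -/
theorem gets_adj {u v : V} (h : G.Adj u v) (k : ℕ) :
    Gets G (Pi.single u (2 * k)) (Pi.single v k) := by
  induction k with
  | zero => simpa using Gets.refl _
  | succ k ih =>
    have h1 : Gets G (Pi.single u 2) (Pi.single v 1) := by
      refine ⟨_, .single ⟨u, v, h, by simp, rfl⟩, ?_⟩
      intro x
      by_cases hxv : x = v
      · subst hxv; simp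
      · simp [Pi.single_eq_of_ne hxv]
    have := ih.add h1
    rwa [← Pi.single_add, ← Pi.single_add, show 2 * k + 2 = 2 * (k + 1) by ring] at this

/-- move pebbles along a walk -/
theorem gets_walk {u v : V} (p : G.Walk u v) (k : ℕ) :
    Gets G (Pi.single u (2 ^ p.length * k)) (Pi.single v k) := by
  induction p with
  | nil => simpa using Gets.refl _
  | @cons a b c h p ih =>
    refine (?_ : Gets G _ (Pi.single b (2 ^ p.length * k))).trans ih
    have := gets_adj h (2 ^ p.length * k)
    rwa [show 2 * (2 ^ p.length * k) = 2 ^ (SimpleGraph.Walk.cons h p).length * k by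
      rw [SimpleGraph.Walk.length_cons]; ring] at this

/-- move pebbles along a sequence of adjacent vertices that all carry a pebble -/
theorem gets_seq (p : ℕ → V) (l : ℕ) (adj : ∀ i < l, G.Adj (p i) (p (i + 1))) :
    Gets G (Pi.single (p 0) 1 + ∑ i ∈ range (l + 1), Pi.single (p i) 1)
      (Pi.single (p l) 2) := by
  induction l with
  | zero =>
    simp only [zero_add, range_one, sum_singleton]
    rw [← Pi.single_add]
    exact Gets.refl _
  | succ l ih =>
    rw [sum_range_succ, ← add_assoc]
    refine ((ih fun i hi => adj i (by omega)).add_right _).trans ?_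
    have := (gets_adj (adj l (by omega)) 1).add_right (Pi.single (p (l + 1)) 1)
    rwa [← Pi.single_add, mul_one] at this

theorem single_le' {c : V → ℕ} {b : V} {k : ℕ} (h : k ≤ c b) : Pi.single b k ≤ c := by
  intro x
  by_cases hx : x = b
  · subst hx; simpa using h
  · rw [Pi.single_eq_of_ne hx]; exact Nat.zero_le _

theorem sum_single' [Fintype V] (b : V) (k : ℕ) : ∑ x, (Pi.single b k : V → ℕ) x = k := by
  rw [Finset.sum_eq_single_of_mem b (mem_univ _)]
  · simp
  · intro x _ hx
    rw [Pi.single_eq_of_ne hx]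

/-- the indicator of a set, as a sum of singles -/
theorem sum_singles_apply (S : Finset V) (v : V) :
    (∑ x ∈ S, (Pi.single x 1 : V → ℕ)) v = if v ∈ S then 1 else 0 := by
  rw [Finset.sum_apply]
  split_ifs with h
  · rw [Finset.sum_eq_single_of_mem v h]
    · simp
    · intro b _ hb
      rw [Pi.single_eq_of_ne hb.symm]
  · apply Finset.sum_eq_zero
    intro x hx
    rw [Pi.single_eq_of_ne]
    rintro rfl
    exact h hx

end Pool.Agent.Lib.MP_95cf8e_co
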