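import Pool.Agent.Lib.MP_95cf8e_co.Ent

/-! # Number of up-edges between two families of sets -/

set_option autoImplicit false

namespace Pool.Agent.Lib.MP_95cf8e_co

open Finset

/-- the pairs `(a, b)` with `b` obtained from `a` by adding one element -/
private def upE {α : Type*} [DecidableEq α] [Fintype α] (A B : Finset (Finset α)) :
    Finset (Finset α × Finset α) :=
  (A ×ˢ B).filter (fun p => ∃ i, i ∉ p.1 ∧ p.2 = insert i p.1)

private lemma mem_upE {α : Type*} [DecidableEq α] [Fintype α] {A B : Finset (Finset α)}
    {p : Finset α × Finset α} :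
    p ∈ upE A B ↔ (p.1 ∈ A ∧ p.2 ∈ B) ∧ ∃ i, i ∉ p.1 ∧ p.2 = insert i p.1 := by
  unfold upE
  rw [mem_filter, mem_product]

private lemma FF_nonneg (a b : ℕ) : 0 ≤ FF a b := by
  unfold FF
  have h1 : 0 ≤ ((a : ℝ) + b) * Real.logb 2 ((a : ℝ) + b) := by
    rcases Nat.eq_zero_or_pos (a + b) with h | h
    · have : (a : ℝ) + b = 0 := by exact_mod_cast h
      rw [this]; simp
    · have : (1 : ℝ) ≤ (a : ℝ) + b := by exact_mod_cast h
      exact mul_nonneg (by linarith) (Real.logb_nonneg (by norm_num) this)
  positivity

private lemma card_image_erase {α : Type*} [DecidableEq α] (i : α) (A : Finset (Finset α)) :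
    ((A.filter (fun a => i ∈ a)).image (fun a => a.erase i)).card =
      (A.filter (fun a => i ∈ a)).card := by
  refine card_image_of_injOn ?_
  intro a ha b hb hab
  have ha' : i ∈ a := (mem_filter.1 (mem_coe.1 ha)).2
  have hb' : i ∈ b := (mem_filter.1 (mem_coe.1 hb)).2
  rw [← insert_erase ha', ← insert_erase hb']
  exact congrArg (insert i) hab

private lemma cube_iso_aux {α : Type*} [DecidableEq α] [Fintype α] (s : Finset α) :
    ∀ A B : Finset (Finset α), (∀ a ∈ A, a ⊆ s) → (∀ b ∈ B, b ⊆ s) →
      ((upE A B).card : ℝ) ≤ FF A.card B.card := by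
  induction s using Finset.induction_on with
  | empty =>
    intro A B hA hB
    have h0 : upE A B = ∅ := by
      rw [Finset.eq_empty_iff_forall_notMem]
      intro p hp
      rw [mem_upE] at hp
      obtain ⟨⟨_, h2⟩, i, _, h4⟩ := hp
      have h5 := hB _ h2
      rw [h4] at h5
      have h6 := h5 (mem_insert_self i p.1)
      simp at h6
    rw [h0]
    simpa using FF_nonneg A.card B.card
  | insert i s his ih =>
    intro A B hA hB
    set A0 := A.filter (fun a => i ∉ a) with hA0
    set A1' := A.filter (fun a => i ∈ a) with hA1'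
    set A1 := A1'.image (fun a => a.erase i) with hA1
    set B0 := B.filter (fun a => i ∉ a) with hB0
    set B1' := B.filter (fun a => i ∈ a) with hB1'
    set B1 := B1'.image (fun a => a.erase i) with hB1
    have cA1 : A1.card = A1'.card := card_image_erase i A
    have cB1 : B1.card = B1'.card := card_image_erase i B
    have cA : A0.card + A1.card = A.card := by
      rw [cA1, hA0, hA1', add_comm]
      exact card_filter_add_card_filter_not (s := A) (fun a => i ∈ a)
    have cB : B0.card + B1.card = B.card := by
      rw [cB1, hB0, hB1', add_comm]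
      exact card_filter_add_card_filter_not (s := B) (fun a => i ∈ a)
    have i0 := ih A0 B0 (fun a ha => by
        have h1 := mem_filter.1 ha
        exact (subset_insert_iff_of_notMem h1.2).1 (hA a h1.1))
      (fun a ha => by
        have h1 := mem_filter.1 ha
        exact (subset_insert_iff_of_notMem h1.2).1 (hB a h1.1))
    have i1 := ih A1 B1 (fun a ha => by
        obtain ⟨b, hb, rfl⟩ := mem_image.1 ha
        have h1 := mem_filter.1 hb
        exact (subset_insert_iff).1 (hA b h1.1))
      (fun a ha => by
        obtain ⟨b, hb, rfl⟩ := mem_image.1 ha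
        have h1 := mem_filter.1 hb
        exact (subset_insert_iff).1 (hB b h1.1))
    -- the three types of edges
    have split : (upE A B).card ≤ (upE A0 B0).card + (upE A1 B1).card + min A0.card B1.card := by
      have hsub : upE A B ⊆ ((upE A B).filter (fun p => i ∉ p.2) ∪
          (upE A B).filter (fun p => i ∈ p.1)) ∪
          (upE A B).filter (fun p => i ∉ p.1 ∧ i ∈ p.2) := by
        intro p hp
        simp only [mem_union, mem_filter, hp, true_and]
        tauto
      refine (card_le_card hsub).trans ((card_union_le _ _).trans (add_le_add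
        ((card_union_le _ _).trans (add_le_add ?_ ?_)) ?_))
      · refine card_le_card ?_
        intro p hp
        rw [mem_filter, mem_upE] at hp
        obtain ⟨⟨⟨h1, h2⟩, j, h3, h4⟩, h5⟩ := hp
        rw [mem_upE]
        refine ⟨⟨mem_filter.2 ⟨h1, fun h => h5 ?_⟩, mem_filter.2 ⟨h2, h5⟩⟩, j, h3, h4⟩
        rw [h4]
        exact mem_insert_of_mem h
      · refine card_le_card_of_injOn (fun p => (p.1.erase i, p.2.erase i)) ?_ ?_
        · intro p hp
          rw [mem_coe, mem_filter, mem_upE] at hp
          obtain ⟨⟨⟨h1, h2⟩, j, h3, h4⟩, h5⟩ := hp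
          have h6 : i ∈ p.2 := by rw [h4]; exact mem_insert_of_mem h5
          have hji : j ≠ i := fun h => h3 (h ▸ h5)
          rw [mem_coe, mem_upE]
          refine ⟨⟨mem_image.2 ⟨p.1, mem_filter.2 ⟨h1, h5⟩, rfl⟩,
            mem_image.2 ⟨p.2, mem_filter.2 ⟨h2, h6⟩, rfl⟩⟩, j,
            fun h => h3 (mem_of_mem_erase h), ?_⟩
          simp only
          rw [h4, erase_insert_of_ne hji]
        · intro p hp q hq hpq
          rw [mem_coe, mem_filter, mem_upE] at hp hq
          obtain ⟨⟨⟨_, _⟩, j, _, h4⟩, h5⟩ := hp
          obtain ⟨⟨⟨_, _⟩, k, _, h4'⟩, h5'⟩ := hq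
          have h6 : i ∈ p.2 := by rw [h4]; exact mem_insert_of_mem h5
          have h6' : i ∈ q.2 := by rw [h4']; exact mem_insert_of_mem h5'
          simp only [Prod.mk.injEq] at hpq
          refine Prod.ext ?_ ?_
          · rw [← insert_erase h5, ← insert_erase h5', hpq.1]
          · rw [← insert_erase h6, ← insert_erase h6', hpq.2]
      · have hE : ∀ p ∈ (upE A B).filter (fun p => i ∉ p.1 ∧ i ∈ p.2),
            p.1 ∈ A0 ∧ p.2 ∈ B1' ∧ p.2 = insert i p.1 ∧ i ∉ p.1 := by
          intro p hp
          rw [mem_filter, mem_upE] at hp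
          obtain ⟨⟨⟨h1, h2⟩, j, h3, h4⟩, h5, h6⟩ := hp
          have hji : j = i := by
            have h7 := h6
            rw [h4, mem_insert] at h7
            rcases h7 with h | h
            · exact h.symm
            · exact absurd h h5
          rw [hji] at h4
          exact ⟨mem_filter.2 ⟨h1, h5⟩, mem_filter.2 ⟨h2, h6⟩, h4, h5⟩
        refine le_min ?_ ?_
        · refine card_le_card_of_injOn (fun p => p.1) (fun p hp => (hE p hp).1) ?_
          intro p hp q hq hpq
          have h1 := (hE p hp).2.2.1
          have h2 := (hE q hq).2.2.1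
          simp only at hpq
          exact Prod.ext hpq (by rw [h1, h2, hpq])
        · rw [cB1]
          refine card_le_card_of_injOn (fun p => p.2) (fun p hp => (hE p hp).2.1) ?_
          intro p hp q hq hpq
          obtain ⟨_, _, h1, h3⟩ := hE p hp
          obtain ⟨_, _, h2, h4⟩ := hE q hq
          simp only at hpq
          refine Prod.ext ?_ hpq
          have e1 : p.1 = p.2.erase i := by rw [h1, erase_insert h3]
          have e2 : q.1 = q.2.erase i := by rw [h2, erase_insert h4]
          rw [e1, e2, hpq]
    have hstep := FF_step A0.card B0.card A1.card B1.card (Nat.cast_nonneg _) (Nat.cast_nonneg _)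
      (Nat.cast_nonneg _) (Nat.cast_nonneg _)
    have hc : ((upE A B).card : ℝ) ≤ (upE A0 B0).card + (upE A1 B1).card +
        min (A0.card : ℝ) (B1.card : ℝ) := by
      have h := (Nat.cast_le (α := ℝ)).2 split
      push_cast at h
      exact h
    have e1 : (A.card : ℝ) = A0.card + A1.card := by rw [← cA]; push_cast; ring
    have e2 : (B.card : ℝ) = B0.card + B1.card := by rw [← cB]; push_cast; ring
    rw [e1, e2]
    linarith

/-- Induct on the ground set: split `A` and `B` according to whether `i` is in the set; up-edges in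
direction `i` go from `A₀` to `B₁` and are at most `min |A₀| |B₁|`; use `FF_step`. (For the empty
ground set there is no up-edge and `0 ≤ FF a b` for natural numbers `a`, `b`.) -/
theorem cube_iso {α : Type*} [DecidableEq α] [Fintype α] (A B : Finset (Finset α)) :
    ((((A ×ˢ B).filter (fun p => ∃ i, i ∉ p.1 ∧ p.2 = insert i p.1)).card : ℕ) : ℝ) ≤
      FF A.card B.card := by
  exact cube_iso_aux Finset.univ A B (fun a _ => subset_univ a) (fun a _ => subset_univ a)

end Pool.Agent.Lib.MP_95cf8e_co
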