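import Mathlib

/-!
# MP_95cf8e_co : pebbling number of Kneser graphs -- definitions

`K(2t+s, t)` is modelled by `KV t s` (vertices) and `KG t s` (graph).
-/

set_option autoImplicit false

namespace Pool.Agent.Lib.MP_95cf8e_co

open Finset

section General

variable {V : Type*} [DecidableEq V]

/-- One pebbling move: take two pebbles off `u`, put one on its neighbour `v`. -/
def Step (G : SimpleGraph V) (A B : V → ℕ) : Prop :=
  ∃ u v : V, G.Adj u v ∧ 2 ≤ A u ∧
    B = Function.update (Function.update A u (A u - 2)) v (A v + 1)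

/-- Pebbling moves lead from `c` to a configuration that is at least `d`. -/
def Gets (G : SimpleGraph V) (c d : V → ℕ) : Prop :=
  ∃ d' : V → ℕ, Relation.ReflTransGen (Step G) c d' ∧ d ≤ d'

/-- A template: a forest on `V` with root set `R`, edges `v — par v`, and a levelling `off`
that increases along parents; roots have level `D`. -/
structure Template (G : SimpleGraph V) (D : ℕ) where
  /-- level -/
  off : V → ℕ
  /-- parent -/
  par : V → V
  /-- roots -/
  R : Finset V
  off_root : ∀ v ∈ R, off v = D
  off_le : ∀ v, off v ≤ D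
  adj : ∀ v, v ∉ R → G.Adj v (par v)
  lt : ∀ v, v ∉ R → off v < off (par v)

/-- A schedule of `D` synchronous steps that moves the set `A` into the set `B`; at time `x`
at most `m x` vertices of the current set move. -/
def Sch (G : SimpleGraph V) (D : ℕ) (A B : Finset V) (m : ℕ → ℕ) : Prop :=
  ∃ (P : ℕ → V → V) (S : ℕ → Finset V), S 0 = A ∧ S D = B ∧
    (∀ x v, P x v = v ∨ G.Adj v (P x v)) ∧
    (∀ x < D, ∀ v ∈ S x, P x v ∈ S (x + 1)) ∧
    ∀ x < D, ((S x).filter (fun v => P x v ≠ v)).card ≤ m x

/-- the loss of a template on a set `Y` (with weight `lam` for a root) -/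
def Template.loss {G : SimpleGraph V} {D : ℕ} (T : Template G D) (Y : Finset V) (lam : ℕ) : ℕ :=
  ∑ v ∈ Y.filter (fun v => v ∉ T.R ∧ 1 ≤ T.off v), 2 ^ T.off v + lam * (T.R ∩ Y).card

end General

/-- vertices of `K(2t+s,t)` -/
abbrev KV (t s : ℕ) : Type := {x : Finset (Fin (2 * t + s)) // x.card = t}

/-- the Kneser graph `K(2t+s,t)` -/
abbrev KG (t s : ℕ) : SimpleGraph (KV t s) :=
  SimpleGraph.fromRel (fun a b : KV t s => Disjoint a.1 b.1)

/-- Johnson distance -/
abbrev jd {t s : ℕ} (a b : KV t s) : ℕ := (a.1 \ b.1).card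

/-- number of vertices -/
def nn (t s : ℕ) : ℕ := (2 * t + s).choose t

/-- degree -/
def kk (t s : ℕ) : ℕ := (t + s).choose t

/-- size of a Johnson sphere -/
def NN (t s j : ℕ) : ℕ := t.choose j * (t + s).choose j

/-- number of zeros of a configuration -/
def zz {t s : ℕ} (C : KV t s → ℕ) : ℕ := (univ.filter (fun v => C v = 0)).card

end Pool.Agent.Lib.MP_95cf8e_co
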