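import Mathlib

/-! # Entropy inequalities -/

set_option autoImplicit false

namespace Pool.Agent.Lib.MP_95cf8e_co

/-- the function `h(p) - 4 log 2 p (1 - p)` -/
noncomputable def entf (p : ℝ) : ℝ := Real.binEntropy p - 4 * Real.log 2 * (p * (1 - p))

theorem entf_symm (p : ℝ) : entf (1 - p) = entf p := by
  unfold entf
  rw [Real.binEntropy_one_sub]
  ring

theorem entf_hasDeriv {p : ℝ} (h0 : p ≠ 0) (h1 : p ≠ 1) :
    HasDerivAt entf (Real.log (1 - p) - Real.log p - 4 * Real.log 2 * (1 - 2 * p)) p := by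
  have h2 := Real.hasDerivAt_binEntropy h0 h1
  have h3 : HasDerivAt (fun p : ℝ => 4 * Real.log 2 * (p * (1 - p)))
      (4 * Real.log 2 * (1 - 2 * p)) p := by
    have h4 : HasDerivAt (fun p : ℝ => p * (1 - p)) (1 * (1 - p) + p * (-1)) p :=
      (hasDerivAt_id p).mul ((hasDerivAt_id p).const_sub 1)
    exact (h4.const_mul (4 * Real.log 2)).congr_deriv (by ring)
  exact h2.sub h3

theorem entf_hasDeriv2 {p : ℝ} (h0 : p ≠ 0) (h1 : p ≠ 1) :
    HasDerivAt (fun p : ℝ => Real.log (1 - p) - Real.log p - 4 * Real.log 2 * (1 - 2 * p))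
      (-1 / (p * (1 - p)) + 8 * Real.log 2) p := by
  have h1' : 1 - p ≠ 0 := sub_ne_zero.2 (Ne.symm h1)
  have h2 : HasDerivAt (fun p : ℝ => Real.log (1 - p)) (-1 / (1 - p)) p :=
    ((hasDerivAt_id p).const_sub 1).log h1'
  have h3 : HasDerivAt (fun p : ℝ => Real.log p) (p⁻¹) p := Real.hasDerivAt_log h0
  have h4 : HasDerivAt (fun p : ℝ => 4 * Real.log 2 * (1 - 2 * p)) (4 * Real.log 2 * (-(2 * 1))) p :=
    (((hasDerivAt_id p).const_mul 2).const_sub 1).const_mul _
  refine ((h2.sub h3).sub h4).congr_deriv ?_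
  have h6 : -1 / (p * (1 - p)) = -1 / (1 - p) - p⁻¹ := by
    rw [div_sub' h1', div_eq_div_iff (mul_ne_zero h0 h1') h1']
    field_simp
    ring
  rw [h6]
  ring

theorem entf_cont : Continuous entf := by
  unfold entf
  exact Real.binEntropy_continuous.sub (by fun_prop)

theorem log_two_pos' : 0 < Real.log 2 := Real.log_pos (by norm_num)

theorem entf_nonneg {p : ℝ} (h0 : 0 ≤ p) (h1 : p ≤ 1) : 0 ≤ entf p := by
  wlog hp : p ≤ 1 / 2 generalizing p
  · have := this (p := 1 - p) (by linarith) (by linarith) (by linarith [not_le.1 hp])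
    rwa [entf_symm] at this
  have hl := log_two_pos'
  have hl2 : (1 : ℝ) / 2 < Real.log 2 := by
    have := Real.log_two_gt_d9
    linarith
  -- the point where the second derivative vanishes
  obtain ⟨s, hs0, hs1, hs⟩ : ∃ s : ℝ, 0 < s ∧ s ≤ 1 / 2 ∧ s * (1 - s) * (8 * Real.log 2) = 1 := by
    have hd : 0 ≤ 1 - 1 / (2 * Real.log 2) := by
      rw [sub_nonneg, div_le_one (by linarith)]
      linarith
    have hsq := Real.mul_self_sqrt hd
    have hlt : √(1 - 1 / (2 * Real.log 2)) < 1 := by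
      rw [Real.sqrt_lt' one_pos]
      have : 0 < 1 / (2 * Real.log 2) := by positivity
      linarith
    refine ⟨(1 - √(1 - 1 / (2 * Real.log 2))) / 2, by linarith, ?_, ?_⟩
    · have := Real.sqrt_nonneg (1 - 1 / (2 * Real.log 2))
      linarith
    · have h3 : (1 - √(1 - 1 / (2 * Real.log 2))) / 2 * (1 - (1 - √(1 - 1 / (2 * Real.log 2))) / 2) =
          (1 - √(1 - 1 / (2 * Real.log 2)) * √(1 - 1 / (2 * Real.log 2))) / 4 := by ring
      rw [h3, hsq]
      field_simp
      ring
  have hconv : ConvexOn ℝ (Set.Icc s (1 - s)) entf := by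
    refine convexOn_of_hasDerivWithinAt2_nonneg (convex_Icc _ _) entf_cont.continuousOn
      (f' := fun p : ℝ => Real.log (1 - p) - Real.log p - 4 * Real.log 2 * (1 - 2 * p))
      (f'' := fun p : ℝ => -1 / (p * (1 - p)) + 8 * Real.log 2) ?_ ?_ ?_
    · intro x hx
      rw [interior_Icc] at hx
      exact (entf_hasDeriv (by linarith [hx.1]) (by linarith [hx.2])).hasDerivWithinAt
    · intro x hx
      rw [interior_Icc] at hx
      exact (entf_hasDeriv2 (by linarith [hx.1]) (by linarith [hx.2])).hasDerivWithinAt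
    · intro x hx
      rw [interior_Icc] at hx
      have hx1 := hx.1
      have hx2 := hx.2
      have hpos : 0 < x * (1 - x) := mul_pos (by linarith) (by linarith)
      have h4 : s * (1 - s) ≤ x * (1 - x) := by nlinarith
      have h5 : 1 / (x * (1 - x)) ≤ 8 * Real.log 2 := by
        rw [div_le_iff₀ hpos]
        nlinarith
      have h6 : -1 / (x * (1 - x)) = -(1 / (x * (1 - x))) := by ring
      show 0 ≤ -1 / (x * (1 - x)) + 8 * Real.log 2
      rw [h6]
      linarith
  have hhalf : entf (1 / 2) = 0 := by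
    unfold entf
    have : Real.binEntropy (1 / 2) = Real.log 2 := by
      rw [one_div]
      exact Real.binEntropy_two_inv
    rw [this]
    ring
  have hmid : ∀ x ∈ Set.Icc s (1 - s), 0 ≤ entf x := by
    intro x hx
    have hx' : 1 - x ∈ Set.Icc s (1 - s) := ⟨by linarith [hx.2], by linarith [hx.1]⟩
    have h7 := hconv.2 hx hx' (by norm_num : (0 : ℝ) ≤ 1 / 2) (by norm_num : (0 : ℝ) ≤ 1 / 2)
      (by norm_num)
    simp only [smul_eq_mul] at h7
    rw [show (1 : ℝ) / 2 * x + 1 / 2 * (1 - x) = 1 / 2 by ring, hhalf, entf_symm] at h7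
    linarith
  rcases le_total s p with h | h
  · exact hmid p ⟨h, by linarith⟩
  · have hconc : ConcaveOn ℝ (Set.Icc 0 s) entf := by
      refine concaveOn_of_hasDerivWithinAt2_nonpos (convex_Icc _ _) entf_cont.continuousOn
        (f' := fun p : ℝ => Real.log (1 - p) - Real.log p - 4 * Real.log 2 * (1 - 2 * p))
        (f'' := fun p : ℝ => -1 / (p * (1 - p)) + 8 * Real.log 2) ?_ ?_ ?_
      · intro x hx
        rw [interior_Icc] at hx
        exact (entf_hasDeriv hx.1.ne' (by linarith [hx.2])).hasDerivWithinAt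
      · intro x hx
        rw [interior_Icc] at hx
        exact (entf_hasDeriv2 hx.1.ne' (by linarith [hx.2])).hasDerivWithinAt
      · intro x hx
        rw [interior_Icc] at hx
        have hx1 := hx.1
        have hx2 := hx.2
        have hpos : 0 < x * (1 - x) := mul_pos hx1 (by linarith)
        have h4 : x * (1 - x) ≤ s * (1 - s) := by nlinarith
        have h5 : 8 * Real.log 2 ≤ 1 / (x * (1 - x)) := by
          rw [le_div_iff₀ hpos]
          nlinarith
        have h6 : -1 / (x * (1 - x)) = -(1 / (x * (1 - x))) := by ring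
        show -1 / (x * (1 - x)) + 8 * Real.log 2 ≤ 0
        rw [h6]
        linarith
    have h8 := hconc.min_le_of_mem_Icc (x := 0) (y := s) (z := p) ⟨le_rfl, hs0.le⟩ ⟨hs0.le, le_rfl⟩
      ⟨h0, h⟩
    have h9 : entf 0 = 0 := by simp [entf]
    have h10 := hmid s ⟨le_rfl, by linarith⟩
    rw [h9, min_eq_left h10] at h8
    exact h8

/-- `H₂(x) ≥ 4x(1-x)`, scaled.  (In nats: `h(p) ≥ 4 ln 2 · p(1-p)`.  With
`f(p) = binEntropy p - 4 log 2 p (1-p)`, `f 0 = f (1/2) = 0`, `f' (1/2) = 0`,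
`f'' = -1/(p(1-p)) + 8 log 2` changes sign once on `(0,1/2)` from `-` to `+`: `f` is convex with
minimum `0` at `1/2` on `[x*,1/2]` and concave on `[0,x*]` with nonnegative end values.) -/
theorem ent_ineq (x y : ℝ) (hx : 0 < x) (hy : 0 < y) :
    4 * x * y / (x + y) ≤
      (x + y) * Real.logb 2 (x + y) - x * Real.logb 2 x - y * Real.logb 2 y := by
  have hxy : 0 < x + y := by linarith
  have hl := log_two_pos'
  have h1 := entf_nonneg (p := x / (x + y)) (by positivity) (by
    rw [div_le_one hxy]; linarith)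
  have h2 : 1 - x / (x + y) = y / (x + y) := by
    field_simp
    ring
  have h3 : Real.binEntropy (x / (x + y)) =
      (x / (x + y)) * (Real.log (x + y) - Real.log x) +
        (y / (x + y)) * (Real.log (x + y) - Real.log y) := by
    rw [Real.binEntropy, h2, inv_div, inv_div, Real.log_div hxy.ne' hx.ne',
      Real.log_div hxy.ne' hy.ne']
  unfold entf at h1
  rw [h3, h2] at h1
  have h4 : (x + y) * Real.logb 2 (x + y) - x * Real.logb 2 x - y * Real.logb 2 y =
      (x + y) * ((x / (x + y)) * (Real.log (x + y) - Real.log x) +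
        (y / (x + y)) * (Real.log (x + y) - Real.log y)) / Real.log 2 := by
    unfold Real.logb
    field_simp
    ring
  rw [h4, le_div_iff₀ hl]
  have h5 : 4 * x * y / (x + y) * Real.log 2 =
      (x + y) * (4 * Real.log 2 * (x / (x + y) * (y / (x + y)))) := by
    field_simp
  rw [h5]
  exact mul_le_mul_of_nonneg_left (by linarith) hxy.le

/-- the function bounding the number of up-edges -/
noncomputable def FF (a b : ℝ) : ℝ :=
  (1 / 4 + 1 / 800) * ((a + b) * Real.logb 2 (a + b)) + 50 * (a * b / (a + b))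

/-- The induction step of the cube inequality.  With `x = a0+b0`, `y = a1+b1`, `p = a0/x`,
`q = a1/y`, `S = x+y`, `w = p - q`:
`FF(total) - FF0 - FF1 = c (S lg S - x lg x - y lg y) + 50 (x y / S) w²`, the first term is at least
`4 c x y / S` by `ent_ineq`, `min a0 b1 ≤ (y a0 + x b1)/S = (x y/S)(1 + w)` and
`4 c + 50 w² ≥ 1 + w` as `4c = 1 + 1/200`.  The cases `x = 0` or `y = 0` are trivial. -/
theorem FF_step (a0 b0 a1 b1 : ℝ) (ha0 : 0 ≤ a0) (hb0 : 0 ≤ b0) (ha1 : 0 ≤ a1) (hb1 : 0 ≤ b1) :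
    FF a0 b0 + FF a1 b1 + min a0 b1 ≤ FF (a0 + a1) (b0 + b1) := by
  rcases (add_nonneg ha0 hb0).eq_or_lt with hx | hx
  · have h1 : a0 = 0 := by linarith
    have h2 : b0 = 0 := by linarith
    subst h1 h2
    simp [FF, hb1]
  rcases (add_nonneg ha1 hb1).eq_or_lt with hy | hy
  · have h1 : a1 = 0 := by linarith
    have h2 : b1 = 0 := by linarith
    subst h1 h2
    simp [FF, ha0]
  have hS : 0 < (a0 + b0) + (a1 + b1) := by linarith
  have hE := ent_ineq (a0 + b0) (a1 + b1) hx hy
  have hmin : min a0 b1 * ((a0 + b0) + (a1 + b1)) ≤ (a1 + b1) * a0 + (a0 + b0) * b1 := by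
    have h1 : min a0 b1 * (a1 + b1) ≤ (a1 + b1) * a0 := by
      rw [mul_comm]
      exact mul_le_mul_of_nonneg_left (min_le_left _ _) hy.le
    have h2 : min a0 b1 * (a0 + b0) ≤ (a0 + b0) * b1 := by
      rw [mul_comm]
      exact mul_le_mul_of_nonneg_left (min_le_right _ _) hx.le
    linarith
  have hmin' : min a0 b1 ≤ ((a1 + b1) * a0 + (a0 + b0) * b1) / ((a0 + b0) + (a1 + b1)) := by
    rw [le_div_iff₀ hS]
    exact hmin
  have hT : a0 + a1 + (b0 + b1) = (a0 + b0) + (a1 + b1) := by ring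
  -- the quadratic part
  have hQ : 50 * ((a0 + a1) * (b0 + b1) / ((a0 + b0) + (a1 + b1))) - 50 * (a0 * b0 / (a0 + b0)) -
      50 * (a1 * b1 / (a1 + b1)) =
      50 * ((a0 + b0) * (a1 + b1) / ((a0 + b0) + (a1 + b1))) *
        (a0 / (a0 + b0) - a1 / (a1 + b1)) ^ 2 := by
    field_simp
    ring
  have hM : ((a1 + b1) * a0 + (a0 + b0) * b1) / ((a0 + b0) + (a1 + b1)) =
      ((a0 + b0) * (a1 + b1) / ((a0 + b0) + (a1 + b1))) *
        (1 + (a0 / (a0 + b0) - a1 / (a1 + b1))) := by
    field_simp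
    ring
  have hE' : (1 / 4 + 1 / 800) * (4 * (a0 + b0) * (a1 + b1) / ((a0 + b0) + (a1 + b1))) =
      ((a0 + b0) * (a1 + b1) / ((a0 + b0) + (a1 + b1))) * (1 + 1 / 200) := by
    ring
  have hR : 0 ≤ (a0 + b0) * (a1 + b1) / ((a0 + b0) + (a1 + b1)) := by positivity
  set R := (a0 + b0) * (a1 + b1) / ((a0 + b0) + (a1 + b1)) with hRdef
  set w := a0 / (a0 + b0) - a1 / (a1 + b1) with hw
  have hsq : R * (1 + w) ≤ R * (1 + 1 / 200) + 50 * R * w ^ 2 := by
    have : 0 ≤ R * (50 * (w - 1 / 100) ^ 2) := mul_nonneg hR (by positivity)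
    nlinarith
  have hE2 := mul_le_mul_of_nonneg_left hE (by norm_num : (0 : ℝ) ≤ 1 / 4 + 1 / 800)
  rw [hE'] at hE2
  rw [hM] at hmin'
  unfold FF
  rw [hT]
  linarith

end Pool.Agent.Lib.MP_95cf8e_co
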