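import Pool.Agent.Lib.MP_95cf8e_co.KBasic

/-! # Few vertices have half of their neighbours in a set of linear size (`s = 1`) -/

set_option autoImplicit false

namespace Pool.Agent.Lib.MP_95cf8e_co

open Finset
open scoped Classical

/-- two vertices of the odd graph have at most one common neighbour -/
theorem common_unique {t : ℕ} (ht : 1 ≤ t) {v v' w w' : KV t 1} (hv : v ≠ v')
    (h1 : (KG t 1).Adj v w) (h2 : (KG t 1).Adj v' w) (h3 : (KG t 1).Adj v w')
    (h4 : (KG t 1).Adj v' w') : w = w' := by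
  rw [kadj ht] at h1 h2 h3 h4
  have hc : t + 1 ≤ (v.1 ∪ v'.1).card := by
    by_contra hcon
    have e1 : v.1 = v.1 ∪ v'.1 := eq_of_subset_of_card_le subset_union_left (by rw [v.2]; omega)
    have e2 : v'.1 = v.1 ∪ v'.1 := eq_of_subset_of_card_le subset_union_right (by rw [v'.2]; omega)
    exact hv (Subtype.ext (e1.trans e2.symm))
  have key : ∀ u : KV t 1, Disjoint v.1 u.1 → Disjoint v'.1 u.1 → u.1 = (v.1 ∪ v'.1)ᶜ := by
    intro u hu hu'
    apply eq_of_subset_of_card_le
    · intro x hx
      rw [mem_compl, mem_union]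
      rintro (h | h)
      · exact disjoint_left.1 hu h hx
      · exact disjoint_left.1 hu' h hx
    · rw [card_compl, Fintype.card_fin, u.2]
      omega
  exact Subtype.ext ((key w h1 h2).trans (key w' h3 h4).symm)

/-- double counting of paths of length two -/
theorem codeg {t : ℕ} (ht : 1 ≤ t) (A Y : Finset (KV t 1)) :
    2 * ∑ v ∈ A, (Y.filter (fun w => (KG t 1).Adj v w)).card ≤
      2 * Y.card + A.card * (A.card - 1) := by
  set d : KV t 1 → ℕ := fun w => (A.filter (fun v => (KG t 1).Adj v w)).card with hd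
  have h1 : ∑ v ∈ A, (Y.filter (fun w => (KG t 1).Adj v w)).card = ∑ w ∈ Y, d w := by
    simp only [hd, card_filter]
    exact sum_comm
  have h2 : ∑ w ∈ Y, d w * (d w - 1) ≤ A.card * (A.card - 1) := by
    have h3 : ∀ w, d w * (d w - 1) = ((A.filter (fun v => (KG t 1).Adj v w)).offDiag).card := by
      intro w
      rw [offDiag_card, Nat.mul_sub, mul_one]
    have h4 : A.card * (A.card - 1) = (A.offDiag).card := by
      rw [offDiag_card, Nat.mul_sub, mul_one]
    rw [h4]
    simp_rw [h3]
    rw [← card_biUnion]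
    · refine card_le_card ?_
      intro p hp
      obtain ⟨w, -, hw⟩ := mem_biUnion.1 hp
      rw [mem_offDiag] at hw ⊢
      exact ⟨(mem_filter.1 hw.1).1, (mem_filter.1 hw.2.1).1, hw.2.2⟩
    · intro w _ w' _ hne
      rw [Function.onFun, disjoint_left]
      intro p hp hp'
      rw [mem_offDiag] at hp hp'
      exact hne (common_unique ht hp.2.2 (mem_filter.1 hp.1).2 (mem_filter.1 hp.2.1).2
        (mem_filter.1 hp'.1).2 (mem_filter.1 hp'.2.1).2)
  rw [h1, mul_sum]
  calc ∑ w ∈ Y, 2 * d w ≤ ∑ w ∈ Y, (2 + d w * (d w - 1)) := by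
        apply sum_le_sum
        intro w _
        rcases Nat.lt_or_ge (d w) 2 with h | h
        · omega
        · obtain ⟨e, he⟩ : ∃ e, d w = e + 2 := ⟨d w - 2, by omega⟩
          rw [he]
          have : e + 2 - 1 = e + 1 := by omega
          rw [this]
          nlinarith
    _ = 2 * Y.card + ∑ w ∈ Y, d w * (d w - 1) := by
        rw [sum_add_distrib, sum_const, smul_eq_mul]; ring
    _ ≤ _ := Nat.add_le_add_left h2 _

/-- few vertices have half of their neighbours in a set of linear size -/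
theorem few_heavy : ∃ t0 : ℕ, ∀ t : ℕ, t0 ≤ t → ∀ Y0 : Finset (KV t 1), Y0.card ≤ 29491200 * t →
    8 * (univ.filter (fun v : KV t 1 =>
      t + 1 ≤ 2 * (Y0.filter (fun w => (KG t 1).Adj v w)).card)).card ≤ t := by
  refine ⟨1000000000, ?_⟩
  intro t ht Y0 hY0
  by_contra hcon
  push Not at hcon
  set Y1 := univ.filter (fun v : KV t 1 =>
      t + 1 ≤ 2 * (Y0.filter (fun w => (KG t 1).Adj v w)).card) with hY1
  obtain ⟨A, hA, hAc⟩ := exists_subset_card_eq (s := Y1) (n := t / 8 + 1) (by omega)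
  have h1 := codeg (by omega : 1 ≤ t) A Y0
  have h2 : A.card * (t + 1) ≤ 2 * ∑ v ∈ A, (Y0.filter (fun w => (KG t 1).Adj v w)).card := by
    rw [mul_sum, ← smul_eq_mul, ← sum_const]
    apply sum_le_sum
    intro v hv
    have := hA hv
    simpa [hY1] using this
  rw [hAc] at h1 h2
  set q := t / 8 with hq
  have h3 : 8 * q ≤ t := by omega
  have h4 : t ≤ 8 * q + 7 := by omega
  have h5 : (q + 1) * (t + 1) ≤ 2 * Y0.card + (q + 1) * (q + 1 - 1) := h2.trans h1
  rw [Nat.add_sub_cancel] at h5
  have h6 : 125000000 - 1 ≤ q := by omega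
  nlinarith

end Pool.Agent.Lib.MP_95cf8e_co
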