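import Pool.Agent.Lib.MP_95cf8e_co.Calc

/-! # Moving pebbles along a template -/

set_option autoImplicit false

namespace Pool.Agent.Lib.MP_95cf8e_co

open Finset

variable {V : Type*} [DecidableEq V] {G : SimpleGraph V}

/-- a move along the template from a vertex of `Y` -/
def TMove {D : ℕ} (T : Template G D) (Y : Finset V) (c d : V → ℕ) : Prop :=
  ∃ u ∈ Y, u ∉ T.R ∧ ∃ c0 : V → ℕ, c = c0 + Pi.single u 2 ∧ d = c0 + Pi.single (T.par u) 1

theorem tmove_terminal [Fintype V] {D : ℕ} (T : Template G D) (Y : Finset V) (n : ℕ) :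
    ∀ c : V → ℕ, ∑ v, c v = n → ∃ d, Relation.ReflTransGen (TMove T Y) c d ∧
      ∀ u ∈ Y, u ∉ T.R → d u ≤ 1 := by
  induction n using Nat.strong_induction_on with
  | _ n ih =>
  intro c hc
  by_cases h : ∃ u ∈ Y, u ∉ T.R ∧ 2 ≤ c u
  · obtain ⟨u, hu1, hu2, hu3⟩ := h
    have hle : Pi.single u 2 ≤ c := single_le' hu3
    obtain ⟨c0, rfl⟩ : ∃ c0, c = c0 + Pi.single u 2 :=
      ⟨c - Pi.single u 2, (tsub_add_cancel_of_le hle).symm⟩
    have h1 : ∑ v, (c0 + Pi.single (T.par u) 1 : V → ℕ) v < n := by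
      rw [← hc]
      simp only [Pi.add_apply, sum_add_distrib, sum_single']
      omega
    obtain ⟨d, hd1, hd2⟩ := ih _ h1 _ rfl
    exact ⟨d, hd1.head ⟨u, hu1, hu2, c0, rfl, rfl⟩, hd2⟩
  · push Not at h
    exact ⟨c, .refl, fun u hu hR => by have := h u hu hR; omega⟩

theorem sum_single_mul [Fintype V] (u : V) (k : ℕ) (w : V → ℕ) :
    ∑ v, (Pi.single u k : V → ℕ) v * w v = k * w u := by
  rw [sum_eq_single_of_mem u (mem_univ _)]
  · simp
  · intro x _ hx
    rw [Pi.single_eq_of_ne hx, zero_mul]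

theorem tmove_extract [Fintype V] {D : ℕ} (T : Template G D) (Y : Finset V) {c d : V → ℕ}
    (h : Relation.ReflTransGen (TMove T Y) c d) :
    ∀ t ≤ d, ∃ E ≤ c, ∑ v, E v ≤ ∑ v, t v * 2 ^ T.off v ∧ Gets G E t := by
  induction h with
  | refl =>
    intro t ht
    refine ⟨t, ht, ?_, Gets.refl _⟩
    apply sum_le_sum
    intro v _
    exact Nat.le_mul_of_pos_right _ (by positivity)
  | @tail b d _ hbd ih =>
    obtain ⟨u, _, huR, c0, rfl, rfl⟩ := hbd
    intro t ht
    by_cases h1 : t (T.par u) ≤ c0 (T.par u)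
    · have h2 : t ≤ c0 + Pi.single u 2 := by
        intro x
        by_cases hx : x = T.par u
        · subst hx
          exact h1.trans (by simp)
        · have := ht x
          simp only [Pi.add_apply, Pi.single_eq_of_ne hx, add_zero] at this
          exact this.trans (by simp)
      exact ih t h2
    · push Not at h1
      obtain ⟨t0, rfl⟩ : ∃ t0, t = t0 + Pi.single (T.par u) 1 :=
        ⟨t - Pi.single (T.par u) 1, (tsub_add_cancel_of_le (single_le' (by omega))).symm⟩
      have h2 : t0 ≤ c0 := by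
        intro x
        have := ht x
        simpa using this
      obtain ⟨E, hE1, hE2, hE3⟩ := ih (t0 + Pi.single u 2) (add_le_add h2 le_rfl)
      refine ⟨E, hE1, hE2.trans ?_, hE3.trans ?_⟩
      · simp only [Pi.add_apply, add_mul, sum_add_distrib, sum_single_mul]
        have h3 := T.lt u huR
        have h4 : 2 ^ (T.off u + 1) ≤ 2 ^ T.off (T.par u) := Nat.pow_le_pow_right (by norm_num) h3
        rw [pow_succ] at h4
        omega
      · exact (Gets.refl t0).add (gets_adj (T.adj u huR) 1)

theorem tmove_pot [Fintype V] {D : ℕ} (T : Template G D) (Y : Finset V) {c d : V → ℕ}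
    (h : Relation.ReflTransGen (TMove T Y) c d) :
    ∑ v, c v * 2 ^ T.off v ≤ ∑ v, d v * 2 ^ T.off v := by
  induction h with
  | refl => exact le_rfl
  | tail _ hbd ih =>
    obtain ⟨u, _, huR, c0, rfl, rfl⟩ := hbd
    refine ih.trans ?_
    simp only [Pi.add_apply, add_mul, sum_add_distrib, sum_single_mul]
    have h3 := T.lt u huR
    have h4 : 2 ^ (T.off u + 1) ≤ 2 ^ T.off (T.par u) := Nat.pow_le_pow_right (by norm_num) h3
    rw [pow_succ] at h4
    omega

theorem tmove_zero {D : ℕ} (T : Template G D) (Y : Finset V) {c d : V → ℕ}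
    (h : Relation.ReflTransGen (TMove T Y) c d) (v : V) (hv : T.off v = 0) : d v ≤ c v := by
  induction h with
  | refl => exact le_rfl
  | tail _ hbd ih =>
    obtain ⟨u, _, huR, c0, rfl, rfl⟩ := hbd
    refine le_trans ?_ ih
    have hne : v ≠ T.par u := by
      rintro rfl
      have := T.lt u huR
      omega
    simp [Pi.single_eq_of_ne hne]

theorem forest [Fintype V] {D : ℕ} (T : Template G D) (Y : Finset V) (c : V → ℕ)
    (hc : ∀ v, v ∉ Y → c v = 0) :
    (∃ v, v ∉ Y ∧ ∃ E ≤ c, ∑ x, E x ≤ 2 ^ D ∧ Gets G E (Pi.single v 1)) ∨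
    ∃ d : V → ℕ,
      ∑ v, (c v - 1) ≤
        ∑ v ∈ Y.filter (fun v => v ∉ T.R ∧ 1 ≤ T.off v ∧ c v = 0), 2 ^ T.off v +
          2 ^ D * ∑ v ∈ T.R ∩ Y, d v ∧
      ∀ v ∈ T.R, ∀ q ≤ d v, ∃ E ≤ c, ∑ x, E x ≤ 2 ^ D * q ∧ Gets G E (Pi.single v q) := by
  obtain ⟨d, hd, hterm⟩ := tmove_terminal T Y _ c rfl
  by_cases hout : ∃ v, v ∉ Y ∧ d v ≠ 0
  · obtain ⟨v, hvY, hv⟩ := hout
    left
    obtain ⟨E, hE1, hE2, hE3⟩ := tmove_extract T Y hd (Pi.single v 1) (single_le' (by omega))
    refine ⟨v, hvY, E, hE1, hE2.trans ?_, hE3⟩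
    rw [sum_single_mul, one_mul]
    exact Nat.pow_le_pow_right (by norm_num) (T.off_le v)
  · push Not at hout
    right
    refine ⟨d, ?_, ?_⟩
    · have hpot := tmove_pot T Y hd
      -- pointwise comparison
      have key : ∀ v, (c v - 1) + (if v ∈ T.R then 0 else d v * 2 ^ T.off v) ≤
          c v * 2 ^ T.off v +
            (if v ∈ Y ∧ (v ∉ T.R ∧ 1 ≤ T.off v ∧ c v = 0) then 2 ^ T.off v else 0) := by
        intro v
        have hp : 1 ≤ 2 ^ T.off v := Nat.one_le_two_pow
        by_cases hR : v ∈ T.R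
        · rw [if_pos hR, add_zero]
          have : c v * 1 ≤ c v * 2 ^ T.off v := Nat.mul_le_mul_left _ hp
          omega
        · rw [if_neg hR]
          by_cases hY : v ∈ Y
          · have hd1 := hterm v hY hR
            rcases Nat.eq_zero_or_pos (T.off v) with h0 | h0
            · have := tmove_zero T Y hd v h0
              rw [h0]
              simp only [pow_zero, mul_one]
              omega
            · rcases Nat.eq_zero_or_pos (c v) with h1 | h1
              · rw [if_pos ⟨hY, hR, h0, h1⟩, h1]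
                have : d v * 2 ^ T.off v ≤ 1 * 2 ^ T.off v := Nat.mul_le_mul_right _ hd1
                omega
              · obtain ⟨e, he⟩ : ∃ e, c v = e + 1 := ⟨c v - 1, by omega⟩
                rw [he, add_mul, one_mul, Nat.add_sub_cancel]
                have h2 : d v * 2 ^ T.off v ≤ 1 * 2 ^ T.off v := Nat.mul_le_mul_right _ hd1
                have h3 : e * 1 ≤ e * 2 ^ T.off v := Nat.mul_le_mul_left _ hp
                omega
          · rw [hc v hY, hout v hY]
            simp
      have h1 := sum_le_sum (fun v (_ : v ∈ (univ : Finset V)) => key v)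
      rw [sum_add_distrib, sum_add_distrib] at h1
      have h2 : ∑ v, d v * 2 ^ T.off v = ∑ v, (if v ∈ T.R then 0 else d v * 2 ^ T.off v) +
          2 ^ D * ∑ v ∈ T.R ∩ Y, d v := by
        have h3 : 2 ^ D * ∑ v ∈ T.R ∩ Y, d v = ∑ v, (if v ∈ T.R then d v * 2 ^ T.off v else 0) := by
          rw [← sum_filter, mul_sum]
          have h4 : T.R ∩ Y ⊆ univ.filter (fun v => v ∈ T.R) := by
            intro v hv
            simp only [mem_filter, mem_univ, true_and]
            exact (mem_inter.1 hv).1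
          rw [← sum_subset h4]
          · apply sum_congr rfl
            intro v hv
            rw [T.off_root v (mem_inter.1 hv).1, mul_comm]
          · intro v hv hv'
            simp only [mem_filter, mem_univ, true_and] at hv
            rw [mem_inter] at hv'
            rw [hout v (fun h => hv' ⟨hv, h⟩), zero_mul]
        rw [h3, ← sum_add_distrib]
        apply sum_congr rfl
        intro v _
        split_ifs <;> simp
      have h5 : ∑ v, (if v ∈ Y ∧ (v ∉ T.R ∧ 1 ≤ T.off v ∧ c v = 0) then 2 ^ T.off v else 0) =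
          ∑ v ∈ Y.filter (fun v => v ∉ T.R ∧ 1 ≤ T.off v ∧ c v = 0), 2 ^ T.off v := by
        rw [← sum_filter]
        apply sum_congr _ fun _ _ => rfl
        ext v
        simp only [mem_filter, mem_univ, true_and]
      rw [h5] at h1
      omega
    · intro v hv q hq
      obtain ⟨E, hE1, hE2, hE3⟩ := tmove_extract T Y hd (Pi.single v q) (single_le' hq)
      refine ⟨E, hE1, hE2.trans ?_, hE3⟩
      rw [sum_single_mul, T.off_root v hv, mul_comm]

theorem level_down [Fintype V] (A B : Finset V) (par : V → V)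
    (hpar : ∀ v ∈ A, par v ∈ B ∧ G.Adj v (par v)) (c : V → ℕ) (hc : ∀ v, v ∉ A → c v = 0) :
    ∃ c' : V → ℕ, (∀ v, v ∉ B → c' v = 0) ∧ Gets G c c' ∧ ∑ v, c v ≤ 2 * ∑ v, c' v + A.card := by
  refine ⟨∑ v ∈ A, Pi.single (par v) (c v / 2), ?_, ?_, ?_⟩
  · intro v hv
    rw [Finset.sum_apply]
    apply sum_eq_zero
    intro x hx
    rw [Pi.single_eq_of_ne]
    rintro rfl
    exact hv (hpar x hx).1
  · have h1 := Gets.sum (G := G) A (fun v => Pi.single v (2 * (c v / 2)))
      (fun v => Pi.single (par v) (c v / 2)) (fun v hv => gets_adj (hpar v hv).2 _)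
    refine h1.mono ?_ le_rfl
    intro v
    rw [Finset.sum_apply]
    by_cases hv : v ∈ A
    · rw [sum_eq_single_of_mem v hv]
      · rw [Pi.single_eq_same]
        exact Nat.mul_div_le _ _
      · intro b _ hb
        rw [Pi.single_eq_of_ne hb.symm]
    · rw [sum_eq_zero]
      · exact Nat.zero_le _
      · intro x hx
        rw [Pi.single_eq_of_ne]
        rintro rfl
        exact hv hx
  · have h1 : ∑ v, (∑ x ∈ A, (Pi.single (par x) (c x / 2) : V → ℕ)) v = ∑ x ∈ A, c x / 2 := by
      simp only [Finset.sum_apply]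
      rw [sum_comm]
      apply sum_congr rfl
      intro x _
      rw [sum_single']
    rw [h1]
    have h2 : ∑ v, c v = ∑ v ∈ A, c v := by
      symm
      apply sum_subset (subset_univ _)
      intro v _ hv
      exact hc v hv
    rw [h2, mul_sum, card_eq_sum_ones, ← sum_add_distrib]
    apply sum_le_sum
    intro v _
    omega

theorem tree_gets [Fintype V] (h : ℕ) (hh : 1 ≤ h) (T : ℕ → Finset V) (par : ℕ → V → V) (r : V)
    (hT0 : T 0 = {r})
    (hpar : ∀ j < h, ∀ v ∈ T (j + 1), par j v ∈ T j ∧ G.Adj v (par j v))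
    (L : Finset V) (hL : L ⊆ T h)
    (hsum : ∑ j ∈ Ico 1 h, 2 ^ (h - 1 - j) * (T j).card < L.card) :
    Gets G (∑ v ∈ L, Pi.single v 2) (Pi.single r 1) := by
  have key : ∀ j, j ≤ h → ∀ c : V → ℕ, (∀ v, v ∉ T j → c v = 0) →
      ∑ i ∈ Ico 1 (j + 1), 2 ^ (j - i) * (T i).card < ∑ v, c v → Gets G c (Pi.single r 1) := by
    intro j
    induction j with
    | zero =>
      intro _ c hc hs
      apply Gets.of_le
      apply single_le'
      simp only [zero_add, Ico_self, sum_empty] at hs
      rw [sum_eq_single_of_mem r (mem_univ _)] at hs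
      · exact hs
      · intro v _ hv
        apply hc
        rw [hT0, mem_singleton]
        exact hv
    | succ j ih =>
      intro hj c hc hs
      obtain ⟨c', hc'1, hc'2, hc'3⟩ := level_down (G := G) (T (j + 1)) (T j) (par j)
        (hpar j (by omega)) c hc
      refine hc'2.trans (ih (by omega) c' hc'1 ?_)
      rw [sum_Ico_succ_top (by omega), Nat.sub_self, pow_zero, one_mul] at hs
      have h1 : ∑ i ∈ Ico 1 (j + 1), 2 ^ (j + 1 - i) * (T i).card =
          2 * ∑ i ∈ Ico 1 (j + 1), 2 ^ (j - i) * (T i).card := by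
        rw [mul_sum]
        apply sum_congr rfl
        intro i hi
        rw [mem_Ico] at hi
        rw [show j + 1 - i = (j - i) + 1 by omega, pow_succ]
        ring
      rw [h1] at hs
      omega
  have h1 := Gets.sum (G := G) L (fun v => Pi.single v 2) (fun v => Pi.single (par (h - 1) v) 1)
    (fun v hv => gets_adj ((hpar (h - 1) (by omega) v (by
      rw [Nat.sub_add_cancel hh]; exact hL hv)).2) 1)
  refine h1.trans (key (h - 1) (by omega) _ ?_ ?_)
  · intro v hv
    rw [Finset.sum_apply]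
    apply sum_eq_zero
    intro x hx
    rw [Pi.single_eq_of_ne]
    rintro rfl
    exact hv (hpar (h - 1) (by omega) x (by rw [Nat.sub_add_cancel hh]; exact hL hx)).1
  · rw [Nat.sub_add_cancel hh]
    refine hsum.trans_le ?_
    simp only [Finset.sum_apply]
    rw [sum_comm, card_eq_sum_ones]
    apply sum_le_sum
    intro x _
    rw [sum_single']

end Pool.Agent.Lib.MP_95cf8e_co
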