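import Pool.Agent.Lib.MP_95cf8e_co.Defs

/-! # Numerics for `s ≥ √t` -/

set_option autoImplicit false

namespace Pool.Agent.Lib.MP_95cf8e_co

theorem nl_step (t s j : ℕ) (hj : j < t) :
    (j + 1) * (j + 1) * NN t s (j + 1) = (t - j) * (t + s - j) * NN t s j := by
  unfold NN
  have h1 := Nat.choose_succ_right_eq t j
  have h2 := Nat.choose_succ_right_eq (t + s) j
  calc (j + 1) * (j + 1) * (t.choose (j + 1) * (t + s).choose (j + 1)) =
      (t.choose (j + 1) * (j + 1)) * ((t + s).choose (j + 1) * (j + 1)) := by ring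
    _ = (t.choose j * (t - j)) * ((t + s).choose j * (t + s - j)) := by rw [h1, h2]
    _ = _ := by ring

theorem nl_nn (t s : ℕ) : nn t s = ∑ j ∈ Finset.range (t + 1), NN t s j := by
  unfold nn NN
  have h : 2 * t + s = t + (t + s) := by ring
  rw [h, Nat.add_choose_eq, Finset.Nat.sum_antidiagonal_eq_sum_range_succ_mk,
    ← Finset.sum_range_reflect]
  apply Finset.sum_congr rfl
  intro j hj
  rw [Finset.mem_range] at hj
  have h1 : t + 1 - 1 - j = t - j := by omega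
  have h2 : t - (t - j) = j := by omega
  simp only [h1, h2]
  rw [Nat.choose_symm (by omega : j ≤ t)]

theorem nl_up (t s J : ℕ) (hJ : 2 * J ≤ t) : ∀ j ≤ J, NN t s j ≤ NN t s J := by
  intro j hj
  obtain ⟨k, rfl⟩ := Nat.exists_eq_add_of_le hj
  induction k with
  | zero => simp
  | succ k ih =>
    refine (ih (by omega) (by omega)).trans ?_
    have h := nl_step t s (j + k) (by omega)
    have h1 : (j + k + 1) * (j + k + 1) ≤ (t - (j + k)) * (t + s - (j + k)) :=
      Nat.mul_le_mul (by omega) (by omega)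
    have h2 : (j + k + 1) * (j + k + 1) * NN t s (j + k) ≤
        (j + k + 1) * (j + k + 1) * NN t s (j + k + 1) := by
      rw [h]
      exact Nat.mul_le_mul_right _ h1
    exact Nat.le_of_mul_le_mul_left h2 (by positivity)

theorem nl_mid (t s J : ℕ) (hs : 64 * s ≤ t) (hJ : t ≤ 2 * J + 1 + 4 * s) :
    ∀ k, J + k ≤ t → 3 ^ k * NN t s (J + k) ≤ 4 ^ k * NN t s J := by
  intro k
  induction k with
  | zero => simp
  | succ k ih =>
    intro hk
    have ih := ih (by omega)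
    have h := nl_step t s (J + k) (by omega)
    have h1 : 3 * ((t - (J + k)) * (t + s - (J + k))) ≤ 4 * ((J + k + 1) * (J + k + 1)) := by
      obtain ⟨a, ha⟩ := Nat.exists_eq_add_of_le (show J + k ≤ t by omega)
      have e1 : t - (J + k) = a := by omega
      have e2 : t + s - (J + k) = a + s := by omega
      rw [e1, e2]
      -- x = (t+1)/2
      have h2 : 2 * a ≤ t + 1 + 4 * s := by omega
      have h3 : t + 1 ≤ 2 * (J + k + 1) + 4 * s := by omega
      have h4 : 32 * a ≤ 17 * (t + 1) := by omega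
      have h5 : 64 * (a + s) ≤ 35 * (t + 1) := by omega
      have h6 : 15 * (t + 1) ≤ 32 * (J + k + 1) := by omega
      have h7 : (32 * a) * (64 * (a + s)) ≤ (17 * (t + 1)) * (35 * (t + 1)) := Nat.mul_le_mul h4 h5
      have h8 : (15 * (t + 1)) * (15 * (t + 1)) ≤ (32 * (J + k + 1)) * (32 * (J + k + 1)) :=
        Nat.mul_le_mul h6 h6
      nlinarith
    have h9 : (J + k + 1) * (J + k + 1) * (3 * NN t s (J + k + 1)) ≤
        (J + k + 1) * (J + k + 1) * (4 * NN t s (J + k)) := by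
      calc (J + k + 1) * (J + k + 1) * (3 * NN t s (J + k + 1)) =
          3 * ((J + k + 1) * (J + k + 1) * NN t s (J + k + 1)) := by ring
        _ = (3 * ((t - (J + k)) * (t + s - (J + k)))) * NN t s (J + k) := by rw [h]; ring
        _ ≤ (4 * ((J + k + 1) * (J + k + 1))) * NN t s (J + k) := Nat.mul_le_mul_right _ h1
        _ = _ := by ring
    have h10 : 3 * NN t s (J + k + 1) ≤ 4 * NN t s (J + k) :=
      Nat.le_of_mul_le_mul_left h9 (by positivity)
    calc 3 ^ (k + 1) * NN t s (J + (k + 1)) = 3 ^ k * (3 * NN t s (J + k + 1)) := by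
          rw [pow_succ]; ring_nf
      _ ≤ 3 ^ k * (4 * NN t s (J + k)) := Nat.mul_le_mul_left _ h10
      _ = 4 * (3 ^ k * NN t s (J + k)) := by ring
      _ ≤ 4 * (4 ^ k * NN t s J) := Nat.mul_le_mul_left _ ih
      _ = _ := by rw [pow_succ]; ring

theorem nl_down (t s J : ℕ) (hJ : 2 * t + s ≤ 4 * J + 2) :
    ∀ k, J + k ≤ t → NN t s (J + k) ≤ NN t s J := by
  intro k
  induction k with
  | zero => simp
  | succ k ih =>
    intro hk
    refine le_trans ?_ (ih (by omega))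
    have h := nl_step t s (J + k) (by omega)
    have h1 : (t - (J + k)) * (t + s - (J + k)) ≤ (J + k + 1) * (J + k + 1) := by
      obtain ⟨a, ha⟩ := Nat.exists_eq_add_of_le (show J + k ≤ t by omega)
      have e1 : t - (J + k) = a := by omega
      have e2 : t + s - (J + k) = a + s := by omega
      rw [e1, e2]
      have h2 : 2 * a + s ≤ 2 * (J + k + 1) := by omega
      have h3 : 4 * (a * (a + s)) ≤ (2 * a + s) * (2 * a + s) := by
        ring_nf
        nlinarith [Nat.zero_le (s ^ 2)]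
      have h4 : (2 * a + s) * (2 * a + s) ≤ (2 * (J + k + 1)) * (2 * (J + k + 1)) :=
        Nat.mul_le_mul h2 h2
      nlinarith
    have h2 : (J + k + 1) * (J + k + 1) * NN t s (J + k + 1) ≤
        (J + k + 1) * (J + k + 1) * NN t s (J + k) := by
      rw [h]
      exact Nat.mul_le_mul_right _ h1
    exact Nat.le_of_mul_le_mul_left h2 (by positivity)

theorem nl_pow (s : ℕ) : (4 : ℕ) ^ (2 * s + s / 4 + 2) ≤ 3 ^ (2 * s + s / 4 + 2) * (4 * 2 ^ s) := by
  obtain ⟨a, b, hb, rfl⟩ : ∃ a b, b < 4 ∧ s = 4 * a + b := ⟨s / 4, s % 4, Nat.mod_lt _ (by norm_num), by omega⟩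
  have h1 : (4 * a + b) / 4 = a := by omega
  rw [h1]
  have h2 : 2 * (4 * a + b) + a + 2 = 9 * a + (2 * b + 2) := by ring
  rw [h2]
  have h3 : ((4 : ℕ) ^ 9) ^ a ≤ (3 ^ 9) ^ a * (2 ^ 4) ^ a := by
    rw [← mul_pow]
    exact Nat.pow_le_pow_left (by norm_num) a
  have h4 : (4 : ℕ) ^ (2 * b + 2) ≤ 3 ^ (2 * b + 2) * (4 * 2 ^ b) := by
    interval_cases b <;> norm_num
  calc (4 : ℕ) ^ (9 * a + (2 * b + 2)) = ((4 : ℕ) ^ 9) ^ a * 4 ^ (2 * b + 2) := by
        rw [pow_add, pow_mul]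
    _ ≤ ((3 ^ 9) ^ a * (2 ^ 4) ^ a) * (3 ^ (2 * b + 2) * (4 * 2 ^ b)) := Nat.mul_le_mul h3 h4
    _ = 3 ^ (9 * a + (2 * b + 2)) * (4 * 2 ^ (4 * a + b)) := by
        rw [pow_add 3 (9 * a) (2 * b + 2), pow_mul 3 9 a, pow_add 2 (4 * a) b, pow_mul 2 4 a]
        generalize (3 ^ 9) ^ a = x
        generalize ((2 : ℕ) ^ 4) ^ a = y
        ring

theorem nl_all (t s J : ℕ) (ht : 200 ≤ t) (hs : 64 * s ≤ t) (hJ : t ≤ 2 * J + 1 + 4 * s)
    (hJ2 : 2 * J ≤ t) (j : ℕ) (hj : j ≤ t) : NN t s j ≤ 4 * 2 ^ s * NN t s J := by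
  have hp : 1 ≤ 4 * 2 ^ s := by
    have : 0 < 2 ^ s := by positivity
    omega
  have hmid : ∀ k, k ≤ 2 * s + s / 4 + 2 → J + k ≤ t → NN t s (J + k) ≤ 4 * 2 ^ s * NN t s J := by
    intro k hk hkt
    have h1 := nl_mid t s J hs hJ k hkt
    have h2 := nl_pow s
    obtain ⟨d, hd⟩ := Nat.exists_eq_add_of_le hk
    have h3 : (4 : ℕ) ^ k ≤ 3 ^ k * (4 * 2 ^ s) := by
      rw [hd, pow_add, pow_add] at h2
      have h4 : 3 ^ d ≤ 4 ^ d := Nat.pow_le_pow_left (by norm_num) d
      have h5 : 4 ^ k * 3 ^ d ≤ (3 ^ k * (4 * 2 ^ s)) * 3 ^ d := by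
        calc 4 ^ k * 3 ^ d ≤ 4 ^ k * 4 ^ d := Nat.mul_le_mul_left _ h4
          _ ≤ _ := h2
          _ = _ := by ring
      exact Nat.le_of_mul_le_mul_right h5 (by positivity)
    have h6 : 3 ^ k * NN t s (J + k) ≤ 3 ^ k * (4 * 2 ^ s * NN t s J) := by
      calc _ ≤ _ := h1
        _ ≤ (3 ^ k * (4 * 2 ^ s)) * NN t s J := Nat.mul_le_mul_right _ h3
        _ = _ := by ring
    exact Nat.le_of_mul_le_mul_left h6 (by positivity)
  rcases Nat.lt_or_ge j J with h | h
  · calc NN t s j ≤ NN t s J := nl_up t s J hJ2 j h.le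
      _ = 1 * NN t s J := (one_mul _).symm
      _ ≤ _ := Nat.mul_le_mul_right _ hp
  · obtain ⟨k, rfl⟩ := Nat.exists_eq_add_of_le h
    rcases Nat.lt_or_ge k (2 * s + s / 4 + 2) with h1 | h1
    · exact hmid k h1.le hj
    · obtain ⟨d, rfl⟩ := Nat.exists_eq_add_of_le h1
      have h2 := hmid (2 * s + s / 4 + 2) le_rfl (by omega)
      have h3 := nl_down t s (J + (2 * s + s / 4 + 2)) (by omega) d (by omega)
      rw [← add_assoc]
      exact h3.trans h2

theorem nl_kk (t s : ℕ) (h : 64 * s ≤ t) : 64 ^ s ≤ kk t s := by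
  have h1 : (t + 1) ^ s ≤ kk t s * s.factorial := by
    have h2 := Nat.pow_sub_le_descFactorial (t + s) s
    have h3 : t + s + 1 - s = t + 1 := by omega
    rw [h3] at h2
    have h4 : (t + s).descFactorial s = s.factorial * (t + s).choose s :=
      Nat.descFactorial_eq_factorial_mul_choose _ _
    rw [h4] at h2
    unfold kk
    have h6 : (t + s).choose t = (t + s).choose s := Nat.choose_symm_add
    rw [h6, mul_comm]
    exact h2
  have h5 : 64 ^ s * s.factorial ≤ (t + 1) ^ s := by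
    calc 64 ^ s * s.factorial ≤ 64 ^ s * s ^ s := Nat.mul_le_mul_left _ (Nat.factorial_le_pow s)
      _ = (64 * s) ^ s := (mul_pow _ _ _).symm
      _ ≤ (t + 1) ^ s := Nat.pow_le_pow_left (by omega) s
  exact Nat.le_of_mul_le_mul_right (h5.trans h1) (Nat.factorial_pos s)

theorem nl_grow (s : ℕ) (hs : 20 ≤ s) : 327680 * s ^ 6 < 8 ^ s := by
  induction s, hs using Nat.le_induction with
  | base => norm_num
  | succ s hs ih =>
    have h1 : (s + 1) ^ 6 ≤ 8 * s ^ 6 := by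
      have h2 : (s + 1) ^ 6 * 20 ^ 6 ≤ (21 * s) ^ 6 := by
        rw [← mul_pow]
        exact Nat.pow_le_pow_left (by omega) 6
      have h3 : (21 * s) ^ 6 ≤ 8 * s ^ 6 * 20 ^ 6 := by
        rw [mul_pow]
        have : (21 : ℕ) ^ 6 ≤ 8 * 20 ^ 6 := by norm_num
        nlinarith [Nat.zero_le (s ^ 6)]
      exact Nat.le_of_mul_le_mul_right (h2.trans h3) (by norm_num)
    rw [pow_succ 8 s]
    calc 327680 * (s + 1) ^ 6 ≤ 327680 * (8 * s ^ 6) := Nat.mul_le_mul_left _ h1
      _ = (327680 * s ^ 6) * 8 := by ring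
      _ < 8 ^ s * 8 := Nat.mul_lt_mul_of_pos_right ih (by norm_num)

/-- `√t ≤ s ≤ t/64`. With `J = I s`, `t/2 - √t - 1 - s < J`: the largest sphere has index
`j* ≤ t/2 + s/4 + 1`, `nn ≤ (t+1) NN j*`, `NN j* / NN J ≤ 1.2 ^ (2.3 s + 4)`-ish, while
`kk t s ≥ (t/s)^s ≥ 64^s` and `2^(2I + t/s) ≤ 4^s`. -/
theorem numL : ∃ t0 : ℕ, ∀ t s z : ℕ, t0 ≤ t → t ≤ s * s → 64 * s ≤ t → kk t s ≤ 20 * t * z →
    8 * t * nn t s * 2 ^ (5 + 2 * ((t / 2 - (Nat.sqrt t + 1)) / s) + (t / s + 3)) <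
      z * NN t s (((t / 2 - (Nat.sqrt t + 1)) / s) * s) := by
  refine ⟨1000, fun t s z ht hts hst hz => ?_⟩
  have hs20 : 20 ≤ s := by
    by_contra hcon
    have : s * s ≤ 19 * 19 := Nat.mul_le_mul (by omega) (by omega)
    omega
  have hs0 : 0 < s := by omega
  have hsq : Nat.sqrt t ≤ s := by
    calc Nat.sqrt t ≤ Nat.sqrt (s * s) := Nat.sqrt_le_sqrt hts
      _ = s := Nat.sqrt_eq s
  set M := t / 2 - (Nat.sqrt t + 1) with hM
  set I := M / s with hI
  have hIM : I * s ≤ M := Nat.div_mul_le_self M s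
  have hIM2 : M < I * s + s := by
    have h1 := Nat.div_add_mod M s
    have h2 := Nat.mod_lt M hs0
    rw [← hI] at h1
    have h3 : s * I = I * s := mul_comm _ _
    omega
  have hJ1 : 2 * (I * s) ≤ t := by omega
  have hJ2 : t ≤ 2 * (I * s) + 1 + 4 * s := by omega
  have hts' : t / s ≤ s := Nat.div_le_of_le_mul hts
  have h2I : 2 * I ≤ t / s := by
    rw [Nat.le_div_iff_mul_le hs0]
    calc 2 * I * s = 2 * (I * s) := by ring
      _ ≤ t := hJ1
  have hE : 2 ^ (5 + 2 * I + (t / s + 3)) ≤ 256 * 4 ^ s := by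
    calc 2 ^ (5 + 2 * I + (t / s + 3)) ≤ 2 ^ (8 + 2 * s) :=
          Nat.pow_le_pow_right (by norm_num) (by omega)
      _ = 256 * 4 ^ s := by rw [pow_add, pow_mul]; norm_num
  have hnn : nn t s ≤ (t + 1) * (4 * 2 ^ s * NN t s (I * s)) := by
    rw [nl_nn]
    calc ∑ j ∈ Finset.range (t + 1), NN t s j ≤
        ∑ _j ∈ Finset.range (t + 1), 4 * 2 ^ s * NN t s (I * s) := by
          apply Finset.sum_le_sum
          intro j hj
          rw [Finset.mem_range] at hj
          exact nl_all t s (I * s) (by omega) hst hJ2 hJ1 j (by omega)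
      _ = _ := by rw [Finset.sum_const, Finset.card_range, smul_eq_mul]
  have hNN : 0 < NN t s (I * s) := by
    unfold NN
    exact Nat.mul_pos (Nat.choose_pos (by omega)) (Nat.choose_pos (by omega))
  have hkk := nl_kk t s hst
  have hg := nl_grow s hs20
  have ht2 : t * t * (t + 1) ≤ 2 * s ^ 6 := by
    have h1 : t + 1 ≤ 2 * (s * s) := by omega
    calc t * t * (t + 1) ≤ (s * s) * (s * s) * (2 * (s * s)) :=
          Nat.mul_le_mul (Nat.mul_le_mul hts hts) h1
      _ = 2 * s ^ 6 := by ring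
  have hA : 163840 * (t * t * (t + 1)) < 8 ^ s := by
    calc 163840 * (t * t * (t + 1)) ≤ 163840 * (2 * s ^ 6) := Nat.mul_le_mul_left _ ht2
      _ = 327680 * s ^ 6 := by ring
      _ < _ := hg
  have hmain : (20 * t) * (8 * t * nn t s * 2 ^ (5 + 2 * I + (t / s + 3))) <
      (20 * t) * (z * NN t s (I * s)) := by
    calc (20 * t) * (8 * t * nn t s * 2 ^ (5 + 2 * I + (t / s + 3))) ≤
        (20 * t) * (8 * t * ((t + 1) * (4 * 2 ^ s * NN t s (I * s))) * (256 * 4 ^ s)) := by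
          gcongr
      _ = (163840 * (t * t * (t + 1))) * (2 ^ s * 4 ^ s) * NN t s (I * s) := by ring
      _ = (163840 * (t * t * (t + 1))) * 8 ^ s * NN t s (I * s) := by
          rw [← mul_pow]; norm_num
      _ < 8 ^ s * 8 ^ s * NN t s (I * s) := by
          apply Nat.mul_lt_mul_of_pos_right _ hNN
          exact Nat.mul_lt_mul_of_pos_right hA (by positivity)
      _ = 64 ^ s * NN t s (I * s) := by rw [← mul_pow]; norm_num
      _ ≤ (20 * t * z) * NN t s (I * s) := Nat.mul_le_mul_right _ (hkk.trans hz)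
      _ = _ := by ring
  exact Nat.lt_of_mul_lt_mul_left hmain

/-- `s ≥ t/64`. -/
theorem numL' : ∃ t0 : ℕ, ∀ t s : ℕ, t0 ≤ t → t ≤ 64 * s → 20 * t * 2 ^ 200 < kk t s := by
  refine ⟨64 * 60, fun t s ht hts => ?_⟩
  set q := t / 64 with hq
  have h1 : 60 ≤ q := by omega
  have h2 : q ≤ s := by omega
  have h3 : 64 ^ q ≤ kk t q := nl_kk t q (by omega)
  have h4 : kk t q ≤ kk t s := by
    unfold kk
    exact Nat.choose_le_choose t (by omega)
  have h5 : t < 64 * (q + 1) := by omega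
  have h6 : ∀ k : ℕ, 60 ≤ k → 20 * (64 * (k + 1)) * 2 ^ 200 ≤ 64 ^ k := by
    intro k hk
    induction k, hk using Nat.le_induction with
    | base => norm_num
    | succ k hk ih =>
      generalize (2 : ℕ) ^ 200 = P at ih ⊢
      rw [pow_succ]
      calc 20 * (64 * (k + 1 + 1)) * P ≤ 20 * (64 * (64 * (k + 1))) * P := by gcongr; omega
        _ = (20 * (64 * (k + 1)) * P) * 64 := by ring
        _ ≤ 64 ^ k * 64 := Nat.mul_le_mul_right _ ih
  calc 20 * t * 2 ^ 200 < 20 * (64 * (q + 1)) * 2 ^ 200 := by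
        apply Nat.mul_lt_mul_of_pos_right _ (by positivity)
        omega
    _ ≤ 64 ^ q := h6 q h1
    _ ≤ kk t s := h3.trans h4

end Pool.Agent.Lib.MP_95cf8e_co
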