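import Mathlib

/-! # Greedy covering -/

set_option autoImplicit false

namespace Pool.Agent.Lib.MP_95cf8e_co

open Finset
open scoped Classical

/-- The vertices that are not covered by `C`. -/
noncomputable def uncov {V : Type*} [Fintype V] (rel : V → V → Prop) (C : Finset V) : Finset V :=
  univ.filter fun u => ∀ c ∈ C, ¬ rel c u

theorem greedy_step {V : Type*} [Fintype V] (rel : V → V → Prop) (K : ℕ)
    (hdeg : ∀ u, K ≤ (univ.filter (fun v => rel v u)).card) (hV : 0 < Fintype.card V)
    (C : Finset V) : ∃ v, ((uncov rel (insert v C)).card : ℝ) ≤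
      (uncov rel C).card * (1 - K / Fintype.card V) := by
  set U := uncov rel C with hU
  have hn : (0 : ℝ) < Fintype.card V := by exact_mod_cast hV
  -- double counting
  have h1 : K * U.card ≤ ∑ v : V, (U.filter fun u => rel v u).card := by
    have h2 : ∑ v : V, (U.filter fun u => rel v u).card =
        ∑ u ∈ U, (univ.filter fun v => rel v u).card := by
      simp only [Finset.card_filter]
      rw [Finset.sum_comm]
    rw [h2, mul_comm, ← smul_eq_mul, ← Finset.sum_const]
    exact Finset.sum_le_sum fun u _ => hdeg u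
  obtain ⟨v, hv⟩ : ∃ v : V, (K * U.card : ℝ) / Fintype.card V ≤
      (U.filter fun u => rel v u).card := by
    by_contra hcon
    push Not at hcon
    have hne : (univ : Finset V).Nonempty := by
      rw [Finset.univ_nonempty_iff]
      exact Fintype.card_pos_iff.1 hV
    have h3 := Finset.sum_lt_sum_of_nonempty hne fun v _ => hcon v
    rw [Finset.sum_const, Finset.card_univ, nsmul_eq_mul, mul_div_cancel₀ _ hn.ne'] at h3
    have h4 : (K * U.card : ℝ) ≤ ∑ v : V, ((U.filter fun u => rel v u).card : ℝ) := by
      exact_mod_cast h1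
    linarith
  refine ⟨v, ?_⟩
  have h5 : uncov rel (insert v C) ⊆ U \ (U.filter fun u => rel v u) := by
    intro u hu
    simp only [uncov, Finset.mem_filter, Finset.mem_univ, true_and, Finset.mem_insert,
      forall_eq_or_imp] at hu
    rw [Finset.mem_sdiff, Finset.mem_filter]
    refine ⟨?_, fun h => hu.1 h.2⟩
    rw [hU, uncov, Finset.mem_filter]
    exact ⟨Finset.mem_univ _, hu.2⟩
  have h6 := Finset.card_le_card h5
  rw [Finset.card_sdiff_of_subset (Finset.filter_subset _ _)] at h6
  have h7 : ((uncov rel (insert v C)).card : ℝ) ≤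
      U.card - (U.filter fun u => rel v u).card := by
    rw [← Nat.cast_sub (Finset.card_le_card (Finset.filter_subset _ _))]
    exact_mod_cast h6
  have h8 : (U.card : ℝ) * (1 - K / Fintype.card V) =
      U.card - (K * U.card : ℝ) / Fintype.card V := by ring
  rw [h8]
  linarith

theorem greedy_iter {V : Type*} [Fintype V] (rel : V → V → Prop) (K : ℕ)
    (hdeg : ∀ u, K ≤ (univ.filter (fun v => rel v u)).card) (hV : 0 < Fintype.card V) (q : ℕ) :
    ∃ C : Finset V, C.card ≤ q ∧ ((uncov rel C).card : ℝ) ≤
      Fintype.card V * (1 - K / Fintype.card V) ^ q := by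
  have hn : (0 : ℝ) < Fintype.card V := by exact_mod_cast hV
  have hKn : (K : ℝ) / Fintype.card V ≤ 1 := by
    rw [div_le_one hn]
    obtain ⟨u⟩ := Fintype.card_pos_iff.1 hV
    exact_mod_cast (hdeg u).trans (Finset.card_le_univ _)
  induction q with
  | zero =>
    refine ⟨∅, by simp, ?_⟩
    simp [uncov]
  | succ q ih =>
    obtain ⟨C, hC, hU⟩ := ih
    obtain ⟨v, hv⟩ := greedy_step rel K hdeg hV C
    refine ⟨insert v C, (Finset.card_insert_le _ _).trans (by omega), hv.trans ?_⟩
    rw [pow_succ, ← mul_assoc]
    exact mul_le_mul_of_nonneg_right hU (by linarith)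

/-- Greedy cover: if every `u` is covered by at least `K ≥ 1` of the `v`, then some `C` with
`|C| ≤ (n/K)(1 + ln K) + 1` covers everything.
Proof: if `U` is the set of uncovered vertices, some `v` covers at least `K |U| / n` of it, so after
`q` choices at most `n (1 - K/n)^q ≤ n exp(-qK/n)` remain; take `q = ⌈(n/K) ln K⌉`, then at most
`n/K` remain and each costs one more choice. (`K ≤ n` follows from the hypothesis if `n ≥ 1`.) -/
theorem greedy {V : Type*} [Fintype V] [DecidableEq V] (rel : V → V → Prop) (K : ℕ) (hK : 1 ≤ K)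
    (hdeg : ∀ u, K ≤ (univ.filter (fun v => rel v u)).card) :
    ∃ C : Finset V, (∀ u, ∃ c ∈ C, rel c u) ∧
      (C.card : ℝ) ≤ (Fintype.card V : ℝ) / K * (1 + Real.log K) + 1 := by
  have hK0 : (0 : ℝ) < K := by exact_mod_cast hK
  have hlog : 0 ≤ Real.log K := Real.log_nonneg (by exact_mod_cast hK)
  rcases Nat.eq_zero_or_pos (Fintype.card V) with hV | hV
  · refine ⟨∅, ?_, ?_⟩
    · intro u
      have := Fintype.card_eq_zero_iff.1 hV
      exact (this.false u).elim
    · rw [hV]
      simp
  have hn : (0 : ℝ) < Fintype.card V := by exact_mod_cast hV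
  have hKn : (K : ℝ) / Fintype.card V ≤ 1 := by
    rw [div_le_one hn]
    obtain ⟨u⟩ := Fintype.card_pos_iff.1 hV
    exact_mod_cast (hdeg u).trans (Finset.card_le_univ _)
  set q := ⌈(Fintype.card V : ℝ) / K * Real.log K⌉₊ with hq
  obtain ⟨C, hC, hU⟩ := greedy_iter rel K hdeg hV q
  have h1 : ((uncov rel C).card : ℝ) ≤ Fintype.card V / K := by
    refine hU.trans ?_
    have h2 : (1 - (K : ℝ) / Fintype.card V) ^ q ≤ 1 / K := by
      have h3 : 1 - (K : ℝ) / Fintype.card V ≤ Real.exp (-(K / Fintype.card V)) := by
        have := Real.add_one_le_exp (-((K : ℝ) / Fintype.card V))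
        linarith
      have h4 : (1 - (K : ℝ) / Fintype.card V) ^ q ≤ Real.exp (-(K / Fintype.card V)) ^ q :=
        pow_le_pow_left₀ (by linarith) h3 q
      refine h4.trans ?_
      rw [← Real.exp_nat_mul]
      have h5 : (Fintype.card V : ℝ) / K * Real.log K ≤ q := Nat.le_ceil _
      have h6 : (q : ℝ) * -(K / Fintype.card V) ≤ - Real.log K := by
        have h7 := mul_le_mul_of_nonneg_right h5 (div_nonneg hK0.le hn.le :
          (0 : ℝ) ≤ K / Fintype.card V)
        have h8 : (Fintype.card V : ℝ) / K * Real.log K * (K / Fintype.card V) = Real.log K := by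
          field_simp
        rw [h8] at h7
        linarith
      refine (Real.exp_le_exp.2 h6).trans ?_
      rw [Real.exp_neg, Real.exp_log hK0, one_div]
    calc (Fintype.card V : ℝ) * (1 - K / Fintype.card V) ^ q ≤ Fintype.card V * (1 / K) :=
          mul_le_mul_of_nonneg_left h2 hn.le
      _ = Fintype.card V / K := by ring
  have hex : ∀ u : V, ∃ v, rel v u := by
    intro u
    have h2 : 0 < (univ.filter (fun v => rel v u)).card := by
      have := hdeg u
      omega
    obtain ⟨v, hv⟩ := Finset.card_pos.1 h2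
    exact ⟨v, (Finset.mem_filter.1 hv).2⟩
  choose f hf using hex
  refine ⟨C ∪ (uncov rel C).image f, ?_, ?_⟩
  · intro u
    by_cases h : u ∈ uncov rel C
    · exact ⟨f u, Finset.mem_union_right _ (Finset.mem_image_of_mem _ h), hf u⟩
    · simp only [uncov, Finset.mem_filter, Finset.mem_univ, true_and] at h
      push Not at h
      obtain ⟨c, hc, hcu⟩ := h
      exact ⟨c, Finset.mem_union_left _ hc, hcu⟩
  · have h2 : (C ∪ (uncov rel C).image f).card ≤ q + (uncov rel C).card :=
      (Finset.card_union_le _ _).trans (add_le_add hC Finset.card_image_le)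
    have h3 : ((C ∪ (uncov rel C).image f).card : ℝ) ≤ q + (uncov rel C).card := by
      exact_mod_cast h2
    have h4 : (q : ℝ) ≤ (Fintype.card V : ℝ) / K * Real.log K + 1 :=
      (Nat.ceil_lt_add_one (by positivity)).le
    have h5 : (Fintype.card V : ℝ) / K * (1 + Real.log K) + 1 =
        Fintype.card V / K + ((Fintype.card V : ℝ) / K * Real.log K + 1) := by ring
    rw [h5]
    linarith

end Pool.Agent.Lib.MP_95cf8e_co
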