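import Pool.Agent.Lib.MP_95cf8e_co.Defs

/-! # Schedules and templates -/

set_option autoImplicit false

namespace Pool.Agent.Lib.MP_95cf8e_co

open Finset
open scoped Classical

variable {V : Type*} [DecidableEq V] {G : SimpleGraph V}

/-- concatenation of schedules -/
theorem Sch.comp {D E : ℕ} {A B C : Finset V} {m m' : ℕ → ℕ} (h : Sch G D A B m)
    (h' : Sch G E B C m') : Sch G (D + E) A C (fun x => if x < D then m x else m' (x - D)) := by
  obtain ⟨P, S, h0, hD, hadj, hmove, hm⟩ := h
  obtain ⟨P', S', h0', hD', hadj', hmove', hm'⟩ := h'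
  refine ⟨fun x v => if x < D then P x v else P' (x - D) v,
    fun x => if x < D then S x else S' (x - D), ?_, ?_, ?_, ?_, ?_⟩
  · show (if 0 < D then S 0 else S' (0 - D)) = A
    split_ifs with hc
    · exact h0
    · have hD0 : D = 0 := by omega
      subst hD0
      rw [Nat.sub_zero, h0', ← hD, h0]
  · show (if D + E < D then S (D + E) else S' (D + E - D)) = C
    rw [if_neg (by omega), Nat.add_sub_cancel_left, hD']
  · intro x v
    show (if x < D then P x v else P' (x - D) v) = v ∨
      G.Adj v (if x < D then P x v else P' (x - D) v)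
    split_ifs
    · exact hadj x v
    · exact hadj' _ v
  · intro x hx v hv
    show (if x < D then P x v else P' (x - D) v) ∈
      (if x + 1 < D then S (x + 1) else S' (x + 1 - D))
    replace hv : v ∈ (if x < D then S x else S' (x - D)) := hv
    by_cases hxD : x < D
    · rw [if_pos hxD] at hv ⊢
      have h1 := hmove x hxD v hv
      by_cases hxD' : x + 1 < D
      · rw [if_pos hxD']
        exact h1
      · rw [if_neg hxD']
        have hx1 : x + 1 = D := by omega
        rw [hx1, Nat.sub_self, h0', ← hD, ← hx1]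
        exact h1
    · rw [if_neg hxD] at hv ⊢
      rw [if_neg (by omega), show x + 1 - D = x - D + 1 by omega]
      exact hmove' _ (by omega) v hv
  · intro x hx
    show ((if x < D then S x else S' (x - D)).filter
      (fun v => (if x < D then P x v else P' (x - D) v) ≠ v)).card ≤
      (if x < D then m x else m' (x - D))
    by_cases hxD : x < D
    · simp only [if_pos hxD]
      exact hm x hxD
    · simp only [if_neg hxD]
      exact hm' _ (by omega)

theorem Sch.mono {D : ℕ} {A B : Finset V} {m m' : ℕ → ℕ} (h : Sch G D A B m)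
    (hm : ∀ x < D, m x ≤ m' x) : Sch G D A B m' := by
  obtain ⟨P, S, h0, hD, hadj, hmove, hm1⟩ := h
  exact ⟨P, S, h0, hD, hadj, hmove, fun x hx => (hm1 x hx).trans (hm x hx)⟩

/-- one step into a dominating set -/
theorem Sch.one [Fintype V] (C : Finset V) (hC : ∀ v, v ∉ C → ∃ c ∈ C, G.Adj v c) :
    Sch G 1 (univ : Finset V) C (fun _ => Fintype.card V) := by
  choose! f hf using hC
  refine ⟨fun _ v => if v ∈ C then v else f v, fun x => if x = 0 then univ else C, if_pos rfl,
    if_neg one_ne_zero, ?_, ?_, ?_⟩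
  · intro _ v
    show (if v ∈ C then v else f v) = v ∨ G.Adj v (if v ∈ C then v else f v)
    by_cases hv : v ∈ C
    · left
      rw [if_pos hv]
    · right
      rw [if_neg hv]
      exact (hf v hv).2
  · intro x hx v _
    show (if v ∈ C then v else f v) ∈ (if x + 1 = 0 then univ else C)
    rw [if_neg (Nat.succ_ne_zero x)]
    by_cases hv : v ∈ C
    · rw [if_pos hv]
      exact hv
    · rw [if_neg hv]
      exact (hf v hv).1
  · intro x _
    exact card_le_univ _

/-- a double step: the vertices of `A` outside `Good` move in two steps into `Good`.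
`P 0 v = w v` for `v ∈ A \ Good` (a common neighbour of `v` and some `v' ∈ Good`), else `v`;
`P 1 u =` an element of `Good` adjacent to `u` if `u ∈ w (A \ Good)`, else `u`.
`B` is the image, so `|B| ≤ |A|`. -/
theorem Sch.double (A Good : Finset V)
    (h : ∀ v ∈ A, v ∉ Good → ∃ w, G.Adj v w ∧ ∃ v' ∈ Good, G.Adj w v') :
    ∃ B ⊆ Good, B.card ≤ A.card ∧ Sch G 2 A B (fun _ => (A.filter (fun v => v ∉ Good)).card) := by
  choose! w hw hw2 using h
  let Bad := A.filter (fun v => v ∉ Good)
  have hBad : ∀ v, v ∈ Bad ↔ v ∈ A ∧ v ∉ Good := fun v => mem_filter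
  let W := Bad.image w
  have hW : ∀ u ∈ W, ∃ v' ∈ Good, G.Adj u v' := by
    intro u hu
    obtain ⟨v, hv, rfl⟩ := mem_image.1 hu
    exact hw2 v ((hBad v).1 hv).1 ((hBad v).1 hv).2
  choose! g hg hg2 using hW
  let P0 : V → V := fun v => if v ∈ Bad then w v else v
  let P1 : V → V := fun u => if u ∈ W then g u else u
  have hP0 : ∀ v, v ∈ Bad → P0 v = w v := fun v hv => if_pos hv
  have hP0' : ∀ v, v ∉ Bad → P0 v = v := fun v hv => if_neg hv
  have hP1 : ∀ v, v ∈ W → P1 v = g v := fun v hv => if_pos hv
  have hP1' : ∀ v, v ∉ W → P1 v = v := fun v hv => if_neg hv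
  let S1 := A.image P0
  let S2 := S1.image P1
  refine ⟨S2, ?_, (card_image_le).trans card_image_le,
    fun x => if x = 0 then P0 else P1, fun x => if x = 0 then A else if x = 1 then S1 else S2,
    rfl, rfl, ?_, ?_, ?_⟩
  · intro u hu
    obtain ⟨y, hy, rfl⟩ := mem_image.1 hu
    by_cases hyW : y ∈ W
    · rw [hP1 y hyW]
      exact hg y hyW
    · rw [hP1' y hyW]
      obtain ⟨v, hv, rfl⟩ := mem_image.1 hy
      by_cases hvB : v ∈ Bad
      · exfalso
        apply hyW
        rw [hP0 v hvB]
        exact mem_image_of_mem _ hvB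
      · rw [hP0' v hvB]
        by_contra hc
        exact hvB ((hBad v).2 ⟨hv, hc⟩)
  · intro x v
    by_cases hx : x = 0
    · show (if x = 0 then P0 else P1) v = v ∨ G.Adj v ((if x = 0 then P0 else P1) v)
      rw [if_pos hx]
      by_cases hv : v ∈ Bad
      · right
        rw [hP0 v hv]
        exact hw v ((hBad v).1 hv).1 ((hBad v).1 hv).2
      · left
        exact hP0' v hv
    · show (if x = 0 then P0 else P1) v = v ∨ G.Adj v ((if x = 0 then P0 else P1) v)
      rw [if_neg hx]
      by_cases hv : v ∈ W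
      · right
        rw [hP1 v hv]
        exact hg2 v hv
      · left
        exact hP1' v hv
  · intro x hx v hv
    have hx' : x = 0 ∨ x = 1 := by omega
    rcases hx' with rfl | rfl
    · exact mem_image_of_mem _ hv
    · exact mem_image_of_mem _ hv
  · intro x hx
    have hx' : x = 0 ∨ x = 1 := by omega
    rcases hx' with rfl | rfl
    · apply card_le_card
      intro v hv
      have h1 := mem_filter.1 hv
      by_contra hc
      exact h1.2 (hP0' v hc)
    · refine le_trans (card_le_card (t := W) ?_) card_image_le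
      intro v hv
      have h1 := mem_filter.1 hv
      by_contra hc
      exact h1.2 (hP1' v hc)

/-- iterated double steps down a chain `Gd 0 ⊆ Gd 1 ⊆ … ⊆ Gd I` (the `x`-th double step moves
`A ∩ (Gd (I - x) \ Gd (I - x - 1))`) -/
theorem Sch.descend (I : ℕ) (Gd : ℕ → Finset V)
    (h : ∀ i < I, ∀ v ∈ Gd (i + 1), v ∉ Gd i → ∃ w, G.Adj v w ∧ ∃ v' ∈ Gd i, G.Adj w v')
    (A : Finset V) (hA : A ⊆ Gd I) :
    ∃ B ⊆ Gd 0, B.card ≤ A.card ∧
      Sch G (2 * I) A B (fun x => min A.card (Gd (I - x / 2)).card) := by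
  induction I generalizing A with
  | zero =>
    refine ⟨A, hA, le_rfl, fun _ v => v, fun _ => A, rfl, rfl, fun _ _ => Or.inl rfl, ?_, ?_⟩
    · intro x hx
      omega
    · intro x hx
      omega
  | succ I ih =>
    obtain ⟨B1, hB1, hB1c, hS1⟩ := Sch.double (G := G) A (Gd I)
      (fun v hv hv' => h I (Nat.lt_succ_self I) v (hA hv) hv')
    obtain ⟨B, hB, hBc, hS⟩ := ih (fun i hi => h i (by omega)) B1 hB1
    refine ⟨B, hB, hBc.trans hB1c, ?_⟩
    have h1 := Sch.comp hS1 hS
    rw [show 2 * (I + 1) = 2 + 2 * I by ring]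
    refine Sch.mono h1 fun x hx => ?_
    show (if x < 2 then (A.filter (fun v => v ∉ Gd I)).card else
      min B1.card (Gd (I - (x - 2) / 2)).card) ≤ min A.card (Gd (I + 1 - x / 2)).card
    split_ifs with hx2
    · have : x / 2 = 0 := by omega
      rw [this, Nat.sub_zero]
      refine le_min (card_filter_le _ _) (card_le_card ((filter_subset _ _).trans hA))
    · have : I - (x - 2) / 2 = I + 1 - x / 2 := by omega
      rw [this]
      exact min_le_min hB1c le_rfl

/-- From a schedule to a template.  `off v` = last time `x < D` at which `v ∈ S x` moves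
(exists for `v ∉ B`), `par v = P (off v) v`, `R = B`, `off = D` on `R`.  If `v ∉ R` then
`par v ∈ S (off v + 1)`; if `par v ∉ R` it still has to move at some time `≥ off v + 1`. -/
theorem Sch.template [Fintype V] {D : ℕ} {B : Finset V} {m : ℕ → ℕ}
    (h : Sch G D (univ : Finset V) B m) :
    ∃ T : Template G D, T.R = B ∧ ∀ lam : ℕ,
      T.loss univ lam ≤ ∑ x ∈ Ico 1 D, 2 ^ x * m x + lam * B.card := by
  obtain ⟨P, S, h0, hD, hadj, hmove, hm⟩ := h
  -- a vertex has to move
  have key : ∀ v, v ∉ B → ∀ a, a ≤ D → v ∈ S a → ∃ x, a ≤ x ∧ x < D ∧ v ∈ S x ∧ P x v ≠ v := by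
    intro v hv a ha hva
    by_contra hc
    push Not at hc
    have hall : ∀ i, a + i ≤ D → v ∈ S (a + i) := by
      intro i
      induction i with
      | zero => intro _; exact hva
      | succ i ih =>
        intro hi
        have h1 := ih (by omega)
        have h2 := hmove (a + i) (by omega) v h1
        rw [hc (a + i) (by omega) (by omega) h1] at h2
        exact h2
    have h3 := hall (D - a) (by omega)
    rw [show a + (D - a) = D by omega, hD] at h3
    exact hv h3
  let Mv : V → Finset ℕ := fun v => (range D).filter (fun x => v ∈ S x ∧ P x v ≠ v)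
  have hMv : ∀ v x, x ∈ Mv v ↔ x < D ∧ v ∈ S x ∧ P x v ≠ v := by
    intro v x
    simp only [Mv, mem_filter, mem_range]
  let off : V → ℕ := fun v => if v ∈ B then D else (Mv v).sup id
  have hoffB : ∀ v, v ∈ B → off v = D := fun v hv => if_pos hv
  have hoff : ∀ v, v ∉ B → off v ∈ Mv v := by
    intro v hv
    have h1 : off v = (Mv v).sup id := if_neg hv
    obtain ⟨x, -, hx1, hx2, hx3⟩ := key v hv 0 (Nat.zero_le _) (by rw [h0]; exact mem_univ _)
    have hne : (Mv v).Nonempty := ⟨x, (hMv v x).2 ⟨hx1, hx2, hx3⟩⟩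
    obtain ⟨y, hy, hy2⟩ := exists_mem_eq_sup (Mv v) hne id
    rw [h1, hy2]
    exact hy
  have hoffmax : ∀ v, v ∉ B → ∀ x ∈ Mv v, x ≤ off v := by
    intro v hv x hx
    have h1 : off v = (Mv v).sup id := if_neg hv
    rw [h1]
    exact le_sup (f := id) hx
  let T : Template G D :=
    { off := off
      par := fun v => P (off v) v
      R := B
      off_root := hoffB
      off_le := by
        intro v
        by_cases hv : v ∈ B
        · exact (hoffB v hv).le
        · exact ((hMv v _).1 (hoff v hv)).1.le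
      adj := by
        intro v hv
        exact (hadj (off v) v).resolve_left ((hMv v _).1 (hoff v hv)).2.2
      lt := by
        intro v hv
        have h1 := (hMv v _).1 (hoff v hv)
        by_cases hu : P (off v) v ∈ B
        · rw [hoffB _ hu]
          exact h1.1
        · have h2 := hmove (off v) h1.1 v h1.2.1
          obtain ⟨x, hx0, hx1, hx2, hx3⟩ := key _ hu (off v + 1) h1.1 h2
          have h3 := hoffmax _ hu x ((hMv _ x).2 ⟨hx1, hx2, hx3⟩)
          omega }
  refine ⟨T, rfl, fun lam => ?_⟩
  show ∑ v ∈ (univ : Finset V).filter (fun v => v ∉ B ∧ 1 ≤ off v), 2 ^ off v +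
    lam * (B ∩ univ).card ≤ _
  rw [inter_univ]
  refine Nat.add_le_add_right ?_ _
  have hmaps : ∀ v ∈ (univ : Finset V).filter (fun v => v ∉ B ∧ 1 ≤ off v), off v ∈ Ico 1 D := by
    intro v hv
    have h1 := (mem_filter.1 hv).2
    exact mem_Ico.2 ⟨h1.2, ((hMv v _).1 (hoff v h1.1)).1⟩
  rw [← sum_fiberwise_of_maps_to hmaps]
  refine sum_le_sum fun x hx => ?_
  have hxD := (mem_Ico.1 hx).2
  have h1 : ∀ v ∈ ((univ : Finset V).filter (fun v => v ∉ B ∧ 1 ≤ off v)).filter
      (fun v => off v = x), 2 ^ off v = 2 ^ x := fun v hv => by rw [(mem_filter.1 hv).2]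
  rw [sum_congr rfl h1, sum_const, smul_eq_mul, mul_comm]
  refine Nat.mul_le_mul_left _ (le_trans (card_le_card ?_) (hm x hxD))
  intro v hv
  have h2 := mem_filter.1 hv
  have h3 := (mem_filter.1 h2.1).2
  have h4 := (hMv v _).1 (hoff v h3.1)
  rw [h2.2] at h4
  exact mem_filter.2 h4.2

end Pool.Agent.Lib.MP_95cf8e_co
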