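import Pool.Agent.Lib.MP_95cf8e_co.KBasic
import Pool.Agent.Lib.MP_95cf8e_co.Greedy
import Pool.Agent.Lib.MP_95cf8e_co.Layer

/-! # Existence of templates (part B: codes) -/

set_option autoImplicit false

namespace Pool.Agent.Lib.MP_95cf8e_co

open Finset
open scoped Classical

theorem tb_descend {t s : ℕ} (ht : 1 ≤ t) (C : Finset (KV t s)) (I : ℕ) (A : Finset (KV t s))
    (hA : ∀ v ∈ A, ∃ c ∈ C, jd v c ≤ I * s) :
    ∃ B ⊆ C, B.card ≤ A.card ∧ Sch (KG t s) (2 * I) A B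
      (fun x => min A.card (univ.filter (fun v : KV t s => ∃ c ∈ C, jd v c ≤ (I - x / 2) * s)).card) := by
  obtain ⟨B, hB, hc, hS⟩ := Sch.descend (G := KG t s) I
    (fun i => univ.filter (fun v : KV t s => ∃ c ∈ C, jd v c ≤ i * s)) (by
      intro i _ v hv _
      simp only [mem_filter, mem_univ, true_and] at hv
      obtain ⟨c, hc, hj⟩ := hv
      obtain ⟨u, hu1, hu2⟩ := toward v c (i * s) (by rw [add_mul, one_mul] at hj; omega)
      obtain ⟨w, hw1, hw2⟩ := dbl ht v u hu1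
      exact ⟨w, hw1, u, by simp only [mem_filter, mem_univ, true_and]; exact ⟨c, hc, hu2⟩, hw2⟩)
    A (by
      intro v hv
      simp only [mem_filter, mem_univ, true_and]
      exact hA v hv)
  refine ⟨B, ?_, hc, hS⟩
  intro v hv
  have := hB hv
  simp only [mem_filter, mem_univ, true_and] at this
  obtain ⟨c, hc, hj⟩ := this
  rw [zero_mul, Nat.le_zero] at hj
  rw [jd_eq_zero.1 hj]
  exact hc

theorem tb_one {t s : ℕ} (ht : 1 ≤ t) (hs : 1 ≤ s) :
    ∃ C : Finset (KV t s), (∀ v, v ∉ C → ∃ c ∈ C, (KG t s).Adj v c) ∧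
      (C.card : ℝ) ≤ (nn t s : ℝ) / (t + 1 : ℕ) * (1 + Real.log (t + 1 : ℕ)) + 1 := by
  obtain ⟨C, hC, hc⟩ := greedy (V := KV t s) (fun v u => (KG t s).Adj u v ∨ v = u) (t + 1) (by omega) (by
    intro u
    have h1 : (univ.filter (fun b => (KG t s).Adj u b)) ⊆
        (univ.filter (fun v => (KG t s).Adj u v ∨ v = u)) := by
      intro x hx
      simp only [mem_filter, mem_univ, true_and] at hx ⊢
      exact Or.inl hx
    have h2 := card_le_card h1
    rw [card_nbr ht] at h2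
    have h3 : t + 1 ≤ kk t s := by
      unfold kk
      calc t + 1 = (t + 1).choose t := by simp
        _ ≤ (t + s).choose t := Nat.choose_le_choose t (by omega)
    refine le_trans h3 (le_of_le_of_eq h2 ?_)
    congr)
  refine ⟨C, ?_, ?_⟩
  · intro v hv
    obtain ⟨c, hc1, hc2⟩ := hC v
    rcases hc2 with h | h
    · exact ⟨c, hc1, h⟩
    · exact absurd (h ▸ hc1) hv
  · rw [card_KV] at hc
    exact hc

theorem tb_code (t s J K : ℕ) (hK : 1 ≤ K) (h : K ≤ ∑ j ∈ range (J + 1), NN t s j) :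
    ∃ C : Finset (KV t s), (∀ v, ∃ c ∈ C, jd v c ≤ J) ∧
      (C.card : ℝ) ≤ (nn t s : ℝ) / K * (1 + Real.log K) + 1 := by
  obtain ⟨C, hC, hc⟩ := greedy (V := KV t s) (fun v u => jd v u ≤ J) K hK (by
    intro u
    rw [← card_ball u] at h
    refine le_of_le_of_eq h ?_
    congr)
  refine ⟨C, ?_, ?_⟩
  · intro v
    obtain ⟨c, hc1, hc2⟩ := hC v
    exact ⟨c, hc1, by rw [jd_comm]; exact hc2⟩
  · rw [card_KV] at hc
    exact hc

theorem tb_near {t s : ℕ} (C : Finset (KV t s)) (J : ℕ) :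
    (univ.filter (fun v : KV t s => ∃ c ∈ C, jd v c ≤ J)).card ≤
      C.card * ∑ j ∈ range (J + 1), NN t s j := by
  have h1 : univ.filter (fun v : KV t s => ∃ c ∈ C, jd v c ≤ J) ⊆
      C.biUnion (fun c => univ.filter (fun v : KV t s => jd v c ≤ J)) := by
    intro v hv
    simp only [mem_filter, mem_univ, true_and, mem_biUnion] at hv ⊢
    exact hv
  refine (card_le_card h1).trans ?_
  refine card_biUnion_le_card_mul _ _ _ ?_
  intro c _
  rw [card_ball]

theorem tb_ball (t s I : ℕ) (h : ∀ j, s ≤ j → j ≤ I * s → 9 * NN t s (j - s) ≤ NN t s j) :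
    ∀ x, x ≤ I → 9 ^ x * ∑ j ∈ range ((I - x) * s + 1), NN t s j ≤ ∑ j ∈ range (I * s + 1), NN t s j := by
  intro x
  induction x with
  | zero => intro _; simp
  | succ x ih =>
    intro hx
    refine le_trans ?_ (ih (by omega))
    rw [pow_succ, mul_assoc]
    refine Nat.mul_le_mul_left _ ?_
    rw [mul_sum]
    have e : (I - x) * s + 1 = s + ((I - (x + 1)) * s + 1) := by
      have : I - x = (I - (x + 1)) + 1 := by omega
      rw [this, add_mul]; ring
    rw [e, sum_range_add (fun j => NN t s j) s]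
    refine le_trans (sum_le_sum (fun j hj => ?_)) (Nat.le_add_left _ _)
    have h1 : j < (I - (x + 1)) * s + 1 := mem_range.1 hj
    have h2 : s + j ≤ I * s := by
      have : (I - (x + 1)) * s + s ≤ I * s := by
        calc (I - (x + 1)) * s + s = ((I - (x + 1)) + 1) * s := by ring
          _ ≤ I * s := Nat.mul_le_mul_right _ (by omega)
      omega
    have h3 := h (s + j) (by omega) h2
    rw [Nat.add_sub_cancel_left] at h3
    exact h3

theorem tb_pairs (f : ℕ → ℕ) (I : ℕ) :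
    ∑ y ∈ range (2 * I), f y = ∑ x ∈ range I, (f (2 * x) + f (2 * x + 1)) := by
  induction I with
  | zero => simp
  | succ I ih =>
    rw [sum_range_succ, ← ih, show 2 * (I + 1) = 2 * I + 1 + 1 by ring, sum_range_succ, sum_range_succ]
    ring

theorem tb_half (n a b : ℕ) (h : a ≤ b) (hb : b ≤ n / 2) : n.choose a ≤ n.choose b := by
  induction b with
  | zero =>
    rw [Nat.le_zero.1 h]
  | succ b ih =>
    rcases Nat.lt_or_ge b a with h1 | h1
    · have : a = b + 1 := by omega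
      rw [this]
    · exact (ih h1 (by omega)).trans (Nat.choose_le_succ_of_lt_half_left (by omega))

theorem tb_nn (t s : ℕ) (ht : 3 ≤ t) : (t : ℝ) ^ 4 / 24 ≤ nn t s := by
  have h1 : ((2 * t + 1 - 4 : ℕ) ^ 4 : ℝ) / (Nat.factorial 4) ≤ ((2 * t).choose 4 : ℕ) := by
    have := Nat.pow_le_choose (α := ℝ) 4 (2 * t)
    exact_mod_cast this
  have h2 : (2 * t).choose 4 ≤ nn t s := by
    refine (Nat.choose_le_centralBinom 4 t).trans ?_
    unfold nn
    rw [Nat.centralBinom_eq_two_mul_choose]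
    exact Nat.choose_le_choose t (by omega)
  have h3 : ((2 * t).choose 4 : ℝ) ≤ (nn t s : ℝ) := by exact_mod_cast h2
  have h4 : (t : ℝ) ≤ (2 * t + 1 - 4 : ℕ) := by
    have : t ≤ 2 * t + 1 - 4 := by omega
    exact_mod_cast this
  have h5 : (t : ℝ) ^ 4 ≤ ((2 * t + 1 - 4 : ℕ) : ℝ) ^ 4 := by
    gcongr
  have h6 : (Nat.factorial 4 : ℝ) = 24 := by norm_num [Nat.factorial]
  rw [h6] at h1
  have h7 : (t : ℝ) ^ 4 / 24 ≤ ((2 * t + 1 - 4 : ℕ) : ℝ) ^ 4 / 24 := by
    gcongr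
  exact h7.trans (h1.trans h3)

theorem tb_log (ε : ℝ) (hε : 0 < ε) : ∃ t0 : ℕ, ∀ t : ℕ, t0 ≤ t → Real.log t ≤ ε * t := by
  have h := (Real.isLittleO_log_id_atTop.def hε)
  have h2 := (tendsto_natCast_atTop_atTop (R := ℝ)).eventually h
  obtain ⟨t0, ht0⟩ := Filter.eventually_atTop.1 h2
  refine ⟨t0, fun t ht => ?_⟩
  have := ht0 t ht
  simp only [id, Real.norm_eq_abs, Nat.abs_cast] at this
  exact (le_abs_self _).trans this

/-- size of a dominating set -/
theorem tb_C1 (ε : ℝ) (hε : 0 < ε) : ∃ t0 : ℕ, ∀ t s : ℕ, t0 ≤ t →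
    (nn t s : ℝ) / (t + 1 : ℕ) * (1 + Real.log (t + 1 : ℕ)) + 1 ≤ ε * nn t s := by
  obtain ⟨t1, ht1⟩ := tb_log (ε / 2) (by positivity)
  obtain ⟨t2, ht2⟩ := exists_nat_ge (4 / ε)
  obtain ⟨t3, ht3⟩ := exists_nat_ge (96 / ε)
  refine ⟨t1 + t2 + t3 + 3, fun t s ht => ?_⟩
  have hn := tb_nn t s (by omega)
  have hl := ht1 (t + 1) (by omega)
  have h2 : (4 : ℝ) ≤ ε * (t + 1 : ℕ) := by
    have : (t2 : ℝ) ≤ (t + 1 : ℕ) := by exact_mod_cast (by omega : t2 ≤ t + 1)
    have := ht2.trans this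
    rwa [div_le_iff₀ hε, mul_comm] at this
  have h3 : (96 : ℝ) ≤ ε * t := by
    have : (t3 : ℝ) ≤ (t : ℕ) := by exact_mod_cast (by omega : t3 ≤ t)
    have := ht3.trans this
    rwa [div_le_iff₀ hε, mul_comm] at this
  have ht' : (3 : ℝ) ≤ t := by exact_mod_cast (by omega : 3 ≤ t)
  have h4 : (4 : ℝ) ≤ ε * nn t s := by
    have h5 : (t : ℝ) ≤ (t : ℝ) ^ 4 := by
      calc (t : ℝ) = t * 1 := by ring
        _ ≤ t * t ^ 3 := by
          gcongr
          nlinarith [sq_nonneg ((t : ℝ) - 1), mul_self_nonneg ((t : ℝ))]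
        _ = t ^ 4 := by ring
    have h6 : (t : ℝ) ≤ 24 * nn t s := by linarith
    have h7 : ε * t ≤ ε * (24 * nn t s) := by gcongr
    linarith
  have hT : (0 : ℝ) < (t + 1 : ℕ) := by positivity
  have h5 : (1 + Real.log (t + 1 : ℕ)) / (t + 1 : ℕ) ≤ 3 / 4 * ε := by
    rw [div_le_iff₀ hT]
    linarith
  have h6 : (0 : ℝ) ≤ nn t s := by positivity
  have h7 : (nn t s : ℝ) / (t + 1 : ℕ) * (1 + Real.log (t + 1 : ℕ)) =
      nn t s * ((1 + Real.log (t + 1 : ℕ)) / (t + 1 : ℕ)) := by ring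
  rw [h7]
  have h8 := mul_le_mul_of_nonneg_left h5 h6
  linarith

/-- size of the second code -/
theorem tb_C2 : ∃ t0 : ℕ, ∀ t s : ℕ, t0 ≤ t →
    (nn t s : ℝ) / ((t.choose 2) ^ 2 : ℕ) * (1 + Real.log ((t.choose 2) ^ 2 : ℕ)) + 1 ≤
      nn t s * (1 / (t : ℝ) ^ 3) := by
  obtain ⟨t1, ht1⟩ := tb_log (1 / 256) (by positivity)
  refine ⟨t1 + 100, fun t s ht => ?_⟩
  have hn := tb_nn t s (by omega)
  have hl := ht1 t (by omega)
  have ht' : (100 : ℝ) ≤ t := by exact_mod_cast (by omega : 100 ≤ t)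
  have hc : ((t.choose 2 : ℕ) : ℝ) = t * (t - 1) / 2 := Nat.cast_choose_two ℝ t
  have hc1 : (t : ℝ) ^ 2 / 4 ≤ ((t.choose 2 : ℕ) : ℝ) := by
    rw [hc]; nlinarith
  have hc2 : ((t.choose 2 : ℕ) : ℝ) ≤ (t : ℝ) ^ 2 := by
    rw [hc]; nlinarith
  have hpos : (0 : ℝ) < ((t.choose 2 : ℕ) : ℝ) := by
    have : (0 : ℝ) < (t : ℝ) ^ 2 / 4 := by positivity
    linarith
  have e : (((t.choose 2) ^ 2 : ℕ) : ℝ) = ((t.choose 2 : ℕ) : ℝ) ^ 2 := by push_cast; ring
  rw [e]
  have hlog : Real.log (((t.choose 2 : ℕ) : ℝ) ^ 2) ≤ 4 * Real.log t := by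
    have h1 : Real.log (((t.choose 2 : ℕ) : ℝ) ^ 2) ≤ Real.log ((t : ℝ) ^ 4) := by
      apply Real.log_le_log (by positivity)
      calc (((t.choose 2 : ℕ) : ℝ) ^ 2) ≤ ((t : ℝ) ^ 2) ^ 2 := by gcongr
        _ = (t : ℝ) ^ 4 := by ring
    rw [Real.log_pow (t : ℝ) 4] at h1
    push_cast at h1 ⊢
    exact h1
  have hn0 : (0 : ℝ) ≤ nn t s := by positivity
  have hK : (t : ℝ) ^ 4 / 16 ≤ ((t.choose 2 : ℕ) : ℝ) ^ 2 := by
    calc (t : ℝ) ^ 4 / 16 = ((t : ℝ) ^ 2 / 4) ^ 2 := by ring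
      _ ≤ _ := by gcongr
  have h1 : (1 + Real.log (((t.choose 2 : ℕ) : ℝ) ^ 2)) / ((t.choose 2 : ℕ) : ℝ) ^ 2 ≤
      (1 / 2) * (1 / (t : ℝ) ^ 3) := by
    rw [div_le_iff₀ (by positivity)]
    have h2 : (1 / 2 : ℝ) * (1 / (t : ℝ) ^ 3) * ((t : ℝ) ^ 4 / 16) = t / 32 := by
      field_simp
      ring
    calc 1 + Real.log (((t.choose 2 : ℕ) : ℝ) ^ 2) ≤ 1 + 4 * ((1 / 256) * t) := by linarith
      _ ≤ t / 32 := by linarith
      _ = (1 / 2 : ℝ) * (1 / (t : ℝ) ^ 3) * ((t : ℝ) ^ 4 / 16) := h2.symm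
      _ ≤ _ := by gcongr
  have h3 : (1 : ℝ) ≤ nn t s * ((1 / 2) * (1 / (t : ℝ) ^ 3)) := by
    have h4 : (t : ℝ) ^ 4 / 24 * ((1 / 2) * (1 / (t : ℝ) ^ 3)) = t / 48 := by
      field_simp
      ring
    calc (1 : ℝ) ≤ t / 48 := by linarith
      _ = (t : ℝ) ^ 4 / 24 * ((1 / 2) * (1 / (t : ℝ) ^ 3)) := h4.symm
      _ ≤ _ := by gcongr
  have h5 : (nn t s : ℝ) / ((t.choose 2 : ℕ) : ℝ) ^ 2 * (1 + Real.log (((t.choose 2 : ℕ) : ℝ) ^ 2)) =
      nn t s * ((1 + Real.log (((t.choose 2 : ℕ) : ℝ) ^ 2)) / ((t.choose 2 : ℕ) : ℝ) ^ 2) := by ring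
  rw [h5]
  have h6 := mul_le_mul_of_nonneg_left h1 hn0
  linarith

theorem tb_log_nn {t s : ℕ} (hs : 4 * s ≤ t) {K : ℕ} (hK : 1 ≤ K) (h : K ≤ nn t s) :
    Real.log K ≤ 1.6 * t := by
  have h1 : (K : ℝ) ≤ 2 ^ (2 * t + s) := by
    have : K ≤ 2 ^ (2 * t + s) := h.trans (Nat.choose_le_two_pow _ _)
    exact_mod_cast this
  have h2 : Real.log K ≤ (2 * t + s : ℕ) * Real.log 2 := by
    rw [← Real.log_pow]
    exact Real.log_le_log (by exact_mod_cast hK) h1
  have h3 : ((2 * t + s : ℕ) : ℝ) ≤ 9 / 4 * t := by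
    have : (4 : ℝ) * s ≤ t := by exact_mod_cast hs
    push_cast
    linarith
  have h4 := Real.log_two_lt_d9
  have h5 : (0 : ℝ) ≤ t := by positivity
  have h6 := Real.log_two_gt_d9
  calc Real.log K ≤ (2 * t + s : ℕ) * Real.log 2 := h2
    _ ≤ 9 / 4 * t * Real.log 2 := by gcongr
    _ ≤ 9 / 4 * t * 0.6931471808 := by gcongr
    _ ≤ 1.6 * t := by nlinarith

theorem tb_sumball (t s J : ℕ) : ∑ j ∈ range (J + 1), NN t s j ≤ nn t s := by
  by_cases h : Nonempty (KV t s)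
  · obtain ⟨r⟩ := h
    rw [← card_ball r J, ← card_KV]
    exact card_le_univ _
  · exfalso
    apply h
    have : (univ : Finset (Fin (2 * t + s))).card ≥ t := by simp; omega
    obtain ⟨x, _, hx⟩ := Finset.exists_subset_card_eq this
    exact ⟨⟨x, hx⟩⟩

theorem tb_NN_pos {t s : ℕ} {j : ℕ} (h : j ≤ t) : 1 ≤ NN t s j := by
  unfold NN
  exact Nat.mul_pos (Nat.choose_pos h) (Nat.choose_pos (by omega))

theorem template_exists_aux
    (hsb : ∃ t0 : ℕ, ∀ t : ℕ, t0 ≤ t → ∀ δ : ℝ, 0 ≤ δ → δ ≤ 1 / (t : ℝ) ^ 3 → ∀ I : ℕ,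
      ∑ x ∈ range I, (4 : ℝ) ^ x * min δ (4 * t * (1 / 9) ^ x) ≤ 1 / 40000) :
    ∃ t0 : ℕ, ∀ t s I : ℕ, t0 ≤ t → 1 ≤ s → 4 * s ≤ t → 1 ≤ I → 2 * (I * s) ≤ t →
    (∀ j, s ≤ j → j ≤ I * s → 9 * NN t s (j - s) ≤ NN t s j) →
    ∃ T : Template (KG t s) (5 + 2 * I), 200 * T.loss univ 0 ≤ nn t s ∧
      T.R.card * NN t s (I * s) ≤ 4 * t * nn t s := by
  obtain ⟨ta, hta⟩ := hsb
  obtain ⟨tb, htb⟩ := tb_C1 (1 / 20000) (by norm_num)
  obtain ⟨tc, htc⟩ := tb_C2
  refine ⟨ta + tb + tc + 100, fun t s I ht hs hst hI hIs hr => ?_⟩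
  have ht1 : 1 ≤ t := by omega
  obtain ⟨C1, hC1, hC1c⟩ := tb_one (t := t) (s := s) ht1 hs
  have hC1n : (C1.card : ℝ) ≤ 1 / 20000 * nn t s := hC1c.trans (htb t s (by omega))
  obtain ⟨C2, hC2, hC2c⟩ := tb_code t s (2 * s) ((t.choose 2) ^ 2)
    (by
      have : 0 < t.choose 2 := Nat.choose_pos (by omega)
      exact Nat.pow_pos this)
    (by
      have h1 : (t.choose 2) ^ 2 ≤ NN t s (2 * s) := by
        unfold NN
        rw [sq]
        apply Nat.mul_le_mul
        · exact tb_half t 2 (2 * s) (by omega) (by omega)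
        · have h2 : t.choose 2 ≤ (t + s).choose 2 := Nat.choose_le_choose 2 (by omega)
          exact h2.trans (tb_half (t + s) 2 (2 * s) (by omega) (by omega))
      refine h1.trans ?_
      exact single_le_sum (f := fun j => NN t s j) (fun _ _ => Nat.zero_le _) (by simp))
  have hC2n : (C2.card : ℝ) ≤ nn t s * (1 / (t : ℝ) ^ 3) := hC2c.trans (htc t s (by omega))
  set K3 : ℕ := ∑ j ∈ range (I * s + 1), NN t s j with hK3
  have hK3n : K3 ≤ nn t s := tb_sumball t s (I * s)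
  have hNK : NN t s (I * s) ≤ K3 :=
    single_le_sum (f := fun j => NN t s j) (fun _ _ => Nat.zero_le _) (by simp)
  have hK3p : 1 ≤ K3 := (tb_NN_pos (by omega)).trans hNK
  obtain ⟨C3, hC3, hC3c⟩ := tb_code t s (I * s) K3 hK3p le_rfl
  have htR : (100 : ℝ) ≤ t := by exact_mod_cast (by omega : 100 ≤ t)
  have hn0 : (0 : ℝ) ≤ nn t s := by positivity
  have hK3R : (0 : ℝ) < K3 := by exact_mod_cast hK3p
  have hC3n : (C3.card : ℝ) * K3 ≤ 4 * t * nn t s := by
    have h1 := tb_log_nn (t := t) (s := s) hst hK3p hK3n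
    have h2 : (K3 : ℝ) ≤ nn t s := by exact_mod_cast hK3n
    calc (C3.card : ℝ) * K3 ≤ ((nn t s : ℝ) / K3 * (1 + Real.log K3) + 1) * K3 := by gcongr
      _ = nn t s * (1 + Real.log K3) + K3 := by field_simp
      _ ≤ nn t s * (1 + 1.6 * t) + nn t s := by gcongr
      _ = nn t s * (2 + 1.6 * t) := by ring
      _ ≤ nn t s * (4 * t) := by gcongr; linarith
      _ = 4 * t * nn t s := by ring
  have hC3N : C3.card * K3 ≤ 4 * t * nn t s := by exact_mod_cast hC3n
  -- the schedules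
  obtain ⟨B1, hB1, hB1c, hS1⟩ := tb_descend (t := t) (s := s) ht1 C2 2 C1 (fun v _ => hC2 v)
  obtain ⟨B2, hB2, hB2c, hS2⟩ := tb_descend (t := t) (s := s) ht1 C3 I B1 (fun v _ => hC3 v)
  have hS := ((Sch.one C1 hC1).comp hS1).comp hS2
  obtain ⟨T, hTR, hT⟩ := Sch.template hS
  refine ⟨T, ?_, ?_⟩
  · have hT0 := hT 0
    rw [zero_mul, add_zero] at hT0
    set m : ℕ → ℕ := fun x => if x < 1 + 2 * 2 then (if x < 1 then Fintype.card (KV t s) else
      (fun x => min C1.card (univ.filter (fun v : KV t s => ∃ c ∈ C2, jd v c ≤ (2 - x / 2) * s)).card)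
        (x - 1)) else (fun x => min B1.card
        (univ.filter (fun v : KV t s => ∃ c ∈ C3, jd v c ≤ (I - x / 2) * s)).card) (x - (1 + 2 * 2))
      with hm
    have hm1 : ∀ x, 1 ≤ x → x < 5 → m x ≤ C1.card := by
      intro x hx1 hx2
      simp only [hm]
      rw [if_pos (by omega), if_neg (by omega)]
      exact min_le_left _ _
    have hm2 : ∀ y, m (5 + y) = min B1.card
        (univ.filter (fun v : KV t s => ∃ c ∈ C3, jd v c ≤ (I - y / 2) * s)).card := by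
      intro y
      simp only [hm]
      rw [if_neg (by omega)]
      have : 5 + y - (1 + 2 * 2) = y := by omega
      rw [this]
    have hsum : ∑ x ∈ Ico 1 (1 + 2 * 2 + 2 * I), 2 ^ x * m x ≤ 30 * C1.card +
        ∑ x ∈ range I, 96 * 4 ^ x * min C2.card
          (univ.filter (fun v : KV t s => ∃ c ∈ C3, jd v c ≤ (I - x) * s)).card := by
      have e1 : Ico 1 (1 + 2 * 2 + 2 * I) = Ico 1 5 ∪ Ico 5 (5 + 2 * I) := by
        rw [Finset.Ico_union_Ico_eq_Ico (by omega) (by omega)]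
      rw [← Finset.sum_Ico_consecutive (fun x => 2 ^ x * m x) (show 1 ≤ 5 by omega)
        (show 5 ≤ 1 + 2 * 2 + 2 * I by omega)]
      apply Nat.add_le_add
      · have h1 : ∀ x ∈ Ico 1 5, 2 ^ x * m x ≤ 2 ^ x * C1.card := by
          intro x hx
          rw [mem_Ico] at hx
          exact Nat.mul_le_mul_left _ (hm1 x hx.1 hx.2)
        refine (sum_le_sum h1).trans ?_
        rw [← sum_mul]
        exact Nat.mul_le_mul_right _ (by decide)
      · rw [sum_Ico_eq_sum_range]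
        have e2 : 1 + 2 * 2 + 2 * I - 5 = 2 * I := by omega
        rw [e2, tb_pairs]
        apply sum_le_sum
        intro x _
        rw [hm2, hm2]
        have e3 : 2 * x / 2 = x := by omega
        have e4 : (2 * x + 1) / 2 = x := by omega
        rw [e3, e4]
        have hle : min B1.card
            (univ.filter (fun v : KV t s => ∃ c ∈ C3, jd v c ≤ (I - x) * s)).card ≤ min C2.card
            (univ.filter (fun v : KV t s => ∃ c ∈ C3, jd v c ≤ (I - x) * s)).card :=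
          min_le_min_right _ (card_le_card hB1)
        have e5 : 2 ^ (5 + 2 * x) + 2 ^ (5 + (2 * x + 1)) = 96 * 4 ^ x := by
          rw [show (4 : ℕ) = 2 ^ 2 by norm_num, ← pow_mul]
          ring
        calc _ = (2 ^ (5 + 2 * x) + 2 ^ (5 + (2 * x + 1))) * min B1.card
              (univ.filter (fun v : KV t s => ∃ c ∈ C3, jd v c ≤ (I - x) * s)).card := by ring
          _ ≤ _ := by rw [e5]; exact Nat.mul_le_mul_left _ hle
    have hnp : (0 : ℝ) < nn t s := by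
      have : 0 < nn t s := lt_of_lt_of_le hK3p hK3n
      exact_mod_cast this
    have hmin : ∀ x ∈ range I, ((96 * 4 ^ x * min C2.card
          (univ.filter (fun v : KV t s => ∃ c ∈ C3, jd v c ≤ (I - x) * s)).card : ℕ) : ℝ) ≤
        96 * nn t s * ((4 : ℝ) ^ x * min ((C2.card : ℝ) / nn t s) (4 * t * (1 / 9) ^ x)) := by
      intro x hx
      rw [mem_range] at hx
      have h1 := tb_near C3 ((I - x) * s)
      have h2 := tb_ball t s I hr x (by omega)
      rw [← hK3] at h2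
      have h3 : ((univ.filter (fun v : KV t s => ∃ c ∈ C3, jd v c ≤ (I - x) * s)).card : ℝ) ≤
          nn t s * (4 * t * (1 / 9) ^ x) := by
        have h4 : (9 ^ x * (univ.filter (fun v : KV t s => ∃ c ∈ C3, jd v c ≤ (I - x) * s)).card) ≤
            4 * t * nn t s := by
          calc _ ≤ 9 ^ x * (C3.card * ∑ j ∈ range ((I - x) * s + 1), NN t s j) :=
                Nat.mul_le_mul_left _ h1
            _ = C3.card * (9 ^ x * ∑ j ∈ range ((I - x) * s + 1), NN t s j) := by ring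
            _ ≤ C3.card * K3 := Nat.mul_le_mul_left _ h2
            _ ≤ _ := hC3N
        have h5 : ((9 : ℝ) ^ x * ((univ.filter (fun v : KV t s => ∃ c ∈ C3, jd v c ≤ (I - x) * s)).card : ℝ)) ≤
            4 * t * nn t s := by exact_mod_cast h4
        rw [one_div, inv_pow]
        have h9 : (0 : ℝ) < 9 ^ x := by positivity
        rw [show (nn t s : ℝ) * (4 * t * (9 ^ x)⁻¹) = (4 * t * nn t s) / 9 ^ x by ring,
          le_div_iff₀ h9]
        linarith
      push_cast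
      have h6 : min (C2.card : ℝ) ((univ.filter (fun v : KV t s => ∃ c ∈ C3, jd v c ≤ (I - x) * s)).card : ℝ) ≤
          nn t s * min ((C2.card : ℝ) / nn t s) (4 * t * (1 / 9) ^ x) := by
        rw [mul_min_of_nonneg _ _ hnp.le, mul_div_cancel₀ _ hnp.ne']
        exact min_le_min_left _ h3
      calc (96 : ℝ) * 4 ^ x * min (C2.card : ℝ) _ ≤ 96 * 4 ^ x *
            (nn t s * min ((C2.card : ℝ) / nn t s) (4 * t * (1 / 9) ^ x)) := by gcongr
        _ = _ := by ring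
    have hfin := hta t (by omega) ((C2.card : ℝ) / nn t s) (by positivity) (by
      rw [div_le_iff₀ hnp, mul_comm]; exact hC2n) I
    have hR : ((T.loss univ 0 : ℕ) : ℝ) ≤ 30 * C1.card + 96 * nn t s * (1 / 40000) := by
      calc ((T.loss univ 0 : ℕ) : ℝ) ≤ ((30 * C1.card + ∑ x ∈ range I, 96 * 4 ^ x * min C2.card
          (univ.filter (fun v : KV t s => ∃ c ∈ C3, jd v c ≤ (I - x) * s)).card : ℕ) : ℝ) := by
            exact_mod_cast hT0.trans hsum
        _ = 30 * C1.card + ∑ x ∈ range I, ((96 * 4 ^ x * min C2.card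
          (univ.filter (fun v : KV t s => ∃ c ∈ C3, jd v c ≤ (I - x) * s)).card : ℕ) : ℝ) := by
            rw [Nat.cast_add, Nat.cast_sum]; push_cast; ring
        _ ≤ 30 * C1.card + ∑ x ∈ range I, 96 * nn t s *
            ((4 : ℝ) ^ x * min ((C2.card : ℝ) / nn t s) (4 * t * (1 / 9) ^ x)) := by
            gcongr with x hx
            exact hmin x hx
        _ = 30 * C1.card + 96 * nn t s * ∑ x ∈ range I,
            ((4 : ℝ) ^ x * min ((C2.card : ℝ) / nn t s) (4 * t * (1 / 9) ^ x)) := by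
            rw [mul_sum]
        _ ≤ _ := by gcongr
    have : (200 : ℝ) * ((T.loss univ 0 : ℕ) : ℝ) ≤ nn t s := by linarith
    exact_mod_cast this
  · rw [hTR]
    calc B2.card * NN t s (I * s) ≤ C3.card * K3 := Nat.mul_le_mul (card_le_card hB2) hNK
      _ ≤ _ := hC3N

theorem template_exists_aux' : ∃ t0 : ℕ, ∀ t s : ℕ, t0 ≤ t → t ≤ 64 * s →
    ∃ T : Template (KG t s) 129, 200 * T.loss univ 0 ≤ nn t s ∧ T.R.card ≤ 1 := by
  obtain ⟨tb, htb⟩ := tb_C1 (1 / (200 * 2 ^ 129)) (by norm_num)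
  refine ⟨tb + 100, fun t s ht hts => ?_⟩
  have ht1 : 1 ≤ t := by omega
  obtain ⟨C1, hC1, hC1c⟩ := tb_one (t := t) (s := s) ht1 (by omega)
  have hC1n : (C1.card : ℝ) ≤ 1 / (200 * 2 ^ 129) * nn t s := hC1c.trans (htb t s (by omega))
  have hne : Nonempty (KV t s) := by
    have : t ≤ (univ : Finset (Fin (2 * t + s))).card := by simp; omega
    obtain ⟨x, _, hx⟩ := Finset.exists_subset_card_eq this
    exact ⟨⟨x, hx⟩⟩
  obtain ⟨r⟩ := hne
  obtain ⟨B1, hB1, hB1c, hS1⟩ := tb_descend (t := t) (s := s) ht1 {r} 64 C1 (by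
    intro v _
    exact ⟨r, by simp, (jd_le v r).trans hts⟩)
  obtain ⟨T, hTR, hT⟩ := Sch.template ((Sch.one C1 hC1).comp hS1)
  refine ⟨T, ?_, ?_⟩
  · have hT0 := hT 0
    rw [zero_mul, add_zero] at hT0
    have h1 : T.loss univ 0 ≤ 2 ^ 129 * C1.card := by
      refine hT0.trans ?_
      have h2 : ∀ x ∈ Ico 1 (1 + 2 * 64), 2 ^ x * (if x < 1 then Fintype.card (KV t s) else
        (fun x => min C1.card (univ.filter (fun v : KV t s => ∃ c ∈ ({r} : Finset (KV t s)),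
          jd v c ≤ (64 - x / 2) * s)).card) (x - 1)) ≤ 2 ^ x * C1.card := by
        intro x hx
        rw [mem_Ico] at hx
        refine Nat.mul_le_mul_left _ ?_
        rw [if_neg (by omega)]
        exact min_le_left _ _
      refine (sum_le_sum h2).trans ?_
      rw [← sum_mul]
      refine Nat.mul_le_mul_right _ ?_
      have h3 : ∑ x ∈ Ico 1 (1 + 2 * 64), 2 ^ x ≤ ∑ x ∈ range 129, 2 ^ x := by
        apply sum_le_sum_of_subset
        intro x hx
        rw [mem_Ico] at hx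
        rw [mem_range]
        omega
      refine h3.trans ?_
      exact (Nat.geomSum_lt (m := 2) (n := 129) (s := range 129) le_rfl
        (fun k hk => mem_range.1 hk)).le
    have h4 : (200 : ℝ) * ((T.loss univ 0 : ℕ) : ℝ) ≤ nn t s := by
      have h5 : ((T.loss univ 0 : ℕ) : ℝ) ≤ 2 ^ 129 * C1.card := by exact_mod_cast h1
      calc (200 : ℝ) * ((T.loss univ 0 : ℕ) : ℝ) ≤ 200 * (2 ^ 129 * C1.card) := by gcongr
        _ ≤ 200 * (2 ^ 129 * (1 / (200 * 2 ^ 129) * nn t s)) := by gcongr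
        _ = nn t s := by ring
    exact_mod_cast h4
  · rw [hTR]
    have := card_le_card hB1
    simpa using this

end Pool.Agent.Lib.MP_95cf8e_co
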