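import Pool.Agent.Lib.MP_95cf8e_co.TmplA
import Pool.Agent.Lib.MP_95cf8e_co.TmplB

/-! # Existence of templates -/

set_option autoImplicit false

namespace Pool.Agent.Lib.MP_95cf8e_co

open Finset
open scoped Classical

/-- **Template with a code of Johnson radius `I s` as root set.**
Codes from `greedy`: `C1` dominating (`K = t + 1`), `C2` of Johnson radius `2s`
(`K = (t.choose 2)^2 ≤ NN t s (2 * s)`), `C3` of Johnson radius `I * s` (`K` = ball size).
Schedule: `Sch.one` to `C1`; `Sch.descend` with `I = 2`, `Gd i = {v : jd v C2 ≤ i s}`; `Sch.descend`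
with `Gd i = {v : jd v C3 ≤ i s}`, `|Gd i| ≤ |C3| * ball (i s) ≤ |C3| ball(I s) 9^{i-I} ≤ 4 t n 9^{i-I}`.
Loss: `30 |C1| + ∑_{x<I} 96 * 4^x min(|C2|, 4 t n 9^{-x})`; use `sum_bound`. -/
theorem template_exists : ∃ t0 : ℕ, ∀ t s I : ℕ, t0 ≤ t → 1 ≤ s → 4 * s ≤ t → 1 ≤ I → 2 * (I * s) ≤ t →
    (∀ j, s ≤ j → j ≤ I * s → 9 * NN t s (j - s) ≤ NN t s j) →
    ∃ T : Template (KG t s) (5 + 2 * I), 200 * T.loss univ 0 ≤ nn t s ∧
      T.R.card * NN t s (I * s) ≤ 4 * t * nn t s :=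
  template_exists_aux sum_bound

/-- **Template with a single root**, for `s ≥ t / 64`: `Sch.one` to a dominating set `C1`
(`K = t + 1`), then `Sch.descend` with `Gd i = {v : jd v r ≤ i s}`, `I = 64`. Loss `≤ 2^129 |C1|`. -/
theorem template_exists' : ∃ t0 : ℕ, ∀ t s : ℕ, t0 ≤ t → t ≤ 64 * s →
    ∃ T : Template (KG t s) 129, 200 * T.loss univ 0 ≤ nn t s ∧ T.R.card ≤ 1 :=
  template_exists_aux'

end Pool.Agent.Lib.MP_95cf8e_co
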