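import Pool.Agent.Lib.MP_95cf8e_co.R0
import Pool.Agent.Lib.MP_95cf8e_co.Forest
import Pool.Agent.Lib.MP_95cf8e_co.Tmpl
import Pool.Agent.Lib.MP_95cf8e_co.NumL

/-! # Many zeros -/

set_option autoImplicit false

namespace Pool.Agent.Lib.MP_95cf8e_co

open Finset
open scoped Classical

variable {t s : ℕ}

theorem dense_core {D dd : ℕ} (T : Template (KG t s) D)
    (hT : 200 * T.loss univ 0 ≤ nn t s) (C : KV t s → ℕ) (hC : ∑ v, C v = nn t s) (r : KV t s)
    (hw : ∀ v w : KV t s, ∃ p : (KG t s).Walk v w, p.length ≤ dd)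
    (hR : T.R.card * (2 * 2 ^ D * 2 ^ dd) < zz C) :
    Gets (KG t s) C (Pi.single r 1) := by
  set Z := univ.filter (fun v : KV t s => C v = 0) with hZ
  have hzz : zz C = Z.card := rfl
  have hsur : Z.card = ∑ v, (C v - 1) := surplus_eq C (by rw [hC, card_KV])
  obtain ⟨T', hT'R, hT'⟩ := template_transport T Z 0
  have hnpos : 0 < nn t s := Nat.choose_pos (by omega)
  have hloss : 2 * T'.loss Z 0 ≤ Z.card := by
    by_contra hlt
    push Not at hlt
    have h1 : nn t s * (200 * T'.loss Z 0) ≤ Z.card * nn t s := by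
      calc nn t s * (200 * T'.loss Z 0) = 200 * (nn t s * T'.loss Z 0) := by ring
        _ ≤ 200 * (Z.card * T.loss univ 0) := Nat.mul_le_mul_left _ hT'
        _ = Z.card * (200 * T.loss univ 0) := by ring
        _ ≤ Z.card * nn t s := Nat.mul_le_mul_left _ hT
    have h2 : 200 * T'.loss Z 0 ≤ Z.card :=
      Nat.le_of_mul_le_mul_left (by rw [mul_comm (nn t s) Z.card]; exact h1) hnpos
    omega
  rcases forest T' univ C (by simp) with ⟨v, hv, _⟩ | ⟨d, hd1, hd2⟩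
  · exact absurd (mem_univ v) hv
  have h3 : ∑ v ∈ univ.filter (fun v => v ∉ T'.R ∧ 1 ≤ T'.off v ∧ C v = 0), 2 ^ T'.off v =
      T'.loss Z 0 := by
    rw [Template.loss, zero_mul, add_zero, hZ, filter_filter]
    apply sum_congr _ fun _ _ => rfl
    ext v
    simp only [mem_filter, mem_univ, true_and]
    tauto
  rw [← hsur, h3, inter_univ] at hd1
  obtain ⟨v, hv, hdv⟩ : ∃ v ∈ T'.R, 2 ^ dd ≤ d v := by
    by_contra hno
    push Not at hno
    have h4 : ∑ v ∈ T'.R, d v ≤ T'.R.card * 2 ^ dd := by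
      rw [← smul_eq_mul, ← sum_const]
      exact sum_le_sum fun v hv => (hno v hv).le
    have h5 : 2 ^ D * ∑ v ∈ T'.R, d v ≤ 2 ^ D * (T'.R.card * 2 ^ dd) := Nat.mul_le_mul_left _ h4
    rw [← hT'R, hzz] at hR
    have h6 : T'.R.card * (2 * 2 ^ D * 2 ^ dd) = 2 * (2 ^ D * (T'.R.card * 2 ^ dd)) := by ring
    omega
  obtain ⟨E, hE, _, hEg⟩ := hd2 v hv _ hdv
  obtain ⟨p, hp⟩ := hw v r
  refine (hEg.trans ?_).mono hE le_rfl
  refine (gets_walk p 1).mono ?_ le_rfl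
  apply Pi.single_le_single.2
  rw [mul_one]
  exact Nat.pow_le_pow_right (by norm_num) hp

/-- dense regime, `s ≤ √t` -/
theorem regimeD : ∃ t0 : ℕ, ∀ t s : ℕ, t0 ≤ t → 1 ≤ s → s * s ≤ t →
    ∀ C : KV t s → ℕ, ∑ v, C v = nn t s → ∀ r : KV t s, 2 ^ (19 * t) ≤ zz C ^ 10 →
    Gets (KG t s) C (Pi.single r 1) := by
  obtain ⟨t0, h0⟩ := template_exists
  obtain ⟨t1, h1⟩ := num4
  refine ⟨max (max t0 t1) 16, ?_⟩
  intro t s ht hs hst C hC r hz
  have ht0 : t0 ≤ t := le_trans (le_trans (le_max_left _ _) (le_max_left _ _)) ht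
  have ht1 : t1 ≤ t := le_trans (le_trans (le_max_right _ _) (le_max_left _ _)) ht
  have ht16 : 16 ≤ t := le_trans (le_max_right _ _) ht
  have h4s : 4 * s ≤ t := by nlinarith
  have hI : 1 ≤ t / (4 * s) := by
    rw [Nat.le_div_iff_mul_le (by omega)]
    omega
  have hI2 : 4 * (t / (4 * s) * s) ≤ t := by
    have := Nat.div_mul_le_self t (4 * s)
    nlinarith
  obtain ⟨T, hT1, hT2⟩ := h0 t s (t / (4 * s)) ht0 hs h4s hI (by omega)
    (fun j hj1 hj2 => ratio_small t s hs j hj1 (by omega))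
  refine dense_core T hT1 C hC r (fun v w => walk_le_t (by omega) hs v w) ?_
  have h2 := h1 t s (zz C) ht1 hs hst hz
  by_contra hlt
  push Not at hlt
  have h3 : (t.choose (t / (4 * s) * s)) ^ 2 ≤ NN t s (t / (4 * s) * s) := by
    rw [sq, NN]
    exact Nat.mul_le_mul_left _ (Nat.choose_le_choose _ (by omega))
  have h4 : zz C * (t.choose (t / (4 * s) * s)) ^ 2 ≤
      T.R.card * (2 * 2 ^ (5 + 2 * (t / (4 * s))) * 2 ^ t) * NN t s (t / (4 * s) * s) :=
    Nat.mul_le_mul hlt h3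
  have h5 : T.R.card * (2 * 2 ^ (5 + 2 * (t / (4 * s))) * 2 ^ t) * NN t s (t / (4 * s) * s) ≤
      8 * t * nn t s * 2 ^ (5 + 2 * (t / (4 * s)) + t) := by
    rw [pow_add _ (5 + 2 * (t / (4 * s))) t]
    calc T.R.card * (2 * 2 ^ (5 + 2 * (t / (4 * s))) * 2 ^ t) * NN t s (t / (4 * s) * s)
        = (T.R.card * NN t s (t / (4 * s) * s)) * (2 * (2 ^ (5 + 2 * (t / (4 * s))) * 2 ^ t)) := by
          ring
      _ ≤ (4 * t * nn t s) * (2 * (2 ^ (5 + 2 * (t / (4 * s))) * 2 ^ t)) :=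
          Nat.mul_le_mul_right _ hT2
      _ = _ := by ring
  omega

/-- all regimes for `s ≥ √t` -/
theorem regimeL : ∃ t0 : ℕ, ∀ t s : ℕ, t0 ≤ t → 1 ≤ s → t ≤ s * s →
    ∀ C : KV t s → ℕ, ∑ v, C v = nn t s → ∀ r : KV t s, C r = 0 →
    Gets (KG t s) C (Pi.single r 1) := by
  obtain ⟨t0, h0⟩ := template_exists
  obtain ⟨t1, h1⟩ := template_exists'
  obtain ⟨t2, h2⟩ := numL
  obtain ⟨t3, h3⟩ := numL'
  refine ⟨max (max t0 t1) (max (max t2 t3) 1000000), ?_⟩
  intro t s ht hs hst C hC r hr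
  simp only [max_le_iff] at ht
  obtain ⟨⟨ht0, ht1⟩, ⟨ht2, ht3⟩, ht4⟩ := ht
  have ht' : 1 ≤ t := by omega
  rcases le_total (20 * t * zz C) (kk t s) with hz | hz
  · exact regime0' ht' hs C hC r hr hz
  rcases le_total (64 * s) t with h64 | h64
  · -- middle `s`
    set I := (t / 2 - (Nat.sqrt t + 1)) / s with hI
    have hsq : Nat.sqrt t * Nat.sqrt t ≤ t := Nat.sqrt_le t
    have hsq' : 1000 * Nat.sqrt t ≤ t := by
      have : 1000 ≤ Nat.sqrt t := by
        rw [Nat.le_sqrt]; omega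
      nlinarith
    have hI1 : 1 ≤ I := by
      rw [hI, Nat.le_div_iff_mul_le (by omega)]
      omega
    have hI2 : I * s ≤ t / 2 - (Nat.sqrt t + 1) := Nat.div_mul_le_self _ _
    obtain ⟨T, hT1, hT2⟩ := h0 t s I ht0 hs (by omega) hI1 (by omega)
      (fun j hj1 hj2 => ratio_large t s ht' hst j hj1 (by omega))
    refine dense_core (dd := t / s + 3) T hT1 C hC r (fun v w => walk_le_ts ht' hs v w) ?_
    have h4 := h2 t s (zz C) ht2 hst h64 hz
    rw [← hI] at h4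
    by_contra hlt
    push Not at hlt
    have h5 : zz C * NN t s (I * s) ≤
        T.R.card * (2 * 2 ^ (5 + 2 * I) * 2 ^ (t / s + 3)) * NN t s (I * s) :=
      Nat.mul_le_mul_right _ hlt
    have h6 : T.R.card * (2 * 2 ^ (5 + 2 * I) * 2 ^ (t / s + 3)) * NN t s (I * s) ≤
        8 * t * nn t s * 2 ^ (5 + 2 * I + (t / s + 3)) := by
      rw [pow_add _ (5 + 2 * I) (t / s + 3)]
      calc T.R.card * (2 * 2 ^ (5 + 2 * I) * 2 ^ (t / s + 3)) * NN t s (I * s)
          = (T.R.card * NN t s (I * s)) * (2 * (2 ^ (5 + 2 * I) * 2 ^ (t / s + 3))) := by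
            ring
        _ ≤ (4 * t * nn t s) * (2 * (2 ^ (5 + 2 * I) * 2 ^ (t / s + 3))) :=
            Nat.mul_le_mul_right _ hT2
        _ = _ := by ring
    omega
  · -- `s ≥ t / 64`
    obtain ⟨T, hT1, hT2⟩ := h1 t s ht1 h64
    refine dense_core (dd := 67) T hT1 C hC r (fun v w => ?_) ?_
    · obtain ⟨p, hp⟩ := walk_le_ts ht' hs v w
      refine ⟨p, hp.trans ?_⟩
      have : t / s ≤ 64 := Nat.div_le_of_le_mul (by rw [mul_comm]; exact h64)
      omega
    · have h4 := h3 t s ht3 h64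
      have h5 : 2 ^ 200 < zz C := by
        by_contra hlt
        push Not at hlt
        have : 20 * t * zz C ≤ 20 * t * 2 ^ 200 := Nat.mul_le_mul_left _ hlt
        omega
      calc T.R.card * (2 * 2 ^ 129 * 2 ^ 67) ≤ 1 * (2 * 2 ^ 129 * 2 ^ 67) :=
            Nat.mul_le_mul_right _ hT2
        _ < 2 ^ 200 := by norm_num
        _ < zz C := h5

end Pool.Agent.Lib.MP_95cf8e_co
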