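import Pool.Agent.Lib.MP_95cf8e_co.Defs

/-! # Numerics for linearly many zeros, `s = 1` -/

set_option autoImplicit false

namespace Pool.Agent.Lib.MP_95cf8e_co

open Filter Topology

/-- numerics for `few_heavy` -/
theorem numS : ∃ t0 : ℕ, ∀ t b : ℕ, t0 ≤ t → b ≤ 29491200 * t →
    (1 / 4 + 1 / 800) * (((t / 8 + 1 + b : ℕ) : ℝ) * Real.logb 2 ((t / 8 + 1 + b : ℕ) : ℝ))
        + 50 * ((t / 8 + 1 : ℕ) : ℝ) < ((t / 8 + 1 : ℕ) : ℝ) * (t + 1) / 2 ∧
      (819200 * t) ^ 10 ≤ 2 ^ (19 * t) := by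
  -- `log x ≤ δ x` for large `x`
  have hlog : ∀ᶠ x : ℝ in atTop, Real.log x ≤ 1 / (128 * 29491202 ^ 2) * x := by
    have h := Real.isLittleO_log_id_atTop.bound (by norm_num : (0 : ℝ) < 1 / (128 * 29491202 ^ 2))
    filter_upwards [h, eventually_ge_atTop 1] with x hx hx1
    rw [Real.norm_of_nonneg (Real.log_nonneg hx1), id, Real.norm_of_nonneg (by linarith)] at hx
    exact hx
  obtain ⟨x0, hx0⟩ := eventually_atTop.mp hlog
  refine ⟨max (max 3200 (⌈x0⌉₊)) 1, fun t b ht hb => ?_⟩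
  simp only [max_le_iff] at ht
  obtain ⟨⟨ht1, ht2⟩, ht3⟩ := ht
  have htR : (3200 : ℝ) ≤ t := by exact_mod_cast ht1
  constructor
  · set K : ℝ := 29491202 with hK
    have hab : (((t / 8 + 1 + b : ℕ) : ℝ)) ≤ K * t := by
      have : t / 8 + 1 + b ≤ 29491202 * t := by omega
      have h2 : ((t / 8 + 1 + b : ℕ) : ℝ) ≤ ((29491202 * t : ℕ) : ℝ) := by exact_mod_cast this
      push_cast at h2 ⊢
      rw [hK]
      exact h2
    have hab1 : (1 : ℝ) ≤ ((t / 8 + 1 + b : ℕ) : ℝ) := by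
      exact_mod_cast (by omega : 1 ≤ t / 8 + 1 + b)
    have hKt : x0 ≤ K * t := by
      have h1 : x0 ≤ (⌈x0⌉₊ : ℝ) := Nat.le_ceil _
      have h2 : ((⌈x0⌉₊ : ℕ) : ℝ) ≤ t := by exact_mod_cast ht2
      have h3 : (t : ℝ) ≤ K * t := by rw [hK]; nlinarith
      linarith
    have h1 := hx0 (K * t) hKt
    have hl2 : (1 / 2 : ℝ) ≤ Real.log 2 := by
      have := Real.log_two_gt_d9
      linarith
    have hlb : Real.logb 2 ((t / 8 + 1 + b : ℕ) : ℝ) ≤ 2 * Real.log (K * t) := by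
      unfold Real.logb
      have h2 : Real.log ((t / 8 + 1 + b : ℕ) : ℝ) ≤ Real.log (K * t) :=
        Real.log_le_log (by linarith) hab
      have h3 : 0 ≤ Real.log (K * t) := Real.log_nonneg (hab1.trans hab)
      rw [div_le_iff₀ (by linarith)]
      nlinarith
    have hlb0 : 0 ≤ Real.logb 2 ((t / 8 + 1 + b : ℕ) : ℝ) := Real.logb_nonneg (by norm_num) hab1
    have hmul : ((t / 8 + 1 + b : ℕ) : ℝ) * Real.logb 2 ((t / 8 + 1 + b : ℕ) : ℝ)
        ≤ (t : ℝ) ^ 2 / 64 := by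
      calc ((t / 8 + 1 + b : ℕ) : ℝ) * Real.logb 2 ((t / 8 + 1 + b : ℕ) : ℝ)
          ≤ (K * t) * (2 * (1 / (128 * K ^ 2) * (K * t))) := by
            refine mul_le_mul hab (hlb.trans (by linarith)) hlb0 (by positivity)
        _ = (t : ℝ) ^ 2 / 64 := by
            rw [hK]; ring
    have ha : (t : ℝ) / 8 < ((t / 8 + 1 : ℕ) : ℝ) := by
      have h2 : t < 8 * (t / 8 + 1) := by omega
      have h3 : (t : ℝ) < ((8 * (t / 8 + 1) : ℕ) : ℝ) := by exact_mod_cast h2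
      push_cast at h3 ⊢
      linarith
    have ha2 : ((t / 8 + 1 : ℕ) : ℝ) ≤ t := by
      exact_mod_cast (by omega : t / 8 + 1 ≤ t)
    have hfin : (t : ℝ) ^ 2 / 16 < ((t / 8 + 1 : ℕ) : ℝ) * (t + 1) / 2 := by nlinarith
    have h0 : 0 ≤ ((t / 8 + 1 + b : ℕ) : ℝ) * Real.logb 2 ((t / 8 + 1 + b : ℕ) : ℝ) := by
      positivity
    have h50 : 50 * ((t / 8 + 1 : ℕ) : ℝ) ≤ (t : ℝ) ^ 2 / 64 := by nlinarith
    nlinarith
  · have h1 : 819200 * t ≤ 2 ^ t := by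
      have key : ∀ n : ℕ, 25 ≤ n → 819200 * n ≤ 2 ^ n := by
        intro n hn
        induction n, hn using Nat.le_induction with
        | base => norm_num
        | succ n hn ih =>
          rw [pow_succ]
          omega
      exact key t (by omega)
    calc (819200 * t) ^ 10 ≤ (2 ^ t) ^ 10 := Nat.pow_le_pow_left h1 10
      _ = 2 ^ (10 * t) := by rw [← pow_mul, mul_comm]
      _ ≤ 2 ^ (19 * t) := Nat.pow_le_pow_right (by norm_num) (by omega)

end Pool.Agent.Lib.MP_95cf8e_co
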