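import Mathlib

/-! # Relative local LYM inequality, via Kruskal–Katona

If a family `𝒜` of `r`-sets has at most `C(y,r)` members then its `i`-th shadow takes up at least
the same proportion of `C(y,r-i)`. -/

set_option autoImplicit false

namespace Pool.Agent.Lib.MP_95cf8e_co

open Finset Finset.Colex
open scoped FinsetFamily

/-- initial segments of the colex order of all smaller sizes -/
theorem exists_initSeg_subset {n r k : ℕ} (𝒞 : Finset (Finset (Fin n))) (h : IsInitSeg 𝒞 r)
    (hk : k ≤ 𝒞.card) : ∃ 𝒞' ⊆ 𝒞, IsInitSeg 𝒞' r ∧ 𝒞'.card = k := by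
  obtain ⟨m, hm⟩ : ∃ m, 𝒞.card = k + m := ⟨𝒞.card - k, by omega⟩
  clear hk
  induction m generalizing 𝒞 with
  | zero => exact ⟨𝒞, Subset.rfl, h, by omega⟩
  | succ m ih =>
    have hne : 𝒞.Nonempty := by
      rw [← card_pos]; omega
    obtain ⟨M, hM, hmax⟩ := exists_max_image 𝒞 toColex hne
    have h1 : IsInitSeg (𝒞.erase M) r := by
      refine ⟨fun s hs => h.1 (mem_of_mem_erase hs), ?_⟩
      intro s t hs ht
      have hs' := mem_of_mem_erase hs
      refine mem_erase.2 ⟨?_, h.2 hs' ht⟩
      rintro rfl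
      exact absurd ht.1 (not_lt.2 (hmax s hs'))
    obtain ⟨𝒞', h2, h3, h4⟩ := ih (𝒞.erase M) h1 (by rw [card_erase_of_mem hM]; omega)
    exact ⟨𝒞', h2.trans (erase_subset _ _), h3, h4⟩

/-- all `r`-subsets of `{0,…,y-1}` form an initial segment -/
theorem isInitSeg_powersetCard {n r y : ℕ} (hy : y ≤ n) :
    ∃ S : Finset (Fin n), S.card = y ∧ IsInitSeg (powersetCard r S) r := by
  refine ⟨attachFin (range y) fun m ↦ by rw [mem_range]; omega, by simp, ?_, ?_⟩
  · exact Set.sized_powersetCard _ _
  · intro A B hA hB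
    obtain ⟨HB₁, HB₂⟩ := hB
    rw [mem_powersetCard] at hA ⊢
    refine ⟨fun t ht ↦ ?_, ‹_›⟩
    rw [mem_attachFin, mem_range]
    have : toColex (image Fin.val B) < toColex (image Fin.val A) := by
      rwa [toColex_image_lt_toColex_image Fin.val_strictMono]
    apply Colex.forall_lt_mono this.le _ t (mem_image.2 ⟨t, ht, rfl⟩)
    simp_rw [mem_image]
    rintro _ ⟨a, ha, hab⟩
    simpa [hab] using hA.1 ha

/-- local LYM inside a set `S` of size `y` -/
theorem local_lym_in {n r y : ℕ} (S : Finset (Fin n)) (hS : S.card = y)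
    (𝒞 : Finset (Finset (Fin n))) (h𝒞 : 𝒞 ⊆ powersetCard r S) :
    𝒞.card * r ≤ (∂ 𝒞).card * (y - (r - 1)) := by
  classical
  have hsz : (𝒞 : Set (Finset (Fin n))).Sized r := fun s hs => (mem_powersetCard.1 (h𝒞 hs)).2
  refine card_mul_le_card_mul' (· ⊆ ·) (fun s hs => ?_) (fun s hs => ?_)
  · rw [← hsz hs, ← card_image_of_injOn s.erase_injOn]
    refine card_le_card ?_
    simp_rw [image_subset_iff, mem_bipartiteBelow]
    exact fun a ha => ⟨erase_mem_shadow hs ha, erase_subset _ _⟩
  · obtain ⟨u, hu, a, ha, hua⟩ := mem_shadow_iff.1 hs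
    have hsS : s ⊆ S := by
      rw [← hua]
      exact (erase_subset _ _).trans (mem_powersetCard.1 (h𝒞 hu)).1
    have hsc : s.card = r - 1 := by
      rw [← hua, card_erase_of_mem ha, hsz hu]
    have hr : 1 ≤ r := by
      rw [← hsz hu]; exact card_pos.2 ⟨a, ha⟩
    have h1 : (S \ s).card = y - (r - 1) := by
      rw [card_sdiff_of_subset hsS, hS, hsc]
    rw [← h1, ← card_image_of_injOn (f := fun a => insert a s) (s := S \ s)]
    · refine card_le_card fun t ht => ?_
      rw [mem_bipartiteAbove] at ht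
      have h2 := mem_powersetCard.1 (h𝒞 ht.1)
      obtain ⟨b, hb, rfl⟩ := exists_eq_insert_iff.2 ⟨ht.2, by rw [hsc, h2.2]; omega⟩
      exact mem_image_of_mem _ (mem_sdiff.2 ⟨h2.1 (mem_insert_self _ _), hb⟩)
    · intro b hb c hc hbc
      have hb' := (mem_sdiff.1 hb).2
      have hc' := (mem_sdiff.1 hc).2
      have : b ∈ insert c s := by
        rw [← (show insert b s = insert c s from hbc)]; exact mem_insert_self _ _
      rcases mem_insert.1 this with h | h
      · exact h
      · exact absurd h hb'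

theorem shadow_subset_powersetCard {n r : ℕ} (S : Finset (Fin n))
    (𝒞 : Finset (Finset (Fin n))) (h𝒞 : 𝒞 ⊆ powersetCard r S) : ∂ 𝒞 ⊆ powersetCard (r - 1) S := by
  intro s hs
  obtain ⟨u, hu, a, ha, hua⟩ := mem_shadow_iff.1 hs
  have h2 := mem_powersetCard.1 (h𝒞 hu)
  rw [mem_powersetCard, ← hua, card_erase_of_mem ha, h2.2]
  exact ⟨(erase_subset _ _).trans h2.1, rfl⟩

theorem iter_lym_in {n y : ℕ} (S : Finset (Fin n)) (hS : S.card = y) (i : ℕ) :
    ∀ r : ℕ, r ≤ y → i ≤ r → ∀ 𝒞 : Finset (Finset (Fin n)), 𝒞 ⊆ powersetCard r S →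
    𝒞.card * y.choose (r - i) ≤ (∂^[i] 𝒞).card * y.choose r := by
  induction i with
  | zero => intro r _ _ 𝒞 _; simp
  | succ i ih =>
    intro r hry hir 𝒞 h𝒞
    have h1 := local_lym_in S hS 𝒞 h𝒞
    have h2 := ih (r - 1) (by omega) (by omega) (∂ 𝒞) (shadow_subset_powersetCard S 𝒞 h𝒞)
    rw [Function.iterate_succ_apply]
    obtain ⟨q, rfl⟩ : ∃ q, r = q + 1 := ⟨r - 1, by omega⟩
    simp only [Nat.add_sub_cancel] at h1 h2
    have h3 : q - i = q + 1 - (i + 1) := by omega
    rw [h3] at h2
    have h4 : y.choose (q + 1) * (q + 1) = y.choose q * (y - q) := Nat.choose_succ_right_eq y q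
    -- C * (q+1) ≤ D * (y - q);  D * ch ≤ E * choose q
    have h5 : (𝒞.card * y.choose (q + 1 - (i + 1))) * (q + 1) * y.choose q ≤
        ((∂^[i] (∂ 𝒞)).card * y.choose (q + 1)) * (q + 1) * y.choose q := by
      calc (𝒞.card * y.choose (q + 1 - (i + 1))) * (q + 1) * y.choose q
          = (𝒞.card * (q + 1)) * (y.choose (q + 1 - (i + 1)) * y.choose q) := by ring
        _ ≤ ((∂ 𝒞).card * (y - q)) * (y.choose (q + 1 - (i + 1)) * y.choose q) :=
            Nat.mul_le_mul_right _ h1
        _ = ((∂ 𝒞).card * y.choose (q + 1 - (i + 1))) * (y.choose q * (y - q)) := by ring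
        _ ≤ ((∂^[i] (∂ 𝒞)).card * y.choose q) * (y.choose q * (y - q)) :=
            Nat.mul_le_mul_right _ h2
        _ = ((∂^[i] (∂ 𝒞)).card * y.choose (q + 1)) * (q + 1) * y.choose q := by
            rw [← h4]; ring
    have h6 : 0 < (q + 1) * y.choose q := Nat.mul_pos (by omega) (Nat.choose_pos (by omega))
    rw [mul_assoc, mul_assoc (((∂^[i] (∂ 𝒞)).card * y.choose (q + 1)))] at h5
    exact Nat.le_of_mul_le_mul_right h5 h6

/-- **Relative LYM.** -/
theorem kk_lym {n r i y : ℕ} (𝒜 : Finset (Finset (Fin n)))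
    (h𝒜 : (𝒜 : Set (Finset (Fin n))).Sized r) (hir : i ≤ r) (hry : r ≤ y) (hyn : y ≤ n)
    (hcard : 𝒜.card ≤ y.choose r) :
    𝒜.card * y.choose (r - i) ≤ (∂^[i] 𝒜).card * y.choose r := by
  obtain ⟨S, hS, hinit⟩ := isInitSeg_powersetCard (r := r) hyn
  obtain ⟨𝒞, hsub, h𝒞, hc⟩ := exists_initSeg_subset (k := 𝒜.card) _ hinit (by
    rw [card_powersetCard, hS]; exact hcard)
  have h1 := iter_lym_in S hS i r hry hir 𝒞 hsub
  have h2 := iterated_kk (k := i) h𝒜 hc.le h𝒞
  rw [hc] at h1
  exact h1.trans (Nat.mul_le_mul_right _ h2)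

/-- upper entropy bound for a binomial coefficient: `n^n ≤ (n+1) C(n,k) k^k (n-k)^(n-k)` -/
theorem choose_entropy (k l : ℕ) :
    (k + l) ^ (k + l) ≤ (k + l + 1) * ((k + l).choose k * k ^ k * l ^ l) := by
  -- the terms of the binomial expansion of `(k+l)^(k+l)`
  have hterm : ∀ j, j ≤ k + l → k ^ j * l ^ (k + l - j) * (k + l).choose j ≤
      k ^ k * l ^ l * (k + l).choose k := by
    intro j hj
    rcases le_total k j with h | h
    · -- go down from `j` to `k`
      induction j, h using Nat.le_induction with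
      | base => simp
      | succ j hkj ih =>
        refine le_trans ?_ (ih (by omega))
        obtain ⟨e, he⟩ : ∃ e, k + l = j + 1 + e := ⟨k + l - (j + 1), by omega⟩
        have h1 : k + l - (j + 1) = e := by omega
        have h2 : k + l - j = e + 1 := by omega
        rw [h1, h2]
        have h3 : (k + l).choose (j + 1) * (j + 1) = (k + l).choose j * (k + l - j) :=
          Nat.choose_succ_right_eq _ _
        rw [h2] at h3
        -- k * (e+1) ≤ l * (j+1)
        have h4 : k * (e + 1) ≤ l * (j + 1) := by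
          have : k ≤ j := hkj
          have h5 : l = j + 1 + e - k := by omega
          have h6 : e + 1 ≤ l := by omega
          have h7 : k ≤ j + 1 := by omega
          calc k * (e + 1) ≤ (j + 1) * l := Nat.mul_le_mul h7 h6
            _ = l * (j + 1) := by ring
        have h5 : (k ^ (j + 1) * l ^ e * (k + l).choose (j + 1)) * (j + 1) ≤
            (k ^ j * l ^ (e + 1) * (k + l).choose j) * (j + 1) := by
          calc (k ^ (j + 1) * l ^ e * (k + l).choose (j + 1)) * (j + 1)
              = (k ^ (j + 1) * l ^ e) * ((k + l).choose (j + 1) * (j + 1)) := by ring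
            _ = (k ^ j * l ^ e * (k + l).choose j) * (k * (e + 1)) := by rw [h3]; ring
            _ ≤ (k ^ j * l ^ e * (k + l).choose j) * (l * (j + 1)) := Nat.mul_le_mul_left _ h4
            _ = (k ^ j * l ^ (e + 1) * (k + l).choose j) * (j + 1) := by ring
        exact Nat.le_of_mul_le_mul_right h5 (by omega)
    · -- go up from `j` to `k`
      obtain ⟨d, rfl⟩ : ∃ d, k = j + d := ⟨k - j, by omega⟩
      clear h
      induction d generalizing j with
      | zero => simp
      | succ d ih =>
        have ih' := ih (j + 1) (by omega)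
        have e1 : j + 1 + d = j + (d + 1) := by ring
        rw [e1] at ih'
        refine le_trans ?_ ih'
        set K := j + (d + 1) with hK
        obtain ⟨e, he⟩ : ∃ e, K + l = j + 1 + e := ⟨K + l - (j + 1), by omega⟩
        have h1 : K + l - (j + 1) = e := by omega
        have h2 : K + l - j = e + 1 := by omega
        rw [h1, h2]
        have h3 : (K + l).choose (j + 1) * (j + 1) = (K + l).choose j * (K + l - j) :=
          Nat.choose_succ_right_eq _ _
        rw [h2] at h3
        have h4 : l * (j + 1) ≤ K * (e + 1) := by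
          have h6 : l ≤ e + 1 := by omega
          have h7 : j + 1 ≤ K := by omega
          calc l * (j + 1) ≤ (e + 1) * K := Nat.mul_le_mul h6 h7
            _ = K * (e + 1) := by ring
        have h5 : (K ^ j * l ^ (e + 1) * (K + l).choose j) * (j + 1) ≤
            (K ^ (j + 1) * l ^ e * (K + l).choose (j + 1)) * (j + 1) := by
          calc (K ^ j * l ^ (e + 1) * (K + l).choose j) * (j + 1)
              = (K ^ j * l ^ e * (K + l).choose j) * (l * (j + 1)) := by ring
            _ ≤ (K ^ j * l ^ e * (K + l).choose j) * (K * (e + 1)) := Nat.mul_le_mul_left _ h4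
            _ = (K ^ (j + 1) * l ^ e) * ((K + l).choose (j + 1) * (j + 1)) := by rw [h3]; ring
            _ = (K ^ (j + 1) * l ^ e * (K + l).choose (j + 1)) * (j + 1) := by ring
        exact Nat.le_of_mul_le_mul_right h5 (by omega)
  calc (k + l) ^ (k + l) = ∑ j ∈ range (k + l + 1), k ^ j * l ^ (k + l - j) * (k + l).choose j :=
        add_pow k l (k + l)
    _ ≤ ∑ _j ∈ range (k + l + 1), k ^ k * l ^ l * (k + l).choose k := by
        apply sum_le_sum
        intro j hj
        exact hterm j (by have := mem_range.1 hj; omega)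
    _ = (k + l + 1) * ((k + l).choose k * k ^ k * l ^ l) := by
        rw [sum_const, card_range, smul_eq_mul]; ring

end Pool.Agent.Lib.MP_95cf8e_co
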