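import Pool.Agent.Lib.MP_95cf8e_co.KBasic
import Pool.Agent.Lib.MP_95cf8e_co.KK

/-! # Isoperimetry in the Kneser graph -/

set_option autoImplicit false

namespace Pool.Agent.Lib.MP_95cf8e_co

open Finset
open scoped FinsetFamily

variable {t s : ℕ}

/-- **Isoperimetry.** If all neighbours of `A` lie in `B` and `|A| ≤ C(y,t+s)` then
`|A| C(y,t) ≤ |B| C(y,t+s)`. -/
theorem kneser_lym (ht : 1 ≤ t) (y : ℕ) (hy : t + s ≤ y) (hy' : y ≤ 2 * t + s)
    (A B : Finset (KV t s)) (hAB : ∀ a ∈ A, ∀ b, (KG t s).Adj a b → b ∈ B)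
    (hc : A.card ≤ y.choose (t + s)) :
    A.card * y.choose t ≤ B.card * y.choose (t + s) := by
  classical
  set 𝒜 : Finset (Finset (Fin (2 * t + s))) := A.image (fun v => v.1ᶜ) with h𝒜
  have hinj : Function.Injective (fun v : KV t s => v.1ᶜ) := by
    intro v w h
    exact Subtype.ext (compl_injective h)
  have hcard : 𝒜.card = A.card := card_image_of_injective _ hinj
  have hsz : (𝒜 : Set (Finset (Fin (2 * t + s)))).Sized (t + s) := by
    intro u hu
    obtain ⟨v, -, rfl⟩ := mem_image.1 (mem_coe.1 hu)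
    rw [card_compl, v.2, Fintype.card_fin]
    omega
  have h1 := kk_lym (i := s) 𝒜 hsz (by omega) hy hy' (by rw [hcard]; exact hc)
  rw [hcard, Nat.add_sub_cancel] at h1
  refine h1.trans (Nat.mul_le_mul_right _ ?_)
  rw [← card_image_of_injective B Subtype.val_injective]
  refine card_le_card ?_
  intro w hw
  obtain ⟨u, hu, hwu, hcu⟩ := mem_shadow_iterate_iff_exists_sdiff.1 hw
  obtain ⟨v, hv, rfl⟩ := mem_image.1 hu
  have hwc : w.card = t := by
    have h2 := card_sdiff_add_card_eq_card hwu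
    rw [hcu, card_compl, v.2, Fintype.card_fin] at h2
    omega
  refine mem_image.2 ⟨⟨w, hwc⟩, hAB v hv _ ?_, rfl⟩
  rw [kadj ht]
  exact (disjoint_compl_left (a := v.1)).symm.mono_right hwu

/-- the ratio of the two layers in a ground set of size `t + s + k` -/
theorem layer_ratio (ht : 1 ≤ t) (hs : 1 ≤ s) (k : ℕ) (hk : k ≤ t) :
    (t + 1) * (t + s + k).choose (t + s) ≤ (k + 1) * (t + s + k).choose t := by
  -- induct on `s`
  induction s, hs using Nat.le_induction with
  | base =>
    have h1 : (t + 1 + k).choose (t + 1) * (t + 1) = (t + 1 + k).choose t * (t + 1 + k - t) :=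
      Nat.choose_succ_right_eq _ _
    rw [show t + 1 + k - t = k + 1 by omega] at h1
    rw [mul_comm, h1, mul_comm]
  | succ s hs ih =>
    -- C(n+1, t+s+1) (t+s+1) = (n+1) C(n, t+s);  C(n+1, t) (s+1+k) = (n+1) C(n, t)
    have h1 : (t + s + k + 1) * (t + s + k).choose (t + s) =
        (t + s + k + 1).choose (t + s + 1) * (t + s + 1) := Nat.add_one_mul_choose_eq _ _
    have h2 : (t + s + k + 1).choose t * (t + s + k + 1 - t) =
        (t + s + k + 1) * (t + s + k).choose t := by
      have h3 := Nat.add_one_mul_choose_eq (t + s + k) (s + k)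
      have h4 : (t + s + k).choose (s + k) = (t + s + k).choose t := by
        rw [← Nat.choose_symm_of_eq_add]; ring
      have h5 : (t + s + k + 1).choose (s + k + 1) = (t + s + k + 1).choose t := by
        rw [← Nat.choose_symm_of_eq_add]; ring
      rw [h4, h5] at h3
      rw [h3]
      congr 1
      omega
    have e1 : t + (s + 1) + k = t + s + k + 1 := by ring
    have e2 : t + (s + 1) = t + s + 1 := by ring
    have e3 : t + s + k + 1 - t = s + k + 1 := by omega
    rw [e1, e2]
    rw [e3] at h2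
    have h6 : ((t + 1) * (t + s + k + 1).choose (t + s + 1)) * ((t + s + 1) * (s + k + 1)) ≤
        ((k + 1) * (t + s + k + 1).choose t) * ((t + s + 1) * (s + k + 1)) := by
      calc ((t + 1) * (t + s + k + 1).choose (t + s + 1)) * ((t + s + 1) * (s + k + 1))
          = (t + 1) * ((t + s + k + 1).choose (t + s + 1) * (t + s + 1)) * (s + k + 1) := by ring
        _ = ((t + 1) * (t + s + k).choose (t + s)) * ((t + s + k + 1) * (s + k + 1)) := by
            rw [← h1]; ring
        _ ≤ ((k + 1) * (t + s + k).choose t) * ((t + s + k + 1) * (s + k + 1)) :=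
            Nat.mul_le_mul_right _ ih
        _ = (k + 1) * ((t + s + k + 1) * (t + s + k).choose t) * (s + k + 1) := by ring
        _ = ((k + 1) * (t + s + k + 1).choose t) * ((s + k + 1) * (s + k + 1)) := by
            rw [← h2]; ring
        _ ≤ ((k + 1) * (t + s + k + 1).choose t) * ((t + s + 1) * (s + k + 1)) := by
            apply Nat.mul_le_mul_left
            apply Nat.mul_le_mul_right
            omega
    exact Nat.le_of_mul_le_mul_right h6 (by positivity)

/-- small sets expand by the factor `(t+1)/(k+1)` -/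
theorem kneser_expand (ht : 1 ≤ t) (hs : 1 ≤ s) (k : ℕ) (hk : k ≤ t)
    (A B : Finset (KV t s)) (hAB : ∀ a ∈ A, ∀ b, (KG t s).Adj a b → b ∈ B)
    (hc : A.card ≤ (t + 1 + k).choose k) :
    (t + 1) * A.card ≤ (k + 1) * B.card := by
  have hc' : A.card ≤ (t + s + k).choose (t + s) := by
    rw [Nat.choose_symm_add]
    exact hc.trans (Nat.choose_le_choose _ (by omega))
  have h1 := kneser_lym ht (t + s + k) (by omega) (by omega) A B hAB hc'
  have h2 := layer_ratio ht hs k hk
  have h3 : 0 < (t + s + k).choose (t + s) := Nat.choose_pos (by omega)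
  have h4 : ((t + 1) * A.card) * (t + s + k).choose (t + s) ≤
      ((k + 1) * B.card) * (t + s + k).choose (t + s) := by
    calc ((t + 1) * A.card) * (t + s + k).choose (t + s)
        = A.card * ((t + 1) * (t + s + k).choose (t + s)) := by ring
      _ ≤ A.card * ((k + 1) * (t + s + k).choose t) := Nat.mul_le_mul_left _ h2
      _ = (k + 1) * (A.card * (t + s + k).choose t) := by ring
      _ ≤ (k + 1) * (B.card * (t + s + k).choose (t + s)) := Nat.mul_le_mul_left _ h1
      _ = ((k + 1) * B.card) * (t + s + k).choose (t + s) := by ring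
  exact Nat.le_of_mul_le_mul_right h4 h3

/-- `logb 2 x ≤ x / c * 1.5 + e` for `c = 2 ^ e` -/
theorem logb_le_lin (x : ℝ) (hx : 0 < x) (e : ℕ) :
    Real.logb 2 x ≤ 1.5 * (x / 2 ^ e) + e := by
  have h2 : (0 : ℝ) < 2 ^ e := by positivity
  have h1 : Real.logb 2 x = Real.logb 2 (x / 2 ^ e) + e := by
    rw [Real.logb_div hx.ne' h2.ne', Real.logb_pow, Real.logb_self_eq_one (by norm_num)]
    ring
  rw [h1]
  have h3 : Real.log (x / 2 ^ e) ≤ x / 2 ^ e - 1 := Real.log_le_sub_one_of_pos (by positivity)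
  have h4 : (2 / 3 : ℝ) < Real.log 2 := by
    have := Real.log_two_gt_d9; norm_num at this ⊢; linarith
  have h5 : Real.logb 2 (x / 2 ^ e) ≤ 1.5 * (x / 2 ^ e) := by
    rw [Real.logb, div_le_iff₀ (by linarith)]
    have h6 : 0 < x / 2 ^ e := by positivity
    nlinarith
  linarith

/-- lower bound for a binomial coefficient, in logarithmic form -/
theorem logb_choose_ge (a b q N E : ℕ) (hb : 1 ≤ b) (ha : 1 ≤ a)
    (hNE : 2 ^ E * (a ^ (a * N) * b ^ (b * N)) ≤ (a + b) ^ ((a + b) * N)) (hN : 1 ≤ N) (hq : 1 ≤ q) :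
    (E : ℝ) / N * q ≤ Real.logb 2 ((((a + b) * q + 1 : ℕ) : ℝ) * (((a + b) * q).choose (a * q) : ℝ)) := by
  have h1 := choose_entropy (a * q) (b * q)
  have e1 : a * q + b * q = (a + b) * q := by ring
  rw [e1] at h1
  -- take N-th powers
  set C := ((a + b) * q).choose (a * q) with hC
  have hCpos : 0 < C := Nat.choose_pos (by nlinarith)
  have h2 : 2 ^ (E * q) ≤ (((a + b) * q + 1) * C) ^ N := by
    have h3 : (2 ^ E * (a ^ (a * N) * b ^ (b * N))) ^ q ≤ ((a + b) ^ ((a + b) * N)) ^ q :=
      Nat.pow_le_pow_left hNE q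
    have h4 : (((a + b) * q) ^ ((a + b) * q)) ^ N ≤
        (((a + b) * q + 1) * (C * (a * q) ^ (a * q) * (b * q) ^ (b * q))) ^ N :=
      Nat.pow_le_pow_left h1 N
    have h5 : (0 : ℕ) < (a ^ (a * N) * b ^ (b * N)) ^ q := by positivity
    have h6 : (0 : ℕ) < q ^ ((a + b) * q * N) := by positivity
    have h7 : (2 ^ (E * q) * (a ^ (a * N) * b ^ (b * N)) ^ q) * q ^ ((a + b) * q * N) ≤
        ((((a + b) * q + 1) * C) ^ N * (a ^ (a * N) * b ^ (b * N)) ^ q) * q ^ ((a + b) * q * N) := by
      calc (2 ^ (E * q) * (a ^ (a * N) * b ^ (b * N)) ^ q) * q ^ ((a + b) * q * N)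
          = (2 ^ E * (a ^ (a * N) * b ^ (b * N))) ^ q * q ^ ((a + b) * q * N) := by
            rw [mul_pow (2 ^ E), ← pow_mul]
        _ ≤ ((a + b) ^ ((a + b) * N)) ^ q * q ^ ((a + b) * q * N) := Nat.mul_le_mul_right _ h3
        _ = (((a + b) * q) ^ ((a + b) * q)) ^ N := by
            rw [← pow_mul, ← pow_mul, mul_pow]
            ring_nf
        _ ≤ _ := h4
        _ = ((((a + b) * q + 1) * C) ^ N * (a ^ (a * N) * b ^ (b * N)) ^ q) *
            q ^ ((a + b) * q * N) := by
            simp only [mul_pow, ← pow_mul]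
            ring
    exact Nat.le_of_mul_le_mul_right (Nat.le_of_mul_le_mul_right h7 h6) h5
  have h8 : ((2 : ℝ)) ^ (E * q) ≤ ((((a + b) * q + 1 : ℕ) : ℝ) * (C : ℝ)) ^ N := by
    exact_mod_cast h2
  have h9 := Real.logb_le_logb_of_le (b := 2) (by norm_num) (by positivity) h8
  rw [Real.logb_pow, Real.logb_pow, Real.logb_self_eq_one (by norm_num), mul_one] at h9
  have hNpos : (0 : ℝ) < N := by exact_mod_cast hN
  rw [div_mul_eq_mul_div, div_le_iff₀ hNpos]
  push_cast at h9 ⊢
  linarith

/-- small sets expand by a factor 1.07 -/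
theorem expand (ht : 35000 ≤ t) (hs : 1 ≤ s) (A B : Finset (KV t s))
    (hAB : ∀ a ∈ A, ∀ b, (KG t s).Adj a b → b ∈ B)
    (hlog : Real.logb 2 ((A.card + B.card : ℕ) : ℝ) ≤ 1.92 * t) :
    1.07 * (A.card : ℝ) ≤ B.card := by
  rcases Nat.eq_zero_or_pos A.card with hA | hA
  · rw [hA]; simp
  set q := t / 15 with hq
  have hq1 : 15 * q ≤ t := by omega
  have hq2 : t ≤ 15 * q + 14 := by omega
  have hq3 : 2333 ≤ q := by omega
  have hcard : A.card ≤ (t + 1 + 14 * q).choose (14 * q) := by
    by_contra hcon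
    push Not at hcon
    have h1 : (29 * q).choose (14 * q) ≤ (t + 1 + 14 * q).choose (14 * q) :=
      Nat.choose_le_choose _ (by omega)
    have h2 : ((29 * q).choose (14 * q) : ℝ) ≤ ((A.card + B.card : ℕ) : ℝ) := by
      exact_mod_cast (h1.trans hcon.le).trans (Nat.le_add_right _ _)
    have h3 := logb_choose_ge 14 15 q 8 231 (by norm_num) (by norm_num) (by norm_num)
      (by norm_num) (by omega)
    norm_num at h3
    have hC : (0 : ℝ) < ((29 * q).choose (14 * q) : ℝ) := by
      exact_mod_cast Nat.choose_pos (by omega)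
    rw [Real.logb_mul (by positivity) hC.ne'] at h3
    have h4 : Real.logb 2 ((29 * q).choose (14 * q) : ℝ) ≤ 1.92 * t :=
      (Real.logb_le_logb_of_le (by norm_num) hC h2).trans hlog
    have h5 := logb_le_lin (29 * (q : ℝ) + 1) (by positivity) 12
    have h6 : (t : ℝ) ≤ 15 * q + 14 := by exact_mod_cast hq2
    have h7 : (2333 : ℝ) ≤ q := by exact_mod_cast hq3
    norm_num at h5 h4
    linarith
  have h1 := kneser_expand (by omega) hs (14 * q) (by omega) A B hAB hcard
  have h2 : ((t + 1 : ℕ) : ℝ) * A.card ≤ ((14 * q + 1 : ℕ) : ℝ) * B.card := by exact_mod_cast h1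
  have h3 : (15 * (q : ℝ)) ≤ t := by exact_mod_cast hq1
  have h7 : (2333 : ℝ) ≤ q := by exact_mod_cast hq3
  push_cast at h2
  have h4 : (1.07 : ℝ) * (14 * q + 1) ≤ t + 1 := by nlinarith
  have h5 : (0 : ℝ) ≤ A.card := by positivity
  have h6 : (1.07 * (A.card : ℝ)) * (14 * q + 1) ≤ B.card * (14 * q + 1) := by
    calc (1.07 * (A.card : ℝ)) * (14 * q + 1) = (1.07 * (14 * q + 1)) * A.card := by ring
      _ ≤ (t + 1) * A.card := mul_le_mul_of_nonneg_right h4 h5
      _ ≤ (14 * q + 1) * B.card := h2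
      _ = B.card * (14 * q + 1) := by ring
  exact le_of_mul_le_mul_right h6 (by positivity)

/-- sets almost closed under adjacency are huge: if all neighbours of `A` lie in `B` and
`|A| + |B| ≤ 3 |A|` then `log₂ (3|A|) ≥ (t - 49) / 0.76`. -/
theorem expand3 (ht : 1 ≤ t) (hs : 1 ≤ s) (A B : Finset (KV t s)) (hA : A.Nonempty)
    (hAB : ∀ a ∈ A, ∀ b, (KG t s).Adj a b → b ∈ B) (h3 : A.card + B.card ≤ 3 * A.card) :
    (t : ℝ) - 49 ≤ 0.76 * Real.logb 2 ((3 * A.card : ℕ) : ℝ) := by
  have hA1 : 1 ≤ A.card := card_pos.2 hA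
  have hlog0 : 0 ≤ Real.logb 2 ((3 * A.card : ℕ) : ℝ) := by
    apply Real.logb_nonneg (by norm_num)
    have : 1 ≤ 3 * A.card := by omega
    exact_mod_cast this
  rcases Nat.lt_or_ge t 50 with ht' | ht'
  · have : (t : ℝ) ≤ 49 := by exact_mod_cast (by omega : t ≤ 49)
    linarith
  set q := (t - 2) / 2 with hq
  have hq1 : 2 * q + 2 ≤ t := by omega
  have hq2 : t ≤ 2 * q + 3 := by omega
  have hq3 : 24 ≤ q := by omega
  have hcard : (t + 1 + q).choose q < A.card := by
    by_contra hcon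
    push Not at hcon
    have h1 := kneser_expand ht hs q (by omega) A B hAB hcon
    have h2 : B.card ≤ 2 * A.card := by omega
    have h4 : (t + 1) * A.card ≤ (2 * (q + 1)) * A.card := by
      calc (t + 1) * A.card ≤ (q + 1) * B.card := h1
        _ ≤ (q + 1) * (2 * A.card) := Nat.mul_le_mul_left _ h2
        _ = (2 * (q + 1)) * A.card := by ring
    have h5 := Nat.le_of_mul_le_mul_right h4 hA1
    omega
  have h1 : (3 * q).choose q ≤ (t + 1 + q).choose q := Nat.choose_le_choose _ (by omega)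
  have h2 : ((3 * q).choose q : ℝ) ≤ ((3 * A.card : ℕ) : ℝ) := by
    exact_mod_cast (h1.trans hcard.le).trans (by omega)
  have hC : (0 : ℝ) < ((3 * q).choose q : ℝ) := by exact_mod_cast Nat.choose_pos (by omega)
  have h4 := logb_choose_ge 1 2 q 10 27 (by norm_num) (by norm_num) (by norm_num)
      (by norm_num) (by omega)
  norm_num at h4
  rw [Real.logb_mul (by positivity) hC.ne'] at h4
  have h5 := Real.logb_le_logb_of_le (b := 2) (by norm_num) hC h2
  have h6 := logb_le_lin (3 * (q : ℝ) + 1) (by positivity) 7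
  have h7 : (t : ℝ) ≤ 2 * q + 3 := by exact_mod_cast hq2
  have h8 : (24 : ℝ) ≤ q := by exact_mod_cast hq3
  norm_num at h6
  linarith

end Pool.Agent.Lib.MP_95cf8e_co
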