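import Pool.Agent.Lib.MP_95cf8e_co.Defs

/-! # Numerics for the ends of the middle regime -/

set_option autoImplicit false

namespace Pool.Agent.Lib.MP_95cf8e_co

/-- growth: `K A^s ≤ B^t` for `s ≤ √t` and `t` large -/
private theorem nb_grow (K A B : ℝ) (hK : 0 < K) (hA : 1 ≤ A) (hB : 1 < B) :
    ∃ t0 : ℕ, ∀ t s : ℕ, t0 ≤ t → s * s ≤ t → K * A ^ s ≤ B ^ t := by
  have hlB : 0 < Real.log B := Real.log_pos hB
  have hlA : 0 ≤ Real.log A := Real.log_nonneg hA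
  obtain ⟨t0, ht0⟩ := exists_nat_ge
    (2 * (|Real.log K| + Real.log A ^ 2 / (2 * Real.log B)) / Real.log B)
  refine ⟨t0, fun t s ht hs => ?_⟩
  have hA0 : 0 < A := by linarith
  have hB0 : 0 < B := by linarith
  rw [← Real.log_le_log_iff (by positivity) (by positivity), Real.log_mul (ne_of_gt hK)
    (by positivity), Real.log_pow, Real.log_pow]
  have h1 : (s : ℝ) * s ≤ t := by exact_mod_cast hs
  have h2 : (t0 : ℝ) ≤ t := by exact_mod_cast ht
  have h3 : (s : ℝ) * Real.log A ≤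
      Real.log B / 2 * (s * s) + Real.log A ^ 2 / (2 * Real.log B) := by
    have h := sq_nonneg (Real.log B * s - Real.log A)
    have h' : Real.log B / 2 * ((s : ℝ) * s) + Real.log A ^ 2 / (2 * Real.log B) -
        (s : ℝ) * Real.log A = (Real.log B * s - Real.log A) ^ 2 / (2 * Real.log B) := by
      field_simp
      ring
    have h'' : 0 ≤ (Real.log B * s - Real.log A) ^ 2 / (2 * Real.log B) := by positivity
    linarith
  have h4 : |Real.log K| + Real.log A ^ 2 / (2 * Real.log B) ≤ Real.log B / 2 * t := by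
    have h5 := ht0.trans h2
    rw [div_le_iff₀ hlB] at h5
    linarith
  have h6 : Real.log B / 2 * ((s : ℝ) * s) ≤ Real.log B / 2 * t :=
    mul_le_mul_of_nonneg_left h1 (by positivity)
  linarith [le_abs_self (Real.log K)]

private theorem nb_step8 (i : ℕ) :
    (8 * i + 8).choose (3 * i + 3) * ((3 * i + 1) * (3 * i + 2) * (3 * i + 3) * ((5 * i + 1) *
      (5 * i + 2) * (5 * i + 3) * (5 * i + 4) * (5 * i + 5))) =
      (8 * i).choose (3 * i) * ((8 * i + 1) * (8 * i + 2) * (8 * i + 3) * (8 * i + 4) *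
        (8 * i + 5) * (8 * i + 6) * (8 * i + 7) * (8 * i + 8)) := by
  have h1 := Nat.add_choose_mul_factorial_mul_factorial (5 * i) (3 * i)
  have h2 := Nat.add_choose_mul_factorial_mul_factorial (5 * i + 5) (3 * i + 3)
  rw [show 5 * i + 3 * i = 8 * i by ring] at h1
  rw [show 5 * i + 5 + (3 * i + 3) = 8 * i + 8 by ring] at h2
  simp only [Nat.factorial_succ] at h2
  have hpos : 0 < (5 * i).factorial * (3 * i).factorial := by positivity
  apply Nat.eq_of_mul_eq_mul_right hpos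
  rw [← h1] at h2
  linear_combination h2

private theorem nb_step4 (i : ℕ) :
    (4 * i + 4).choose (i + 1) * ((i + 1) * ((3 * i + 1) * (3 * i + 2) * (3 * i + 3))) =
      (4 * i).choose i * ((4 * i + 1) * (4 * i + 2) * (4 * i + 3) * (4 * i + 4)) := by
  have h1 := Nat.add_choose_mul_factorial_mul_factorial (3 * i) i
  have h2 := Nat.add_choose_mul_factorial_mul_factorial (3 * i + 3) (i + 1)
  rw [show 3 * i + i = 4 * i by ring] at h1
  rw [show 3 * i + 3 + (i + 1) = 4 * i + 4 by ring] at h2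
  simp only [Nat.factorial_succ] at h2
  have hpos : 0 < (3 * i).factorial * i.factorial := by positivity
  apply Nat.eq_of_mul_eq_mul_right hpos
  rw [← h1] at h2
  linear_combination h2

private theorem nb_poly8 (k : ℕ) :
    196 * ((3 * (k + 100) + 1) * (3 * (k + 100) + 2) * (3 * (k + 100) + 3) *
      ((5 * (k + 100) + 1) * (5 * (k + 100) + 2) * (5 * (k + 100) + 3) * (5 * (k + 100) + 4) *
      (5 * (k + 100) + 5))) ≤
    (8 * (k + 100) + 1) * (8 * (k + 100) + 2) * (8 * (k + 100) + 3) * (8 * (k + 100) + 4) *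
        (8 * (k + 100) + 5) * (8 * (k + 100) + 6) * (8 * (k + 100) + 7) * (8 * (k + 100) + 8) := by
  ring_nf
  gcongr <;> norm_num

private theorem nb_poly4 (k : ℕ) :
    94 * ((k + 100 + 1) * ((3 * (k + 100) + 1) * (3 * (k + 100) + 2) * (3 * (k + 100) + 3))) ≤
      10 * ((4 * (k + 100) + 1) * (4 * (k + 100) + 2) * (4 * (k + 100) + 3) *
        (4 * (k + 100) + 4)) := by
  ring_nf
  gcongr <;> norm_num

private theorem nb_ratio8 (i : ℕ) (hi : 100 ≤ i) :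
    196 * (8 * i).choose (3 * i) ≤ (8 * i + 8).choose (3 * i + 3) := by
  have h := nb_step8 i
  obtain ⟨k, hk⟩ := Nat.exists_eq_add_of_le' hi
  have hp := nb_poly8 k
  rw [← hk] at hp
  clear hk
  have hP : 0 < ((3 * i + 1) * (3 * i + 2) * (3 * i + 3) *
      ((5 * i + 1) * (5 * i + 2) * (5 * i + 3) * (5 * i + 4) * (5 * i + 5))) := by positivity
  refine Nat.le_of_mul_le_mul_right ?_ hP
  calc 196 * (8 * i).choose (3 * i) * ((3 * i + 1) * (3 * i + 2) * (3 * i + 3) *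
      ((5 * i + 1) * (5 * i + 2) * (5 * i + 3) * (5 * i + 4) * (5 * i + 5)))
      = (8 * i).choose (3 * i) * (196 * ((3 * i + 1) * (3 * i + 2) * (3 * i + 3) *
      ((5 * i + 1) * (5 * i + 2) * (5 * i + 3) * (5 * i + 4) * (5 * i + 5)))) := by ring
    _ ≤ _ := Nat.mul_le_mul_left _ hp
    _ = _ := h.symm

private theorem nb_ratio4 (i : ℕ) (hi : 100 ≤ i) :
    94 * (4 * i).choose i ≤ 10 * (4 * i + 4).choose (i + 1) := by
  have h := nb_step4 i
  obtain ⟨k, hk⟩ := Nat.exists_eq_add_of_le' hi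
  have hp := nb_poly4 k
  rw [← hk] at hp
  clear hk
  have hP : 0 < ((i + 1) * ((3 * i + 1) * (3 * i + 2) * (3 * i + 3))) := by positivity
  refine Nat.le_of_mul_le_mul_right ?_ hP
  calc 94 * (4 * i).choose i * ((i + 1) * ((3 * i + 1) * (3 * i + 2) * (3 * i + 3)))
      = (4 * i).choose i * (94 * ((i + 1) * ((3 * i + 1) * (3 * i + 2) * (3 * i + 3)))) := by ring
    _ ≤ (4 * i).choose i * (10 * ((4 * i + 1) * (4 * i + 2) * (4 * i + 3) * (4 * i + 4))) :=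
      Nat.mul_le_mul_left _ hp
    _ = 10 * ((4 * i).choose i * ((4 * i + 1) * (4 * i + 2) * (4 * i + 3) * (4 * i + 4))) := by
      ring
    _ = 10 * ((4 * i + 4).choose (i + 1) *
        ((i + 1) * ((3 * i + 1) * (3 * i + 2) * (3 * i + 3)))) := by rw [h]
    _ = _ := by ring

/-- `196^k ≤ C(8i,3i)` for `i = k + 100` -/
private theorem nb_pow8 (k i : ℕ) (hi : i = k + 100) : 196 ^ k ≤ (8 * i).choose (3 * i) := by
  induction k generalizing i with
  | zero => exact Nat.choose_pos (by omega)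
  | succ k ih =>
    obtain ⟨j, rfl⟩ : ∃ j, i = j + 1 := ⟨k + 100, by omega⟩
    have hj : j = k + 100 := by omega
    calc 196 ^ (k + 1) = 196 * 196 ^ k := by ring
      _ ≤ 196 * (8 * j).choose (3 * j) := Nat.mul_le_mul_left _ (ih j hj)
      _ ≤ (8 * j + 8).choose (3 * j + 3) := nb_ratio8 j (by omega)
      _ = _ := by rw [mul_add, mul_add]

private theorem nb_pow4 (k i : ℕ) (hi : i = k + 100) : 94 ^ k ≤ 10 ^ k * (4 * i).choose i := by
  induction k generalizing i with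
  | zero =>
    have : 0 < (4 * i).choose i := Nat.choose_pos (by omega)
    omega
  | succ k ih =>
    obtain ⟨j, rfl⟩ : ∃ j, i = j + 1 := ⟨k + 100, by omega⟩
    have hj : j = k + 100 := by omega
    calc 94 ^ (k + 1) = 94 * 94 ^ k := by ring
      _ ≤ 94 * (10 ^ k * (4 * j).choose j) := Nat.mul_le_mul_left _ (ih j hj)
      _ = 10 ^ k * (94 * (4 * j).choose j) := by ring
      _ ≤ 10 ^ k * (10 * (4 * j + 4).choose (j + 1)) :=
        Nat.mul_le_mul_left _ (nb_ratio4 j (by omega))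
      _ = _ := by rw [mul_add 4 j 1]; ring

/-- moving the lower index up by `d` costs at most `c ^ d` -/
private theorem nb_shift (c t J d : ℕ) (h : t ≤ (c + 1) * J + c) :
    t.choose (J + d) ≤ c ^ d * t.choose J := by
  induction d with
  | zero => simp
  | succ d ih =>
    have h1 := Nat.choose_succ_right_eq t (J + d)
    have h2 : t - (J + d) ≤ c * (J + d + 1) := by
      have h3 : (c + 1) * J + c ≤ J + d + c * (J + d + 1) := by nlinarith
      omega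
    refine Nat.le_of_mul_le_mul_right (c := J + d + 1) ?_ (by omega)
    calc t.choose (J + (d + 1)) * (J + d + 1) = t.choose (J + d) * (t - (J + d)) := h1
      _ ≤ t.choose (J + d) * (c * (J + d + 1)) := Nat.mul_le_mul_left _ h2
      _ ≤ (c ^ d * t.choose J) * (c * (J + d + 1)) := Nat.mul_le_mul_right _ ih
      _ = c ^ (d + 1) * t.choose J * (J + d + 1) := by ring

private theorem nb_mono (t a b : ℕ) (hab : a ≤ b) (hb : 2 * b ≤ t) :
    t.choose a ≤ t.choose b := by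
  induction b, hab using Nat.le_induction with
  | base => exact le_rfl
  | succ b hb' ih =>
    exact (ih (by omega)).trans (Nat.choose_le_succ_of_lt_half_left (by omega))

private theorem nb_le24 {t s : ℕ} (h : s * s ≤ t) (ht : 576 ≤ t) : 24 * s ≤ t := by
  by_cases hs : s ≤ 24
  · omega
  · push Not at hs
    nlinarith

private theorem nb_low3 {t s : ℕ} (hs : 1 ≤ s) (h : s * s ≤ t) (ht : 800 ≤ t) :
    (8 * (t / 8)).choose (3 * (t / 8)) ≤ 2 ^ s * t.choose ((3 * t / (8 * s)) * s) := by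
  have h24 := nb_le24 h (by omega)
  set J := (3 * t / (8 * s)) * s with hJ
  have h8s : 0 < 8 * s := by omega
  have h1 : 8 * J ≤ 3 * t := by
    have := Nat.div_mul_le_self (3 * t) (8 * s)
    calc 8 * J = 3 * t / (8 * s) * (8 * s) := by rw [hJ]; ring
      _ ≤ 3 * t := this
  have h2 : 3 * t < 8 * J + 8 * s := by
    have h3 := Nat.div_add_mod (3 * t) (8 * s)
    have h4 := Nat.mod_lt (3 * t) h8s
    have h5 : 8 * s * (3 * t / (8 * s)) = 8 * J := by rw [hJ]; ring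
    omega
  have h3 : (8 * (t / 8)).choose (3 * (t / 8)) ≤ t.choose (3 * (t / 8)) :=
    Nat.choose_le_choose _ (by omega)
  refine h3.trans ?_
  by_cases hc : 3 * (t / 8) ≤ J
  · calc t.choose (3 * (t / 8)) ≤ t.choose J := nb_mono t _ _ hc (by omega)
      _ = 1 * t.choose J := (one_mul _).symm
      _ ≤ 2 ^ s * t.choose J := Nat.mul_le_mul_right _ Nat.one_le_two_pow
  · push Not at hc
    obtain ⟨d, hd⟩ : ∃ d, 3 * (t / 8) = J + d := ⟨3 * (t / 8) - J, by omega⟩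
    rw [hd]
    refine (nb_shift 2 t J d (by omega)).trans ?_
    refine Nat.mul_le_mul_right _ ?_
    exact Nat.pow_le_pow_right (by norm_num) (by omega)

private theorem nb_low4 {t s : ℕ} (hs : 1 ≤ s) (h : s * s ≤ t) (ht : 800 ≤ t) :
    (4 * (t / 4)).choose (t / 4) ≤ 4 ^ s * t.choose ((t / (4 * s)) * s) := by
  have h24 := nb_le24 h (by omega)
  set J := (t / (4 * s)) * s with hJ
  have h8s : 0 < 4 * s := by omega
  have h1 : 4 * J ≤ t := by
    have := Nat.div_mul_le_self t (4 * s)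
    calc 4 * J = t / (4 * s) * (4 * s) := by rw [hJ]; ring
      _ ≤ t := this
  have h2 : t < 4 * J + 4 * s := by
    have h3 := Nat.div_add_mod t (4 * s)
    have h4 := Nat.mod_lt t h8s
    have h5 : 4 * s * (t / (4 * s)) = 4 * J := by rw [hJ]; ring
    omega
  have h3 : (4 * (t / 4)).choose (t / 4) ≤ t.choose (t / 4) :=
    Nat.choose_le_choose _ (by omega)
  refine h3.trans ?_
  obtain ⟨d, hd⟩ : ∃ d, t / 4 = J + d := ⟨t / 4 - J, by omega⟩
  rw [hd]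
  refine (nb_shift 4 t J d (by omega)).trans ?_
  refine Nat.mul_le_mul_right _ ?_
  exact Nat.pow_le_pow_right (by norm_num) (by omega)

private theorem nb_bern (ε : ℝ) (hε : 0 < ε) (t : ℕ) : (t : ℝ) + 1 / ε ≤ 1 / ε * (1 + ε) ^ t := by
  have h := one_add_mul_le_pow (a := ε) (by linarith) t
  have h2 : (t : ℝ) + 1 / ε = 1 / ε * (1 + (t : ℝ) * ε) := by
    field_simp
    ring
  rw [h2]
  exact mul_le_mul_of_nonneg_left h (by positivity)

/-- near `3t/8`: `C(8i,3i)` grows at least like `196^i`, `196^20 > 2^152`; moving the index by at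
most `s ≤ √t` costs at most `2^s`. -/
theorem num3 (C : ℕ) : ∃ t0 : ℕ, ∀ t s z : ℕ, t0 ≤ t → 1 ≤ s → s * s ≤ t → z ^ 10 ≤ 2 ^ (19 * t) →
    C * z ≤ (t.choose ((3 * t / (8 * s)) * s)) ^ 2 := by
  obtain ⟨M, hM⟩ : ∃ M : ℕ, M = 807 := ⟨_, rfl⟩
  obtain ⟨t0, ht0⟩ := nb_grow (((C : ℝ) + 1) ^ 10 * 2 ^ (19 * M) * 1.02 ^ M) (2 ^ 20) 1.02
    (by positivity) (by norm_num) (by norm_num)
  refine ⟨max t0 808, fun t s z ht hs hst hz => ?_⟩
  have ht1 : t0 ≤ t := le_trans (le_max_left _ _) ht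
  have ht2 : 808 ≤ t := le_trans (le_max_right _ _) ht
  have hg := ht0 t s ht1 hst
  have hlow := nb_low3 hs hst (by omega)
  obtain ⟨k, hk⟩ : ∃ k, t / 8 = k + 100 := ⟨t / 8 - 100, by omega⟩
  have hp := nb_pow8 k (t / 8) hk
  have htk : t ≤ 8 * k + M := by omega
  set X := t.choose ((3 * t / (8 * s)) * s) with hX
  have h1 : (196 : ℝ) ^ k ≤ 2 ^ s * X := by
    have := hp.trans hlow
    exact_mod_cast this
  -- compare tenth powers
  have h2 : (196 : ℝ) ^ 20 ≥ 6 / 5 * 2 ^ 152 := by norm_num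
  have h3 : ((6 : ℝ) / 5) ^ k * (2 ^ 152) ^ k ≤ ((2 : ℝ) ^ 20) ^ s * (X : ℝ) ^ 20 := by
    calc ((6 : ℝ) / 5) ^ k * (2 ^ 152) ^ k = (6 / 5 * 2 ^ 152) ^ k := (mul_pow _ _ _).symm
      _ ≤ (196 ^ 20) ^ k := pow_le_pow_left₀ (by positivity) h2 k
      _ = (196 ^ k) ^ 20 := by rw [← pow_mul, ← pow_mul, mul_comm]
      _ ≤ (2 ^ s * X) ^ 20 := pow_le_pow_left₀ (by positivity) h1 20
      _ = ((2 : ℝ) ^ 20) ^ s * (X : ℝ) ^ 20 := by
        rw [mul_pow, ← pow_mul, ← pow_mul, mul_comm s 20]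
  have h4 : (1.02 : ℝ) ^ t ≤ (6 / 5) ^ k * 1.02 ^ M := by
    calc (1.02 : ℝ) ^ t ≤ 1.02 ^ (8 * k + M) := pow_le_pow_right₀ (by norm_num) htk
      _ = (1.02 ^ 8) ^ k * 1.02 ^ M := by rw [pow_add, pow_mul]
      _ ≤ (6 / 5) ^ k * 1.02 ^ M := by
        refine mul_le_mul_of_nonneg_right ?_ (by positivity)
        exact pow_le_pow_left₀ (by positivity) (by norm_num) k
  have h5 : ((C : ℝ) + 1) ^ 10 * 2 ^ (19 * M) * (2 ^ 20) ^ s ≤ (6 / 5) ^ k := by
    have h6 : (((C : ℝ) + 1) ^ 10 * 2 ^ (19 * M) * (2 ^ 20) ^ s) * 1.02 ^ M ≤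
        (6 / 5) ^ k * 1.02 ^ M := by
      calc _ = ((C : ℝ) + 1) ^ 10 * 2 ^ (19 * M) * 1.02 ^ M * (2 ^ 20) ^ s := by ring
        _ ≤ _ := hg.trans h4
    exact le_of_mul_le_mul_right h6 (by positivity)
  have h7 : (z : ℝ) ^ 10 ≤ (2 ^ 152) ^ k * 2 ^ (19 * M) := by
    calc (z : ℝ) ^ 10 ≤ 2 ^ (19 * t) := by exact_mod_cast hz
      _ ≤ 2 ^ (19 * (8 * k + M)) := pow_le_pow_right₀ (by norm_num) (by omega)
      _ = (2 ^ 152) ^ k * 2 ^ (19 * M) := by
        rw [← pow_mul, ← pow_add]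
        congr 1
        ring
  have h8 : ((C : ℝ) * z) ^ 10 ≤ ((X : ℝ) ^ 2) ^ 10 := by
    have h9 : ((C : ℝ) * z) ^ 10 * (2 ^ 20) ^ s ≤ ((X : ℝ) ^ 2) ^ 10 * (2 ^ 20) ^ s := by
      calc ((C : ℝ) * z) ^ 10 * (2 ^ 20) ^ s = (C : ℝ) ^ 10 * (z : ℝ) ^ 10 * (2 ^ 20) ^ s := by
            rw [mul_pow]
        _ ≤ ((C : ℝ) + 1) ^ 10 * ((2 ^ 152) ^ k * 2 ^ (19 * M)) * (2 ^ 20) ^ s := by
            gcongr
            linarith
        _ = (((C : ℝ) + 1) ^ 10 * 2 ^ (19 * M) * (2 ^ 20) ^ s) * (2 ^ 152) ^ k := by ring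
        _ ≤ (6 / 5) ^ k * (2 ^ 152) ^ k := by gcongr
        _ ≤ (2 ^ 20) ^ s * (X : ℝ) ^ 20 := h3
        _ = ((X : ℝ) ^ 2) ^ 10 * (2 ^ 20) ^ s := by rw [← pow_mul]; ring
    exact le_of_mul_le_mul_right h9 (by positivity)
  have h10 : (C : ℝ) * z ≤ (X : ℝ) ^ 2 := le_of_pow_le_pow_left₀ (by norm_num) (by positivity) h8
  exact_mod_cast h10

/-- near `t/4`: `C(4i,i)` grows at least like `9.4^i`, `9.4^20 * 2^76 > 2^140`; moving the index by at
most `s ≤ √t` costs at most `4^s`. (`C(2t+s,t) ≤ 2^(2t+s)`, `2 (t/(4s)) ≤ t/2`.) -/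
theorem num4 : ∃ t0 : ℕ, ∀ t s z : ℕ, t0 ≤ t → 1 ≤ s → s * s ≤ t → 2 ^ (19 * t) ≤ z ^ 10 →
    8 * t * nn t s * 2 ^ (5 + 2 * (t / (4 * s)) + t) < z * (t.choose ((t / (4 * s)) * s)) ^ 2 := by
  obtain ⟨M, hM⟩ : ∃ M : ℕ, M = 403 := ⟨_, rfl⟩
  obtain ⟨t0, ht0⟩ := nb_grow (2 * 8000 ^ 10 * 2 ^ 50 * 2 ^ (16 * M) * 1.07 ^ M) (2 ^ 50) 1.05
    (by positivity) (by norm_num) (by norm_num)
  refine ⟨max t0 808, fun t s z ht hs hst hz => ?_⟩
  have ht1 : t0 ≤ t := le_trans (le_max_left _ _) ht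
  have ht2 : 808 ≤ t := le_trans (le_max_right _ _) ht
  have hg := ht0 t s ht1 hst
  have hlow := nb_low4 hs hst (by omega)
  obtain ⟨k, hk⟩ : ∃ k, t / 4 = k + 100 := ⟨t / 4 - 100, by omega⟩
  have hp := nb_pow4 k (t / 4) hk
  have htk : t ≤ 4 * k + M := by omega
  set X := t.choose ((t / (4 * s)) * s) with hX
  have h1 : (94 : ℝ) ^ k ≤ 10 ^ k * (4 ^ s * X) := by
    have := hp.trans (Nat.mul_le_mul_left _ hlow)
    exact_mod_cast this
  have h2 : (94 : ℝ) ^ 20 ≥ 3 / 2 * (10 ^ 20 * 2 ^ 64) := by norm_num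
  have h3 : ((3 : ℝ) / 2) ^ k * (2 ^ 64) ^ k ≤ ((4 : ℝ) ^ 20) ^ s * (X : ℝ) ^ 20 := by
    have h4 : (10 ^ 20) ^ k * (((3 : ℝ) / 2) ^ k * (2 ^ 64) ^ k) ≤
        (10 ^ 20) ^ k * (((4 : ℝ) ^ 20) ^ s * (X : ℝ) ^ 20) := by
      calc (10 ^ 20) ^ k * (((3 : ℝ) / 2) ^ k * (2 ^ 64) ^ k)
          = (3 / 2 * (10 ^ 20 * 2 ^ 64)) ^ k := by
            rw [mul_pow, mul_pow]; ring
        _ ≤ (94 ^ 20) ^ k := pow_le_pow_left₀ (by positivity) h2 k
        _ = (94 ^ k) ^ 20 := by rw [← pow_mul, ← pow_mul, mul_comm]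
        _ ≤ (10 ^ k * (4 ^ s * X)) ^ 20 := pow_le_pow_left₀ (by positivity) h1 20
        _ = (10 ^ 20) ^ k * (((4 : ℝ) ^ 20) ^ s * (X : ℝ) ^ 20) := by
          rw [mul_pow, mul_pow, ← pow_mul, ← pow_mul, ← pow_mul, ← pow_mul, mul_comm s 20,
            mul_comm k 20]
    exact le_of_mul_le_mul_left h4 (by positivity)
  -- growth
  have ht3 : (t : ℝ) ≤ 1000 * 1.001 ^ t := by
    have := nb_bern 0.001 (by norm_num) t
    norm_num at this ⊢
    linarith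
  have hA : (8 * (1000 * (1.001 : ℝ) ^ t)) ^ 10 = 8000 ^ 10 * (1.001 ^ 10) ^ t := by
    rw [show (8 : ℝ) * (1000 * 1.001 ^ t) = 8000 * 1.001 ^ t by ring, mul_pow, ← pow_mul,
      ← pow_mul, mul_comm t 10]
  have h5 : 2 * (8 * (t : ℝ)) ^ 10 * 2 ^ 50 * 2 ^ (16 * M) * (2 ^ 50) ^ s ≤ (3 / 2) ^ k := by
    have h6 : (2 * (8 * (t : ℝ)) ^ 10 * 2 ^ 50 * 2 ^ (16 * M) * (2 ^ 50) ^ s) * 1.07 ^ M ≤
        (3 / 2) ^ k * 1.07 ^ M := by
      calc (2 * (8 * (t : ℝ)) ^ 10 * 2 ^ 50 * 2 ^ (16 * M) * (2 ^ 50) ^ s) * 1.07 ^ M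
          ≤ (2 * (8 * (1000 * 1.001 ^ t)) ^ 10 * 2 ^ 50 * 2 ^ (16 * M) * (2 ^ 50) ^ s) *
            1.07 ^ M := by gcongr
        _ = (2 * 8000 ^ 10 * 2 ^ 50 * 2 ^ (16 * M) * 1.07 ^ M * (2 ^ 50) ^ s) *
            (1.001 ^ 10) ^ t := by
          rw [hA]
          generalize ((1.001 : ℝ) ^ 10) ^ t = Y
          ring
        _ ≤ 1.05 ^ t * (1.001 ^ 10) ^ t := by gcongr
        _ = (1.05 * 1.001 ^ 10) ^ t := (mul_pow _ _ _).symm
        _ ≤ 1.07 ^ t := pow_le_pow_left₀ (by positivity) (by norm_num) t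
        _ ≤ 1.07 ^ (4 * k + M) := pow_le_pow_right₀ (by norm_num) htk
        _ = (1.07 ^ 4) ^ k * 1.07 ^ M := by rw [pow_add, pow_mul]
        _ ≤ (3 / 2) ^ k * 1.07 ^ M := by
          refine mul_le_mul_of_nonneg_right ?_ (by positivity)
          exact pow_le_pow_left₀ (by positivity) (by norm_num) k
    exact le_of_mul_le_mul_right h6 (by positivity)
  -- the left side
  have hn : (nn t s : ℝ) ≤ 2 ^ (2 * t + s) := by
    have : nn t s ≤ 2 ^ (2 * t + s) := Nat.choose_le_two_pow _ _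
    exact_mod_cast this
  have he : 4 * (t / (4 * s)) ≤ t := by
    calc 4 * (t / (4 * s)) ≤ 4 * (t / 4) := by
          refine Nat.mul_le_mul_left _ (Nat.div_le_div_left (by omega) (by norm_num))
      _ ≤ t := by omega
  set e := t / (4 * s) with he'
  have ht0' : (0 : ℝ) < t := by
    have : 0 < t := by omega
    exact_mod_cast this
  have h8 : ((8 * t * nn t s * 2 ^ (5 + 2 * e + t) : ℕ) : ℝ) ^ 10 <
      ((z * X ^ 2 : ℕ) : ℝ) ^ 10 := by
    push_cast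
    have h9 : (8 * (t : ℝ) * nn t s * 2 ^ (5 + 2 * e + t)) ^ 10 ≤
        (8 * (t : ℝ)) ^ 10 * 2 ^ (35 * t + 10 * s + 50) := by
      calc (8 * (t : ℝ) * nn t s * 2 ^ (5 + 2 * e + t)) ^ 10
          ≤ (8 * (t : ℝ) * 2 ^ (2 * t + s) * 2 ^ (5 + 2 * e + t)) ^ 10 := by gcongr
        _ = (8 * (t : ℝ)) ^ 10 * 2 ^ (20 * t + 10 * s + 50 + 20 * e + 10 * t) := by
          rw [mul_assoc, ← pow_add, mul_pow, ← pow_mul]
          congr 2
          ring
        _ ≤ (8 * (t : ℝ)) ^ 10 * 2 ^ (35 * t + 10 * s + 50) := by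
          refine mul_le_mul_of_nonneg_left ?_ (by positivity)
          exact pow_le_pow_right₀ (by norm_num) (by omega)
    have hz' : (2 : ℝ) ^ (19 * t) ≤ (z : ℝ) ^ 10 := by exact_mod_cast hz
    refine lt_of_le_of_lt h9 ?_
    have hXpos : (0 : ℝ) < X := by
      have h11 : (0 : ℝ) < 94 ^ k := by positivity
      by_contra hneg
      push Not at hneg
      have h12 : (10 : ℝ) ^ k * (4 ^ s * X) ≤ 0 := by
        apply mul_nonpos_of_nonneg_of_nonpos (by positivity)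
        exact mul_nonpos_of_nonneg_of_nonpos (by positivity) hneg
      linarith
    have h13 : 2 * ((8 * (t : ℝ)) ^ 10 * 2 ^ (35 * t + 10 * s + 50)) * (4 ^ 20) ^ s ≤
        ((z : ℝ) * (X : ℝ) ^ 2) ^ 10 * (4 ^ 20) ^ s := by
      calc 2 * ((8 * (t : ℝ)) ^ 10 * 2 ^ (35 * t + 10 * s + 50)) * (4 ^ 20) ^ s
          = 2 ^ (19 * t) * (2 * (8 * (t : ℝ)) ^ 10 * 2 ^ 50 * (2 ^ 50) ^ s * 2 ^ (16 * t)) := by
            rw [show (4 : ℝ) = 2 ^ 2 by norm_num, ← pow_mul, ← pow_mul, ← pow_mul]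
            have : (2 : ℝ) ^ (35 * t + 10 * s + 50) * 2 ^ (2 * 20 * s) =
                2 ^ (19 * t) * (2 ^ 50 * 2 ^ (50 * s) * 2 ^ (16 * t)) := by
              rw [← pow_add, ← pow_add, ← pow_add, ← pow_add]
              congr 1
              ring
            calc _ = 2 * (8 * (t : ℝ)) ^ 10 *
                  ((2 : ℝ) ^ (35 * t + 10 * s + 50) * 2 ^ (2 * 20 * s)) := by ring
              _ = _ := by rw [this]; ring
        _ ≤ 2 ^ (19 * t) * (2 * (8 * (t : ℝ)) ^ 10 * 2 ^ 50 * (2 ^ 50) ^ s *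
              2 ^ (16 * (4 * k + M))) := by
            gcongr
            norm_num
        _ = 2 ^ (19 * t) * ((2 * (8 * (t : ℝ)) ^ 10 * 2 ^ 50 * 2 ^ (16 * M) * (2 ^ 50) ^ s) *
              (2 ^ 64) ^ k) := by
            rw [show 16 * (4 * k + M) = 64 * k + 16 * M by ring, pow_add, pow_mul 2 64 k]
            ring
        _ ≤ 2 ^ (19 * t) * ((3 / 2) ^ k * (2 ^ 64) ^ k) := by gcongr
        _ ≤ 2 ^ (19 * t) * ((4 ^ 20) ^ s * (X : ℝ) ^ 20) := by gcongr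
        _ ≤ (z : ℝ) ^ 10 * ((4 ^ 20) ^ s * (X : ℝ) ^ 20) := by gcongr
        _ = ((z : ℝ) * (X : ℝ) ^ 2) ^ 10 * (4 ^ 20) ^ s := by
            rw [mul_pow, ← pow_mul]; ring
    have h14 : 2 * ((8 * (t : ℝ)) ^ 10 * 2 ^ (35 * t + 10 * s + 50)) ≤
        ((z : ℝ) * (X : ℝ) ^ 2) ^ 10 := le_of_mul_le_mul_right h13 (by positivity)
    have h15 : 0 < (8 * (t : ℝ)) ^ 10 * 2 ^ (35 * t + 10 * s + 50) := by positivity
    linarith
  have h10 := lt_of_pow_lt_pow_left₀ 10 (by positivity) h8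
  exact_mod_cast h10

/-- degree of `K(2t+s,t)` for `s ≤ √t` -/
theorem num0 : ∃ t0 : ℕ, ∀ t s : ℕ, t0 ≤ t → 1 ≤ s → s * s ≤ t →
    0.76 * Real.logb 2 ((6 * (t + 1) * kk t s : ℕ) : ℝ) < (t : ℝ) - 49 := by
  obtain ⟨t0, ht0⟩ := nb_grow 60 101 1.5 (by norm_num) (by norm_num) (by norm_num)
  refine ⟨max t0 300, fun t s ht hs hst => ?_⟩
  have ht1 : t0 ≤ t := le_trans (le_max_left _ _) ht
  have ht2 : 300 ≤ t := le_trans (le_max_right _ _) ht
  have hg := ht0 t s ht1 hst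
  have hkk : (kk t s : ℝ) ≤ 1.01 ^ t * 101 ^ s := by
    have h1 : ((t + s).choose t : ℝ) * (1 / 100) ^ s ≤ (1.01 : ℝ) ^ (t + s) := by
      have h2 := add_pow (1 : ℝ) (1 / 100) (t + s)
      have h3 : (1 : ℝ) + 1 / 100 = 1.01 := by norm_num
      rw [h3] at h2
      rw [h2]
      have h4 : (1 : ℝ) ^ t * (1 / 100) ^ (t + s - t) * ((t + s).choose t : ℝ) ≤
          ∑ m ∈ Finset.range (t + s + 1), (1 : ℝ) ^ m * (1 / 100) ^ (t + s - m) *
            ((t + s).choose m : ℝ) :=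
        Finset.single_le_sum (f := fun m => (1 : ℝ) ^ m * (1 / 100) ^ (t + s - m) *
            ((t + s).choose m : ℝ)) (fun m _ => by positivity)
          (Finset.mem_range.2 (by omega))
      rw [one_pow, one_mul, show t + s - t = s by omega] at h4
      calc _ = (1 / 100 : ℝ) ^ s * ((t + s).choose t : ℝ) := mul_comm _ _
        _ ≤ _ := h4
    have h5 : ((t + s).choose t : ℝ) = ((t + s).choose t : ℝ) * (1 / 100) ^ s * 100 ^ s := by
      rw [mul_assoc, ← mul_pow]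
      norm_num
    unfold kk
    rw [h5]
    calc ((t + s).choose t : ℝ) * (1 / 100) ^ s * 100 ^ s ≤ 1.01 ^ (t + s) * 100 ^ s := by gcongr
      _ = 1.01 ^ t * (1.01 * 100) ^ s := by rw [pow_add, mul_pow]; ring
      _ = 1.01 ^ t * 101 ^ s := by norm_num
  have hX : ((6 * (t + 1) * kk t s : ℕ) : ℝ) ≤ 2 ^ t := by
    push_cast
    have hb := nb_bern 0.1 (by norm_num) t
    have hb' : (t : ℝ) + 1 ≤ 10 * 1.1 ^ t := by
      norm_num at hb ⊢
      linarith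
    calc 6 * ((t : ℝ) + 1) * kk t s ≤ 6 * (10 * 1.1 ^ t) * (1.01 ^ t * 101 ^ s) := by gcongr
      _ = (60 * 101 ^ s) * (1.1 * 1.01) ^ t := by rw [mul_pow]; ring
      _ ≤ 1.5 ^ t * (1.1 * 1.01) ^ t := by gcongr
      _ = (1.5 * (1.1 * 1.01)) ^ t := (mul_pow _ _ _).symm
      _ ≤ 2 ^ t := pow_le_pow_left₀ (by norm_num) (by norm_num) t
  have hkpos : 0 < kk t s := Nat.choose_pos (by omega)
  have hXpos : (0 : ℝ) < ((6 * (t + 1) * kk t s : ℕ) : ℝ) := by
    have : 0 < 6 * (t + 1) * kk t s := by positivity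
    exact_mod_cast this
  have hlog : Real.logb 2 ((6 * (t + 1) * kk t s : ℕ) : ℝ) ≤ t := by
    calc Real.logb 2 ((6 * (t + 1) * kk t s : ℕ) : ℝ) ≤ Real.logb 2 (2 ^ t) :=
          Real.logb_le_logb_of_le (by norm_num) hXpos hX
      _ = t := by
        rw [Real.logb_pow, Real.logb_self_eq_one (by norm_num), mul_one]
  have ht3 : (300 : ℝ) ≤ t := by exact_mod_cast ht2
  nlinarith

/-- `n` is huge -/
theorem num_n : ∃ t0 : ℕ, ∀ t s z : ℕ, t0 ≤ t → 1 ≤ s → z ^ 10 ≤ 2 ^ (19 * t) →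
    74 * z ≤ nn t s := by
  obtain ⟨t0, ht0⟩ := nb_grow (14800 ^ 10) 1 1.5 (by norm_num) le_rfl (by norm_num)
  refine ⟨max t0 10, fun t s z ht hs hz => ?_⟩
  have ht1 : t0 ≤ t := le_trans (le_max_left _ _) ht
  have ht2 : 10 ≤ t := le_trans (le_max_right _ _) ht
  have hg := ht0 t 0 ht1 (by omega)
  rw [pow_zero, mul_one] at hg
  have h1 : 4 ^ t ≤ 2 * t * t.centralBinom :=
    Nat.four_pow_le_two_mul_self_mul_centralBinom t (by omega)
  have h2 : t.centralBinom ≤ nn t s := by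
    unfold nn Nat.centralBinom
    exact Nat.choose_le_choose _ (by omega)
  have h3 : 4 ^ t ≤ 2 * t * nn t s := h1.trans (Nat.mul_le_mul_left _ h2)
  have hb : (t : ℝ) ≤ 100 * 1.01 ^ t := by
    have := nb_bern 0.01 (by norm_num) t
    norm_num at this ⊢
    linarith
  have h4 : ((2 * (t : ℝ)) * (74 * z)) ^ 10 ≤ ((4 : ℝ) ^ t) ^ 10 := by
    have hz' : (z : ℝ) ^ 10 ≤ 2 ^ (19 * t) := by exact_mod_cast hz
    calc ((2 * (t : ℝ)) * (74 * z)) ^ 10 = (148 * (t : ℝ)) ^ 10 * (z : ℝ) ^ 10 := by ring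
      _ ≤ (148 * (100 * 1.01 ^ t)) ^ 10 * 2 ^ (19 * t) := by gcongr
      _ = 14800 ^ 10 * (1.01 ^ 10) ^ t * 2 ^ (19 * t) := by
        rw [show (148 : ℝ) * (100 * 1.01 ^ t) = 14800 * 1.01 ^ t by ring, mul_pow, ← pow_mul,
          ← pow_mul, mul_comm t 10]
      _ ≤ 1.5 ^ t * (1.01 ^ 10) ^ t * 2 ^ (19 * t) := by gcongr
      _ = (1.5 * 1.01 ^ 10) ^ t * 2 ^ (19 * t) := by rw [mul_pow]
      _ ≤ 2 ^ t * 2 ^ (19 * t) := by
        refine mul_le_mul_of_nonneg_right ?_ (by positivity)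
        exact pow_le_pow_left₀ (by norm_num) (by norm_num) t
      _ = ((4 : ℝ) ^ t) ^ 10 := by
        rw [show (4 : ℝ) = 2 ^ 2 by norm_num, ← pow_add, ← pow_mul, ← pow_mul]
        congr 1
        ring
  have h5 : (2 * (t : ℝ)) * (74 * z) ≤ (4 : ℝ) ^ t :=
    le_of_pow_le_pow_left₀ (by norm_num) (by positivity) h4
  have h6 : (2 * t) * (74 * z) ≤ 4 ^ t := by exact_mod_cast h5
  exact Nat.le_of_mul_le_mul_left (h6.trans h3) (by omega)

end Pool.Agent.Lib.MP_95cf8e_co
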