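import Pool.Agent.Lib.MP_95cf8e_co.KSym
import Pool.Agent.Lib.MP_95cf8e_co.KIso
import Pool.Agent.Lib.MP_95cf8e_co.NumB

/-! # The expanding part of the ones -/

set_option autoImplicit false

namespace Pool.Agent.Lib.MP_95cf8e_co

open Finset
open scoped Classical

/-- numerics -/
theorem num_log : ∃ t0 : ℕ, ∀ t z : ℕ, t0 ≤ t → 1 ≤ z → z ^ 10 ≤ 2 ^ (19 * t) →
    Real.logb 2 ((1000 * t * z : ℕ) : ℝ) ≤ 1.92 * t := by
  -- `1000 t ≤ 2^(t/50)`
  have h1 : ∃ t0 : ℕ, ∀ t : ℕ, t0 ≤ t → Real.logb 2 (1000 * t) ≤ 0.02 * t := by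
    have h2 : Filter.Tendsto (fun x : ℝ => Real.log x / x) Filter.atTop (nhds 0) :=
      Real.isLittleO_log_id_atTop.tendsto_div_nhds_zero
    have h3 : ∀ᶠ x : ℝ in Filter.atTop, Real.log x / x < 0.000001 :=
      h2.eventually (gt_mem_nhds (by norm_num))
    obtain ⟨x0, hx0⟩ := Filter.eventually_atTop.1 h3
    refine ⟨⌈x0⌉₊ + 1000000000, ?_⟩
    intro t ht
    have ht1 : (1000000000 : ℝ) ≤ t := by
      have : (⌈x0⌉₊ : ℝ) + 1000000000 ≤ t := by exact_mod_cast ht
      have : (0 : ℝ) ≤ (⌈x0⌉₊ : ℝ) := by positivity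
      linarith
    have ht2 : x0 ≤ t := by
      have h4 : (⌈x0⌉₊ : ℝ) + 1000000000 ≤ t := by exact_mod_cast ht
      have h5 := Nat.le_ceil x0
      linarith
    have h4 := hx0 t ht2
    have htpos : (0 : ℝ) < t := by linarith
    rw [div_lt_iff₀ htpos] at h4
    rw [Real.logb, div_le_iff₀ (Real.log_pos (by norm_num)), Real.log_mul (by norm_num) (by positivity)]
    have h6 : Real.log 1000 ≤ 10 := by
      rw [Real.log_le_iff_le_exp (by norm_num)]
      have h7 : (1000 : ℝ) ≤ 2.7 ^ 10 := by norm_num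
      have h8 : (2.7 : ℝ) ^ 10 ≤ (Real.exp 1) ^ 10 := by
        apply pow_le_pow_left₀ (by norm_num)
        have := Real.exp_one_gt_d9
        linarith
      rw [← Real.exp_nat_mul] at h8
      norm_num at h8
      linarith
    have h9 := Real.log_two_gt_d9
    nlinarith
  obtain ⟨t0, h0⟩ := h1
  refine ⟨max t0 1, ?_⟩
  intro t z ht hz hz10
  have ht0 : t0 ≤ t := le_trans (le_max_left _ _) ht
  have ht1 : 1 ≤ t := le_trans (le_max_right _ _) ht
  have hzpos : (0 : ℝ) < z := by exact_mod_cast hz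
  have htpos : (0 : ℝ) < t := by exact_mod_cast ht1
  have h2 : Real.logb 2 z ≤ 1.9 * t := by
    have h3 : ((z ^ 10 : ℕ) : ℝ) ≤ ((2 ^ (19 * t) : ℕ) : ℝ) := by exact_mod_cast hz10
    push_cast at h3
    have h4 : Real.logb 2 ((z : ℝ) ^ 10) ≤ Real.logb 2 ((2 : ℝ) ^ (19 * t)) :=
      Real.logb_le_logb_of_le (by norm_num) (by positivity) h3
    rw [Real.logb_pow, Real.logb_pow, Real.logb_self_eq_one (by norm_num)] at h4
    push_cast at h4
    linarith
  push_cast
  rw [Real.logb_mul (by positivity) (by positivity)]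
  have := h0 t ht0
  linarith

/-- vertices with a neighbour in `S` -/
noncomputable def nbh {t s : ℕ} (S : Finset (KV t s)) : Finset (KV t s) :=
  univ.filter (fun v => ∃ a ∈ S, (KG t s).Adj a v)

theorem mem_nbh {t s : ℕ} {S : Finset (KV t s)} {v : KV t s} :
    v ∈ nbh S ↔ ∃ a ∈ S, (KG t s).Adj a v := by
  simp [nbh]

/-- **Ω-lemma.** -/
theorem omega_core : ∃ t0 : ℕ, ∀ t s z : ℕ, t0 ≤ t → 1 ≤ s → 1 ≤ z → z ^ 10 ≤ 2 ^ (19 * t) →
    ∀ Q : Finset (KV t s), Q.card ≤ 2 * z →
    ∃ Y0 : Finset (KV t s), Q ⊆ Y0 ∧ Y0.card ≤ 36 * z ∧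
      ∀ X S : Finset (KV t s), Disjoint X Y0 → X.card ≤ z → Disjoint S (Y0 ∪ X) →
        (∀ a ∈ S, ∀ b, (KG t s).Adj a b → b ∈ S ∨ b ∈ Y0 ∨ b ∈ X) →
        S.card ≤ 100 * X.card ∨ ((Y0 ∪ X ∪ S)ᶜ).card ≤ 100 * X.card := by
  obtain ⟨t0, h0⟩ := num_log
  obtain ⟨t1, h1⟩ := num_n
  refine ⟨max (max t0 t1) 35000, ?_⟩
  intro t s z ht hs hz hz10 Q hQ
  simp only [max_le_iff] at ht
  obtain ⟨⟨ht0, ht1⟩, ht2⟩ := ht
  have hlog := h0 t z ht0 hz hz10
  have hn := h1 t s z ht1 hs hz10
  have hnpos : 0 < nn t s := Nat.choose_pos (by omega)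
  have htz : z ≤ t * z := Nat.le_mul_of_pos_left _ (by omega)
  -- a largest bad set
  set Bad := (univ : Finset (Finset (KV t s))).filter (fun S => Disjoint S Q ∧
    S.card ≤ 400 * (t * z) ∧ 100 * (nbh S \ (S ∪ Q)).card ≤ S.card) with hBad
  obtain ⟨W, hW, hWmax⟩ := exists_max_image Bad card ⟨∅, by
    rw [hBad, mem_filter]
    refine ⟨mem_univ _, disjoint_empty_left _, by simp, ?_⟩
    have : nbh (∅ : Finset (KV t s)) = ∅ := by
      ext v; simp [mem_nbh]
    rw [this]; simp⟩
  rw [hBad, mem_filter] at hW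
  obtain ⟨_, hW1, hW2, hW3⟩ := hW
  -- size of `W`
  have hW34 : W.card ≤ 34 * z := by
    have h2 : (nbh W).card ≤ W.card + Q.card + (nbh W \ (W ∪ Q)).card := by
      have h3 : nbh W ⊆ (W ∪ Q) ∪ (nbh W \ (W ∪ Q)) := by
        intro v hv
        by_cases h : v ∈ W ∪ Q
        · exact mem_union_left _ h
        · exact mem_union_right _ (mem_sdiff.2 ⟨hv, h⟩)
      have h4 := (card_le_card h3).trans (card_union_le _ _)
      have h5 := card_union_le W Q
      omega
    rcases Nat.eq_zero_or_pos W.card with hW0 | hW0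
    · omega
    have h3 := expand ht2 hs W (nbh W) (fun a ha b hab => mem_nbh.2 ⟨a, ha, hab⟩) (by
      refine le_trans ?_ hlog
      apply Real.logb_le_logb_of_le (by norm_num)
      · exact_mod_cast (by omega : 0 < W.card + (nbh W).card)
      · have h4 : 1000 * t * z = 1000 * (t * z) := by ring
        exact_mod_cast (by rw [h4]; omega : W.card + (nbh W).card ≤ 1000 * t * z))
    have h4 : (100 : ℝ) * (nbh W).card ≤ 101 * W.card + 200 * z := by
      exact_mod_cast (by omega : 100 * (nbh W).card ≤ 101 * W.card + 200 * z)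
    have h5 : (W.card : ℝ) ≤ 34 * z := by
      have : (0 : ℝ) ≤ z := by positivity
      nlinarith
    exact_mod_cast h5
  refine ⟨Q ∪ W, subset_union_left, (card_union_le _ _).trans (by omega), ?_⟩
  -- expansion outside `Y0`
  have hexp : ∀ S : Finset (KV t s), S.Nonempty → Disjoint S (Q ∪ W) → S.card ≤ 350 * (t * z) →
      S.card < 100 * (nbh S \ (S ∪ (Q ∪ W))).card := by
    intro S hSne hSd hSc
    by_contra hcon
    push Not at hcon
    rw [disjoint_union_right] at hSd
    have hSW : (S ∪ W).card = S.card + W.card := card_union_of_disjoint hSd.2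
    have hbad : S ∪ W ∈ Bad := by
      rw [hBad, mem_filter]
      refine ⟨mem_univ _, disjoint_union_left.2 ⟨hSd.1, hW1⟩, by omega, ?_⟩
      have h2 : nbh (S ∪ W) \ (S ∪ W ∪ Q) ⊆
          (nbh S \ (S ∪ (Q ∪ W))) ∪ (nbh W \ (W ∪ Q)) := by
        intro v hv
        rw [mem_sdiff, mem_nbh] at hv
        obtain ⟨⟨a, ha, hav⟩, hv2⟩ := hv
        simp only [mem_union] at ha hv2
        rw [mem_union, mem_sdiff, mem_sdiff, mem_nbh, mem_nbh]
        simp only [mem_union]
        rcases ha with ha | ha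
        · left
          exact ⟨⟨a, ha, hav⟩, by tauto⟩
        · right
          exact ⟨⟨a, ha, hav⟩, by tauto⟩
      have h3 := (card_le_card h2).trans (card_union_le _ _)
      omega
    have h4 := hWmax _ hbad
    have h5 := hSne.card_pos
    omega
  intro X S hX hXz hSd hScl
  set Y0 := Q ∪ W with hY0
  have hY0c : (Y0 ∪ X).card ≤ 37 * z := by
    refine (card_union_le _ _).trans ?_
    have := card_union_le Q W
    rw [← hY0] at this
    omega
  set S' := (Y0 ∪ X ∪ S)ᶜ with hS'
  have hcard : (Y0 ∪ X).card + S.card + S'.card = nn t s := by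
    rw [← card_KV, hS', card_compl, card_union_of_disjoint hSd.symm]
    have : (Y0 ∪ X ∪ S).card ≤ Fintype.card (KV t s) := card_le_univ _
    rw [card_union_of_disjoint hSd.symm] at this
    omega
  have hScl' : ∀ a ∈ S', ∀ b, (KG t s).Adj a b → b ∈ S' ∨ b ∈ Y0 ∨ b ∈ X := by
    intro a ha b hab
    by_contra hb
    push Not at hb
    have hbS : b ∈ S := by
      by_contra hbS
      apply hb.1
      rw [hS', mem_compl, mem_union, mem_union]
      tauto
    have h2 := hScl b hbS a hab.symm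
    rw [hS', mem_compl, mem_union, mem_union] at ha
    tauto
  -- the general estimate
  have main : ∀ U U' : Finset (KV t s), Disjoint U (Y0 ∪ X) → (U ∪ (Y0 ∪ X))ᶜ = U' →
      U.card ≤ U'.card → (Y0 ∪ X).card + U.card + U'.card = nn t s →
      (∀ a ∈ U, ∀ b, (KG t s).Adj a b → b ∈ U ∨ b ∈ Y0 ∨ b ∈ X) → U.card ≤ 100 * X.card := by
    intro U U' hUd hUU' hle hsum hcl
    rcases U.eq_empty_or_nonempty with h | hne
    · rw [h]; simp
    have h2 := lemmaC (by omega) hs U (Y0 ∪ X) (by
      intro a ha b hab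
      rcases hcl a ha b hab with h | h | h
      · exact Or.inl h
      · exact Or.inr (mem_union_left _ h)
      · exact Or.inr (mem_union_right _ h))
    rw [hUU'] at h2
    have h3 : nn t s ≤ 4 * U'.card := by omega
    have h4 : U.card ≤ 350 * (t * z) := by
      by_contra hlt
      push Not at hlt
      have h5 : U.card * nn t s ≤ 4 * ((t + 1) * nn t s * (37 * z)) := by
        calc U.card * nn t s ≤ U.card * (4 * U'.card) := Nat.mul_le_mul_left _ h3
          _ = 4 * (U.card * U'.card) := by ring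
          _ ≤ 4 * ((t + 1) * nn t s * (37 * z)) :=
              Nat.mul_le_mul_left _ (h2.trans (Nat.mul_le_mul_left _ hY0c))
      have h6 : U.card * nn t s ≤ (148 * ((t + 1) * z)) * nn t s := by
        refine h5.trans (le_of_eq ?_); ring
      have h7 := Nat.le_of_mul_le_mul_right h6 hnpos
      have h8 : (t + 1) * z = t * z + z := by ring
      omega
    have h5 := hexp U hne (by
      rw [disjoint_union_right] at hUd
      exact hUd.1) h4
    have h6 : nbh U \ (U ∪ Y0) ⊆ X := by
      intro v hv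
      rw [mem_sdiff, mem_nbh, mem_union] at hv
      obtain ⟨⟨a, ha, hav⟩, hv2⟩ := hv
      rcases hcl a ha v hav with h | h | h
      · exact absurd (Or.inl h) hv2
      · exact absurd (Or.inr h) hv2
      · exact h
    have h7 := card_le_card h6
    omega
  rcases le_total S.card S'.card with hle | hle
  · left
    refine main S S' hSd ?_ hle hcard hScl
    rw [hS', union_comm]
  · right
    refine main S' S ?_ ?_ hle (by omega) hScl'
    · rw [Finset.disjoint_left]
      intro v hv hv'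
      rw [hS', mem_compl, mem_union] at hv
      exact hv (Or.inl hv')
    · ext v
      rw [mem_compl, mem_union, hS', mem_compl, mem_union]
      have h2 : v ∈ S → v ∉ Y0 ∪ X := fun h => Finset.disjoint_left.1 hSd h
      tauto

end Pool.Agent.Lib.MP_95cf8e_co
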