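import Pool.Agent.Lib.MP_95cf8e_co.R0
import Pool.Agent.Lib.MP_95cf8e_co.Omega
import Pool.Agent.Lib.MP_95cf8e_co.FewHeavy
import Pool.Agent.Lib.MP_95cf8e_co.NumS

/-! # Linearly many zeros, `s = 1` -/

set_option autoImplicit false

namespace Pool.Agent.Lib.MP_95cf8e_co

open Finset
open scoped Classical

theorem kk_one (t : ℕ) : kk t 1 = t + 1 := by
  rw [kk, Nat.choose_succ_self_right]

/-- neighbours outside `Y0 ∪ Y1 ∪ F` -/
theorem pick {t : ℕ} (Y0 Y1 : Finset (KV t 1)) (hY1 : 8 * Y1.card ≤ t)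
    (hnb : ∀ v, v ∉ Y1 → t + 1 < 2 * ((Y0ᶜ).filter (fun w => (KG t 1).Adj v w)).card)
    (v : KV t 1) (hv : v ∉ Y1) (F : Finset (KV t 1)) (hF : 4 * F.card ≤ t) :
    ∃ a, (KG t 1).Adj v a ∧ a ∉ Y0 ∧ a ∉ Y1 ∧ a ∉ F := by
  by_contra hcon
  push Not at hcon
  have h1 := hnb v hv
  have h2 : (Y0ᶜ).filter (fun w => (KG t 1).Adj v w) ⊆ Y1 ∪ F := by
    intro w hw
    rw [mem_filter, mem_compl] at hw
    rw [mem_union]
    by_contra h
    push Not at h
    exact h.2 (hcon w hw.2 hw.1 h.1)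
  have h3 := (card_le_card h2).trans (card_union_le _ _)
  omega

/-- one supply -/
theorem supply_S {t : ℕ} (ht : 8000 ≤ t) (Y0 Y1 : Finset (KV t 1)) (hY1 : 8 * Y1.card ≤ t)
    (hnb : ∀ v, v ∉ Y1 → t + 1 < 2 * ((Y0ᶜ).filter (fun w => (KG t 1).Adj v w)).card)
    (c : KV t 1 → ℕ) (hc : 2 * Y1.card < ∑ v, (c v - 1)) (F : Finset (KV t 1))
    (hF : 4 * F.card ≤ t) :
    ∃ a, a ∉ Y0 ∧ a ∉ Y1 ∧ a ∉ F ∧ ∃ E ≤ c, ∑ x, E x ≤ 4 ∧
      Gets (KG t 1) E (Pi.single a 1) := by
  obtain ⟨b, hb⟩ : ∃ b, (b ∉ Y1 ∧ 2 ≤ c b) ∨ (b ∈ Y1 ∧ 4 ≤ c b) := by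
    by_contra hcon
    push Not at hcon
    have h1 : ∑ v, (c v - 1) ≤ ∑ v, (if v ∈ Y1 then 2 else 0) := by
      apply sum_le_sum
      intro v _
      have := hcon v
      split_ifs with h
      · have := this.2 h; omega
      · have := this.1 h; omega
    rw [← sum_filter, sum_const, smul_eq_mul] at h1
    have h2 : (univ.filter (fun v => v ∈ Y1)) = Y1 := by ext v; simp
    rw [h2] at h1
    omega
  rcases hb with ⟨hb1, hb2⟩ | ⟨hb1, hb2⟩
  · obtain ⟨a, ha1, ha2, ha3, ha4⟩ := pick Y0 Y1 hY1 hnb b hb1 F hF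
    refine ⟨a, ha2, ha3, ha4, Pi.single b 2, ?_, ?_, ?_⟩
    · exact single_le' hb2
    · rw [sum_single']; norm_num
    · exact gets_adj ha1 1
  · obtain ⟨u, hu1, hu2⟩ : ∃ u, (KG t 1).Adj b u ∧ u ∉ Y1 := by
      by_contra hcon
      push Not at hcon
      have h1 : univ.filter (fun w => (KG t 1).Adj b w) ⊆ Y1 := by
        intro w hw
        exact hcon w (by simpa using hw)
      have h2 := card_le_card h1
      rw [card_nbr (by omega), kk_one] at h2
      omega
    obtain ⟨a, ha1, ha2, ha3, ha4⟩ := pick Y0 Y1 hY1 hnb u hu2 F hF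
    refine ⟨a, ha2, ha3, ha4, Pi.single b 4, ?_, ?_, ?_⟩
    · exact single_le' hb2
    · rw [sum_single']
    · exact (gets_adj hu1 2).trans (gets_adj ha1 1)

/-- two leaves -/
theorem leaves_S {t : ℕ} (ht : 8000 ≤ t) (Y0 Y1 : Finset (KV t 1)) (hY1 : 8 * Y1.card ≤ t)
    (hnb : ∀ v, v ∉ Y1 → t + 1 < 2 * ((Y0ᶜ).filter (fun w => (KG t 1).Adj v w)).card)
    (r : KV t 1) :
    ∃ l1 l2, l1 ≠ l2 ∧ l1 ∉ Y0 ∧ l1 ∉ Y1 ∧ l2 ∉ Y0 ∧ l2 ∉ Y1 ∧
      Gets (KG t 1) (Pi.single l1 2 + Pi.single l2 2) (Pi.single r 1) := by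
  by_cases hr : r ∈ Y1
  · obtain ⟨u, hu1, hu2⟩ : ∃ u, (KG t 1).Adj r u ∧ u ∉ Y1 := by
      by_contra hcon
      push Not at hcon
      have h1 : univ.filter (fun w => (KG t 1).Adj r w) ⊆ Y1 := by
        intro w hw
        exact hcon w (by simpa using hw)
      have h2 := card_le_card h1
      rw [card_nbr (by omega), kk_one] at h2
      omega
    obtain ⟨l1, ha1, ha2, ha3, ha4⟩ := pick Y0 Y1 hY1 hnb u hu2 ∅ (by simp)
    obtain ⟨l2, hb1, hb2, hb3, hb4⟩ := pick Y0 Y1 hY1 hnb u hu2 {l1} (by simp; omega)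
    refine ⟨l1, l2, fun h => hb4 (by simp [h]), ha2, ha3, hb2, hb3, ?_⟩
    refine ((gets_adj ha1.symm 1).add (gets_adj hb1.symm 1)).trans ?_
    rw [← Pi.single_add]
    exact gets_adj hu1.symm 1
  · obtain ⟨l1, ha1, ha2, ha3, ha4⟩ := pick Y0 Y1 hY1 hnb r hr ∅ (by simp)
    obtain ⟨l2, hb1, hb2, hb3, hb4⟩ := pick Y0 Y1 hY1 hnb r hr {l1} (by simp; omega)
    refine ⟨l1, l2, fun h => hb4 (by simp [h]), ha2, ha3, hb2, hb3, ?_⟩
    refine (gets_adj ha1.symm 1).mono ?_ le_rfl
    intro x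
    simp

/-- linear regime -/
theorem regimeS : ∃ t0 : ℕ, ∀ t : ℕ, t0 ≤ t →
    ∀ C : KV t 1 → ℕ, ∑ v, C v = nn t 1 → ∀ r : KV t 1,
    t ≤ 2 * zz C → zz C ≤ 819200 * t →
    Gets (KG t 1) C (Pi.single r 1) := by
  obtain ⟨t0, h0⟩ := omega_core
  obtain ⟨t1, h1⟩ := few_heavy
  obtain ⟨t2, h2⟩ := numS
  refine ⟨max (max t0 t1) (max t2 8000), ?_⟩
  intro t ht C hC r hz1 hz2
  simp only [max_le_iff] at ht
  obtain ⟨⟨ht0, ht1⟩, ht2, ht3⟩ := ht
  set z := zz C with hz
  have hz10 : z ^ 10 ≤ 2 ^ (19 * t) :=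
    (Nat.pow_le_pow_left hz2 _).trans (h2 t 0 ht2 (Nat.zero_le _)).2
  set Q := univ.filter (fun v : KV t 1 => C v ≠ 1) with hQ
  have hsur : z = ∑ v, (C v - 1) := surplus_eq C (by rw [hC, card_KV])
  have hQ2 : Q.card ≤ 2 * z := by
    have h5 : Q = univ.filter (fun v : KV t 1 => C v = 0) ∪ univ.filter (fun v => 2 ≤ C v) := by
      ext v
      simp only [hQ, mem_filter, mem_univ, true_and, mem_union]
      omega
    have h6 : (univ.filter (fun v => 2 ≤ C v)).card ≤ z := by
      rw [hsur, card_filter]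
      apply sum_le_sum
      intro v _
      split_ifs <;> omega
    rw [h5]
    refine (card_union_le _ _).trans ?_
    have h7 : (univ.filter (fun v : KV t 1 => C v = 0)).card = z := rfl
    omega
  obtain ⟨Y0, hQY, hY0, hcore⟩ := h0 t 1 z ht0 le_rfl (by omega) hz10 Q hQ2
  have hY1 := h1 t ht1 Y0 (by omega)
  set Y1 := univ.filter (fun v : KV t 1 =>
      t + 1 ≤ 2 * (Y0.filter (fun w => (KG t 1).Adj v w)).card) with hY1def
  have hnb : ∀ v, v ∉ Y1 → t + 1 < 2 * ((Y0ᶜ).filter (fun w => (KG t 1).Adj v w)).card := by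
    intro v hv
    simp only [hY1def, mem_filter, mem_univ, true_and, not_le] at hv
    have h3 := card_nbr (t := t) (s := 1) (by omega) v
    rw [kk_one] at h3
    have h4 : univ.filter (fun w => (KG t 1).Adj v w) =
        Y0.filter (fun w => (KG t 1).Adj v w) ∪ (Y0ᶜ).filter (fun w => (KG t 1).Adj v w) := by
      rw [← filter_union, union_compl]
    have h5 := card_union_le (Y0.filter (fun w => (KG t 1).Adj v w))
      ((Y0ᶜ).filter (fun w => (KG t 1).Adj v w))
    rw [← h4, h3] at h5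
    omega
  -- sources
  set c : KV t 1 → ℕ := fun v => if 2 ≤ C v then C v else 0 with hc
  have hcsur : ∑ v, (c v - 1) = z := by
    rw [hsur]
    apply sum_congr rfl
    intro v _
    simp only [hc]
    split_ifs <;> omega
  obtain ⟨a1, ha1, ha1', _, E1, hE1, hE1s, hE1g⟩ := supply_S ht3 Y0 Y1 hY1 hnb c (by omega) ∅
    (by simp)
  have hsur2 : ∑ v, (c v - 1) ≤ ∑ v, ((c - E1) v - 1) + ∑ v, E1 v := by
    rw [← sum_add_distrib]
    apply sum_le_sum
    intro v _
    simp only [Pi.sub_apply]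
    omega
  obtain ⟨a2, ha2, ha2', ha12, E2, hE2, _, hE2g⟩ := supply_S ht3 Y0 Y1 hY1 hnb (c - E1) (by omega)
    {a1} (by simp; omega)
  obtain ⟨l1, l2, hl12, hl1, hl1', hl2, hl2', hlg⟩ := leaves_S ht3 Y0 Y1 hY1 hnb r
  have hne : a1 ≠ a2 := fun h => ha12 (by simp [h])
  -- degrees into `Y0ᶜ`
  have hdeg : ∀ (X : Finset (KV t 1)), X.card < 2 → ∀ v, v ∉ Y1 →
      100 < (((Y0ᶜ).filter (fun w => (KG t 1).Adj v w)) \ X).card := by
    intro X hX v hv
    have h3 := le_card_sdiff X ((Y0ᶜ).filter (fun w => (KG t 1).Adj v w))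
    have h4 := hnb v hv
    omega
  obtain ⟨A', hA', L', hL', hA'c, hL'c, hg⟩ := paths_gets (KG t 1) Y0ᶜ {a1, a2} {l1, l2}
    (by
      intro v hv
      rw [mem_compl]
      rcases mem_insert.1 hv with h | h
      · rw [h]; exact ha1
      · rw [mem_singleton.1 h]; exact ha2)
    (by
      intro v hv
      rw [mem_compl]
      rcases mem_insert.1 hv with h | h
      · rw [h]; exact hl1
      · rw [mem_singleton.1 h]; exact hl2) 2
    (by
      intro X S hX hXP hS hAS hSL
      by_contra hcon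
      push Not at hcon
      have hXY : Disjoint X Y0 := by
        rw [Finset.disjoint_left]
        intro v hv
        exact mem_compl.1 (hX hv)
      have hSd : Disjoint S (Y0 ∪ X) := by
        rw [Finset.disjoint_left]
        intro v hv
        have := hS hv
        rw [mem_sdiff, mem_compl] at this
        rw [mem_union]
        tauto
      have hcl : ∀ a ∈ S, ∀ b, (KG t 1).Adj a b → b ∈ S ∨ b ∈ Y0 ∨ b ∈ X := by
        intro a ha b hab
        by_contra hb
        push Not at hb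
        exact hcon a ha b (mem_compl.2 hb.2.1) hb.2.2 hb.1 hab
      rcases hcore X S hXY (by omega) hSd hcl with h | h
      · -- some source in `S`
        obtain ⟨a, haS, haY⟩ : ∃ a ∈ S, a ∉ Y1 := by
          by_cases h3 : a1 ∈ X
          · have h4 : a2 ∉ X := by
              intro h4
              have := card_le_card (show {a1, a2} ⊆ X by
                intro v hv
                rcases mem_insert.1 hv with h5 | h5
                · rw [h5]; exact h3
                · rw [mem_singleton.1 h5]; exact h4)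
              rw [card_pair hne] at this
              omega
            exact ⟨a2, hAS (by rw [mem_sdiff]; exact ⟨by simp, h4⟩), ha2'⟩
          · exact ⟨a1, hAS (by rw [mem_sdiff]; exact ⟨by simp, h3⟩), ha1'⟩
        have h3 := hdeg X hXP a haY
        have h4 : (((Y0ᶜ).filter (fun w => (KG t 1).Adj a w)) \ X) ⊆ S := by
          intro w hw
          rw [mem_sdiff, mem_filter, mem_compl] at hw
          rcases hcl a haS w hw.1.2 with h5 | h5 | h5
          · exact h5
          · exact absurd h5 hw.1.1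
          · exact absurd h5 hw.2
        have h5 := card_le_card h4
        omega
      · obtain ⟨l, hlL, hlX, hlY, hlY0⟩ : ∃ l ∈ ({l1, l2} : Finset (KV t 1)), l ∉ X ∧ l ∉ Y1 ∧
            l ∉ Y0 := by
          by_cases h3 : l1 ∈ X
          · refine ⟨l2, by simp, fun h4 => ?_, hl2', hl2⟩
            have := card_le_card (show {l1, l2} ⊆ X by
              intro v hv
              rcases mem_insert.1 hv with h5 | h5
              · rw [h5]; exact h3
              · rw [mem_singleton.1 h5]; exact h4)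
            rw [card_pair hl12] at this
            omega
          · exact ⟨l1, by simp, h3, hl1', hl1⟩
        have hlS : l ∉ S := fun h5 => Finset.disjoint_left.1 hSL h5 hlL
        have h3 := hdeg X hXP l hlY
        have h4 : (((Y0ᶜ).filter (fun w => (KG t 1).Adj l w)) \ X) ⊆ (Y0 ∪ X ∪ S)ᶜ := by
          intro w hw
          rw [mem_sdiff, mem_filter, mem_compl] at hw
          rw [mem_compl, mem_union, mem_union]
          rintro ((h6 | h6) | h6)
          · exact hw.1.1 h6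
          · exact hw.2 h6
          · rcases hcl w h6 l hw.1.2.symm with h7 | h7 | h7
            · exact hlS h7
            · exact hlY0 h7
            · exact hlX h7
        have h5 := card_le_card h4
        omega)
  have hA'eq : A' = {a1, a2} := eq_of_subset_of_card_le hA' (by rw [card_pair hne, hA'c])
  have hL'eq : L' = {l1, l2} := eq_of_subset_of_card_le hL' (by rw [card_pair hl12, hL'c])
  rw [hA'eq, hL'eq, sum_pair hne, sum_pair hl12] at hg
  refine (((hE1g.add hE2g).add (Gets.refl (∑ v ∈ Y0ᶜ, Pi.single v 1))).trans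
    (hg.trans hlg)).mono ?_ le_rfl
  intro v
  rw [Pi.add_apply, sum_singles_apply, Pi.add_apply]
  have h3 : E1 v ≤ c v := hE1 v
  have h4 : E2 v ≤ c v - E1 v := hE2 v
  by_cases hv : v ∈ Y0
  · rw [if_neg (by simpa using hv)]
    have h5 : c v ≤ C v := by
      simp only [hc]
      split_ifs <;> omega
    show E1 v + E2 v + 0 ≤ C v
    omega
  · have hv1 : C v = 1 := by
      have : v ∉ Q := fun h => hv (hQY h)
      simpa [hQ] using this
    rw [if_pos (by simpa using hv)]
    have h5 : c v = 0 := by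
      simp only [hc]
      rw [if_neg (by omega)]
    show E1 v + E2 v + 1 ≤ C v
    omega

end Pool.Agent.Lib.MP_95cf8e_co
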