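import Pool.Agent.Lib.MP_95cf8e_co.RM
import Pool.Agent.Lib.MP_95cf8e_co.RD
import Pool.Agent.Lib.MP_95cf8e_co.RS

/-! # All large Kneser graphs are Class 0 -/

set_option autoImplicit false

namespace Pool.Agent.Lib.MP_95cf8e_co

open Finset
open scoped Classical

/-- every configuration of size `n` reaches every target -/
theorem solvable : ∃ t0 : ℕ, ∀ t s : ℕ, t0 ≤ t → 1 ≤ s →
    ∀ C : KV t s → ℕ, ∑ v, C v = nn t s → ∀ r : KV t s, C r = 0 →
    Gets (KG t s) C (Pi.single r 1) := by
  obtain ⟨t0, h0⟩ := regime0
  obtain ⟨t1, h1⟩ := regimeS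
  obtain ⟨t2, h2⟩ := regimeM
  obtain ⟨t3, h3⟩ := regimeD
  obtain ⟨t4, h4⟩ := regimeL
  refine ⟨max (max t0 t1) (max (max t2 t3) (max t4 4000000)), ?_⟩
  intro t s ht hs C hC r hr
  simp only [max_le_iff] at ht
  obtain ⟨⟨ht0, ht1⟩, ⟨ht2, ht3⟩, ht4, ht5⟩ := ht
  rcases le_total t (s * s) with hst | hst
  · exact h4 t s ht4 hs hst C hC r hr
  rcases le_total (2 * zz C) (kk t s) with hz | hz
  · exact h0 t s ht0 hs hst C hC r hr hz
  rcases le_total (2 ^ (19 * t)) (zz C ^ 10) with hD | hD
  · exact h3 t s ht3 hs hst C hC r hD
  rcases le_total (819200 * t) (zz C) with hM | hM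
  · exact h2 t s ht2 hs hst C hC r hM hD
  rcases Nat.lt_or_ge s 2 with hs2 | hs2
  · have hs1 : s = 1 := by omega
    subst hs1
    rw [kk_one] at hz
    exact h1 t ht1 C hC r (by omega) hM
  · -- `s ≥ 2`: impossible
    exfalso
    have h5 : (t + 2).choose t ≤ kk t s := Nat.choose_le_choose _ (by omega)
    have h6 : (t + 2).choose t = (t + 2).choose 2 := by
      rw [← Nat.choose_symm_of_eq_add]; ring
    rw [h6, Nat.choose_two_right] at h5
    have h7 : t * t ≤ (t + 2) * (t + 2 - 1) := Nat.mul_le_mul (by omega) (by omega)
    have h8 : 4000000 * t ≤ t * t := Nat.mul_le_mul_right _ ht5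
    omega

/-- If every configuration of size `n` reaches every target then the least such size is `n`
(a smaller 0-1 configuration that misses the target has no moves). -/
theorem sInf_of_solvable (t s : ℕ)
    (h0 : ∀ C : KV t s → ℕ, ∑ v, C v = nn t s → ∀ r : KV t s, C r = 0 →
      Gets (KG t s) C (Pi.single r 1)) :
      sInf {k : ℕ | ∀ D : {s' : Finset (Fin (2 * t + s)) // s'.card = t} → ℕ,
          ∑ v, D v = k →
          ∀ r : {s' : Finset (Fin (2 * t + s)) // s'.card = t},
            ∃ D' : {s' : Finset (Fin (2 * t + s)) // s'.card = t} → ℕ,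
              Relation.ReflTransGen
                (fun A B : {s' : Finset (Fin (2 * t + s)) // s'.card = t} → ℕ =>
                  ∃ u v : {s' : Finset (Fin (2 * t + s)) // s'.card = t},
                    (SimpleGraph.fromRel
                        (fun a b : {s' : Finset (Fin (2 * t + s)) // s'.card = t} =>
                          Disjoint a.1 b.1)).Adj u v ∧
                    2 ≤ A u ∧
                    B = Function.update (Function.update A u (A u - 2)) v (A v + 1))
                D D' ∧ 1 ≤ D' r} = (2 * t + s).choose t := by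
  apply le_antisymm
  · apply Nat.sInf_le
    intro D hD r
    rcases Nat.eq_zero_or_pos (D r) with hr | hr
    · obtain ⟨D', h1, h2⟩ := h0 D hD r hr
      refine ⟨D', h1, ?_⟩
      have := h2 r
      simpa using this
    · exact ⟨D, .refl, hr⟩
  · apply le_csInf
    · refine ⟨(2 * t + s).choose t, ?_⟩
      intro D hD r
      rcases Nat.eq_zero_or_pos (D r) with hr | hr
      · obtain ⟨D', h1, h2⟩ := h0 D hD r hr
        refine ⟨D', h1, ?_⟩
        have := h2 r
        simpa using this
      · exact ⟨D, .refl, hr⟩
    · intro k hk
      by_contra hlt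
      push Not at hlt
      -- a vertex
      have hne : Nonempty (KV t s) := by
        rw [← Fintype.card_pos_iff, card_KV]
        exact Nat.choose_pos (by omega)
      obtain ⟨r⟩ := hne
      obtain ⟨S, hS1, hS2⟩ := exists_subset_card_eq (s := (univ : Finset (KV t s)).erase r)
        (n := k) (by
          rw [card_erase_of_mem (mem_univ _), card_univ, card_KV]
          have : k < nn t s := hlt
          omega)
      obtain ⟨D', h1, h2⟩ := hk (fun v => if v ∈ S then 1 else 0) (by simp [hS2]) r
      have h3 : ∀ D' : KV t s → ℕ, Relation.ReflTransGen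
                (fun A B : KV t s → ℕ =>
                  ∃ u v : KV t s,
                    (SimpleGraph.fromRel
                        (fun a b : KV t s =>
                          Disjoint a.1 b.1)).Adj u v ∧
                    2 ≤ A u ∧
                    B = Function.update (Function.update A u (A u - 2)) v (A v + 1))
                (fun v => if v ∈ S then 1 else 0) D' → D' = (fun v => if v ∈ S then 1 else 0) := by
        intro D' h
        induction h with
        | refl => rfl
        | tail _ h ih =>
          obtain ⟨u, v, _, hu, _⟩ := h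
          rw [ih] at hu
          dsimp only at hu
          split_ifs at hu <;> omega
      rw [h3 D' h1] at h2
      have h4 : r ∉ S := fun h => by simpa using hS1 h
      simp [h4] at h2

end Pool.Agent.Lib.MP_95cf8e_co
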