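import Pool.Agent.Lib.MP_95cf8e_co.R0

/-! # `K(2t+s,t)` with `s` large compared with `t` (to exhaust all but finitely many graphs) -/

set_option autoImplicit false

namespace Pool.Agent.Lib.MP_95cf8e_co

open Finset
open scoped Classical

variable {t s : ℕ}

theorem deg_large (t s : ℕ) (ht : 1 ≤ t) (hs : 4 * t ^ 2 < s) : 3 * nn t s < 4 * kk t s := by
  obtain ⟨t', rfl⟩ : ∃ t', t = t' + 1 := ⟨t - 1, by omega⟩
  -- `n ≤ k + t * choose (2t+s-1) (t-1)` and `(2t+s) choose (2t+s-1) (t-1) = t n`
  have h1 : nn (t' + 1) s ≤ kk (t' + 1) s + (t' + 1) * (2 * (t' + 1) + s - 1).choose t' := by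
    rw [nn, kk]
    have h2 : ∀ j, (t' + 1 + s + j).choose (t' + 1) ≤ (t' + 1 + s).choose (t' + 1) +
        j * (t' + 1 + s + j - 1).choose t' := by
      intro j
      induction j with
      | zero => simp
      | succ j ih =>
        rw [show t' + 1 + s + (j + 1) = (t' + 1 + s + j) + 1 by ring, Nat.choose_succ_succ',
          Nat.add_sub_cancel]
        have h3 : (t' + 1 + s + j - 1).choose t' ≤ (t' + 1 + s + j).choose t' :=
          Nat.choose_le_choose _ (by omega)
        have h4 : j * (t' + 1 + s + j - 1).choose t' ≤ j * (t' + 1 + s + j).choose t' :=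
          Nat.mul_le_mul_left _ h3
        have h5 : (j + 1) * (t' + 1 + s + j).choose t' = j * (t' + 1 + s + j).choose t' +
            (t' + 1 + s + j).choose t' := by ring
        omega
    have h3 := h2 (t' + 1)
    rwa [show t' + 1 + s + (t' + 1) = 2 * (t' + 1) + s by ring] at h3
  have h2 : (2 * (t' + 1) + s) * (2 * (t' + 1) + s - 1).choose t' = nn (t' + 1) s * (t' + 1) := by
    have h3 := Nat.add_one_mul_choose_eq (2 * (t' + 1) + s - 1) t'
    rw [show 2 * (t' + 1) + s - 1 + 1 = 2 * (t' + 1) + s by omega] at h3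
    exact h3
  set X := (2 * (t' + 1) + s - 1).choose t' with hX
  have hn : 0 < nn (t' + 1) s := Nat.choose_pos (by omega)
  -- `4 t X (2t+s) = 4 t² n < (2t+s) n`
  have h3 : (2 * (t' + 1) + s) * (4 * ((t' + 1) * X)) < (2 * (t' + 1) + s) * nn (t' + 1) s := by
    calc (2 * (t' + 1) + s) * (4 * ((t' + 1) * X))
        = 4 * (t' + 1) * ((2 * (t' + 1) + s) * X) := by ring
      _ = (4 * (t' + 1) ^ 2) * nn (t' + 1) s := by rw [h2]; ring
      _ < (2 * (t' + 1) + s) * nn (t' + 1) s := Nat.mul_lt_mul_of_pos_right (by omega) hn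
  have h4 := Nat.lt_of_mul_lt_mul_left h3
  omega

/-- If every vertex is adjacent to more than three quarters of the others, the graph is Class 0. -/
theorem solv_deg (ht : 1 ≤ t) (hk : 3 * nn t s < 4 * kk t s) (C : KV t s → ℕ)
    (hC : ∑ v, C v = nn t s) (r : KV t s) (hr : C r = 0) :
    Gets (KG t s) C (Pi.single r 1) := by
  by_contra hnot
  have hnb : ∀ v : KV t s, ((univ.filter (fun w => (KG t s).Adj v w)) ∩
      (univ.filter (fun w => (KG t s).Adj r w))).card + nn t s ≥ 2 * kk t s := by
    intro v
    have h1 := card_union_add_card_inter (univ.filter (fun w => (KG t s).Adj v w))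
      (univ.filter (fun w => (KG t s).Adj r w))
    rw [card_nbr ht, card_nbr ht] at h1
    have h2 := card_le_univ ((univ.filter (fun w => (KG t s).Adj v w)) ∪
      (univ.filter (fun w => (KG t s).Adj r w)))
    rw [card_KV] at h2
    omega
  -- neighbours of `r` carry at most one pebble
  have h1 : ∀ u, (KG t s).Adj r u → C u ≤ 1 := by
    intro u hu
    by_contra h
    push Not at h
    exact hnot ((gets_adj hu.symm 1).mono (single_le' h) le_rfl)
  have hcom : ∀ v : KV t s, ∃ u, (KG t s).Adj v u ∧ (KG t s).Adj u r := by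
    intro v
    have h2 := hnb v
    have h3 : 0 < ((univ.filter (fun w => (KG t s).Adj v w)) ∩
      (univ.filter (fun w => (KG t s).Adj r w))).card := by omega
    obtain ⟨u, hu⟩ := card_pos.1 h3
    rw [mem_inter, mem_filter, mem_filter] at hu
    exact ⟨u, hu.1.2, hu.2.2.symm⟩
  have h3 : ∀ v, C v ≤ 3 := by
    intro v
    by_contra h
    push Not at h
    obtain ⟨u, hu1, hu2⟩ := hcom v
    exact hnot (((gets_adj hu1 2).trans (gets_adj hu2 1)).mono (single_le' h) le_rfl)
  have hsur : (univ.filter (fun v : KV t s => C v = 0)).card = ∑ v, (C v - 1) :=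
    surplus_eq C (by rw [hC, card_KV])
  -- a vertex with two pebbles
  obtain ⟨b, hb⟩ : ∃ b, 2 ≤ C b := by
    by_contra hno
    push Not at hno
    have h4 : 0 < (univ.filter (fun v : KV t s => C v = 0)).card :=
      card_pos.2 ⟨r, by simp [hr]⟩
    rw [hsur, sum_eq_zero (fun v _ => by have := hno v; omega)] at h4
    omega
  -- common neighbours of `b` and `r` are empty
  have h4 : (univ.filter (fun w => (KG t s).Adj b w)) ∩
      (univ.filter (fun w => (KG t s).Adj r w)) ⊆ univ.filter (fun v => C v = 0) := by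
    intro u hu
    rw [mem_inter, mem_filter, mem_filter] at hu
    rw [mem_filter]
    refine ⟨mem_univ _, ?_⟩
    by_contra hu0
    have hbu : b ≠ u := hu.1.2.ne
    apply hnot
    have h5 : Gets (KG t s) (Pi.single b 2 + Pi.single u 1) (Pi.single r 1) := by
      refine ((gets_adj hu.1.2 1).add_right (Pi.single u 1)).trans ?_
      rw [← Pi.single_add]
      exact gets_adj hu.2.2.symm 1
    refine h5.mono ?_ le_rfl
    intro x
    by_cases hxb : x = b
    · subst hxb
      rw [Pi.add_apply, Pi.single_eq_same, Pi.single_eq_of_ne hbu]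
      exact hb
    · rw [Pi.add_apply, Pi.single_eq_of_ne hxb]
      by_cases hxu : x = u
      · subst hxu
        rw [Pi.single_eq_same, zero_add]
        exact Nat.one_le_iff_ne_zero.2 hu0
      · rw [Pi.single_eq_of_ne hxu]
        exact Nat.zero_le _
  have h5 := card_le_card h4
  have h6 := hnb b
  -- surplus
  have h7 : ∑ v, (C v - 1) ≤ ∑ v, (if (KG t s).Adj r v then 0 else 2) := by
    apply sum_le_sum
    intro v _
    split_ifs with h
    · have := h1 v h; omega
    · have := h3 v; omega
  have h8 : ∑ v, (if (KG t s).Adj r v then 0 else 2) =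
      2 * (univ.filter (fun v => ¬ (KG t s).Adj r v)).card := by
    rw [card_filter, mul_sum]
    apply sum_congr rfl
    intro v _
    by_cases h : (KG t s).Adj r v
    · rw [if_pos h, if_neg (not_not.2 h), mul_zero]
    · rw [if_neg h, if_pos h, mul_one]
  have h9 := card_filter_add_card_filter_not (s := (univ : Finset (KV t s)))
    (fun v => (KG t s).Adj r v)
  rw [card_nbr ht, card_univ, card_KV] at h9
  omega

end Pool.Agent.Lib.MP_95cf8e_co
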