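import Pool.Agent.Lib.MP_95cf8e_co.Defs

set_option autoImplicit false

namespace Pool.Agent.Lib.MP_95cf8e_co

open Finset
open scoped Classical

variable {t s : ℕ}

theorem kadj (ht : 1 ≤ t) {a b : KV t s} : (KG t s).Adj a b ↔ Disjoint a.1 b.1 := by
  rw [SimpleGraph.fromRel_adj]
  constructor
  · rintro ⟨_, h | h⟩
    · exact h
    · exact h.symm
  · intro h
    refine ⟨?_, Or.inl h⟩
    rintro rfl
    rw [disjoint_self, bot_eq_empty] at h
    have := a.2
    rw [h] at this
    simp at this
    omega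

theorem card_KV : Fintype.card (KV t s) = nn t s := by
  rw [nn, Fintype.card_finset_len, Fintype.card_fin]

/-- every vertex has degree `kk t s` -/
theorem card_nbr (ht : 1 ≤ t) (a : KV t s) :
    (univ.filter (fun b => (KG t s).Adj a b)).card = kk t s := by
  have h1 : (univ.filter (fun b => (KG t s).Adj a b)).card =
      ((a.1ᶜ).powersetCard t).card := by
    apply card_bij (fun b _ => b.1)
    · intro b hb
      rw [mem_filter, kadj ht] at hb
      rw [mem_powersetCard]
      refine ⟨?_, b.2⟩
      intro x hx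
      rw [mem_compl]
      exact fun h => Finset.disjoint_left.1 hb.2 h hx
    · intro b _ b' _ h
      exact Subtype.ext h
    · intro b hb
      rw [mem_powersetCard] at hb
      refine ⟨⟨b, hb.2⟩, ?_, rfl⟩
      rw [mem_filter, kadj ht]
      refine ⟨mem_univ _, ?_⟩
      rw [Finset.disjoint_left]
      intro x hx hx'
      exact mem_compl.1 (hb.1 hx') hx
  rw [h1, card_powersetCard, card_compl, Fintype.card_fin, a.2, kk]
  congr 1
  omega

theorem jd_comm (a b : KV t s) : jd a b = jd b a := by
  have h1 := card_sdiff_add_card_inter a.1 b.1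
  have h2 := card_sdiff_add_card_inter b.1 a.1
  rw [inter_comm b.1 a.1] at h2
  rw [a.2] at h1
  rw [b.2] at h2
  unfold jd
  omega

theorem jd_le (a b : KV t s) : jd a b ≤ t := by
  have := card_le_card (sdiff_subset (s := a.1) (t := b.1))
  rwa [a.2] at this

theorem jd_eq_zero {a b : KV t s} : jd a b = 0 ↔ a = b := by
  rw [jd, card_eq_zero, sdiff_eq_empty_iff_subset]
  constructor
  · intro h
    apply Subtype.ext
    exact eq_of_subset_of_card_le h (by rw [a.2, b.2])
  · rintro rfl
    exact Subset.rfl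

theorem jd_triangle (a b c : KV t s) : jd a c ≤ jd a b + jd b c := by
  unfold jd
  refine (card_le_card (t := (a.1 \ b.1) ∪ (b.1 \ c.1)) ?_).trans (card_union_le _ _)
  intro x hx
  rw [mem_sdiff] at hx
  rw [mem_union, mem_sdiff, mem_sdiff]
  tauto

/-- Johnson spheres -/
theorem card_shell (r : KV t s) (j : ℕ) :
    (univ.filter (fun v : KV t s => jd v r = j)).card = NN t s j := by
  have h1 : (univ.filter (fun v : KV t s => jd v r = j)).card =
      ((r.1.powersetCard j) ×ˢ ((r.1ᶜ).powersetCard j)).card := by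
    apply card_bij (fun v _ => (r.1 \ v.1, v.1 \ r.1))
    · intro v hv
      rw [mem_filter] at hv
      rw [mem_product, mem_powersetCard, mem_powersetCard]
      refine ⟨⟨sdiff_subset, ?_⟩, ?_, hv.2⟩
      · rw [← hv.2]; exact (jd_comm v r).symm
      · intro x hx
        rw [mem_compl]
        exact (mem_sdiff.1 hx).2
    · intro v _ w _ h
      rw [Prod.mk.injEq] at h
      apply Subtype.ext
      ext x
      have h2 := Finset.ext_iff.1 h.1 x
      have h3 := Finset.ext_iff.1 h.2 x
      simp only [mem_sdiff] at h2 h3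
      tauto
    · rintro ⟨A, B⟩ hAB
      rw [mem_product, mem_powersetCard, mem_powersetCard] at hAB
      obtain ⟨⟨hA1, hA2⟩, hB1, hB2⟩ := hAB
      dsimp only at hA1 hA2 hB1 hB2
      have hBr : ∀ x ∈ B, x ∉ r.1 := fun x hx => mem_compl.1 (hB1 hx)
      have hcard : ((r.1 \ A) ∪ B).card = t := by
        rw [card_union_of_disjoint, card_sdiff_of_subset hA1, r.2, hA2, hB2]
        · have := card_le_card hA1
          rw [r.2, hA2] at this
          omega
        · rw [Finset.disjoint_left]
          intro x hx hx'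
          exact hBr x hx' (mem_sdiff.1 hx).1
      refine ⟨⟨(r.1 \ A) ∪ B, hcard⟩, ?_, ?_⟩
      · rw [mem_filter]
        refine ⟨mem_univ _, ?_⟩
        show (((r.1 \ A) ∪ B) \ r.1).card = j
        have : ((r.1 \ A) ∪ B) \ r.1 = B := by
          ext x
          simp only [mem_sdiff, mem_union]
          have := hBr x
          tauto
        rw [this, hB2]
      · show (r.1 \ ((r.1 \ A) ∪ B), ((r.1 \ A) ∪ B) \ r.1) = (A, B)
        rw [Prod.mk.injEq]
        constructor
        · ext x
          simp only [mem_sdiff, mem_union]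
          have h1 := hBr x
          have h2 := @hA1 x
          tauto
        · ext x
          simp only [mem_sdiff, mem_union]
          have := hBr x
          tauto
  rw [h1, card_product, card_powersetCard, card_powersetCard, card_compl, Fintype.card_fin, r.2, NN]
  congr 2
  omega

/-- Johnson balls -/
theorem card_ball (r : KV t s) (J : ℕ) :
    (univ.filter (fun v : KV t s => jd v r ≤ J)).card = ∑ j ∈ range (J + 1), NN t s j := by
  rw [card_eq_sum_card_fiberwise (f := fun v => jd v r) (t := range (J + 1))]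
  · apply sum_congr rfl
    intro j hj
    rw [mem_range, Nat.lt_succ_iff] at hj
    rw [← card_shell r j, filter_filter]
    congr 1
    ext v
    simp only [mem_filter, mem_univ, true_and]
    constructor
    · exact fun h => h.2
    · intro h; exact ⟨by omega, h⟩
  · intro v hv
    simp only [coe_filter, mem_univ, true_and, Set.mem_ofPred_eq] at hv
    simp only [coe_range, Set.mem_Iio]
    omega

/-- two vertices at Johnson distance at most `s` have a common neighbour -/
theorem dbl (ht : 1 ≤ t) (v w : KV t s) (h : jd v w ≤ s) :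
    ∃ u, (KG t s).Adj v u ∧ (KG t s).Adj u w := by
  have h1 : t ≤ ((v.1 ∪ w.1)ᶜ).card := by
    rw [card_compl, Fintype.card_fin]
    have h2 : (v.1 ∪ w.1).card = w.1.card + (v.1 \ w.1).card := by
      rw [union_comm, ← union_sdiff_self_eq_union, card_union_of_disjoint disjoint_sdiff]
    rw [w.2] at h2
    have h3 : (v.1 \ w.1).card ≤ s := h
    omega
  obtain ⟨u, hu, huc⟩ := exists_subset_card_eq h1
  refine ⟨⟨u, huc⟩, ?_, ?_⟩
  · rw [kadj ht, Finset.disjoint_left]
    intro x hx hx'
    exact mem_compl.1 (hu hx') (mem_union_left _ hx)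
  · rw [kadj ht, Finset.disjoint_left]
    intro x hx hx'
    exact mem_compl.1 (hu hx) (mem_union_right _ hx')

/-- a vertex towards `w` -/
theorem toward (v w : KV t s) (i : ℕ) (h : jd v w ≤ s + i) :
    ∃ u : KV t s, jd v u ≤ s ∧ jd u w ≤ i := by
  rcases Nat.lt_or_ge i (jd v w) with hi | hi
  · have h1 : jd v w - i ≤ (v.1 \ w.1).card := Nat.sub_le _ _
    have h2 : jd v w - i ≤ (w.1 \ v.1).card := by
      rw [jd_comm]; exact Nat.sub_le _ _
    obtain ⟨A, hA, hAc⟩ := exists_subset_card_eq h1
    obtain ⟨B, hB, hBc⟩ := exists_subset_card_eq h2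
    have hAv : A ⊆ v.1 := hA.trans sdiff_subset
    have hBv : ∀ x ∈ B, x ∉ v.1 := fun x hx => (mem_sdiff.1 (hB hx)).2
    have hcard : ((v.1 \ A) ∪ B).card = t := by
      rw [card_union_of_disjoint, card_sdiff_of_subset hAv, v.2, hAc, hBc]
      · have := card_le_card hAv
        rw [v.2, hAc] at this
        omega
      · rw [Finset.disjoint_left]
        intro x hx hx'
        exact hBv x hx' (mem_sdiff.1 hx).1
    refine ⟨⟨(v.1 \ A) ∪ B, hcard⟩, ?_, ?_⟩
    · show (v.1 \ ((v.1 \ A) ∪ B)).card ≤ s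
      refine (card_le_card (t := A) ?_).trans (by omega)
      intro x hx
      simp only [mem_sdiff, mem_union] at hx
      tauto
    · show (((v.1 \ A) ∪ B) \ w.1).card ≤ i
      have h3 : ((v.1 \ A) ∪ B) \ w.1 = (v.1 \ w.1) \ A := by
        ext x
        have h4 := @hB x
        simp only [mem_sdiff, mem_union] at h4 ⊢
        tauto
      rw [h3, card_sdiff_of_subset hA, hAc]
      unfold jd at hi ⊢
      omega
  · exact ⟨v, by rw [jd_eq_zero.2 rfl]; exact Nat.zero_le _, hi⟩

/-- walks of length `2i` -/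
theorem walk_even (ht : 1 ≤ t) (v w : KV t s) (i : ℕ) (h : jd v w ≤ i * s) :
    ∃ p : (KG t s).Walk v w, p.length = 2 * i := by
  induction i generalizing v with
  | zero =>
    rw [zero_mul, Nat.le_zero, jd_eq_zero] at h
    subst h
    exact ⟨.nil, rfl⟩
  | succ i ih =>
    obtain ⟨u, hu1, hu2⟩ := toward v w (i * s) (by rw [Nat.succ_mul] at h; omega)
    obtain ⟨x, hx1, hx2⟩ := dbl ht v u hu1
    obtain ⟨p, hp⟩ := ih u hu2
    refine ⟨.cons hx1 (.cons hx2 p), ?_⟩
    rw [SimpleGraph.Walk.length_cons, SimpleGraph.Walk.length_cons, hp]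
    ring

/-- a first step to a set containing `w \ v` -/
theorem far_step (ht : 1 ≤ t) (v w : KV t s) :
    ∃ u : KV t s, (KG t s).Adj v u ∧ jd u w ≤ t - jd v w := by
  have h1 : w.1 \ v.1 ⊆ v.1ᶜ := by
    intro x hx
    rw [mem_compl]
    exact (mem_sdiff.1 hx).2
  have h2 : (w.1 \ v.1).card ≤ t := by
    have := card_le_card (sdiff_subset (s := w.1) (t := v.1))
    rwa [w.2] at this
  have h3 : t ≤ (v.1ᶜ).card := by
    rw [card_compl, Fintype.card_fin, v.2]; omega
  obtain ⟨u, hu1, hu2, hu3⟩ := exists_subsuperset_card_eq h1 h2 h3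
  refine ⟨⟨u, hu3⟩, ?_, ?_⟩
  · rw [kadj ht, Finset.disjoint_left]
    intro x hx hx'
    exact mem_compl.1 (hu2 hx') hx
  · rw [jd_comm]
    show (w.1 \ u).card ≤ _
    have h4 : w.1 \ u ⊆ w.1 ∩ v.1 := by
      intro x hx
      rw [mem_sdiff] at hx
      rw [mem_inter]
      refine ⟨hx.1, ?_⟩
      by_contra hxv
      exact hx.2 (hu1 (mem_sdiff.2 ⟨hx.1, hxv⟩))
    have h5 := card_le_card h4
    have h6 := card_sdiff_add_card_inter w.1 v.1
    rw [w.2] at h6
    have h7 : jd v w = (w.1 \ v.1).card := jd_comm v w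
    omega

/-- the diameter is at most `t` if `2 ≤ t`: let `j = jd v w`; if `2j ≤ t` make `j` double steps,
else step to a set containing `w \ v` and then make `t - j` double steps, `1 + 2(t-j) ≤ t` -/
theorem walk_le_t (ht : 1 ≤ t) (hs : 1 ≤ s) (v w : KV t s) :
    ∃ p : (KG t s).Walk v w, p.length ≤ t := by
  rcases Nat.lt_or_ge t (2 * jd v w) with h | h
  · obtain ⟨u, hu1, hu2⟩ := far_step ht v w
    obtain ⟨p, hp⟩ := walk_even ht u w (t - jd v w) (hu2.trans (Nat.le_mul_of_pos_right _ hs))
    have := jd_le v w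
    refine ⟨.cons hu1 p, ?_⟩
    rw [SimpleGraph.Walk.length_cons, hp]
    omega
  · obtain ⟨p, hp⟩ := walk_even ht v w (jd v w) (Nat.le_mul_of_pos_right _ hs)
    exact ⟨p, by omega⟩

/-- the diameter is at most `t / s + 3` -/
theorem walk_le_ts (ht : 1 ≤ t) (hs : 1 ≤ s) (v w : KV t s) :
    ∃ p : (KG t s).Walk v w, p.length ≤ t / s + 3 := by
  have key : ∀ a, 2 * a ≤ t → a ≤ (a + s - 1) / s * s ∧ 2 * ((a + s - 1) / s) ≤ t / s + 2 := by
    intro a ha
    have h1 : (a + s - 1) / s * s ≤ a + s - 1 := Nat.div_mul_le_self _ _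
    have h2 : a + s - 1 < ((a + s - 1) / s + 1) * s := by
      have := Nat.lt_div_mul_add (a := a + s - 1) (b := s) (by omega)
      rw [Nat.succ_mul]
      exact this
    rw [Nat.succ_mul] at h2
    refine ⟨by omega, ?_⟩
    have h3 : 2 * ((a + s - 1) / s) ≤ (t + 2 * s) / s := by
      rw [Nat.le_div_iff_mul_le (by omega)]
      have : 2 * ((a + s - 1) / s) * s = 2 * ((a + s - 1) / s * s) := by ring
      omega
    rwa [Nat.add_mul_div_right _ _ (by omega)] at h3
  rcases Nat.lt_or_ge t (2 * jd v w) with h | h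
  · obtain ⟨u, hu1, hu2⟩ := far_step ht v w
    have h5 := jd_le v w
    obtain ⟨h3, h4⟩ := key (t - jd v w) (by omega)
    obtain ⟨p, hp⟩ := walk_even ht u w _ (hu2.trans h3)
    refine ⟨.cons hu1 p, ?_⟩
    rw [SimpleGraph.Walk.length_cons, hp]
    omega
  · obtain ⟨h3, h4⟩ := key (jd v w) h
    obtain ⟨p, hp⟩ := walk_even ht v w _ h3
    exact ⟨p, by omega⟩

end Pool.Agent.Lib.MP_95cf8e_co
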