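import Pool.Agent.Lib.MP_95cf8e_co.KBasic

/-! # Automorphisms and averaging -/

set_option autoImplicit false

namespace Pool.Agent.Lib.MP_95cf8e_co

open Finset
open scoped Classical

variable {t s : ℕ}

/-- permutations of the ground set act on vertices -/
def act (σ : Equiv.Perm (Fin (2 * t + s))) : KV t s ≃ KV t s where
  toFun v := ⟨v.1.map σ.toEmbedding, by rw [card_map]; exact v.2⟩
  invFun v := ⟨v.1.map σ.symm.toEmbedding, by rw [card_map]; exact v.2⟩
  left_inv v := by
    apply Subtype.ext
    ext x
    simp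
  right_inv v := by
    apply Subtype.ext
    ext x
    simp

theorem act_adj (σ : Equiv.Perm (Fin (2 * t + s))) (a b : KV t s) :
    (KG t s).Adj (act σ a) (act σ b) ↔ (KG t s).Adj a b := by
  rw [SimpleGraph.fromRel_adj, SimpleGraph.fromRel_adj]
  have h1 : ∀ a b : KV t s, Disjoint (act σ a).1 (act σ b).1 ↔ Disjoint a.1 b.1 := by
    intro a b
    exact disjoint_map _
  rw [h1, h1, (act σ).injective.ne_iff]

theorem act_jd (σ : Equiv.Perm (Fin (2 * t + s))) (a b : KV t s) :
    jd (act σ a) (act σ b) = jd a b := by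
  show ((a.1.map σ.toEmbedding) \ (b.1.map σ.toEmbedding)).card = _
  rw [← Finset.map_sdiff, card_map]

/-- classes of a pair of sets -/
theorem perm_of_card {α κ : Type*} [Fintype α] [DecidableEq α] [DecidableEq κ] (f g : α → κ)
    (h : ∀ k, (univ.filter (fun x => f x = k)).card = (univ.filter (fun x => g x = k)).card) :
    ∃ σ : Equiv.Perm α, ∀ x, g (σ x) = f x := by
  have e : ∀ k, {x // f x = k} ≃ {x // g x = k} := by
    intro k
    apply Fintype.equivOfCardEq
    rw [Fintype.card_subtype, Fintype.card_subtype, h k]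
  refine ⟨(Equiv.sigmaFiberEquiv f).symm.trans
    ((Equiv.sigmaCongrRight e).trans (Equiv.sigmaFiberEquiv g)), ?_⟩
  intro x
  simp only [Equiv.trans_apply]
  exact ((e (f x)) ⟨x, rfl⟩).2

theorem act_trans (r v w : KV t s) (h : jd v r = jd w r) :
    ∃ σ : Equiv.Perm (Fin (2 * t + s)), act σ r = r ∧ act σ v = w := by
  obtain ⟨σ, hσ⟩ := perm_of_card (fun x => (decide (x ∈ r.1), decide (x ∈ v.1)))
    (fun x => (decide (x ∈ r.1), decide (x ∈ w.1))) (by
      have hr : ∀ u : KV t s, (univ.filter (fun x => x ∈ r.1 ∧ x ∈ u.1)).card + jd r u = t ∧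
          (univ.filter (fun x => x ∈ r.1 ∧ x ∉ u.1)).card = jd r u ∧
          (univ.filter (fun x => x ∉ r.1 ∧ x ∈ u.1)).card = jd u r ∧
          (univ.filter (fun x => x ∉ r.1 ∧ x ∉ u.1)).card + (t + jd u r) = 2 * t + s := by
        intro u
        have h1 : univ.filter (fun x => x ∈ r.1 ∧ x ∈ u.1) = r.1 ∩ u.1 := by ext; simp
        have h2 : univ.filter (fun x => x ∈ r.1 ∧ x ∉ u.1) = r.1 \ u.1 := by ext; simp
        have h3 : univ.filter (fun x => x ∉ r.1 ∧ x ∈ u.1) = u.1 \ r.1 := by
          ext; simp [and_comm]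
        have h4 : univ.filter (fun x => x ∉ r.1 ∧ x ∉ u.1) = (r.1 ∪ u.1)ᶜ := by ext; simp
        have h5 := card_sdiff_add_card_inter r.1 u.1
        rw [r.2] at h5
        have h6 : (r.1 ∪ u.1).card = t + jd u r := by
          rw [← union_sdiff_self_eq_union, card_union_of_disjoint disjoint_sdiff, r.2]
        have h7 : (r.1 ∪ u.1).card ≤ 2 * t + s := by
          have := card_le_univ (r.1 ∪ u.1)
          rwa [Fintype.card_fin] at this
        rw [h1, h2, h3, h4, card_compl, Fintype.card_fin, h6]
        unfold jd at *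
        omega
      have hv := hr v
      have hw := hr w
      have h1 := jd_comm r v
      have h2 := jd_comm r w
      rintro ⟨b, b'⟩
      cases b <;> cases b' <;> simp only [Prod.mk.injEq, decide_eq_true_eq, decide_eq_false_iff_not]
        <;> omega)
  have hσ1 : ∀ x, σ x ∈ r.1 ↔ x ∈ r.1 := by
    intro x
    have := (Prod.mk.injEq _ _ _ _ ▸ hσ x).1
    simpa using this
  have hσ2 : ∀ x, σ x ∈ w.1 ↔ x ∈ v.1 := by
    intro x
    have := (Prod.mk.injEq _ _ _ _ ▸ hσ x).2
    simpa using this
  refine ⟨σ, ?_, ?_⟩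
  · apply Subtype.ext
    ext x
    show x ∈ r.1.map σ.toEmbedding ↔ _
    rw [mem_map_equiv, ← hσ1, Equiv.apply_symm_apply]
  · apply Subtype.ext
    ext x
    show x ∈ v.1.map σ.toEmbedding ↔ _
    rw [mem_map_equiv, ← hσ2, Equiv.apply_symm_apply]

theorem act_trans1 (v w : KV t s) : ∃ σ : Equiv.Perm (Fin (2 * t + s)), act σ v = w := by
  obtain ⟨σ, hσ⟩ := perm_of_card (fun x => decide (x ∈ v.1)) (fun x => decide (x ∈ w.1)) (by
      have hr : ∀ u : KV t s, (univ.filter (fun x => x ∈ u.1)).card = t ∧
          (univ.filter (fun x => x ∉ u.1)).card + t = 2 * t + s := by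
        intro u
        have h1 : univ.filter (fun x => x ∈ u.1) = u.1 := by ext; simp
        have h2 : univ.filter (fun x => x ∉ u.1) = (u.1)ᶜ := by ext; simp
        rw [h1, h2, card_compl, Fintype.card_fin, u.2]
        omega
      have hv := hr v
      have hw := hr w
      intro b
      cases b <;> simp only [decide_eq_true_eq, decide_eq_false_iff_not] <;> omega)
  refine ⟨σ, ?_⟩
  have hσ2 : ∀ x, σ x ∈ w.1 ↔ x ∈ v.1 := by
    intro x
    simpa using hσ x
  apply Subtype.ext
  ext x
  show x ∈ v.1.map σ.toEmbedding ↔ _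
  rw [mem_map_equiv, ← hσ2, Equiv.apply_symm_apply]

theorem act_mul (σ τ : Equiv.Perm (Fin (2 * t + s))) (v : KV t s) :
    act (σ * τ) v = act σ (act τ v) := by
  apply Subtype.ext
  show v.1.map _ = (v.1.map _).map _
  rw [map_map]
  rfl

/-- number of permutations moving `v` to `w` -/
theorem card_act_eq (v w : KV t s) :
    nn t s * (univ.filter (fun σ : Equiv.Perm (Fin (2 * t + s)) => act σ v = w)).card =
      Fintype.card (Equiv.Perm (Fin (2 * t + s))) := by
  have h1 : ∀ w', (univ.filter (fun σ : Equiv.Perm (Fin (2 * t + s)) => act σ v = w')).card =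
      (univ.filter (fun σ : Equiv.Perm (Fin (2 * t + s)) => act σ v = w)).card := by
    intro w'
    obtain ⟨τ, hτ⟩ := act_trans1 w' w
    apply card_bij (fun σ _ => τ * σ)
    · intro σ hσ
      rw [mem_filter] at hσ ⊢
      refine ⟨mem_univ _, ?_⟩
      rw [act_mul, hσ.2, hτ]
    · intro σ _ σ' _ h
      exact mul_left_cancel h
    · intro σ hσ
      rw [mem_filter] at hσ
      refine ⟨τ⁻¹ * σ, ?_, by simp⟩
      rw [mem_filter]
      refine ⟨mem_univ _, ?_⟩
      apply (act τ).injective
      rw [← act_mul, mul_inv_cancel_left, hσ.2, hτ]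
  have h2 : Fintype.card (Equiv.Perm (Fin (2 * t + s))) =
      ∑ w', (univ.filter (fun σ : Equiv.Perm (Fin (2 * t + s)) => act σ v = w')).card := by
    rw [← card_univ]
    exact card_eq_sum_card_fiberwise (fun σ _ => by simp)
  rw [h2, sum_congr rfl (fun w' _ => h1 w'), sum_const, card_univ, card_KV, smul_eq_mul]

/-- number of permutations moving `v` into `Y` -/
theorem card_act_mem (v : KV t s) (Y : Finset (KV t s)) :
    nn t s * (univ.filter (fun σ : Equiv.Perm (Fin (2 * t + s)) => act σ v ∈ Y)).card =
      Y.card * Fintype.card (Equiv.Perm (Fin (2 * t + s))) := by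
  have h1 : (univ.filter (fun σ : Equiv.Perm (Fin (2 * t + s)) => act σ v ∈ Y)).card =
      ∑ w ∈ Y, (univ.filter (fun σ : Equiv.Perm (Fin (2 * t + s)) => act σ v = w)).card := by
    rw [card_eq_sum_card_fiberwise (f := fun σ => act σ v) (t := Y)]
    · apply sum_congr rfl
      intro w hw
      rw [filter_filter]
      congr 1
      ext σ
      simp only [mem_filter, mem_univ, true_and]
      constructor
      · exact fun h => h.2
      · intro h; exact ⟨by rw [h]; exact hw, h⟩
    · intro σ hσ
      simpa using hσ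
  rw [h1, mul_sum, sum_congr rfl (fun w _ => card_act_eq v w), sum_const, smul_eq_mul]

/-- averaging over all permutations -/
theorem avg_all (f : KV t s → ℕ) (Y : Finset (KV t s)) :
    ∃ σ : Equiv.Perm (Fin (2 * t + s)),
      nn t s * ∑ v ∈ Y, f (act σ v) ≤ Y.card * ∑ v, f v := by
  have h := exists_le_of_sum_le (s := (univ : Finset (Equiv.Perm (Fin (2 * t + s)))))
    (f := fun σ => nn t s * ∑ v ∈ Y, f (act σ v)) (g := fun _ => Y.card * ∑ v, f v)
    univ_nonempty (by
      rw [sum_const, card_univ, smul_eq_mul, ← mul_sum, sum_comm]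
      have h1 : ∀ v : KV t s, nn t s * ∑ σ : Equiv.Perm (Fin (2 * t + s)), f (act σ v) =
          Fintype.card (Equiv.Perm (Fin (2 * t + s))) * ∑ w, f w := by
        intro v
        have h2 : ∑ σ : Equiv.Perm (Fin (2 * t + s)), f (act σ v) =
            ∑ w, (univ.filter (fun σ : Equiv.Perm (Fin (2 * t + s)) => act σ v = w)).card * f w := by
          rw [← sum_fiberwise (s := univ) (g := fun σ => act σ v)]
          apply sum_congr rfl
          intro w _
          refine (sum_congr rfl (g := fun _ => f w) ?_).trans ?_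
          · intro σ hσ
            rw [(mem_filter.1 hσ).2]
          · rw [sum_const, smul_eq_mul]
        rw [h2, mul_sum, mul_sum]
        apply sum_congr rfl
        intro w _
        rw [← mul_assoc, card_act_eq]
      rw [mul_sum, sum_congr rfl (fun v _ => h1 v), sum_const, smul_eq_mul]
      apply le_of_eq
      ring)
  obtain ⟨σ, _, hσ⟩ := h
  exact ⟨σ, hσ⟩

/-- averaging over the stabiliser of `r` -/
theorem avg_stab (r : KV t s) (j : ℕ) (T Y : Finset (KV t s)) (hT : ∀ v ∈ T, jd v r = j) :
    ∃ σ : Equiv.Perm (Fin (2 * t + s)), act σ r = r ∧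
      NN t s j * (T.filter (fun v => act σ v ∈ Y)).card ≤ T.card * Y.card := by
  set St := univ.filter (fun σ : Equiv.Perm (Fin (2 * t + s)) => act σ r = r) with hSt
  -- counting for one vertex
  have h1 : ∀ v ∈ T, ∀ w, jd w r = j →
      NN t s j * (St.filter (fun σ => act σ v = w)).card = St.card := by
    intro v hv w hw
    have h2 : ∀ w', jd w' r = j → (St.filter (fun σ => act σ v = w')).card =
        (St.filter (fun σ => act σ v = w)).card := by
      intro w' hw'
      obtain ⟨τ, hτ1, hτ2⟩ := act_trans r w' w (by rw [hw, hw'])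
      apply card_bij (fun σ _ => τ * σ)
      · intro σ hσ
        rw [mem_filter, hSt, mem_filter] at hσ ⊢
        refine ⟨⟨mem_univ _, ?_⟩, ?_⟩
        · rw [act_mul, hσ.1.2, hτ1]
        · rw [act_mul, hσ.2, hτ2]
      · intro σ _ σ' _ h
        exact mul_left_cancel h
      · intro σ hσ
        rw [mem_filter, hSt, mem_filter] at hσ
        refine ⟨τ⁻¹ * σ, ?_, by simp⟩
        rw [mem_filter, hSt, mem_filter]
        refine ⟨⟨mem_univ _, ?_⟩, ?_⟩
        · apply (act τ).injective
          rw [← act_mul, mul_inv_cancel_left, hσ.1.2, hτ1]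
        · apply (act τ).injective
          rw [← act_mul, mul_inv_cancel_left, hσ.2, hτ2]
    have h3 : St.card = ∑ w' ∈ univ.filter (fun w' : KV t s => jd w' r = j),
        (St.filter (fun σ => act σ v = w')).card := by
      apply card_eq_sum_card_fiberwise
      intro σ hσ
      have hσ' : act σ r = r := by
        have : σ ∈ St := hσ
        rw [hSt, mem_filter] at this
        exact this.2
      simp only [coe_filter, mem_univ, true_and, Set.mem_ofPred_eq]
      rw [← hT v hv]
      conv_lhs => rw [← hσ']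
      exact act_jd σ v r
    rw [h3, sum_congr rfl (fun w' hw' => h2 w' (mem_filter.1 hw').2), sum_const, card_shell,
      smul_eq_mul]
  have hStne : St.Nonempty := ⟨1, by
    rw [hSt, mem_filter]
    refine ⟨mem_univ _, ?_⟩
    apply Subtype.ext
    ext x
    show x ∈ r.1.map _ ↔ _
    rw [mem_map_equiv]
    exact Iff.rfl⟩
  have h := exists_le_of_sum_le (s := St)
    (f := fun σ => NN t s j * (T.filter (fun v => act σ v ∈ Y)).card)
    (g := fun _ => T.card * Y.card) hStne (by
      rw [sum_const, smul_eq_mul, ← mul_sum]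
      have h4 : ∑ σ ∈ St, (T.filter (fun v => act σ v ∈ Y)).card =
          ∑ v ∈ T, (St.filter (fun σ => act σ v ∈ Y)).card := by
        simp only [card_filter]
        exact sum_comm
      rw [h4, mul_sum]
      have h5 : ∀ v ∈ T, NN t s j * (St.filter (fun σ => act σ v ∈ Y)).card ≤
          Y.card * St.card := by
        intro v hv
        have h6 : (St.filter (fun σ => act σ v ∈ Y)).card =
            ∑ w ∈ Y.filter (fun w => jd w r = j), (St.filter (fun σ => act σ v = w)).card := by
          rw [card_eq_sum_card_fiberwise (f := fun σ => act σ v)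
            (t := Y.filter (fun w => jd w r = j))]
          · apply sum_congr rfl
            intro w hw
            rw [filter_filter]
            congr 1
            ext σ
            simp only [mem_filter]
            constructor
            · rintro ⟨h7, h8, h9⟩
              exact ⟨h7, h9⟩
            · rintro ⟨h7, h8⟩
              exact ⟨h7, by rw [h8]; exact (mem_filter.1 hw).1, h8⟩
          · intro σ hσ
            have hσ2 : σ ∈ St.filter (fun σ => act σ v ∈ Y) := hσ
            rw [mem_filter, hSt, mem_filter] at hσ2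
            simp only [coe_filter, Set.mem_ofPred_eq]
            refine ⟨hσ2.2, ?_⟩
            rw [← hT v hv]
            conv_lhs => rw [← hσ2.1.2]
            exact act_jd σ v r
        rw [h6, mul_sum, sum_congr rfl (fun w hw => h1 v hv w (mem_filter.1 hw).2), sum_const,
          smul_eq_mul]
        exact Nat.mul_le_mul_right _ (card_le_card (filter_subset _ _))
      refine (sum_le_sum h5).trans ?_
      rw [sum_const, smul_eq_mul]
      apply le_of_eq
      ring)
  obtain ⟨σ, hσ, hσ'⟩ := h
  exact ⟨σ, (mem_filter.1 hσ).2, hσ'⟩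

/-- transporting a template (`off' = off ∘ σ`, `par' = σ⁻¹ ∘ par ∘ σ`, `R' = σ⁻¹ R`) so that its
loss on `Y` is at most average -/
theorem template_transport {D : ℕ} (T : Template (KG t s) D) (Y : Finset (KV t s)) (lam : ℕ) :
    ∃ T' : Template (KG t s) D, T'.R.card = T.R.card ∧
      nn t s * T'.loss Y lam ≤ Y.card * T.loss univ lam := by
  obtain ⟨σ, hσ⟩ := avg_all (fun v => (if v ∉ T.R ∧ 1 ≤ T.off v then 2 ^ T.off v else 0) +
    (if v ∈ T.R then lam else 0)) Y
  have hmem : ∀ v, v ∈ T.R.map (act σ).symm.toEmbedding ↔ act σ v ∈ T.R := by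
    intro v
    rw [mem_map_equiv, Equiv.symm_symm]
  refine ⟨{ off := fun v => T.off (act σ v)
            par := fun v => (act σ).symm (T.par (act σ v))
            R := T.R.map (act σ).symm.toEmbedding
            off_root := fun v hv => T.off_root _ ((hmem v).1 hv)
            off_le := fun v => T.off_le _
            adj := fun v hv => by
              rw [← act_adj σ, Equiv.apply_symm_apply]
              exact T.adj _ (fun h => hv ((hmem v).2 h))
            lt := fun v hv => by
              rw [Equiv.apply_symm_apply]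
              exact T.lt _ (fun h => hv ((hmem v).2 h)) }, card_map _, ?_⟩
  refine le_trans (le_of_eq ?_) (hσ.trans (le_of_eq ?_))
  · congr 1
    rw [sum_add_distrib, Template.loss]
    congr 1
    · rw [sum_filter]
      apply sum_congr rfl
      intro v _
      simp only [hmem]
    · rw [← sum_filter, sum_const, smul_eq_mul, mul_comm lam]
      congr 2
      ext v
      rw [mem_inter, mem_filter, hmem, and_comm]
  · congr 1
    rw [sum_add_distrib, Template.loss]
    congr 1
    · rw [sum_filter]
    · rw [← sum_filter, sum_const, smul_eq_mul, mul_comm lam]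
      congr 2
      ext v
      rw [mem_inter, mem_filter, and_comm]

theorem walk_hits (σ : Equiv.Perm (Fin (2 * t + s))) (S Q : Finset (KV t s))
    (hS : ∀ a ∈ S, ∀ b, (KG t s).Adj a b → b ∈ S ∨ b ∈ Q) {x y : KV t s}
    (p : (KG t s).Walk x y) (hx : act σ x ∈ S) (hy : act σ y ∈ (S ∪ Q)ᶜ) :
    ∃ q ∈ p.support, act σ q ∈ Q := by
  induction p with
  | nil =>
    rw [mem_compl, mem_union] at hy
    exact absurd (Or.inl hx) hy
  | @cons a b c h p ih =>
    rcases hS _ hx _ ((act_adj σ a b).2 h) with h1 | h1
    · obtain ⟨q, hq, hq'⟩ := ih h1 hy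
      exact ⟨q, by rw [SimpleGraph.Walk.support_cons]; exact List.mem_cons_of_mem _ hq, hq'⟩
    · refine ⟨b, ?_, h1⟩
      rw [SimpleGraph.Walk.support_cons]
      exact List.mem_cons_of_mem _ p.start_mem_support

/-- **Lemma C.**  If all edges leaving `S` end in `Q` then `|S| |(S ∪ Q)ᶜ| ≤ (t+1) n |Q|`. -/
theorem lemmaC (ht : 1 ≤ t) (hs : 1 ≤ s) (S Q : Finset (KV t s))
    (hS : ∀ a ∈ S, ∀ b, (KG t s).Adj a b → b ∈ S ∨ b ∈ Q) :
    S.card * ((S ∪ Q)ᶜ).card ≤ (t + 1) * nn t s * Q.card := by
  choose p hp using fun v w : KV t s => walk_le_t ht hs v w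
  set Γ := Fintype.card (Equiv.Perm (Fin (2 * t + s))) with hΓ
  have hΓpos : 0 < Γ := Fintype.card_pos
  have hnpos : 0 < nn t s := Nat.choose_pos (by omega)
  set W := (S ∪ Q)ᶜ with hW
  -- left side
  have hL : Γ * (S.card * W.card) = ∑ x : KV t s, ∑ y : KV t s,
      (univ.filter (fun σ : Equiv.Perm (Fin (2 * t + s)) => act σ x ∈ S ∧ act σ y ∈ W)).card := by
    have h1 : ∀ σ : Equiv.Perm (Fin (2 * t + s)), S.card * W.card =
        ∑ x : KV t s, ∑ y : KV t s, (if act σ x ∈ S ∧ act σ y ∈ W then 1 else 0) := by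
      intro σ
      have h2 : ∀ U : Finset (KV t s), U.card = ∑ x : KV t s, (if act σ x ∈ U then 1 else 0) := by
        intro U
        rw [← card_filter]
        apply card_bij (fun v _ => (act σ).symm v)
        · intro v hv
          rw [mem_filter, Equiv.apply_symm_apply]
          exact ⟨mem_univ _, hv⟩
        · intro v _ w _ h
          exact (act σ).symm.injective h
        · intro v hv
          exact ⟨act σ v, (mem_filter.1 hv).2, Equiv.symm_apply_apply _ _⟩
      rw [h2 S, h2 W, sum_mul_sum]
      apply sum_congr rfl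
      intro x _
      apply sum_congr rfl
      intro y _
      by_cases h3 : act σ x ∈ S <;> by_cases h4 : act σ y ∈ W <;> simp [h3, h4]
    have h5 : Γ * (S.card * W.card) = ∑ _σ : Equiv.Perm (Fin (2 * t + s)), S.card * W.card := by
      rw [sum_const, card_univ, smul_eq_mul]
    rw [h5, sum_congr rfl (fun σ _ => h1 σ), sum_comm]
    apply sum_congr rfl
    intro x _
    rw [sum_comm]
    apply sum_congr rfl
    intro y _
    rw [card_filter]
  have hR : ∀ x y : KV t s, nn t s *
      (univ.filter (fun σ : Equiv.Perm (Fin (2 * t + s)) => act σ x ∈ S ∧ act σ y ∈ W)).card ≤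
      (t + 1) * (Q.card * Γ) := by
    intro x y
    have h1 : univ.filter (fun σ : Equiv.Perm (Fin (2 * t + s)) => act σ x ∈ S ∧ act σ y ∈ W) ⊆
        (p x y).support.toFinset.biUnion (fun q =>
          univ.filter (fun σ : Equiv.Perm (Fin (2 * t + s)) => act σ q ∈ Q)) := by
      intro σ hσ
      rw [mem_filter] at hσ
      obtain ⟨q, hq, hq'⟩ := walk_hits σ S Q hS (p x y) hσ.2.1 hσ.2.2
      rw [mem_biUnion]
      exact ⟨q, List.mem_toFinset.2 hq, by rw [mem_filter]; exact ⟨mem_univ _, hq'⟩⟩
    have h2 := (card_le_card h1).trans card_biUnion_le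
    refine (Nat.mul_le_mul_left _ h2).trans ?_
    rw [mul_sum, sum_congr rfl (fun q _ => card_act_mem q Q), sum_const, smul_eq_mul]
    apply Nat.mul_le_mul_right
    refine (List.toFinset_card_le _).trans ?_
    rw [SimpleGraph.Walk.length_support]
    have := hp x y
    omega
  have h6 : Γ * nn t s * (S.card * W.card) ≤ Γ * nn t s * ((t + 1) * nn t s * Q.card) := by
    calc Γ * nn t s * (S.card * W.card) = nn t s * (Γ * (S.card * W.card)) := by ring
      _ = ∑ x : KV t s, ∑ y : KV t s, nn t s * (univ.filter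
          (fun σ : Equiv.Perm (Fin (2 * t + s)) => act σ x ∈ S ∧ act σ y ∈ W)).card := by
          rw [hL, mul_sum]
          apply sum_congr rfl
          intro x _
          rw [mul_sum]
      _ ≤ ∑ _x : KV t s, ∑ _y : KV t s, (t + 1) * (Q.card * Γ) :=
          sum_le_sum fun x _ => sum_le_sum fun y _ => hR x y
      _ = Γ * nn t s * ((t + 1) * nn t s * Q.card) := by
          rw [sum_const, sum_const, card_univ, card_KV, smul_eq_mul, smul_eq_mul]
          ring
  exact Nat.le_of_mul_le_mul_left h6 (Nat.mul_pos hΓpos hnpos)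

end Pool.Agent.Lib.MP_95cf8e_co
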