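import Pool.Agent.Lib.MP_95cf8e_co.Defs

/-! # Numerics for the middle regime -/

set_option autoImplicit false

namespace Pool.Agent.Lib.MP_95cf8e_co

open Filter Topology

private theorem numA_choose_succ (t j : ℕ) :
    ((j : ℝ) + 1) * (t.choose (j + 1) : ℝ) = ((t : ℝ) - j) * (t.choose j : ℝ) := by
  rcases Nat.lt_or_ge t j with h | h
  · rw [Nat.choose_eq_zero_of_lt h, Nat.choose_eq_zero_of_lt (by omega : t < j + 1)]
    simp
  · have h1 := Nat.choose_succ_right_eq t j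
    have h2 : ((t.choose (j + 1) * (j + 1) : ℕ) : ℝ) = ((t.choose j * (t - j) : ℕ) : ℝ) := by
      rw [h1]
    push_cast [Nat.cast_sub h] at h2
    linarith

private theorem numA_down (t i : ℕ) (x : ℝ) (hx : 0 < x) (h : (t : ℝ) - i ≤ (i + 1) * x) :
    (t.choose (i + 1) : ℝ) / x ^ (i + 1) ≤ (t.choose i : ℝ) / x ^ i := by
  rw [div_le_div_iff₀ (pow_pos hx _) (pow_pos hx _)]
  have h1 := numA_choose_succ t i
  have h2 : ((t : ℝ) - i) * (t.choose i : ℝ) ≤ ((i + 1) * x) * (t.choose i : ℝ) :=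
    mul_le_mul_of_nonneg_right h (Nat.cast_nonneg _)
  have h3 : (t.choose (i + 1) : ℝ) ≤ x * (t.choose i : ℝ) := by
    have h4 : (0 : ℝ) < (i : ℝ) + 1 := by positivity
    refine le_of_mul_le_mul_left ?_ h4
    rw [h1]
    linarith
  calc (t.choose (i + 1) : ℝ) * x ^ i ≤ (x * (t.choose i : ℝ)) * x ^ i :=
        mul_le_mul_of_nonneg_right h3 (pow_pos hx _).le
    _ = (t.choose i : ℝ) * x ^ (i + 1) := by ring

private theorem numA_up (t i : ℕ) (x : ℝ) (hx : 0 < x) (h : (i + 1) * x ≤ (t : ℝ) - i) :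
    (t.choose i : ℝ) / x ^ i ≤ (t.choose (i + 1) : ℝ) / x ^ (i + 1) := by
  rw [div_le_div_iff₀ (pow_pos hx _) (pow_pos hx _)]
  have h1 := numA_choose_succ t i
  have h2 : ((i + 1) * x) * (t.choose i : ℝ) ≤ ((t : ℝ) - i) * (t.choose i : ℝ) :=
    mul_le_mul_of_nonneg_right h (Nat.cast_nonneg _)
  have h3 : x * (t.choose i : ℝ) ≤ (t.choose (i + 1) : ℝ) := by
    have h4 : (0 : ℝ) < (i : ℝ) + 1 := by positivity
    refine le_of_mul_le_mul_left ?_ h4
    rw [h1]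
    linarith
  calc (t.choose i : ℝ) * x ^ (i + 1) = (x * (t.choose i : ℝ)) * x ^ i := by ring
    _ ≤ (t.choose (i + 1) : ℝ) * x ^ i := mul_le_mul_of_nonneg_right h3 (pow_pos hx _).le

/-- endpoint principle: `j ↦ t.choose j / x ^ j` is unimodal, so on `[1, J]` it is at least the
smaller of its end values. -/
theorem unimodal (t J j : ℕ) (x : ℝ) (hx : 0 < x) (h1 : 1 ≤ j) (hJ : j ≤ J) :
    min ((t.choose 1 : ℝ) / x ^ 1) ((t.choose J : ℝ) / x ^ J) ≤ (t.choose j : ℝ) / x ^ j := by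
  rcases le_total ((t : ℝ) - j) ((j + 1) * x) with hr | hr
  · refine (min_le_right _ _).trans ?_
    induction J, hJ using Nat.le_induction with
    | base => exact le_rfl
    | succ n hn ih =>
      refine (numA_down t n x hx ?_).trans ih
      have h2 : (j : ℝ) ≤ n := by exact_mod_cast hn
      nlinarith
  · refine (min_le_left _ _).trans ?_
    have key : ∀ k, 1 ≤ k → k ≤ j →
        (t.choose 1 : ℝ) / x ^ 1 ≤ (t.choose k : ℝ) / x ^ k := by
      intro k hk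
      induction k, hk using Nat.le_induction with
      | base => intro _; exact le_rfl
      | succ n hn ih =>
        intro hnj
        refine (ih (by omega)).trans (numA_up t n x hx ?_)
        have h2 : (n : ℝ) ≤ j := by exact_mod_cast (by omega : n ≤ j)
        nlinarith
    exact key j h1 le_rfl

private theorem numA_grow (C : ℕ) {r K : ℝ} (hr : 1 < r) (hK : 0 < K) :
    ∃ t0 : ℕ, ∀ t : ℕ, t0 ≤ t → (C : ℝ) * t ≤ r ^ (t / 8) / K := by
  have h := tendsto_pow_const_div_const_pow_of_one_lt 1 hr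
  have h2 : ∀ᶠ n : ℕ in atTop, (n : ℝ) ^ 1 / r ^ n < 1 / (((C : ℝ) + 1) * 16 * K) :=
    h.eventually (gt_mem_nhds (by positivity))
  obtain ⟨n0, hn0⟩ := eventually_atTop.mp h2
  refine ⟨8 * (n0 + 1), fun t ht => ?_⟩
  have h3 := hn0 (t / 8) (by omega)
  have h4 : (t : ℝ) ≤ 16 * ((t / 8 : ℕ) : ℝ) := by
    have : t ≤ 16 * (t / 8) := by omega
    exact_mod_cast this
  have hrp : 0 < r ^ (t / 8) := pow_pos (by linarith) _
  rw [pow_one, div_lt_div_iff₀ hrp (by positivity)] at h3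
  rw [le_div_iff₀ hK]
  have h5 : (C : ℝ) * t * K ≤ (C + 1) * (16 * ((t / 8 : ℕ) : ℝ)) * K := by
    have h0 : (0 : ℝ) ≤ C := Nat.cast_nonneg _
    have h0' : (0 : ℝ) ≤ t := Nat.cast_nonneg _
    gcongr
    linarith
  linarith

/-- one step of the growth of `C(8i, i)` -/
private theorem numA_step1 (i : ℕ) (hi : 3 ≤ i) :
    17 * ((8 * i).choose i : ℝ) ≤ ((8 * (i + 1)).choose (i + 1) : ℝ) := by
  have e : ∀ m : ℕ, (((8 * i + m).choose i : ℕ) : ℝ) * (8 * i + m + 1)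
      = (((8 * i + (m + 1)).choose i : ℕ) : ℝ) * (7 * i + m + 1) := by
    intro m
    have h := Nat.choose_mul_succ_eq (8 * i + m) i
    have h1 : 8 * i + m + 1 - i = 7 * i + m + 1 := by omega
    rw [h1] at h
    have h2 : (((8 * i + m).choose i * (8 * i + m + 1) : ℕ) : ℝ)
        = (((8 * i + m + 1).choose i * (7 * i + m + 1) : ℕ) : ℝ) := by rw [h]
    push_cast at h2
    rw [← add_assoc]
    exact h2
  have e0 := e 0
  have e1 := e 1
  have e2 := e 2
  have e3 := e 3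
  have e4 := e 4
  have e5 := e 5
  have e6 := e 6
  have e7 : ((8 * i + 7 + 1 : ℕ) : ℝ) * ((8 * i + 7).choose i : ℝ)
      = ((8 * i + 7 + 1).choose (i + 1) : ℝ) * ((i + 1 : ℕ) : ℝ) := by
    have h := Nat.add_one_mul_choose_eq (8 * i + 7) i
    exact_mod_cast h
  have h8 : 8 * (i + 1) = 8 * i + 7 + 1 := by ring
  rw [h8]
  simp only [Nat.reduceAdd, Nat.add_zero] at e0 e1 e2 e3 e4 e5 e6
  push_cast at e0 e1 e2 e3 e4 e5 e6 e7
  set c0 := ((8 * i).choose i : ℝ)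
  set c1 := ((8 * i + 1).choose i : ℝ)
  set c2 := ((8 * i + 2).choose i : ℝ)
  set c3 := ((8 * i + 3).choose i : ℝ)
  set c4 := ((8 * i + 4).choose i : ℝ)
  set c5 := ((8 * i + 5).choose i : ℝ)
  set c6 := ((8 * i + 6).choose i : ℝ)
  set c7 := ((8 * i + 7).choose i : ℝ)
  set c8 := ((8 * i + 7 + 1).choose (i + 1) : ℝ)
  have hy : (3 : ℝ) ≤ (i : ℝ) := by exact_mod_cast hi
  set y : ℝ := (i : ℝ)
  have hc0 : 0 ≤ c0 := Nat.cast_nonneg _
  have hQ : 0 < (y + 1) * ((7 * y + 1) * (7 * y + 2) * (7 * y + 3) * (7 * y + 4) * (7 * y + 5)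
      * (7 * y + 6) * (7 * y + 7)) := by positivity
  have hprod : c8 * ((y + 1) * ((7 * y + 1) * (7 * y + 2) * (7 * y + 3) * (7 * y + 4)
      * (7 * y + 5) * (7 * y + 6) * (7 * y + 7)))
      = c0 * ((8 * y + 1) * (8 * y + 2) * (8 * y + 3) * (8 * y + 4) * (8 * y + 5) * (8 * y + 6)
        * (8 * y + 7) * (8 * y + 8)) := by
    calc c8 * ((y + 1) * ((7 * y + 1) * (7 * y + 2) * (7 * y + 3) * (7 * y + 4)
      * (7 * y + 5) * (7 * y + 6) * (7 * y + 7)))
        = (c8 * (y + 1)) * ((7 * y + 1) * (7 * y + 2) * (7 * y + 3) * (7 * y + 4)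
      * (7 * y + 5) * (7 * y + 6) * (7 * y + 7)) := by ring
      _ = (8 * y + 8) * ((7 * y + 1) * (7 * y + 2) * (7 * y + 3) * (7 * y + 4)
      * (7 * y + 5) * (7 * y + 6)) * (c7 * (7 * y + 6 + 1)) := by
          rw [← e7]; ring
      _ = (8 * y + 8) * (8 * y + 7) * ((7 * y + 1) * (7 * y + 2) * (7 * y + 3) * (7 * y + 4)
      * (7 * y + 5)) * (c6 * (7 * y + 5 + 1)) := by
          rw [← e6]; ring
      _ = (8 * y + 8) * (8 * y + 7) * (8 * y + 6) * ((7 * y + 1) * (7 * y + 2) * (7 * y + 3)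
      * (7 * y + 4)) * (c5 * (7 * y + 4 + 1)) := by
          rw [← e5]; ring
      _ = (8 * y + 8) * (8 * y + 7) * (8 * y + 6) * (8 * y + 5) * ((7 * y + 1) * (7 * y + 2)
      * (7 * y + 3)) * (c4 * (7 * y + 3 + 1)) := by
          rw [← e4]; ring
      _ = (8 * y + 8) * (8 * y + 7) * (8 * y + 6) * (8 * y + 5) * (8 * y + 4) * ((7 * y + 1)
      * (7 * y + 2)) * (c3 * (7 * y + 2 + 1)) := by
          rw [← e3]; ring
      _ = (8 * y + 8) * (8 * y + 7) * (8 * y + 6) * (8 * y + 5) * (8 * y + 4) * (8 * y + 3)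
      * (7 * y + 1) * (c2 * (7 * y + 1 + 1)) := by
          rw [← e2]; ring
      _ = (8 * y + 8) * (8 * y + 7) * (8 * y + 6) * (8 * y + 5) * (8 * y + 4) * (8 * y + 3)
      * (8 * y + 2) * (c1 * (7 * y + 0 + 1)) := by
          rw [← e1]; ring
      _ = _ := by
          rw [← e0]; ring
  refine le_of_mul_le_mul_right ?_ hQ
  rw [hprod]
  have hpoly : 17 * ((y + 1) * ((7 * y + 1) * (7 * y + 2) * (7 * y + 3) * (7 * y + 4) * (7 * y + 5)
      * (7 * y + 6) * (7 * y + 7))) ≤ (8 * y + 1) * (8 * y + 2) * (8 * y + 3) * (8 * y + 4)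
        * (8 * y + 5) * (8 * y + 6) * (8 * y + 7) * (8 * y + 8) := by
    obtain ⟨z, hz⟩ : ∃ z : ℝ, y = z + 3 := ⟨y - 3, by ring⟩
    have hz0 : 0 ≤ z := by linarith
    rw [hz, ← sub_nonneg]
    ring_nf
    positivity
  calc 17 * c0 * _ = c0 * (17 * ((y + 1) * ((7 * y + 1) * (7 * y + 2) * (7 * y + 3)
        * (7 * y + 4) * (7 * y + 5) * (7 * y + 6) * (7 * y + 7)))) := by ring
    _ ≤ _ := mul_le_mul_of_nonneg_left hpoly hc0

private theorem numA_pow1 (i : ℕ) : (17 : ℝ) ^ i ≤ 3 * ((8 * i).choose i : ℝ) := by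
  have small : ∀ k : ℕ, k ≤ 3 → (17 : ℝ) ^ k ≤ 3 * ((8 * k).choose k : ℝ) := by
    intro k hk
    have h : 17 ^ k ≤ 3 * (8 * k).choose k := by
      interval_cases k <;> decide
    exact_mod_cast h
  rcases Nat.lt_or_ge i 3 with h | h
  · exact small i h.le
  · induction i, h using Nat.le_induction with
    | base => exact small 3 le_rfl
    | succ n hn ih =>
      have h1 := numA_step1 n hn
      rw [pow_succ]
      linarith

/-- one step of the growth of `C(8i, 3i)` -/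
private theorem numA_step2 (i : ℕ) (hi : 11 ≤ i) :
    190 * ((8 * i).choose (3 * i) : ℝ) ≤ ((8 * (i + 1)).choose (3 * (i + 1)) : ℝ) := by
  have e : ∀ m : ℕ, (((8 * i + m).choose (3 * i) : ℕ) : ℝ) * (8 * i + m + 1)
      = (((8 * i + (m + 1)).choose (3 * i) : ℕ) : ℝ) * (5 * i + m + 1) := by
    intro m
    have h := Nat.choose_mul_succ_eq (8 * i + m) (3 * i)
    have h1 : 8 * i + m + 1 - 3 * i = 5 * i + m + 1 := by omega
    rw [h1] at h
    have h2 : (((8 * i + m).choose (3 * i) * (8 * i + m + 1) : ℕ) : ℝ)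
        = (((8 * i + m + 1).choose (3 * i) * (5 * i + m + 1) : ℕ) : ℝ) := by rw [h]
    push_cast at h2
    rw [← add_assoc]
    exact h2
  have d : ∀ m : ℕ, ((8 * i + (m + 5) + 1 : ℕ) : ℝ) * ((8 * i + (m + 5)).choose (3 * i + m) : ℝ)
      = ((8 * i + (m + 5 + 1)).choose (3 * i + (m + 1)) : ℝ) * ((3 * i + (m + 1) : ℕ) : ℝ) := by
    intro m
    have h := Nat.add_one_mul_choose_eq (8 * i + (m + 5)) (3 * i + m)
    exact_mod_cast h
  have e0 := e 0
  have e1 := e 1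
  have e2 := e 2
  have e3 := e 3
  have e4 := e 4
  have e5 := d 0
  have e6 := d 1
  have e7 := d 2
  have h8 : 8 * (i + 1) = 8 * i + 8 := by ring
  have h8' : 3 * (i + 1) = 3 * i + 3 := by ring
  rw [h8, h8']
  simp only [Nat.reduceAdd, Nat.add_zero] at e0 e1 e2 e3 e4 e5 e6 e7
  push_cast at e0 e1 e2 e3 e4 e5 e6 e7
  set c0 := ((8 * i).choose (3 * i) : ℝ)
  set c1 := ((8 * i + 1).choose (3 * i) : ℝ)
  set c2 := ((8 * i + 2).choose (3 * i) : ℝ)
  set c3 := ((8 * i + 3).choose (3 * i) : ℝ)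
  set c4 := ((8 * i + 4).choose (3 * i) : ℝ)
  set c5 := ((8 * i + 5).choose (3 * i) : ℝ)
  set c6 := ((8 * i + 6).choose (3 * i + 1) : ℝ)
  set c7 := ((8 * i + 7).choose (3 * i + 2) : ℝ)
  set c8 := ((8 * i + 8).choose (3 * i + 3) : ℝ)
  have hy : (11 : ℝ) ≤ (i : ℝ) := by exact_mod_cast hi
  set y : ℝ := (i : ℝ)
  have hc0 : 0 ≤ c0 := Nat.cast_nonneg _
  have hQ : 0 < (3 * y + 1) * (3 * y + 2) * (3 * y + 3) * ((5 * y + 1) * (5 * y + 2) * (5 * y + 3)
      * (5 * y + 4) * (5 * y + 5)) := by positivity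
  have hprod : c8 * ((3 * y + 1) * (3 * y + 2) * (3 * y + 3) * ((5 * y + 1) * (5 * y + 2)
      * (5 * y + 3) * (5 * y + 4) * (5 * y + 5)))
      = c0 * ((8 * y + 1) * (8 * y + 2) * (8 * y + 3) * (8 * y + 4) * (8 * y + 5) * (8 * y + 6)
        * (8 * y + 7) * (8 * y + 8)) := by
    calc c8 * ((3 * y + 1) * (3 * y + 2) * (3 * y + 3) * ((5 * y + 1) * (5 * y + 2)
      * (5 * y + 3) * (5 * y + 4) * (5 * y + 5)))
        = (c8 * (3 * y + (2 + 1))) * ((3 * y + 1) * (3 * y + 2) * ((5 * y + 1) * (5 * y + 2)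
      * (5 * y + 3) * (5 * y + 4) * (5 * y + 5))) := by ring
      _ = (8 * y + 8) * ((3 * y + 1) * ((5 * y + 1) * (5 * y + 2)
      * (5 * y + 3) * (5 * y + 4) * (5 * y + 5))) * (c7 * (3 * y + 2)) := by
          linear_combination (-(3 * y + 1) * (3 * y + 2) * ((5 * y + 1) * (5 * y + 2)
            * (5 * y + 3) * (5 * y + 4) * (5 * y + 5))) * e7
      _ = (8 * y + 8) * (8 * y + 7) * ((5 * y + 1) * (5 * y + 2)
      * (5 * y + 3) * (5 * y + 4) * (5 * y + 5)) * (c6 * (3 * y + 1)) := by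
          linear_combination (-(8 * y + 8) * (3 * y + 1) * ((5 * y + 1) * (5 * y + 2) * (5 * y + 3) * (5 * y + 4) * (5 * y + 5))) * e6
      _ = (8 * y + 8) * (8 * y + 7) * (8 * y + 6) * ((5 * y + 1) * (5 * y + 2)
      * (5 * y + 3) * (5 * y + 4)) * (c5 * (5 * y + 4 + 1)) := by
          linear_combination (-(8 * y + 8) * (8 * y + 7) * ((5 * y + 1) * (5 * y + 2) * (5 * y + 3) * (5 * y + 4) * (5 * y + 5))) * e5
      _ = (8 * y + 8) * (8 * y + 7) * (8 * y + 6) * (8 * y + 5) * ((5 * y + 1) * (5 * y + 2)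
      * (5 * y + 3)) * (c4 * (5 * y + 3 + 1)) := by
          rw [← e4]; ring
      _ = (8 * y + 8) * (8 * y + 7) * (8 * y + 6) * (8 * y + 5) * (8 * y + 4) * ((5 * y + 1)
      * (5 * y + 2)) * (c3 * (5 * y + 2 + 1)) := by
          rw [← e3]; ring
      _ = (8 * y + 8) * (8 * y + 7) * (8 * y + 6) * (8 * y + 5) * (8 * y + 4) * (8 * y + 3)
      * (5 * y + 1) * (c2 * (5 * y + 1 + 1)) := by
          rw [← e2]; ring
      _ = (8 * y + 8) * (8 * y + 7) * (8 * y + 6) * (8 * y + 5) * (8 * y + 4) * (8 * y + 3)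
      * (8 * y + 2) * (c1 * (5 * y + 0 + 1)) := by
          rw [← e1]; ring
      _ = _ := by
          rw [← e0]; ring
  refine le_of_mul_le_mul_right ?_ hQ
  rw [hprod]
  have hpoly : 190 * ((3 * y + 1) * (3 * y + 2) * (3 * y + 3) * ((5 * y + 1) * (5 * y + 2)
      * (5 * y + 3) * (5 * y + 4) * (5 * y + 5))) ≤ (8 * y + 1) * (8 * y + 2) * (8 * y + 3)
        * (8 * y + 4) * (8 * y + 5) * (8 * y + 6) * (8 * y + 7) * (8 * y + 8) := by
    obtain ⟨z, hz⟩ : ∃ z : ℝ, y = z + 11 := ⟨y - 11, by ring⟩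
    have hz0 : 0 ≤ z := by linarith
    rw [hz, ← sub_nonneg]
    ring_nf
    positivity
  calc 190 * c0 * _ = c0 * (190 * ((3 * y + 1) * (3 * y + 2) * (3 * y + 3) * ((5 * y + 1)
      * (5 * y + 2) * (5 * y + 3) * (5 * y + 4) * (5 * y + 5)))) := by ring
    _ ≤ _ := mul_le_mul_of_nonneg_left hpoly hc0

private theorem numA_pow2 (i : ℕ) : (190 : ℝ) ^ i ≤ 7 * ((8 * i).choose (3 * i) : ℝ) := by
  have small : ∀ k : ℕ, k ≤ 11 → (190 : ℝ) ^ k ≤ 7 * ((8 * k).choose (3 * k) : ℝ) := by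
    intro k hk
    have h : 190 ^ k ≤ 7 * (8 * k).choose (3 * k) := by
      interval_cases k <;> norm_num [Nat.choose]
    exact_mod_cast h
  rcases Nat.lt_or_ge i 11 with h | h
  · exact small i h.le
  · induction i, h using Nat.le_induction with
    | base => exact small 11 le_rfl
    | succ n hn ih =>
      have h1 := numA_step2 n hn
      rw [pow_succ]
      linarith

/-- `C(t,j)^2 ≥ C t 256^j` for `1 ≤ j ≤ t/8`: `unimodal` with `x = 16`; `C(8i,i)` grows at least like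
`17^i` (one-step ratio, a polynomial inequality in `i`; `8^8/7^7 = 20.37`). -/
theorem num1 (C : ℕ) : ∃ t0 : ℕ, ∀ t j : ℕ, t0 ≤ t → 1 ≤ j → 8 * j ≤ t →
    C * t * 256 ^ j ≤ (t.choose j) ^ 2 := by
  obtain ⟨t0, h0⟩ := numA_grow C (r := (17 / 16) ^ 2) (K := 9) (by norm_num) (by norm_num)
  refine ⟨max t0 (256 * C), fun t j ht hj hjt => ?_⟩
  rw [max_le_iff] at ht
  have h1 := unimodal t (t / 8) j 16 (by norm_num) hj (by omega)
  have key : (C : ℝ) * t ≤ ((t.choose j : ℝ) / 16 ^ j) ^ 2 := by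
    rcases min_le_iff.mp h1 with h | h
    · have h2 : ((t : ℝ) / 16) ≤ (t.choose j : ℝ) / 16 ^ j := by simpa using h
      have h3 : (C : ℝ) * t ≤ ((t : ℝ) / 16) ^ 2 := by
        have h4 : (256 * C : ℝ) ≤ t := by exact_mod_cast ht.2
        have h5 : (0 : ℝ) ≤ t := Nat.cast_nonneg _
        nlinarith
      exact h3.trans (pow_le_pow_left₀ (by positivity) h2 2)
    · have h2 : (17 / 16 : ℝ) ^ (t / 8) / 3 ≤ (t.choose (t / 8) : ℝ) / 16 ^ (t / 8) := by
        have h3 := numA_pow1 (t / 8)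
        have h4 : ((8 * (t / 8)).choose (t / 8) : ℝ) ≤ (t.choose (t / 8) : ℝ) := by
          exact_mod_cast Nat.choose_le_choose _ (by omega : 8 * (t / 8) ≤ t)
        rw [div_pow, div_div, div_le_div_iff₀ (by positivity) (by positivity)]
        have h5 : (17 : ℝ) ^ (t / 8) ≤ 3 * (t.choose (t / 8) : ℝ) := by linarith
        have h6 : (0 : ℝ) < 16 ^ (t / 8) := by positivity
        nlinarith
      have h3 : (C : ℝ) * t ≤ ((17 / 16 : ℝ) ^ (t / 8) / 3) ^ 2 := by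
        refine (h0 t ht.1).trans (le_of_eq ?_)
        rw [div_pow _ (3 : ℝ), ← pow_mul, ← pow_mul, mul_comm 2]
        norm_num
      exact h3.trans (pow_le_pow_left₀ (by positivity) (h2.trans h) 2)
  rw [div_pow, le_div_iff₀ (by positivity), ← pow_mul, mul_comm j 2, pow_mul] at key
  norm_num at key
  exact_mod_cast key

/-- `C(t,j)^2 ≥ C t 26^j` for `1 ≤ j ≤ 3t/8`: `unimodal` with `x = √26`; `C(8i,3i)` grows at least
like `190^i` (`8^8/(3^3 5^5) = 198.8`), `190^2 > 26^3`. -/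
theorem num2 (C : ℕ) : ∃ t0 : ℕ, ∀ t j : ℕ, t0 ≤ t → 1 ≤ j → 8 * j ≤ 3 * t →
    C * t * 26 ^ j ≤ (t.choose j) ^ 2 := by
  obtain ⟨t0, h0⟩ := numA_grow C (r := 190 ^ 2 / 26 ^ 3) (K := 49 * 26 ^ 2) (by norm_num)
    (by norm_num)
  refine ⟨max t0 (26 * C), fun t j ht hj hjt => ?_⟩
  rw [max_le_iff] at ht
  have hs : (0 : ℝ) < Real.sqrt 26 := Real.sqrt_pos.mpr (by norm_num)
  have hs2 : (Real.sqrt 26) ^ 2 = 26 := Real.sq_sqrt (by norm_num)
  have h1 := unimodal t (3 * t / 8) j (Real.sqrt 26) hs hj (by omega)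
  have hsq : ∀ k : ℕ, ((t.choose k : ℝ) / (Real.sqrt 26) ^ k) ^ 2
      = (t.choose k : ℝ) ^ 2 / 26 ^ k := by
    intro k
    rw [div_pow, ← pow_mul, mul_comm k 2, pow_mul, hs2]
  have key : (C : ℝ) * t ≤ ((t.choose j : ℝ) / (Real.sqrt 26) ^ j) ^ 2 := by
    rcases min_le_iff.mp h1 with h | h
    · refine le_trans ?_ (pow_le_pow_left₀ (by positivity) h 2)
      rw [hsq, Nat.choose_one_right, pow_one, le_div_iff₀ (by norm_num)]
      have h4 : (26 * C : ℝ) ≤ t := by exact_mod_cast ht.2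
      have h5 : (0 : ℝ) ≤ t := Nat.cast_nonneg _
      nlinarith
    · refine le_trans ?_ (pow_le_pow_left₀ (by positivity) h 2)
      rw [hsq]
      refine (h0 t ht.1).trans ?_
      set i := t / 8 with hi
      set q := 3 * t / 8 - 3 * i with hq
      have hJ : 3 * t / 8 = 3 * i + q := by omega
      have hq2 : q ≤ 2 := by omega
      have hqt : 8 * i + q ≤ t := by omega
      rw [hJ]
      have hc : ∀ r : ℕ, (8 * i).choose (3 * i) ≤ (8 * i + r).choose (3 * i + r) := by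
        intro r
        induction r with
        | zero => exact le_rfl
        | succ r ih =>
          rw [← add_assoc, ← add_assoc, Nat.choose_succ_succ]
          omega
      have h4 : ((8 * i).choose (3 * i) : ℝ) ≤ (t.choose (3 * i + q) : ℝ) := by
        exact_mod_cast (hc q).trans (Nat.choose_le_choose _ hqt)
      have h3 := numA_pow2 i
      have h5 : (190 : ℝ) ^ i / 7 ≤ (t.choose (3 * i + q) : ℝ) := by
        rw [div_le_iff₀ (by norm_num)]; linarith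
      have h6 : ((190 : ℝ) ^ i / 7) ^ 2 ≤ (t.choose (3 * i + q) : ℝ) ^ 2 :=
        pow_le_pow_left₀ (by positivity) h5 2
      have h7 : (26 : ℝ) ^ (3 * i + q) ≤ 26 ^ (3 * i) * 26 ^ 2 := by
        rw [← pow_add]
        exact pow_le_pow_right₀ (by norm_num) (by omega)
      calc ((190 : ℝ) ^ 2 / 26 ^ 3) ^ i / (49 * 26 ^ 2)
          = ((190 : ℝ) ^ i / 7) ^ 2 / (26 ^ (3 * i) * 26 ^ 2) := by
            rw [div_pow, ← pow_mul, ← pow_mul, div_pow, ← pow_mul, mul_comm i 2]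
            field_simp
            norm_num
        _ ≤ (t.choose (3 * i + q) : ℝ) ^ 2 / (26 ^ (3 * i) * 26 ^ 2) := by gcongr
        _ ≤ (t.choose (3 * i + q) : ℝ) ^ 2 / 26 ^ (3 * i + q) := by gcongr
  rw [hsq, le_div_iff₀ (by positivity)] at key
  exact_mod_cast key

end Pool.Agent.Lib.MP_95cf8e_co
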