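import Pool.Agent.Lib.MP_95cf8e_co.Calc
import Pool.Agent.Lib.MP_4d119b_lc.Menger

/-! # Disjoint paths through vertices with one pebble -/

set_option autoImplicit false

namespace Pool.Agent.Lib.MP_95cf8e_co

open Finset
open Pool.Agent.Lib.MP_4d119b_lc (RIn NoSep GP menger)

variable {V : Type*} [DecidableEq V] {G : SimpleGraph V}

/-- the graph with all edges inside `Ω` -/
def inG (G : SimpleGraph V) (Ω : Finset V) : SimpleGraph V where
  Adj a b := G.Adj a b ∧ a ∈ Ω ∧ b ∈ Ω
  symm := ⟨fun _ _ h => ⟨h.1.symm, h.2.2, h.2.1⟩⟩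
  loopless := ⟨fun a h => G.loopless.irrefl a h.1⟩

theorem inG_adj {Ω : Finset V} {a b : V} : (inG G Ω).Adj a b ↔ G.Adj a b ∧ a ∈ Ω ∧ b ∈ Ω := Iff.rfl

theorem paths_gets [Fintype V] (G : SimpleGraph V) (Ω A L : Finset V) (hA : A ⊆ Ω) (hL : L ⊆ Ω)
    (P : ℕ)
    (hsep : ∀ X S : Finset V, X ⊆ Ω → X.card < P → S ⊆ Ω \ X → A \ X ⊆ S → Disjoint S L →
      ∃ a ∈ S, ∃ b ∈ Ω, b ∉ X ∧ b ∉ S ∧ G.Adj a b) :
    ∃ A' ⊆ A, ∃ L' ⊆ L, A'.card = P ∧ L'.card = P ∧
      Gets G (∑ a ∈ A', Pi.single a 1 + ∑ v ∈ Ω, Pi.single v 1) (∑ v ∈ L', Pi.single v 2) := by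
  classical
  -- Menger in the graph `inG G Ω`
  have hno : NoSep (inG G Ω) (A : Set V) (L : Set V) P := by
    intro C hC
    set X := C ∩ Ω with hX
    have hXΩ : X ⊆ Ω := inter_subset_right
    have hXc : X.card < P := (card_le_card inter_subset_left).trans_lt hC
    -- S = set reachable from A \ X
    set S := Ω.filter (fun v => ∃ a ∈ A, a ∉ C ∧ v ∉ C ∧ RIn (inG G Ω) (↑C)ᶜ a v) with hS
    by_contra hcon
    push Not at hcon
    obtain ⟨a, ha, b, hb, hbX, hbS, hab⟩ := hsep X S hXΩ hXc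
      (by
        intro v hv
        rw [hS, mem_filter] at hv
        obtain ⟨hvΩ, _, _, _, hvC, _⟩ := hv
        rw [mem_sdiff, hX, mem_inter]
        exact ⟨hvΩ, fun h => hvC h.1⟩)
      (by
        intro v hv
        rw [mem_sdiff, hX, mem_inter] at hv
        rw [hS, mem_filter]
        have hvC : v ∉ C := fun h => hv.2 ⟨h, hA hv.1⟩
        exact ⟨hA hv.1, v, hv.1, hvC, hvC, RIn.refl _ _ _⟩)
      (by
        rw [Finset.disjoint_left]
        intro v hv hvL
        rw [hS, mem_filter] at hv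
        obtain ⟨_, a, ha, haC, hvC, hr⟩ := hv
        exact hcon a ha v hvL haC hvC hr)
    rw [hS, mem_filter] at ha
    obtain ⟨haΩ, a', ha'A, ha'C, haC, hr⟩ := ha
    have hbC : b ∉ C := fun h => hbX (by rw [hX, mem_inter]; exact ⟨h, hb⟩)
    apply hbS
    rw [hS, mem_filter]
    exact ⟨hb, a', ha'A, ha'C, hbC, hr.tail ⟨hab, haΩ, hb⟩ (by simpa using haC) (by simpa using hbC)⟩
  obtain ⟨P', hP1, hP2⟩ := menger (inG G Ω) (A : Set V) (L : Set V) P hno
  -- starts and ends
  have hs_inj : Function.Injective (fun i => (P' i).p 0) := by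
    intro i j hij
    by_contra hne
    have := Set.disjoint_left.1 (hP2 i j hne) ⟨0, Nat.zero_le _, rfl⟩
    exact this ⟨0, Nat.zero_le _, hij.symm⟩
  have he_inj : Function.Injective (fun i => (P' i).p (P' i).len) := by
    intro i j hij
    by_contra hne
    have := Set.disjoint_left.1 (hP2 i j hne) ⟨_, le_rfl, rfl⟩
    exact this ⟨_, le_rfl, hij.symm⟩
  refine ⟨univ.image (fun i => (P' i).p 0), ?_, univ.image (fun i => (P' i).p (P' i).len), ?_,
    ?_, ?_, ?_⟩
  · intro v hv
    obtain ⟨i, _, rfl⟩ := mem_image.1 hv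
    exact_mod_cast (hP1 i).1
  · intro v hv
    obtain ⟨i, _, rfl⟩ := mem_image.1 hv
    exact_mod_cast (hP1 i).2.1
  · rw [card_image_of_injective _ hs_inj, card_univ, Fintype.card_fin]
  · rw [card_image_of_injective _ he_inj, card_univ, Fintype.card_fin]
  rw [sum_image (fun i _ j _ h => hs_inj h), sum_image (fun i _ j _ h => he_inj h)]
  have h1 := Gets.sum (G := G) (univ : Finset (Fin P))
    (fun i => Pi.single ((P' i).p 0) 1 + ∑ j ∈ range ((P' i).len + 1), Pi.single ((P' i).p j) 1)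
    (fun i => Pi.single ((P' i).p (P' i).len) 2)
    (fun i _ => gets_seq _ _ fun j hj => ((P' i).adj j hj).1)
  refine h1.mono ?_ le_rfl
  rw [sum_add_distrib]
  refine add_le_add le_rfl ?_
  -- the supports are disjoint subsets of Ω
  intro v
  rw [Finset.sum_apply, Finset.sum_apply]
  simp only [Finset.sum_apply]
  by_cases hv : ∃ i j, j ≤ (P' i).len ∧ (P' i).p j = v
  · obtain ⟨i, j, hj, rfl⟩ := hv
    have hmemΩ : (P' i).p j ∈ Ω := by
      rcases Nat.lt_or_ge j (P' i).len with h | h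
      · exact ((P' i).adj j h).2.1
      · have : j = (P' i).len := le_antisymm hj h
        subst this
        exact hL (by exact_mod_cast (hP1 i).2.1)
    have hR : ∑ x ∈ Ω, (Pi.single x 1 : V → ℕ) ((P' i).p j) = 1 := by
      rw [sum_eq_single_of_mem _ hmemΩ]
      · simp
      · intro b _ hb
        rw [Pi.single_eq_of_ne hb.symm]
    rw [hR]
    rw [sum_eq_single_of_mem i (mem_univ _)]
    · rw [sum_eq_single_of_mem j (by simpa [Nat.lt_succ_iff] using hj)]
      · simp
      · intro j' hj' hne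
        rw [mem_range, Nat.lt_succ_iff] at hj'
        rw [Pi.single_eq_of_ne]
        intro h
        exact hne ((P' i).inj _ hj' _ hj h.symm)
    · intro i' _ hne
      apply sum_eq_zero
      intro j' hj'
      rw [mem_range, Nat.lt_succ_iff] at hj'
      rw [Pi.single_eq_of_ne]
      intro h
      exact Set.disjoint_left.1 (hP2 i' i hne) ⟨j', hj', h.symm⟩ ⟨j, hj, rfl⟩
  · push Not at hv
    rw [show (∑ i, ∑ j ∈ range ((P' i).len + 1), (Pi.single ((P' i).p j) 1 : V → ℕ) v) = 0 from ?_]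
    · exact Nat.zero_le _
    · apply sum_eq_zero
      intro i _
      apply sum_eq_zero
      intro j hj
      rw [mem_range, Nat.lt_succ_iff] at hj
      rw [Pi.single_eq_of_ne (hv i j hj).symm]

end Pool.Agent.Lib.MP_95cf8e_co
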