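import Pool.Agent.Lib.MP_95cf8e_co.KSym
import Pool.Agent.Lib.MP_95cf8e_co.KIso
import Pool.Agent.Lib.MP_95cf8e_co.Paths
import Pool.Agent.Lib.MP_95cf8e_co.NumB

/-! # Few zeros -/

set_option autoImplicit false

namespace Pool.Agent.Lib.MP_95cf8e_co

open Finset
open scoped Classical

variable {t s : ℕ}

/-- number of zeros = surplus -/
theorem surplus_eq {V : Type*} [Fintype V] [DecidableEq V] (C : V → ℕ)
    (hC : ∑ v, C v = Fintype.card V) :
    (univ.filter (fun v => C v = 0)).card = ∑ v, (C v - 1) := by
  have h1 : ∑ v, C v + (univ.filter (fun v => C v = 0)).card = ∑ v, (C v - 1) + ∑ _v : V, 1 := by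
    rw [card_filter, ← sum_add_distrib, ← sum_add_distrib]
    apply sum_congr rfl
    intro v _
    by_cases h : C v = 0
    · simp [h]
    · simp only [h, if_false]; omega
  rw [hC, sum_const, card_univ, smul_eq_mul, mul_one] at h1
  omega

/-- A path of ones from a vertex with two pebbles to `r`, unless the ones split. -/
theorem ones_path {V : Type*} [Fintype V] [DecidableEq V] (G : SimpleGraph V) (C : V → ℕ) (r : V)
    (hsep : ∀ S : Finset V, (∀ v ∈ S, C v ≠ 0) → (∀ v, 2 ≤ C v → v ∈ S) →
      (∀ v ∈ S, ¬ G.Adj v r) → (∀ a ∈ S, ∀ b, G.Adj a b → b ∈ S ∨ C b = 0) → False) :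
    Gets G C (Pi.single r 1) := by
  obtain ⟨A', hA', L', hL', hA1, hL1, hg⟩ := paths_gets G (univ.filter (fun v => C v ≠ 0))
    (univ.filter (fun v => 2 ≤ C v)) (univ.filter (fun v => C v ≠ 0 ∧ G.Adj v r))
    (by intro v hv; simp only [mem_filter, mem_univ, true_and] at hv ⊢; omega)
    (by intro v hv; simp only [mem_filter, mem_univ, true_and] at hv ⊢; exact hv.1) 1
    (by
      intro X S _ hX hS hAS hSL
      have hX0 : X = ∅ := by rw [← card_eq_zero]; omega
      subst hX0
      by_contra hcon
      push Not at hcon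
      refine hsep S ?_ ?_ ?_ ?_
      · intro v hv
        have := hS hv
        simpa using this
      · intro v hv
        apply hAS
        simpa using hv
      · intro v hv hadj
        refine Finset.disjoint_left.1 hSL hv ?_
        have := hS hv
        simp only [sdiff_empty, mem_filter, mem_univ, true_and] at this ⊢
        exact ⟨this, hadj⟩
      · intro a ha b hab
        by_contra hb
        push Not at hb
        exact hcon a ha b (by simpa using hb.2) (by simp) hb.1 hab)
  obtain ⟨a, ha⟩ := card_eq_one.1 hA1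
  obtain ⟨l, hl⟩ := card_eq_one.1 hL1
  subst ha hl
  rw [sum_singleton, sum_singleton] at hg
  have hlr : G.Adj l r := by
    have := hL' (mem_singleton_self l)
    simp only [mem_filter, mem_univ, true_and] at this
    exact this.2
  have ha2 : 2 ≤ C a := by
    have := hA' (mem_singleton_self a)
    simpa using this
  refine (hg.trans ?_).mono ?_ le_rfl
  · exact gets_adj hlr 1
  · intro v
    simp only [Pi.add_apply, Finset.sum_apply]
    rw [show (∑ x ∈ univ.filter (fun v => C v ≠ 0), (Pi.single x 1 : V → ℕ) v) =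
      if C v ≠ 0 then 1 else 0 from ?_]
    · by_cases hva : v = a
      · subst hva
        rw [Pi.single_eq_same, if_pos (by omega)]
        omega
      · rw [Pi.single_eq_of_ne hva]
        split_ifs <;> omega
    · by_cases hv : C v = 0
      · rw [if_neg (by simpa using hv)]
        apply sum_eq_zero
        intro x hx
        rw [Pi.single_eq_of_ne]
        rintro rfl
        simp [hv] at hx
      · rw [if_pos hv, sum_eq_single_of_mem v (by simpa using hv)]
        · simp
        · intro b _ hb
          rw [Pi.single_eq_of_ne hb.symm]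

/-- If the target cannot be reached, some set `U` is closed up to zeros. -/
theorem split (ht : 1 ≤ t) (hs : 1 ≤ s) (C : KV t s → ℕ) (hC : ∑ v, C v = nn t s)
    (r : KV t s) (hr : C r = 0) (hz : 2 * zz C ≤ nn t s)
    (hnot : ¬ Gets (KG t s) C (Pi.single r 1)) :
    ∃ U : Finset (KV t s), kk t s ≤ U.card + zz C ∧ U.card ≤ 4 * (t + 1) * zz C ∧
      ∀ a ∈ U, ∀ b, (KG t s).Adj a b → b ∈ U ∨ C b = 0 := by
  by_contra hcon
  push Not at hcon
  apply hnot
  apply ones_path
  intro S hS1 hS2 hS3 hS4
  set Z := univ.filter (fun v : KV t s => C v = 0) with hZ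
  have hzz : zz C = Z.card := rfl
  have hz1 : 1 ≤ Z.card := card_pos.2 ⟨r, by simp [hZ, hr]⟩
  set S' := (S ∪ Z)ᶜ with hS'
  have hSZ : Disjoint S Z := by
    rw [Finset.disjoint_left]
    intro v hv hv'
    exact hS1 v hv (by simpa [hZ] using hv')
  have hcard : S.card + Z.card + S'.card = nn t s := by
    rw [← card_KV, hS', card_compl, card_union_of_disjoint hSZ]
    have : (S ∪ Z).card ≤ Fintype.card (KV t s) := card_le_univ _
    rw [card_union_of_disjoint hSZ] at this
    omega
  have hcl : ∀ a ∈ S, ∀ b, (KG t s).Adj a b → b ∈ S ∨ b ∈ Z := by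
    intro a ha b hab
    rcases hS4 a ha b hab with h | h
    · exact Or.inl h
    · exact Or.inr (by simp [hZ, h])
  have hcl' : ∀ a ∈ S', ∀ b, (KG t s).Adj a b → b ∈ S' ∨ b ∈ Z := by
    intro a ha b hab
    by_contra hb
    push Not at hb
    have hbS : b ∈ S := by
      by_contra hbS
      exact hb.1 (by simp only [hS', mem_compl, mem_union]; tauto)
    have := hcl b hbS a hab.symm
    simp only [hS', mem_compl, mem_union] at ha
    tauto
  -- a vertex with two pebbles
  obtain ⟨b, hb⟩ : ∃ b, 2 ≤ C b := by
    by_contra hno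
    push Not at hno
    have h0 : Z.card = ∑ v, (C v - 1) := surplus_eq C (by rw [hC, card_KV])
    rw [sum_eq_zero (fun v _ => by have := hno v; omega)] at h0
    omega
  have hSk : kk t s ≤ S.card + Z.card := by
    rw [← card_nbr ht b, ← card_union_of_disjoint hSZ]
    apply card_le_card
    intro v hv
    rw [mem_union]
    exact hcl b (hS2 b hb) v (by simpa using hv)
  have hS'k : kk t s ≤ S'.card + Z.card := by
    have hd : Disjoint S' Z := by
      rw [Finset.disjoint_left]
      intro v hv hv'
      simp only [hS', mem_compl, mem_union] at hv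
      tauto
    rw [← card_nbr ht r, ← card_union_of_disjoint hd]
    apply card_le_card
    intro v hv
    have hv' : (KG t s).Adj r v := by simpa using hv
    rw [mem_union]
    by_contra hcon'
    push Not at hcon'
    have hvS : v ∈ S := by
      by_contra hvS
      exact hcon'.1 (by simp only [hS', mem_compl, mem_union]; tauto)
    exact hS3 v hvS hv'.symm
  have hC' := lemmaC ht hs S Z hcl
  rw [← hS'] at hC'
  have hnpos : 0 < nn t s := Nat.choose_pos (by omega)
  rcases le_total S.card S'.card with h | h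
  · obtain ⟨a, ha, b, hab, hb⟩ := hcon S hSk (by
      by_contra hlt
      push Not at hlt
      rw [hzz] at hlt hz
      have h1 : nn t s ≤ 4 * S'.card := by omega
      have h2 : 4 * (t + 1) * Z.card * nn t s < S.card * (4 * S'.card) := by
        calc 4 * (t + 1) * Z.card * nn t s < S.card * nn t s :=
              Nat.mul_lt_mul_of_pos_right hlt hnpos
          _ ≤ S.card * (4 * S'.card) := Nat.mul_le_mul_left _ h1
      nlinarith)
    rcases hS4 a ha b hab with h' | h'
    · exact hb.1 h'
    · exact hb.2 h'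
  · obtain ⟨a, ha, b, hab, hb⟩ := hcon S' hS'k (by
      by_contra hlt
      push Not at hlt
      rw [hzz] at hlt hz
      have h1 : nn t s ≤ 4 * S.card := by omega
      have h2 : 4 * (t + 1) * Z.card * nn t s < S'.card * (4 * S.card) := by
        calc 4 * (t + 1) * Z.card * nn t s < S'.card * nn t s :=
              Nat.mul_lt_mul_of_pos_right hlt hnpos
          _ ≤ S'.card * (4 * S.card) := Nat.mul_le_mul_left _ h1
      nlinarith)
    rcases hcl' a ha b hab with h' | h'
    · exact hb.1 h'
    · exact hb.2 (by simpa [hZ] using h')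

theorem kk_le_nn : kk t s ≤ nn t s := Nat.choose_le_choose _ (by omega)

/-- very few zeros, any `s` -/
theorem regime0' (ht : 1 ≤ t) (hs : 1 ≤ s) (C : KV t s → ℕ) (hC : ∑ v, C v = nn t s)
    (r : KV t s) (hr : C r = 0) (hz : 20 * t * zz C ≤ kk t s) :
    Gets (KG t s) C (Pi.single r 1) := by
  by_contra hnot
  have hz1 : 1 ≤ zz C := card_pos.2 ⟨r, by simp [hr]⟩
  have h2 : 2 * zz C ≤ nn t s := by
    refine le_trans ?_ (hz.trans kk_le_nn)
    exact Nat.mul_le_mul_right _ (by omega)
  obtain ⟨U, hU1, hU2, _⟩ := split ht hs C hC r hr h2 hnot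
  have : 1 * 1 ≤ t * zz C := Nat.mul_le_mul ht hz1
  nlinarith

/-- few zeros, `s ≤ √t` -/
theorem regime0 : ∃ t0 : ℕ, ∀ t s : ℕ, t0 ≤ t → 1 ≤ s → s * s ≤ t →
    ∀ C : KV t s → ℕ, ∑ v, C v = nn t s → ∀ r : KV t s, C r = 0 → 2 * zz C ≤ kk t s →
    Gets (KG t s) C (Pi.single r 1) := by
  obtain ⟨t0, h0⟩ := num0
  refine ⟨max t0 1, ?_⟩
  intro t s ht hs hst C hC r hr hz
  have ht1 : 1 ≤ t := le_trans (le_max_right _ _) ht
  by_contra hnot
  have hz1 : 1 ≤ zz C := card_pos.2 ⟨r, by simp [hr]⟩
  obtain ⟨U, hU1, hU2, hU3⟩ := split ht1 hs C hC r hr (hz.trans kk_le_nn) hnot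
  have hUne : U.Nonempty := by rw [← card_pos]; omega
  have h1 := expand3 ht1 hs U (U ∪ univ.filter (fun v => C v = 0)) hUne
    (by
      intro a ha b hab
      rw [mem_union]
      rcases hU3 a ha b hab with h | h
      · exact Or.inl h
      · exact Or.inr (by simpa using h))
    (by
      have := card_union_le U (univ.filter (fun v => C v = 0))
      have h2 : (univ.filter (fun v => C v = 0)).card = zz C := rfl
      omega)
  have h2 := h0 t s (le_trans (le_max_left _ _) ht) hs hst
  have h3 : Real.logb 2 ((3 * U.card : ℕ) : ℝ) ≤ Real.logb 2 ((6 * (t + 1) * kk t s : ℕ) : ℝ) := by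
    apply Real.logb_le_logb_of_le (by norm_num)
    · have : 0 < U.card := card_pos.2 hUne
      exact_mod_cast (by omega : 0 < 3 * U.card)
    · exact_mod_cast (by nlinarith : 3 * U.card ≤ 6 * (t + 1) * kk t s)
  nlinarith

end Pool.Agent.Lib.MP_95cf8e_co
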