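import Pool.Agent.Lib.MP_95cf8e_co.KSym
import Pool.Agent.Lib.MP_95cf8e_co.Forest

/-! # The tree below the target -/

set_option autoImplicit false

namespace Pool.Agent.Lib.MP_95cf8e_co

open Finset
open scoped Classical

/-- binary family of unions of blocks of length `s` -/
def Fam (s : ℕ) : ℕ → Finset (Finset ℕ)
  | 0 => {∅}
  | x + 1 => (Fam s x ×ˢ range 2).image
      (fun p => p.1 ∪ Ico ((2 * x + p.2) * s) ((2 * x + p.2) * s + s))

theorem Fam_prop (s : ℕ) (hs : 1 ≤ s) (x : ℕ) :
    (∀ F ∈ Fam s x, F ⊆ range (2 * x * s) ∧ F.card = x * s) ∧ (Fam s x).card = 2 ^ x := by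
  induction x with
  | zero =>
    refine ⟨?_, ?_⟩
    · intro F hF
      simp only [Fam, mem_singleton] at hF
      subst hF
      simp
    · simp [Fam]
  | succ x ih =>
    obtain ⟨ih1, ih2⟩ := ih
    have hblock : ∀ e, e < 2 → ∀ y ∈ Ico ((2 * x + e) * s) ((2 * x + e) * s + s),
        2 * x * s ≤ y ∧ y < 2 * (x + 1) * s := by
      intro e he y hy
      rw [mem_Ico] at hy
      have h1 : 2 * x * s ≤ (2 * x + e) * s := Nat.mul_le_mul_right _ (by omega)
      have h2 : (2 * x + e) * s + s ≤ 2 * (x + 1) * s := by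
        have : (2 * x + e) * s + s = (2 * x + e + 1) * s := by ring
        rw [this]
        exact Nat.mul_le_mul_right _ (by omega)
      omega
    refine ⟨?_, ?_⟩
    · intro F hF
      simp only [Fam, mem_image, mem_product, mem_range, Prod.exists] at hF
      obtain ⟨F', e, ⟨hF', he⟩, rfl⟩ := hF
      obtain ⟨h1, h2⟩ := ih1 F' hF'
      refine ⟨?_, ?_⟩
      · intro y hy
        rw [mem_union] at hy
        rw [mem_range]
        rcases hy with hy | hy
        · have := mem_range.1 (h1 hy)
          have h3 : 2 * x * s ≤ 2 * (x + 1) * s := Nat.mul_le_mul_right _ (by omega)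
          omega
        · exact (hblock e he y hy).2
      · rw [card_union_of_disjoint, h2, Nat.card_Ico]
        · rw [Nat.add_sub_cancel_left]; ring
        · rw [Finset.disjoint_left]
          intro y hy hy'
          have h3 := mem_range.1 (h1 hy)
          have h4 := (hblock e he y hy').1
          omega
    · rw [Fam, card_image_of_injOn, card_product, ih2, card_range, pow_succ]
      rintro ⟨F, e⟩ hFe ⟨F', e'⟩ hFe' h
      rw [mem_coe, mem_product, mem_range] at hFe hFe'
      dsimp only at hFe hFe' h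
      have h1 := (ih1 F hFe.1).1
      have h1' := (ih1 F' hFe'.1).1
      have hFF : F = F' := by
        ext y
        have h2 := Finset.ext_iff.1 h y
        rw [mem_union, mem_union] at h2
        constructor
        · intro hy
          rcases h2.1 (Or.inl hy) with h3 | h3
          · exact h3
          · have h4 := mem_range.1 (h1 hy)
            have h5 := (hblock e' hFe'.2 y h3).1
            omega
        · intro hy
          rcases h2.2 (Or.inl hy) with h3 | h3
          · exact h3
          · have h4 := mem_range.1 (h1' hy)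
            have h5 := (hblock e hFe.2 y h3).1
            omega
      have hee : e = e' := by
        have h2 := Finset.ext_iff.1 h ((2 * x + e) * s)
        rw [mem_union, mem_union] at h2
        have h3 : (2 * x + e) * s ∈ Ico ((2 * x + e) * s) ((2 * x + e) * s + s) := by
          rw [mem_Ico]; omega
        rcases h2.1 (Or.inr h3) with h4 | h4
        · have h5 := mem_range.1 (h1' h4)
          have h6 : 2 * x * s ≤ (2 * x + e) * s := Nat.mul_le_mul_right _ (by omega)
          omega
        · rw [mem_Ico] at h4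
          have h5 : e' ≤ e := by
            have := Nat.le_of_mul_le_mul_right h4.1 (by omega)
            omega
          have h6 : e < e' + 1 := by
            have h7 : (2 * x + e) * s < (2 * x + e' + 1) * s := by
              have : (2 * x + e' + 1) * s = (2 * x + e') * s + s := by ring
              omega
            have := Nat.lt_of_mul_lt_mul_right h7
            omega
          omega
      rw [hFF, hee]

/-- last level of the family -/
def FamL (s i β : ℕ) : Finset (Finset ℕ) :=
  (Fam s (i - 1) ×ˢ range β).image (fun p => p.1 ∪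
    insert (2 * (i - 1) * s + (s - 1) + p.2) (Ico (2 * (i - 1) * s) (2 * (i - 1) * s + (s - 1))))

theorem fam_exists (t s i β : ℕ) (hs : 1 ≤ s) (hi : 1 ≤ i)
    (hβ : 2 * s * (i - 1) + (s - 1) + β ≤ t) :
    ∃ 𝓕 : ℕ → Finset (Finset ℕ), 𝓕 0 = {∅} ∧
      (∀ x ≤ i, ∀ F ∈ 𝓕 x, F ⊆ range t ∧ F.card = x * s) ∧
      (∀ x < i, ∀ F ∈ 𝓕 (x + 1), ∃ F' ∈ 𝓕 x, F' ⊆ F) ∧
      (∀ x < i, (𝓕 x).card ≤ 2 ^ x) ∧ (𝓕 i).card = 2 ^ (i - 1) * β := by
  have hβ' : 2 * (i - 1) * s + (s - 1) + β ≤ t := by
    have : 2 * (i - 1) * s = 2 * s * (i - 1) := by ring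
    omega
  refine ⟨fun x => if x < i then Fam s x else FamL s i β, ?_, ?_, ?_, ?_, ?_⟩
  · simp only
    rw [if_pos (by omega), Fam]
  · intro x hx F hF
    dsimp only at hF
    by_cases hxi : x < i
    · rw [if_pos hxi] at hF
      obtain ⟨h1, h2⟩ := (Fam_prop s hs x).1 F hF
      refine ⟨?_, h2⟩
      intro y hy
      have h3 := mem_range.1 (h1 hy)
      have h4 : 2 * x * s ≤ 2 * (i - 1) * s := Nat.mul_le_mul_right _ (by omega)
      rw [mem_range]
      omega
    · have hx' : x = i := by omega
      subst hx'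
      rw [if_neg hxi, FamL, mem_image] at hF
      obtain ⟨⟨F', c⟩, hp, rfl⟩ := hF
      rw [mem_product, mem_range] at hp
      dsimp only at hp ⊢
      obtain ⟨h1, h2⟩ := (Fam_prop s hs (x - 1)).1 F' hp.1
      refine ⟨?_, ?_⟩
      · intro y hy
        rw [mem_union, mem_insert, mem_Ico] at hy
        rw [mem_range]
        rcases hy with hy | hy | hy
        · have := mem_range.1 (h1 hy)
          omega
        · omega
        · omega
      · rw [card_union_of_disjoint, h2, card_insert_of_notMem, Nat.card_Ico,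
          Nat.add_sub_cancel_left]
        · obtain ⟨x', rfl⟩ : ∃ x', x = x' + 1 := ⟨x - 1, by omega⟩
          rw [Nat.add_sub_cancel, Nat.succ_mul]
          omega
        · rw [mem_Ico]
          omega
        · rw [Finset.disjoint_left]
          intro y hy hy'
          have h3 := mem_range.1 (h1 hy)
          rw [mem_insert, mem_Ico] at hy'
          omega
  · intro x hx F hF
    dsimp only at hF ⊢
    rw [if_pos hx]
    by_cases hxi : x + 1 < i
    · rw [if_pos hxi, Fam, mem_image] at hF
      obtain ⟨⟨F', e⟩, hp, rfl⟩ := hF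
      rw [mem_product] at hp
      exact ⟨F', hp.1, subset_union_left⟩
    · have hx' : i = x + 1 := by omega
      subst hx'
      rw [if_neg hxi, FamL, mem_image] at hF
      obtain ⟨⟨F', e⟩, hp, rfl⟩ := hF
      rw [mem_product, Nat.add_sub_cancel] at hp
      exact ⟨F', hp.1, subset_union_left⟩
  · intro x hx
    dsimp only
    rw [if_pos hx, (Fam_prop s hs x).2]
  · dsimp only
    rw [if_neg (lt_irrefl _), FamL, card_image_of_injOn, card_product, (Fam_prop s hs _).2,
      card_range]
    rintro ⟨F, c⟩ hFe ⟨F', c'⟩ hFe' h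
    rw [mem_coe, mem_product, mem_range] at hFe hFe'
    dsimp only at hFe hFe' h
    have h1 := ((Fam_prop s hs (i - 1)).1 F hFe.1).1
    have h1' := ((Fam_prop s hs (i - 1)).1 F' hFe'.1).1
    have hcc : c = c' := by
      have h2 := Finset.ext_iff.1 h (2 * (i - 1) * s + (s - 1) + c)
      rw [mem_union, mem_union, mem_insert, mem_insert, mem_Ico] at h2
      rcases h2.1 (Or.inr (Or.inl rfl)) with h3 | h3 | h3
      · have := mem_range.1 (h1' h3)
        omega
      · omega
      · omega
    have hFF : F = F' := by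
      ext y
      have h2 := Finset.ext_iff.1 h y
      rw [mem_union, mem_union, mem_insert, mem_insert, mem_Ico] at h2
      constructor
      · intro hy
        have h4 := mem_range.1 (h1 hy)
        rcases h2.1 (Or.inl hy) with h3 | h3 | h3
        · exact h3
        · omega
        · omega
      · intro hy
        have h4 := mem_range.1 (h1' hy)
        rcases h2.2 (Or.inl hy) with h3 | h3 | h3
        · exact h3
        · omega
        · omega
    rw [hFF, hcc]

/-- enumerate a set by an initial segment of `ℕ` -/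
theorem enum_set {α : Type*} [Nonempty α] (S : Finset α) (n : ℕ) (hn : n ≤ S.card) :
    ∃ a : ℕ → α, (∀ x ∈ range n, a x ∈ S) ∧ Set.InjOn a (range n : Finset ℕ) := by
  obtain ⟨d⟩ := ‹Nonempty α›
  refine ⟨fun x => if h : x < S.card then (S.equivFin.symm ⟨x, h⟩).1 else d, ?_, ?_⟩
  · intro x hx
    rw [mem_range] at hx
    dsimp only
    rw [dif_pos (by omega)]
    exact (S.equivFin.symm _).2
  · intro x hx y hy h
    rw [mem_coe, mem_range] at hx hy
    dsimp only at h
    rw [dif_pos (by omega), dif_pos (by omega)] at h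
    have := S.equivFin.symm.injective (Subtype.ext h)
    simpa using this

theorem rtree_exists {t s : ℕ} (ht : 1 ≤ t) (hs : 1 ≤ s) (i β : ℕ) (hi : 1 ≤ i)
    (hβ : 2 * s * (i - 1) + (s - 1) + β ≤ t) (r : KV t s) :
    ∃ (T : ℕ → Finset (KV t s)) (par : ℕ → KV t s → KV t s),
      T 0 = {r} ∧
      (∀ j < 2 * i, ∀ v ∈ T (j + 1), par j v ∈ T j ∧ (KG t s).Adj v (par j v)) ∧
      (∀ j, j + 2 ≤ 2 * i → (T j).card ≤ 2 ^ j) ∧
      (T (2 * i - 1)).card ≤ 4 ^ (i - 1) * β ∧
      (T (2 * i)).card = 4 ^ (i - 1) * β ^ 2 ∧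
      ∀ v ∈ T (2 * i), jd v r = i * s := by
  obtain ⟨𝓕, hF0, hF1, hF2, hF3, hF4⟩ := fam_exists t s i β hs hi hβ
  have hne : Nonempty (Fin (2 * t + s)) := ⟨⟨0, by omega⟩⟩
  obtain ⟨a, ha1, ha2⟩ := enum_set r.1 t (by rw [r.2])
  obtain ⟨b, hb1, hb2⟩ := enum_set (r.1ᶜ) t (by
    rw [card_compl, Fintype.card_fin, r.2]; omega)
  -- image cardinalities
  have hca : ∀ I : Finset ℕ, I ⊆ range t → (I.image a).card = I.card := fun I hI =>
    card_image_of_injOn (ha2.mono (by exact_mod_cast hI))
  have hcb : ∀ I : Finset ℕ, I ⊆ range t → (I.image b).card = I.card := fun I hI =>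
    card_image_of_injOn (hb2.mono (by exact_mod_cast hI))
  have har : ∀ I : Finset ℕ, I ⊆ range t → I.image a ⊆ r.1 := by
    intro I hI y hy
    obtain ⟨x, hx, rfl⟩ := mem_image.1 hy
    exact ha1 x (hI hx)
  have hbr : ∀ I : Finset ℕ, I ⊆ range t → ∀ y ∈ I.image b, y ∉ r.1 := by
    intro I hI y hy
    obtain ⟨x, hx, rfl⟩ := mem_image.1 hy
    exact mem_compl.1 (hb1 x (hI hx))
  set W : Finset ℕ → Finset ℕ → Finset (Fin (2 * t + s)) :=
    fun I J => (r.1 \ I.image a) ∪ J.image b with hW
  have hWc : ∀ I J : Finset ℕ, I ⊆ range t → J ⊆ range t →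
      (W I J).card + I.card = t + J.card := by
    intro I J hI hJ
    rw [hW]
    dsimp only
    rw [card_union_of_disjoint, card_sdiff_of_subset (har I hI), r.2, hca I hI, hcb J hJ]
    · have := card_le_card hI
      rw [card_range] at this
      omega
    · rw [Finset.disjoint_left]
      intro y hy hy'
      exact hbr J hJ y hy' (mem_sdiff.1 hy).1
  set mk : Finset (Fin (2 * t + s)) → KV t s :=
    fun S => if h : S.card = t then ⟨S, h⟩ else r with hmk
  have hmk1 : ∀ S : Finset (Fin (2 * t + s)), S.card = t → (mk S).1 = S := by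
    intro S hS
    rw [hmk]
    dsimp only
    rw [dif_pos hS]
  set T : ℕ → Finset (KV t s) := fun j =>
    if j % 2 = 0 then (𝓕 (j / 2) ×ˢ 𝓕 (j / 2)).image (fun p => mk (W p.1 p.2))
    else (𝓕 (j / 2) ×ˢ 𝓕 (j / 2 + 1)).image (fun p => mk ((W p.1 p.2)ᶜ)) with hT
  have hTe : ∀ x, T (2 * x) = (𝓕 x ×ˢ 𝓕 x).image (fun p => mk (W p.1 p.2)) := by
    intro x
    rw [hT]
    dsimp only
    rw [if_pos (by omega), show 2 * x / 2 = x by omega]
  have hTo : ∀ x, T (2 * x + 1) = (𝓕 x ×ˢ 𝓕 (x + 1)).image (fun p => mk ((W p.1 p.2)ᶜ)) := by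
    intro x
    rw [hT]
    dsimp only
    rw [if_neg (by omega), show (2 * x + 1) / 2 = x by omega]
  -- sizes
  have he : ∀ x ≤ i, ∀ I ∈ 𝓕 x, ∀ J ∈ 𝓕 x, (W I J).card = t := by
    intro x hx I hI J hJ
    have h1 := hF1 x hx I hI
    have h2 := hF1 x hx J hJ
    have h3 := hWc I J h1.1 h2.1
    omega
  have ho : ∀ x, x + 1 ≤ i → ∀ I ∈ 𝓕 x, ∀ J ∈ 𝓕 (x + 1), ((W I J)ᶜ).card = t := by
    intro x hx I hI J hJ
    have h1 := hF1 x (by omega) I hI
    have h2 := hF1 (x + 1) hx J hJ
    have h3 := hWc I J h1.1 h2.1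
    have h4 : (x + 1) * s = x * s + s := by ring
    rw [h1.2, h2.2, h4] at h3
    rw [card_compl, Fintype.card_fin]
    omega
  -- parents
  have hpar : ∀ j < 2 * i, ∀ v ∈ T (j + 1), ∃ p ∈ T j, (KG t s).Adj v p := by
    intro j hj v hv
    rcases Nat.even_or_odd' j with ⟨x, h | h⟩
    · subst h
      rw [hTo, mem_image] at hv
      obtain ⟨⟨I, J⟩, hp, rfl⟩ := hv
      rw [mem_product] at hp
      obtain ⟨J', hJ', hJJ⟩ := hF2 x (by omega) J hp.2
      refine ⟨mk (W I J'), ?_, ?_⟩
      · rw [hTe, mem_image]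
        exact ⟨(I, J'), mem_product.2 ⟨hp.1, hJ'⟩, rfl⟩
      · rw [kadj ht, hmk1 _ (ho x (by omega) I hp.1 J hp.2),
          hmk1 _ (he x (by omega) I hp.1 J' hJ'), Finset.disjoint_left]
        intro y hy hy'
        apply mem_compl.1 hy
        rw [hW] at hy' ⊢
        dsimp only at hy' ⊢
        rw [mem_union] at hy' ⊢
        rcases hy' with h | h
        · exact Or.inl h
        · exact Or.inr (image_subset_image hJJ h)
    · subst h
      rw [show 2 * x + 1 + 1 = 2 * (x + 1) by ring, hTe, mem_image] at hv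
      obtain ⟨⟨I, J⟩, hp, rfl⟩ := hv
      rw [mem_product] at hp
      obtain ⟨I', hI', hII⟩ := hF2 x (by omega) I hp.1
      refine ⟨mk ((W I' J)ᶜ), ?_, ?_⟩
      · rw [hTo, mem_image]
        exact ⟨(I', J), mem_product.2 ⟨hI', hp.2⟩, rfl⟩
      · rw [kadj ht, hmk1 _ (he (x + 1) (by omega) I hp.1 J hp.2),
          hmk1 _ (ho x (by omega) I' hI' J hp.2), Finset.disjoint_left]
        intro y hy hy'
        apply mem_compl.1 hy'
        rw [hW] at hy ⊢
        dsimp only at hy ⊢
        rw [mem_union, mem_sdiff] at hy ⊢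
        rcases hy with h | h
        · exact Or.inl ⟨h.1, fun h' => h.2 (image_subset_image hII h')⟩
        · exact Or.inr h
  choose! par hpar1 hpar2 using hpar
  have hr0 : mk (W ∅ ∅) = r := by
    apply Subtype.ext
    rw [hmk1 _ (by have := hWc ∅ ∅ (by simp) (by simp); simpa using this)]
    simp [hW]
  refine ⟨T, par, ?_, ?_, ?_, ?_, ?_, ?_⟩
  · rw [show (0 : ℕ) = 2 * 0 by ring, hTe, hF0]
    simp [hr0]
  · intro j hj v hv
    exact ⟨hpar1 j hj v hv, hpar2 j hj v hv⟩
  · intro j hj
    rcases Nat.even_or_odd' j with ⟨x, h | h⟩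
    · subst h
      rw [hTe]
      refine card_image_le.trans ?_
      rw [card_product, two_mul, pow_add]
      exact Nat.mul_le_mul (hF3 x (by omega)) (hF3 x (by omega))
    · subst h
      rw [hTo]
      refine card_image_le.trans ?_
      rw [card_product, show 2 * x + 1 = x + (x + 1) by ring, pow_add]
      exact Nat.mul_le_mul (hF3 x (by omega)) (hF3 (x + 1) (by omega))
  · rw [show 2 * i - 1 = 2 * (i - 1) + 1 by omega, hTo, Nat.sub_add_cancel hi]
    refine card_image_le.trans ?_
    rw [card_product, hF4, ← mul_assoc]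
    apply Nat.mul_le_mul_right
    refine (Nat.mul_le_mul_right _ (hF3 (i - 1) (by omega))).trans ?_
    rw [← mul_pow]
    norm_num
  · rw [hTe, card_image_of_injOn, card_product, hF4, show (4 : ℕ) = 2 * 2 by norm_num, mul_pow]
    · ring
    rintro ⟨I, J⟩ hp ⟨I', J'⟩ hp' h
    rw [mem_coe, mem_product] at hp hp'
    dsimp only at hp hp' h
    have h1 := congrArg Subtype.val h
    rw [hmk1 _ (he i le_rfl I hp.1 J hp.2), hmk1 _ (he i le_rfl I' hp'.1 J' hp'.2)] at h1
    rw [hW] at h1
    dsimp only at h1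
    have hI := (hF1 i le_rfl I hp.1).1
    have hI' := (hF1 i le_rfl I' hp'.1).1
    have hJ := (hF1 i le_rfl J hp.2).1
    have hJ' := (hF1 i le_rfl J' hp'.2).1
    have h2 : I.image a = I'.image a := by
      ext y
      have h3 := Finset.ext_iff.1 h1 y
      have h4 := hbr J hJ y
      have h5 := hbr J' hJ' y
      have h6 := @har I hI y
      have h7 := @har I' hI' y
      simp only [mem_union, mem_sdiff] at h3
      tauto
    have h2' : J.image b = J'.image b := by
      ext y
      have h3 := Finset.ext_iff.1 h1 y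
      have h4 := hbr J hJ y
      have h5 := hbr J' hJ' y
      simp only [mem_union, mem_sdiff] at h3
      tauto
    have hinj : ∀ (f : ℕ → Fin (2 * t + s)) (A B : Finset ℕ), Set.InjOn f (range t : Finset ℕ) →
        A ⊆ range t → B ⊆ range t → A.image f = B.image f → A = B := by
      intro f A B hf hA hB hAB
      ext y
      constructor
      · intro hy
        have h3 : f y ∈ B.image f := by rw [← hAB]; exact mem_image_of_mem f hy
        obtain ⟨y', hy', hyy⟩ := mem_image.1 h3
        rwa [← hf (hB hy') (hA hy) hyy]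
      · intro hy
        have h3 : f y ∈ A.image f := by rw [hAB]; exact mem_image_of_mem f hy
        obtain ⟨y', hy', hyy⟩ := mem_image.1 h3
        rwa [← hf (hA hy') (hB hy) hyy]
    rw [hinj a I I' ha2 hI hI' h2, hinj b J J' hb2 hJ hJ' h2']
  · intro v hv
    rw [hTe, mem_image] at hv
    obtain ⟨⟨I, J⟩, hp, rfl⟩ := hv
    rw [mem_product] at hp
    dsimp only
    unfold jd
    rw [hmk1 _ (he i le_rfl I hp.1 J hp.2), hW]
    dsimp only
    have hI := (hF1 i le_rfl I hp.1).1
    have hJ := hF1 i le_rfl J hp.2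
    have h3 : (r.1 \ I.image a ∪ J.image b) \ r.1 = J.image b := by
      ext y
      have h4 := hbr J hJ.1 y
      simp only [mem_union, mem_sdiff]
      tauto
    rw [h3, hcb J hJ.1, hJ.2]

/-- **Leaves avoiding a set.** -/
theorem rtree {t s : ℕ} (ht : 1 ≤ t) (hs : 1 ≤ s) (i β : ℕ) (hi : 1 ≤ i)
    (hβ : 2 * s * (i - 1) + (s - 1) + β ≤ t) (r : KV t s) (Y : Finset (KV t s))
    (hY : 2 * Y.card ≤ NN t s (i * s)) :
    ∃ L : Finset (KV t s), Disjoint L Y ∧ 4 ^ (i - 1) * β ^ 2 ≤ 2 * L.card ∧
      ∀ L' ⊆ L, 4 ^ (i - 1) * (4 * (i - 1) + β) < L'.card →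
        Gets (KG t s) (∑ v ∈ L', Pi.single v 2) (Pi.single r 1) := by
  obtain ⟨T, par, hT0, hT1, hT2, hT3, hT4, hT5⟩ := rtree_exists ht hs i β hi hβ r
  obtain ⟨σ, hσr, hσ⟩ := avg_stab r (i * s) (T (2 * i)) Y hT5
  have hbad : 2 * ((T (2 * i)).filter (fun v => act σ v ∈ Y)).card ≤ (T (2 * i)).card := by
    rcases Nat.eq_zero_or_pos (NN t s (i * s)) with h0 | h0
    · have hY0 : Y = ∅ := by
        rw [← card_eq_zero]; omega
      rw [hY0]
      simp
    · by_contra hlt
      push Not at hlt
      have h1 : NN t s (i * s) * (2 * ((T (2 * i)).filter (fun v => act σ v ∈ Y)).card) ≤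
          NN t s (i * s) * (T (2 * i)).card := by
        calc NN t s (i * s) * (2 * ((T (2 * i)).filter (fun v => act σ v ∈ Y)).card)
            = 2 * (NN t s (i * s) * ((T (2 * i)).filter (fun v => act σ v ∈ Y)).card) := by ring
          _ ≤ 2 * ((T (2 * i)).card * Y.card) := Nat.mul_le_mul_left _ hσ
          _ = (2 * Y.card) * (T (2 * i)).card := by ring
          _ ≤ NN t s (i * s) * (T (2 * i)).card := Nat.mul_le_mul_right _ hY
      have h2 := Nat.le_of_mul_le_mul_left h1 h0
      omega
  refine ⟨((T (2 * i)).filter (fun v => act σ v ∉ Y)).image (act σ), ?_, ?_, ?_⟩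
  · rw [Finset.disjoint_left]
    intro v hv
    obtain ⟨w, hw, rfl⟩ := mem_image.1 hv
    exact (mem_filter.1 hw).2
  · rw [card_image_of_injective _ (act σ).injective]
    have h1 := card_filter_add_card_filter_not (s := T (2 * i)) (fun v => act σ v ∈ Y)
    omega
  · intro L' hL' hL'c
    refine tree_gets (2 * i) (by omega) (fun j => (T j).image (act σ))
      (fun j v => act σ (par j ((act σ).symm v))) r ?_ ?_ L' ?_ ?_
    · rw [hT0, image_singleton, hσr]
    · intro j hj v hv
      obtain ⟨w, hw, rfl⟩ := mem_image.1 hv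
      rw [Equiv.symm_apply_apply, act_adj]
      obtain ⟨h1, h2⟩ := hT1 j hj w hw
      exact ⟨mem_image_of_mem _ h1, h2⟩
    · refine hL'.trans ?_
      exact image_subset_image (filter_subset _ _)
    · refine lt_of_le_of_lt ?_ hL'c
      have hci : ∀ j, ((T j).image (act σ)).card = (T j).card := fun j =>
        card_image_of_injective _ (act σ).injective
      simp only [hci]
      obtain ⟨k, rfl⟩ : ∃ k, i = k + 1 := ⟨i - 1, by omega⟩
      rw [Nat.add_sub_cancel] at hT3 ⊢
      rw [show 2 * (k + 1) = (2 * k + 1) + 1 by ring, sum_Ico_succ_top (by omega),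
        Nat.add_sub_cancel, Nat.sub_self, pow_zero, one_mul]
      rw [show 2 * (k + 1) - 1 = 2 * k + 1 by omega] at hT3
      have h1 : ∑ j ∈ Ico 1 (2 * k + 1), 2 ^ (2 * k + 1 - j) * (T j).card ≤
          ∑ _j ∈ Ico 1 (2 * k + 1), 2 ^ (2 * k + 1) := by
        apply sum_le_sum
        intro j hj
        rw [mem_Ico] at hj
        calc 2 ^ (2 * k + 1 - j) * (T j).card ≤ 2 ^ (2 * k + 1 - j) * 2 ^ j :=
              Nat.mul_le_mul_left _ (hT2 j (by omega))
          _ = 2 ^ (2 * k + 1) := by
              rw [← pow_add]; congr 1; omega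
      rw [sum_const, Nat.card_Ico, smul_eq_mul, Nat.add_sub_cancel] at h1
      have h2 : 2 * k * 2 ^ (2 * k + 1) = 4 ^ k * (4 * k) := by
        rw [pow_succ, pow_mul]; norm_num; ring
      rw [h2] at h1
      rw [mul_add]
      exact add_le_add h1 hT3

end Pool.Agent.Lib.MP_95cf8e_co
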