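import Pool.Agent.Lib.MP_95cf8e_co.KSym
import Pool.Agent.Lib.MP_95cf8e_co.Forest

/-! # Supplying many vertices with a pebble -/

set_option autoImplicit false

namespace Pool.Agent.Lib.MP_95cf8e_co

open Finset
open scoped Classical

/-- **One supply.**  `forest`; if no pebble leaves `Y` some root `v ∈ R ∩ Y` gets at least `2 ^ (2i)`
pebbles; there is `w ∉ Y` with `jd v w = i s` (`card_shell`), walk there (`walk_even`). -/
theorem supply_one {t s D : ℕ} (ht : 1 ≤ t) (T : Template (KG t s) D) (i : ℕ)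
    (Y : Finset (KV t s)) (hY : Y.card < NN t s (i * s)) (c : KV t s → ℕ)
    (hc : ∀ v, v ∉ Y → c v = 0)
    (hbig : T.loss Y (2 ^ (D + 2 * i)) < ∑ v, (c v - 1)) :
    ∃ v, v ∉ Y ∧ ∃ E ≤ c, ∑ x, E x ≤ 2 ^ (D + 2 * i) ∧ Gets (KG t s) E (Pi.single v 1) := by
  rcases forest T Y c hc with ⟨v, hv, E, hE1, hE2, hE3⟩ | ⟨d, hd1, hd2⟩
  · exact ⟨v, hv, E, hE1, hE2.trans (Nat.pow_le_pow_right (by norm_num) (by omega)), hE3⟩
  obtain ⟨v, hv, hdv⟩ : ∃ v ∈ T.R ∩ Y, 2 ^ (2 * i) ≤ d v := by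
    by_contra hcon
    push Not at hcon
    have h1 : ∑ v ∈ T.R ∩ Y, d v ≤ (T.R ∩ Y).card * 2 ^ (2 * i) :=
      (sum_le_sum fun v hv => (hcon v hv).le).trans (by rw [sum_const, smul_eq_mul])
    have h2 : ∑ v ∈ Y.filter (fun v => v ∉ T.R ∧ 1 ≤ T.off v ∧ c v = 0), 2 ^ T.off v ≤
        ∑ v ∈ Y.filter (fun v => v ∉ T.R ∧ 1 ≤ T.off v), 2 ^ T.off v := by
      apply sum_le_sum_of_subset
      intro v hv
      rw [mem_filter] at hv ⊢
      exact ⟨hv.1, hv.2.1, hv.2.2.1⟩
    have h3 : 2 ^ D * ∑ v ∈ T.R ∩ Y, d v ≤ 2 ^ D * ((T.R ∩ Y).card * 2 ^ (2 * i)) :=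
      Nat.mul_le_mul_left _ h1
    rw [Template.loss, pow_add] at hbig
    have h4 : 2 ^ D * 2 ^ (2 * i) * (T.R ∩ Y).card = 2 ^ D * ((T.R ∩ Y).card * 2 ^ (2 * i)) := by
      ring
    rw [h4] at hbig
    omega
  obtain ⟨E, hE1, hE2, hE3⟩ := hd2 v (mem_inter.1 hv).1 _ hdv
  obtain ⟨w, hw1, hw2⟩ : ∃ w : KV t s, jd w v = i * s ∧ w ∉ Y := by
    by_contra hcon
    push Not at hcon
    have h1 : univ.filter (fun w : KV t s => jd w v = i * s) ⊆ Y := by
      intro w hw
      exact hcon w (mem_filter.1 hw).2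
    have h2 := card_le_card h1
    rw [card_shell] at h2
    omega
  obtain ⟨p, hp⟩ := walk_even ht v w i (by rw [jd_comm, hw1])
  refine ⟨w, hw2, E, hE1, hE2.trans (by rw [pow_add]), hE3.trans ?_⟩
  have := gets_walk p 1
  rwa [mul_one, hp] at this

theorem supply_many {t s D : ℕ} (ht : 1 ≤ t) (T : Template (KG t s) D) (i l z : ℕ)
    (Y0 : Finset (KV t s)) (hY0 : Y0.card + l ≤ 37 * z) (hz : 1 ≤ z)
    (hN : 37 * z < NN t s (i * s)) (c : KV t s → ℕ)
    (hc : ∀ v, v ∉ Y0 → c v = 0) (hcz : z ≤ ∑ v, (c v - 1))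
    (hl : 4 * (l * 2 ^ (D + 2 * i)) ≤ z)
    (hloss : 74 * T.loss univ (2 ^ (D + 2 * i)) ≤ nn t s) :
    ∃ A : Finset (KV t s), A.card = l ∧ Disjoint A Y0 ∧
      Gets (KG t s) c (∑ a ∈ A, Pi.single a 1) := by
  have hnpos : 0 < nn t s := Nat.choose_pos (by omega)
  set q := 2 ^ (D + 2 * i) with hq
  have key : ∀ j, j ≤ l → ∃ (A : Finset (KV t s)) (e : KV t s → ℕ), A.card = j ∧ Disjoint A Y0 ∧
      e ≤ c ∧ ∑ v, e v ≤ j * q ∧ Gets (KG t s) e (∑ a ∈ A, Pi.single a 1) := by
    intro j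
    induction j with
    | zero =>
      intro _
      exact ⟨∅, 0, rfl, disjoint_empty_left _, by intro x; exact Nat.zero_le _, by simp,
        by rw [sum_empty]; exact Gets.refl _⟩
    | succ j ih =>
      intro hj
      obtain ⟨A, e, hA1, hA2, he1, he2, he3⟩ := ih (by omega)
      set Y := Y0 ∪ A with hY
      have hYc : Y.card ≤ 37 * z := (card_union_le _ _).trans (by omega)
      obtain ⟨T', _, hT'⟩ := template_transport T Y q
      have hloss' : 2 * T'.loss Y q ≤ z := by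
        by_contra hlt
        push Not at hlt
        have h1 : nn t s * (74 * T'.loss Y q) ≤ nn t s * (37 * z) := by
          calc nn t s * (74 * T'.loss Y q) = 74 * (nn t s * T'.loss Y q) := by ring
            _ ≤ 74 * (Y.card * T.loss univ q) := Nat.mul_le_mul_left _ hT'
            _ = Y.card * (74 * T.loss univ q) := by ring
            _ ≤ Y.card * nn t s := Nat.mul_le_mul_left _ hloss
            _ ≤ 37 * z * nn t s := Nat.mul_le_mul_right _ hYc
            _ = nn t s * (37 * z) := by ring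
        have h2 := Nat.le_of_mul_le_mul_left h1 hnpos
        omega
      have hjq : 4 * (j * q) ≤ z := by
        refine le_trans ?_ hl
        exact Nat.mul_le_mul_left _ (Nat.mul_le_mul_right _ (by omega))
      have hsur : ∑ v, (c v - 1) ≤ ∑ v, ((c - e) v - 1) + ∑ v, e v := by
        rw [← sum_add_distrib]
        apply sum_le_sum
        intro v _
        show c v - 1 ≤ (c v - e v - 1) + e v
        omega
      obtain ⟨v, hv, E, hE1, hE2, hE3⟩ := supply_one ht T' i Y (by omega) (c - e)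
        (by
          intro v hv
          show c v - e v = 0
          rw [hc v (fun h => hv (mem_union_left _ h))]
          exact Nat.zero_sub _)
        (by
          rw [← hq]
          omega)
      have hvA : v ∉ A := fun h => hv (mem_union_right _ h)
      have hvY0 : v ∉ Y0 := fun h => hv (mem_union_left _ h)
      refine ⟨insert v A, e + E, ?_, ?_, ?_, ?_, ?_⟩
      · rw [card_insert_of_notMem hvA, hA1]
      · rw [disjoint_insert_left]
        exact ⟨hvY0, hA2⟩
      · intro x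
        have h1 : e x ≤ c x := he1 x
        have h2 : E x ≤ c x - e x := hE1 x
        show e x + E x ≤ c x
        omega
      · have h1 : ∑ v, (e + E) v = ∑ v, e v + ∑ v, E v := by
          rw [← sum_add_distrib]; rfl
        rw [h1, add_mul, one_mul]
        exact add_le_add he2 hE2
      · rw [sum_insert hvA]
        exact (hE3.add he3).mono (add_comm E e).le le_rfl
  obtain ⟨A, e, hA1, hA2, he1, _, he3⟩ := key l le_rfl
  exact ⟨A, hA1, hA2, he3.mono he1 le_rfl⟩

end Pool.Agent.Lib.MP_95cf8e_co
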