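import Pool.Agent.Lib.MP_95cf8e_co.R0
import Pool.Agent.Lib.MP_95cf8e_co.Tmpl
import Pool.Agent.Lib.MP_95cf8e_co.RTree
import Pool.Agent.Lib.MP_95cf8e_co.Omega
import Pool.Agent.Lib.MP_95cf8e_co.Supply
import Pool.Agent.Lib.MP_95cf8e_co.NumA

/-! # The middle regime -/

set_option autoImplicit false

namespace Pool.Agent.Lib.MP_95cf8e_co

open Finset
open scoped Classical

/-- choice of the parameters `i1`, `i2` -/
theorem choose_params : ∃ t0 : ℕ, ∀ t s z : ℕ, t0 ≤ t → 1 ≤ s → s * s ≤ t → 819200 * t ≤ z →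
    z ^ 10 ≤ 2 ^ (19 * t) →
    ∃ i1 i2 : ℕ, 1 ≤ i1 ∧ 1 ≤ i2 ∧ 8 * (i1 * s) ≤ t ∧ 8 * (i2 * s) ≤ 3 * t ∧
      72 * z ≤ NN t s (i2 * s) ∧ 18944 * t * 4 ^ (i1 + i2) ≤ NN t s (i1 * s) ∧
      12800 * t * (4 ^ i1 * 16 ^ i2) ≤ z := by
  obtain ⟨t1, h1⟩ := num1 (18944 * 16)
  obtain ⟨t2, h2⟩ := num2 (72 * 12800 * 4 * 26)
  obtain ⟨t3, h3⟩ := num3 72
  refine ⟨max (max t1 t2) (max t3 64), ?_⟩
  intro t s z ht hs hst hz1 hz2
  simp only [max_le_iff] at ht
  obtain ⟨⟨ht1, ht2⟩, ht3, ht4⟩ := ht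
  have hNN : ∀ j, (t.choose j) ^ 2 ≤ NN t s j := by
    intro j
    rw [sq, NN]
    exact Nat.mul_le_mul_left _ (Nat.choose_le_choose _ (by omega))
  have h8s : 8 * s ≤ t := by
    rcases Nat.lt_or_ge s 8 with h | h
    · omega
    · nlinarith
  have hex : ∃ i, 1 ≤ i ∧ 72 * z ≤ NN t s (i * s) := by
    refine ⟨3 * t / (8 * s), ?_, (h3 t s z ht3 hs hst hz2).trans (hNN _)⟩
    rw [Nat.le_div_iff_mul_le (by omega)]
    omega
  set i2 := Nat.find hex with hi2
  have hi2spec := Nat.find_spec hex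
  rw [← hi2] at hi2spec
  have hi2le : i2 ≤ 3 * t / (8 * s) := by
    apply Nat.find_min' hex
    refine ⟨?_, (h3 t s z ht3 hs hst hz2).trans (hNN _)⟩
    rw [Nat.le_div_iff_mul_le (by omega)]
    omega
  have h8i2 : 8 * (i2 * s) ≤ 3 * t := by
    have := Nat.div_mul_le_self (3 * t) (8 * s)
    have h' : i2 * (8 * s) ≤ 3 * t := (Nat.mul_le_mul_right _ hi2le).trans this
    nlinarith
  obtain ⟨i1, hi1, hi1', hi1''⟩ : ∃ i1 : ℕ, 1 ≤ i1 ∧ i2 ≤ 3 * i1 + 2 ∧ (i1 = 1 ∨ 3 * i1 ≤ i2) := by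
    refine ⟨max 1 (i2 / 3), le_max_left _ _, ?_, ?_⟩ <;> omega
  have h8i1 : 8 * (i1 * s) ≤ t := by
    rcases hi1'' with h | h
    · rw [h, one_mul]; exact h8s
    · have : 3 * i1 * s ≤ i2 * s := Nat.mul_le_mul_right _ h
      nlinarith
  refine ⟨i1, i2, hi1, hi2spec.1, h8i1, h8i2, hi2spec.2, ?_, ?_⟩
  · have h4 := (h1 t (i1 * s) ht1 (Nat.mul_pos hi1 hs) h8i1).trans (hNN _)
    refine le_trans ?_ h4
    have h5 : 4 ^ (i1 + i2) ≤ 16 * 256 ^ (i1 * s) := by
      calc 4 ^ (i1 + i2) ≤ 4 ^ (4 * i1 + 2) := Nat.pow_le_pow_right (by norm_num) (by omega)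
        _ = 16 * 256 ^ i1 := by rw [pow_add, pow_mul]; norm_num; ring
        _ ≤ 16 * 256 ^ (i1 * s) :=
            Nat.mul_le_mul_left _ (Nat.pow_le_pow_right (by norm_num) (Nat.le_mul_of_pos_right _ hs))
    calc 18944 * t * 4 ^ (i1 + i2) ≤ 18944 * t * (16 * 256 ^ (i1 * s)) := Nat.mul_le_mul_left _ h5
      _ = 18944 * 16 * t * 256 ^ (i1 * s) := by ring
  · rcases Nat.lt_or_ge i2 2 with h | h
    · have hi2' : i2 = 1 := by omega
      have hi1' : i1 = 1 := by omega
      rw [hi2', hi1']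
      omega
    · have hnot := Nat.find_min hex (m := i2 - 1) (by omega)
      rw [not_and] at hnot
      have hlt : NN t s ((i2 - 1) * s) < 72 * z := not_le.1 (hnot (by omega))
      have h4 := (h2 t ((i2 - 1) * s) ht2 (Nat.mul_pos (by omega) hs) (by
        have : (i2 - 1) * s ≤ i2 * s := Nat.mul_le_mul_right _ (by omega)
        omega)).trans (hNN _)
      have h5 : 4 ^ i1 * 16 ^ i2 ≤ 4 * 26 ^ i2 := by
        rcases hi1'' with h' | h'
        · rw [h', pow_one]
          exact Nat.mul_le_mul_left _ (Nat.pow_le_pow_left (by norm_num) _)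
        · have h6 : (4 ^ i1 * 16 ^ i2) ^ 3 ≤ (26 ^ i2) ^ 3 := by
            calc (4 ^ i1 * 16 ^ i2) ^ 3 = 4 ^ (3 * i1) * 4096 ^ i2 := by
                  rw [mul_pow, ← pow_mul, ← pow_mul, mul_comm i1 3, mul_comm i2 3,
                    pow_mul 16 3 i2]; norm_num
              _ ≤ 4 ^ i2 * 4096 ^ i2 :=
                  Nat.mul_le_mul_right _ (Nat.pow_le_pow_right (by norm_num) h')
              _ = 16384 ^ i2 := by rw [← mul_pow]; norm_num
              _ ≤ 17576 ^ i2 := Nat.pow_le_pow_left (by norm_num) _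
              _ = (26 ^ i2) ^ 3 := by
                  rw [← pow_mul, mul_comm i2 3, pow_mul]; norm_num
          have h7 : 4 ^ i1 * 16 ^ i2 ≤ 26 ^ i2 := by
            by_contra hcon
            push Not at hcon
            have := Nat.pow_lt_pow_left hcon (n := 3) (by norm_num)
            omega
          omega
      have h8 : 26 ^ i2 ≤ 26 * 26 ^ ((i2 - 1) * s) := by
        calc 26 ^ i2 = 26 * 26 ^ (i2 - 1) := by
              rw [← pow_succ']; congr 1; omega
          _ ≤ 26 * 26 ^ ((i2 - 1) * s) :=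
              Nat.mul_le_mul_left _ (Nat.pow_le_pow_right (by norm_num)
                (Nat.le_mul_of_pos_right _ hs))
      have h9 : 72 * (12800 * t * (4 ^ i1 * 16 ^ i2)) < 72 * z := by
        calc 72 * (12800 * t * (4 ^ i1 * 16 ^ i2))
            ≤ 72 * (12800 * t * (4 * (26 * 26 ^ ((i2 - 1) * s)))) := by
              apply Nat.mul_le_mul_left
              apply Nat.mul_le_mul_left
              exact h5.trans (Nat.mul_le_mul_left _ h8)
          _ = 72 * 12800 * 4 * 26 * t * 26 ^ ((i2 - 1) * s) := by ring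
          _ ≤ NN t s ((i2 - 1) * s) := h4
          _ < 72 * z := hlt
      omega

theorem num_beta : ∃ t0 : ℕ, ∀ t s i : ℕ, t0 ≤ t → 1 ≤ s → s * s ≤ t → 1 ≤ i → 8 * (i * s) ≤ 3 * t →
    2 * s * (i - 1) + (s - 1) + 60 * (Nat.sqrt t + 1) ≤ t ∧
    400 * (4 * (i - 1) + 60 * (Nat.sqrt t + 1) + 1) ≤ (60 * (Nat.sqrt t + 1)) ^ 2 ∧
    4 * (i - 1) + 60 * (Nat.sqrt t + 1) + 1 ≤ 2 * t := by
  refine ⟨1000000, ?_⟩
  intro t s i ht hs hst hi h8
  set w := Nat.sqrt t with hw
  have hw1 : w * w ≤ t := Nat.sqrt_le t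
  have hw2 : t < (w + 1) * (w + 1) := Nat.lt_succ_sqrt t
  have hw3 : 1000 ≤ w := by rw [hw, Nat.le_sqrt]; omega
  have hw4 : 1000 * w ≤ t := by nlinarith
  obtain ⟨j, rfl⟩ : ∃ j, i = j + 1 := ⟨i - 1, by omega⟩
  simp only [Nat.add_sub_cancel]
  have hj : j ≤ j * s := Nat.le_mul_of_pos_right _ hs
  have h8' : 8 * (j * s) + 8 * s ≤ 3 * t := by nlinarith
  refine ⟨?_, ?_, ?_⟩
  · have : 2 * s * j = 2 * (j * s) := by ring
    omega
  · nlinarith
  · omega

/-- middle regime -/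
theorem regimeM : ∃ t0 : ℕ, ∀ t s : ℕ, t0 ≤ t → 1 ≤ s → s * s ≤ t →
    ∀ C : KV t s → ℕ, ∑ v, C v = nn t s → ∀ r : KV t s,
    819200 * t ≤ zz C → zz C ^ 10 ≤ 2 ^ (19 * t) →
    Gets (KG t s) C (Pi.single r 1) := by
  obtain ⟨t0, h0⟩ := template_exists
  obtain ⟨t1, h1⟩ := choose_params
  obtain ⟨t2, h2⟩ := omega_core
  obtain ⟨t3, h3⟩ := num_beta
  refine ⟨max (max t0 t1) (max (max t2 t3) 64), ?_⟩
  intro t s ht hs hst C hC r hz1 hz2
  simp only [max_le_iff] at ht
  obtain ⟨⟨ht0, ht1⟩, ⟨ht2, ht3⟩, ht4⟩ := ht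
  set z := zz C with hz
  obtain ⟨i1, i2, hi1, hi2, h8i1, h8i2, hN2, hN1, hzb⟩ := h1 t s z ht1 hs hst hz1 hz2
  obtain ⟨hβ1, hβ2, hβ3⟩ := h3 t s i2 ht3 hs hst hi2 h8i2
  set β := 60 * (Nat.sqrt t + 1) with hβ
  have ht' : 1 ≤ t := by omega
  have hzpos : 1 ≤ z := by omega
  have h8s : 8 * s ≤ t := by
    rcases Nat.lt_or_ge s 8 with h | h
    · omega
    · nlinarith
  have hnpos : 0 < nn t s := Nat.choose_pos (by omega)
  have hp1 : 0 < 4 ^ i1 := by positivity
  have hp2 : 0 < 4 ^ i2 := by positivity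
  -- the template
  obtain ⟨T, hT1, hT2⟩ := h0 t s i1 ht0 hs (by omega) hi1 (by omega)
    (fun j hj1 hj2 => ratio_small t s hs j hj1 (by omega))
  set q := 2 ^ (5 + 2 * i1 + 2 * i2) with hq
  have hq' : q = 32 * 4 ^ (i1 + i2) := by
    rw [hq, show 5 + 2 * i1 + 2 * i2 = 5 + 2 * (i1 + i2) by ring, pow_add, pow_mul]
    norm_num
  have hloss : 74 * T.loss univ q ≤ nn t s := by
    have h5 : T.loss univ q = T.loss univ 0 + q * T.R.card := by
      simp [Template.loss]
    have h6 : 148 * (q * T.R.card) ≤ nn t s := by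
      have h7 : 148 * (q * T.R.card) * NN t s (i1 * s) ≤ nn t s * NN t s (i1 * s) := by
        calc 148 * (q * T.R.card) * NN t s (i1 * s) = 148 * q * (T.R.card * NN t s (i1 * s)) := by
              ring
          _ ≤ 148 * q * (4 * t * nn t s) := Nat.mul_le_mul_left _ hT2
          _ = nn t s * (18944 * t * 4 ^ (i1 + i2)) := by rw [hq']; ring
          _ ≤ nn t s * NN t s (i1 * s) := Nat.mul_le_mul_left _ hN1
      have h8 : 0 < NN t s (i1 * s) := lt_of_lt_of_le (by positivity) hN1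
      exact Nat.le_of_mul_le_mul_right h7 h8
    omega
  -- the set `Y0`
  set Q := univ.filter (fun v : KV t s => C v ≠ 1) with hQ
  have hsur : z = ∑ v, (C v - 1) := surplus_eq C (by rw [hC, card_KV])
  have hQ2 : Q.card ≤ 2 * z := by
    have h5 : Q = univ.filter (fun v : KV t s => C v = 0) ∪ univ.filter (fun v => 2 ≤ C v) := by
      ext v
      simp only [hQ, mem_filter, mem_univ, true_and, mem_union]
      omega
    have h6 : (univ.filter (fun v => 2 ≤ C v)).card ≤ z := by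
      rw [hsur, card_filter]
      apply sum_le_sum
      intro v _
      split_ifs <;> omega
    rw [h5]
    refine (card_union_le _ _).trans ?_
    have h7 : (univ.filter (fun v : KV t s => C v = 0)).card = z := rfl
    omega
  obtain ⟨Y0, hQY, hY0, hcore⟩ := h2 t s z ht2 hs hzpos hz2 Q hQ2
  -- leaves
  obtain ⟨L, hLY, hLc, hLg⟩ := rtree ht' hs i2 β hi2 hβ1 r Y0 (by omega)
  set P := 4 ^ (i2 - 1) * (4 * (i2 - 1) + β) + 1 with hP
  have hpow : 0 < 4 ^ (i2 - 1) := by positivity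
  have hPle : P ≤ 4 ^ (i2 - 1) * (4 * (i2 - 1) + β + 1) := by
    rw [hP, mul_add _ (4 * (i2 - 1) + β) 1]; omega
  have hPL : 200 * P ≤ L.card := by
    have h5 : 400 * P ≤ 4 ^ (i2 - 1) * β ^ 2 := by
      calc 400 * P ≤ 400 * (4 ^ (i2 - 1) * (4 * (i2 - 1) + β + 1)) := Nat.mul_le_mul_left _ hPle
        _ = 4 ^ (i2 - 1) * (400 * (4 * (i2 - 1) + β + 1)) := by ring
        _ ≤ 4 ^ (i2 - 1) * β ^ 2 := Nat.mul_le_mul_left _ hβ2
    omega
  have hl1 : 200 * P ≤ 100 * t * 4 ^ i2 := by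
    calc 200 * P ≤ 200 * (4 ^ (i2 - 1) * (2 * t)) :=
          Nat.mul_le_mul_left _ (hPle.trans (Nat.mul_le_mul_left _ hβ3))
      _ = 100 * t * (4 * 4 ^ (i2 - 1)) := by ring
      _ = 100 * t * 4 ^ i2 := by rw [← pow_succ']; congr 2; omega
  have hlq : 4 * (200 * P * q) ≤ z := by
    calc 4 * (200 * P * q) ≤ 4 * (100 * t * 4 ^ i2 * q) :=
          Nat.mul_le_mul_left _ (Nat.mul_le_mul_right _ hl1)
      _ = 12800 * t * (4 ^ i1 * (4 ^ i2 * 4 ^ i2)) := by rw [hq', pow_add]; ring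
      _ = 12800 * t * (4 ^ i1 * 16 ^ i2) := by rw [← mul_pow]; norm_num
      _ ≤ z := hzb
  have hqpos : 0 < q := by positivity
  have hlz : 200 * P ≤ z := by
    have : 200 * P * 1 ≤ 200 * P * q := Nat.mul_le_mul_left _ hqpos
    omega
  -- sources
  set c : KV t s → ℕ := fun v => if 2 ≤ C v then C v else 0 with hc
  have hcsur : ∑ v, (c v - 1) = z := by
    rw [hsur]
    apply sum_congr rfl
    intro v _
    simp only [hc]
    split_ifs <;> omega
  obtain ⟨A, hAc, hAY, hAg⟩ := supply_many (D := 5 + 2 * i1) ht' T i2 (200 * P) z Y0 (by omega)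
    hzpos (by omega) c
    (by
      intro v hv
      have : v ∉ Q := fun h => hv (hQY h)
      simp only [hQ, mem_filter, mem_univ, true_and, not_not] at this
      simp [hc, this])
    (by omega) hlq hloss
  have hLg' : ∀ L' ⊆ L, L'.card = P →
      Gets (KG t s) (∑ v ∈ L', Pi.single v 2) (Pi.single r 1) := by
    intro L' h5 h6
    apply hLg L' h5
    rw [h6, hP]
    exact Nat.lt_succ_self _
  have hPz : P ≤ z := by
    have : P ≤ 200 * P := Nat.le_mul_of_pos_left _ (by norm_num)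
    exact this.trans hlz
  clear_value P q β
  clear hzb hlq hl1 hPle hLc hLg hloss hN1 hN2 hβ1 hβ2 hβ3 hz2 hz1 hcsur h0 h1 h2 h3
  -- disjoint paths
  obtain ⟨A', hA', L', hL', hA'c, hL'c, hg⟩ := paths_gets (KG t s) Y0ᶜ A L
    (by
      intro v hv
      rw [mem_compl]
      exact Finset.disjoint_left.1 hAY hv)
    (by
      intro v hv
      rw [mem_compl]
      exact Finset.disjoint_left.1 hLY hv) P
    (by
      intro X S hX hXP hS hAS hSL
      by_contra hcon
      push Not at hcon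
      have hXY : Disjoint X Y0 := by
        rw [Finset.disjoint_left]
        intro v hv
        exact mem_compl.1 (hX hv)
      have hSd : Disjoint S (Y0 ∪ X) := by
        rw [Finset.disjoint_left]
        intro v hv
        have := hS hv
        rw [mem_sdiff, mem_compl] at this
        rw [mem_union]
        tauto
      rcases hcore X S hXY (hXP.le.trans hPz) hSd (by
        intro a ha b hab
        by_contra hb
        push Not at hb
        exact hcon a ha b (mem_compl.2 hb.2.1) hb.2.2 hb.1 hab) with h | h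
      · have h5 : A.card - X.card ≤ S.card := by
          refine le_trans ?_ (card_le_card hAS)
          exact le_card_sdiff X A
        omega
      · have h5 : L.card - X.card ≤ ((Y0 ∪ X ∪ S)ᶜ).card := by
          refine le_trans (le_card_sdiff X L) (card_le_card ?_)
          intro v hv
          rw [mem_sdiff] at hv
          rw [mem_compl, mem_union, mem_union]
          rintro ((h6 | h6) | h6)
          · exact Finset.disjoint_left.1 hLY hv.1 h6
          · exact hv.2 h6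
          · exact Finset.disjoint_left.1 hSL h6 hv.1
        omega)
  have hfin := hLg' L' hL' hL'c
  refine (((hAg.mono le_rfl (sum_le_sum_of_subset hA')).add
    (Gets.refl (∑ v ∈ Y0ᶜ, Pi.single v 1))).trans (hg.trans hfin)).mono ?_ le_rfl
  intro v
  simp only [Pi.add_apply, Finset.sum_apply]
  by_cases hv : v ∈ Y0
  · rw [sum_eq_zero, add_zero]
    · simp only [hc]
      split_ifs <;> omega
    · intro x hx
      rw [Pi.single_eq_of_ne]
      rintro rfl
      exact mem_compl.1 hx hv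
  · have hv1 : C v = 1 := by
      have : v ∉ Q := fun h => hv (hQY h)
      simpa [hQ] using this
    rw [sum_eq_single_of_mem v (mem_compl.2 hv)]
    · simp [hc, hv1]
    · intro b _ hb
      rw [Pi.single_eq_of_ne hb.symm]

end Pool.Agent.Lib.MP_95cf8e_co
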