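import Mathlib
import Pool.Agent.Lib.MP_95cf8e_co.Defs

/-! # Existence of templates, part A : numerics -/

set_option autoImplicit false

namespace Pool.Agent.Lib.MP_95cf8e_co

open Finset
open scoped Classical

/-- `∑_{x<I} 4^x min(δ, 4t 9^{-x}) ≤ 1/40000` if `δ ≤ 1/t^3` and `t` is large.  Let `x0` be least with
`(9/4)^x0 ≥ L t`, `L` a large constant: `∑_{x<x0} 4^x δ ≤ 4^x0 δ ≤ ((9/4) L t)^2 δ` (as
`4 ≤ (9/4)^2`), `∑_{x ≥ x0} 4 t (4/9)^x ≤ 8 t (4/9)^x0 ≤ 8 / L`. -/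
theorem sum_bound : ∃ t0 : ℕ, ∀ t : ℕ, t0 ≤ t → ∀ δ : ℝ, 0 ≤ δ → δ ≤ 1 / (t : ℝ) ^ 3 → ∀ I : ℕ,
    ∑ x ∈ range I, (4 : ℝ) ^ x * min δ (4 * t * (1 / 9) ^ x) ≤ 1 / 40000 := by
  refine ⟨10 ^ 18, fun t ht δ hδ0 hδ I => ?_⟩
  have ht' : (10 : ℝ) ^ 18 ≤ t := by exact_mod_cast ht
  have htpos : (0 : ℝ) < t := lt_of_lt_of_le (by norm_num) ht'
  obtain ⟨n, hn1, hn2⟩ := exists_nat_pow_near (x := (600000 : ℝ) * t) (y := (9 / 4 : ℝ))
    (by nlinarith) (by norm_num)
  set x0 := n + 1 with hx0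
  -- first range
  have hA : ∀ J : ℕ, ∑ x ∈ range J, (4 : ℝ) ^ x * min δ (4 * t * (1 / 9) ^ x) ≤
      δ * 4 ^ J / 3 := by
    intro J
    induction J with
    | zero => simp; positivity
    | succ J ih =>
      rw [sum_range_succ]
      have h1 : (4 : ℝ) ^ J * min δ (4 * t * (1 / 9) ^ J) ≤ 4 ^ J * δ :=
        mul_le_mul_of_nonneg_left (min_le_left _ _) (by positivity)
      rw [pow_succ]
      linarith
  have hB : ∀ k : ℕ, ∑ x ∈ range (x0 + k), (4 : ℝ) ^ x * min δ (4 * t * (1 / 9) ^ x) ≤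
      δ * 4 ^ x0 / 3 + 36 / 5 * t * ((4 / 9) ^ x0 - (4 / 9) ^ (x0 + k)) := by
    intro k
    induction k with
    | zero => simpa using hA x0
    | succ k ih =>
      rw [← add_assoc, sum_range_succ]
      have h1 : (4 : ℝ) ^ (x0 + k) * min δ (4 * t * (1 / 9) ^ (x0 + k)) ≤
          4 * t * (4 / 9) ^ (x0 + k) := by
        calc (4 : ℝ) ^ (x0 + k) * min δ (4 * t * (1 / 9) ^ (x0 + k))
            ≤ 4 ^ (x0 + k) * (4 * t * (1 / 9) ^ (x0 + k)) :=
              mul_le_mul_of_nonneg_left (min_le_right _ _) (by positivity)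
          _ = 4 * t * (4 * (1 / 9)) ^ (x0 + k) := by rw [mul_pow]; ring
          _ = 4 * t * (4 / 9) ^ (x0 + k) := by norm_num
      have h2 : ((4 : ℝ) / 9) ^ (x0 + k + 1) = (4 / 9) ^ (x0 + k) * (4 / 9) := pow_succ _ _
      rw [h2]
      nlinarith
  -- the bound on the first part
  have h4 : (4 : ℝ) ^ x0 ≤ (9 / 4 * (600000 * t)) ^ 2 := by
    calc (4 : ℝ) ^ x0 ≤ ((9 / 4) ^ 2) ^ x0 := pow_le_pow_left₀ (by norm_num) (by norm_num) _
      _ = (9 / 4 * (9 / 4) ^ n) ^ 2 := by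
          rw [← pow_mul, mul_comm 2 x0, pow_mul, hx0, pow_succ' (9 / 4 : ℝ) n]
      _ ≤ (9 / 4 * (600000 * t)) ^ 2 := by
          apply pow_le_pow_left₀ (by positivity)
          exact mul_le_mul_of_nonneg_left hn1 (by norm_num)
  have h5 : δ * 4 ^ x0 / 3 ≤ 1 / 80000 := by
    have h6 : δ * 4 ^ x0 ≤ 1 / (t : ℝ) ^ 3 * (9 / 4 * (600000 * t)) ^ 2 :=
      mul_le_mul hδ h4 (by positivity) (by positivity)
    have h7 : 1 / (t : ℝ) ^ 3 * (9 / 4 * (600000 * t)) ^ 2 = (9 / 4 * 600000) ^ 2 / t := by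
      field_simp
    have h8 : ((9 : ℝ) / 4 * 600000) ^ 2 / t ≤ (9 / 4 * 600000) ^ 2 / 10 ^ 18 :=
      div_le_div_of_nonneg_left (by positivity) (by positivity) ht'
    have h9 : ((9 : ℝ) / 4 * 600000) ^ 2 / 10 ^ 18 ≤ 3 / 80000 := by norm_num
    linarith
  have h6 : 36 / 5 * t * ((4 : ℝ) / 9) ^ x0 ≤ 1 / 80000 := by
    have h7 : (4 / 9 : ℝ) ^ x0 = 1 / (9 / 4) ^ x0 := by
      rw [← one_div_pow]; norm_num
    rw [h7, mul_one_div, div_le_iff₀ (by positivity)]
    linarith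
  rcases le_total I x0 with hI | hI
  · calc _ ≤ δ * 4 ^ I / 3 := hA I
      _ ≤ δ * 4 ^ x0 / 3 := by
          have : (4 : ℝ) ^ I ≤ 4 ^ x0 := pow_le_pow_right₀ (by norm_num) hI
          nlinarith
      _ ≤ 1 / 40000 := by linarith
  · obtain ⟨k, rfl⟩ := Nat.exists_eq_add_of_le hI
    have h8 := hB k
    have h9 : 0 ≤ 36 / 5 * t * ((4 : ℝ) / 9) ^ (x0 + k) := by positivity
    linarith

private theorem choose_step3 (n k : ℕ) (h : 4 * (k + 1) ≤ n) :
    3 * n.choose k ≤ n.choose (k + 1) := by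
  have h1 := Nat.choose_succ_right_eq n k
  have h2 : 3 * (k + 1) ≤ n - k := by omega
  have h3 : n.choose k * (3 * (k + 1)) ≤ n.choose (k + 1) * (k + 1) := by
    rw [h1]
    exact Nat.mul_le_mul_left _ h2
  have h4 : (3 * n.choose k) * (k + 1) ≤ n.choose (k + 1) * (k + 1) := by
    calc _ = n.choose k * (3 * (k + 1)) := by ring
      _ ≤ _ := h3
  exact Nat.le_of_mul_le_mul_right h4 (Nat.succ_pos k)

private theorem NN_step (t s k : ℕ) (h : 4 * (k + 1) ≤ t) : 9 * NN t s k ≤ NN t s (k + 1) := by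
  unfold NN
  calc 9 * (t.choose k * (t + s).choose k) = (3 * t.choose k) * (3 * (t + s).choose k) := by ring
    _ ≤ _ := Nat.mul_le_mul (choose_step3 t k h) (choose_step3 (t + s) k (by omega))

/-- ratio condition, small `s`: `NN (j-1) / NN j = j^2 / ((t-j+1)(t+s-j+1)) ≤ 1/9` for `4j ≤ t` -/
theorem ratio_small (t s : ℕ) (hs : 1 ≤ s) : ∀ j, s ≤ j → 4 * j ≤ t →
    9 * NN t s (j - s) ≤ NN t s j := by
  intro j hj h4
  have mono : ∀ i, ∀ k, 4 * (k + i) ≤ t → NN t s k ≤ NN t s (k + i) := by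
    intro i
    induction i with
    | zero => intro k _; exact le_rfl
    | succ i ih =>
      intro k hk
      have h1 := ih k (by omega)
      have h2 := NN_step t s (k + i) (by omega)
      have h3 : NN t s (k + i) ≤ 9 * NN t s (k + i) := by omega
      exact h1.trans (h3.trans h2)
  obtain ⟨j, rfl⟩ : ∃ j', j = j' + 1 := ⟨j - 1, by omega⟩
  have h1 := NN_step t s j h4
  have h2 := mono (s - 1) (j + 1 - s) (by omega)
  rw [show j + 1 - s + (s - 1) = j by omega] at h2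
  omega

private theorem choose_pow (n j : ℕ) (hj : j ≤ n) : ∀ i, i ≤ j →
    n.choose (j - i) * (n - j) ^ i ≤ n.choose j * j ^ i := by
  intro i
  induction i with
  | zero => intro _; simp
  | succ i ih =>
    intro hi
    have h1 := ih (by omega)
    obtain ⟨k, hk⟩ : ∃ k, j - i = k + 1 := ⟨j - i - 1, by omega⟩
    have hk' : j - (i + 1) = k := by omega
    rw [hk] at h1
    rw [hk']
    have h2 := Nat.choose_succ_right_eq n k
    have h3 : n.choose k * (n - j) ≤ n.choose (k + 1) * j := by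
      calc n.choose k * (n - j) ≤ n.choose k * (n - k) := Nat.mul_le_mul_left _ (by omega)
        _ = n.choose (k + 1) * (k + 1) := h2.symm
        _ ≤ n.choose (k + 1) * j := Nat.mul_le_mul_left _ (by omega)
    calc n.choose k * (n - j) ^ (i + 1) = (n.choose k * (n - j)) * (n - j) ^ i := by ring
      _ ≤ (n.choose (k + 1) * j) * (n - j) ^ i := Nat.mul_le_mul_right _ h3
      _ = (n.choose (k + 1) * (n - j) ^ i) * j := by ring
      _ ≤ (n.choose j * j ^ i) * j := Nat.mul_le_mul_right _ h1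
      _ = _ := by ring

private theorem bern (a b : ℕ) : ∀ m, a ^ (m + 1) + (m + 1) * b * a ^ m ≤ (a + b) ^ (m + 1) := by
  intro m
  induction m with
  | zero => simp
  | succ m ih =>
    calc a ^ (m + 1 + 1) + (m + 1 + 1) * b * a ^ (m + 1)
        ≤ (a ^ (m + 1) + (m + 1) * b * a ^ m) * (a + b) := by
          have h1 : (a ^ (m + 1) + (m + 1) * b * a ^ m) * (a + b) =
            a ^ (m + 1 + 1) + (m + 1 + 1) * b * a ^ (m + 1) + (m + 1) * b * a ^ m * b := by ring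
          rw [h1]
          exact Nat.le_add_right _ _
      _ ≤ (a + b) ^ (m + 1) * (a + b) := Nat.mul_le_mul_right _ ih
      _ = _ := (pow_succ _ _).symm

/-- ratio condition, large `s`: for `j ≤ t/2 - w`, `w ≥ √t`, `s ≥ √t` the ratio
`NN (j-1) / NN j ≤ ((t/2-w)/(t/2+w))^2 ≤ exp(-8/√t)`, hence `NN (j-s) ≤ exp(-8) NN j`. -/
theorem ratio_large (t s : ℕ) (ht : 1 ≤ t) (hts : t ≤ s * s) : ∀ j, s ≤ j →
    2 * j + 2 * (Nat.sqrt t + 1) ≤ t → 9 * NN t s (j - s) ≤ NN t s j := by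
  intro j hsj hj
  set w := Nat.sqrt t + 1 with hw
  have hs0 : 0 < s := by
    rcases Nat.eq_zero_or_pos s with h | h
    · subst h; omega
    · exact h
  have hw2 : t < w * w := by
    have := Nat.lt_succ_sqrt t
    simpa [hw] using this
  have hsw : t ≤ s * w := by
    by_contra hc
    push Not at hc
    have h1 : (s * w) * (s * w) < t * t := Nat.mul_self_lt_mul_self hc
    have h2 : t * t ≤ (s * s) * (w * w) := Nat.mul_le_mul hts hw2.le
    have h3 : (s * s) * (w * w) = (s * w) * (s * w) := by ring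
    omega
  have key : ∀ n, t ≤ n → 3 * n.choose (j - s) ≤ n.choose j := by
    intro n hn
    have h1 := choose_pow n j (by omega) s hsj
    have h2 : 3 * j ^ s ≤ (n - j) ^ s := by
      obtain ⟨m, rfl⟩ : ∃ m, s = m + 1 := ⟨s - 1, by omega⟩
      have h3 := bern j (2 * w) m
      have h4 : (j + 2 * w) ^ (m + 1) ≤ (n - j) ^ (m + 1) := Nat.pow_le_pow_left (by omega) _
      have h5 : 2 * j ^ (m + 1) ≤ (m + 1) * (2 * w) * j ^ m := by
        have h6 : 2 * j ≤ (m + 1) * (2 * w) := by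
          have : (m + 1) * (2 * w) = 2 * ((m + 1) * w) := by ring
          omega
        calc 2 * j ^ (m + 1) = (2 * j) * j ^ m := by ring
          _ ≤ _ := Nat.mul_le_mul_right _ h6
      omega
    have h3 : 3 * n.choose (j - s) * j ^ s ≤ n.choose j * j ^ s := by
      calc 3 * n.choose (j - s) * j ^ s = n.choose (j - s) * (3 * j ^ s) := by ring
        _ ≤ n.choose (j - s) * (n - j) ^ s := Nat.mul_le_mul_left _ h2
        _ ≤ _ := h1
    exact Nat.le_of_mul_le_mul_right h3 (pow_pos (by omega) _)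
  unfold NN
  calc 9 * (t.choose (j - s) * (t + s).choose (j - s)) =
      (3 * t.choose (j - s)) * (3 * (t + s).choose (j - s)) := by ring
    _ ≤ _ := Nat.mul_le_mul (key t le_rfl) (key (t + s) (by omega))

end Pool.Agent.Lib.MP_95cf8e_co
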